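import Mathlib

/-!
# Binary forms as polynomials with a formal degree

A form of degree `n` in two variables is given by its dehomogenisation `p`, `p.natDegree ≤ n`.
-/

set_option autoImplicit false

namespace Pool.Agent.Lib_helper95.FP

open Polynomial

section hev

variable {L : Type*} [Field L]

/-- The value of the form of degree `n` with the coefficients of `p`:
`∑ p_j x_0^j x_1^(n-j)`. -/
noncomputable def hev (n : ℕ) (p : L[X]) (x : Fin 2 → L) : L :=
  ∑ j ∈ Finset.range (n + 1), p.coeff j * x 0 ^ j * x 1 ^ (n - j)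

theorem hev_of_zero (n : ℕ) (p : L[X]) (x : Fin 2 → L) (hx : x 1 = 0) :
    hev n p x = p.coeff n * x 0 ^ n := by
  unfold hev
  rw [Finset.sum_eq_single n]
  · simp
  · intro j hj hne
    have : n - j ≠ 0 := by
      have := Finset.mem_range.1 hj
      omega
    rw [hx, zero_pow this, mul_zero]
  · intro h; exact absurd (Finset.mem_range.2 (Nat.lt_succ_self n)) h

theorem hev_of_ne (n : ℕ) (p : L[X]) (hp : p.natDegree ≤ n) (x : Fin 2 → L) (hx : x 1 ≠ 0) :
    hev n p x = x 1 ^ n * p.eval (x 0 / x 1) := by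
  unfold hev
  rw [Polynomial.eval_eq_sum_range' (Nat.lt_succ_of_le hp), Finset.mul_sum]
  apply Finset.sum_congr rfl
  intro j hj
  have hj' : j ≤ n := Nat.lt_succ_iff.1 (Finset.mem_range.1 hj)
  have : x 1 ^ n = x 1 ^ j * x 1 ^ (n - j) := by rw [← pow_add]; congr 1; omega
  rw [this, div_pow]
  field_simp

theorem hev_mul (a b : ℕ) (p q : L[X]) (hp : p.natDegree ≤ a) (hq : q.natDegree ≤ b)
    (x : Fin 2 → L) : hev (a + b) (p * q) x = hev a p x * hev b q x := by
  by_cases hx : x 1 = 0
  · rw [hev_of_zero _ _ _ hx, hev_of_zero _ _ _ hx, hev_of_zero _ _ _ hx,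
      Polynomial.coeff_mul_add_eq_of_natDegree_le hp hq]
    ring
  · rw [hev_of_ne _ _ ((Polynomial.natDegree_mul_le).trans (add_le_add hp hq)) _ hx,
      hev_of_ne _ _ hp _ hx, hev_of_ne _ _ hq _ hx, Polynomial.eval_mul]
    ring

theorem hev_add (n : ℕ) (p q : L[X]) (x : Fin 2 → L) : hev n (p + q) x = hev n p x + hev n q x := by
  unfold hev
  rw [← Finset.sum_add_distrib]
  apply Finset.sum_congr rfl
  intro j _
  rw [Polynomial.coeff_add]; ring

theorem hev_C_mul (n : ℕ) (c : L) (p : L[X]) (x : Fin 2 → L) :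
    hev n (C c * p) x = c * hev n p x := by
  unfold hev
  rw [Finset.mul_sum]
  apply Finset.sum_congr rfl
  intro j _
  rw [Polynomial.coeff_C_mul]; ring

theorem hev_zero (n : ℕ) (x : Fin 2 → L) : hev n (0 : L[X]) x = 0 := by
  unfold hev; simp

theorem hev_sum {ι : Type*} (s : Finset ι) (n : ℕ) (p : ι → L[X]) (x : Fin 2 → L) :
    hev n (∑ i ∈ s, p i) x = ∑ i ∈ s, hev n (p i) x := by
  classical
  induction s using Finset.induction_on with
  | empty => simp [hev_zero]
  | insert a s ha ih => rw [Finset.sum_insert ha, Finset.sum_insert ha, hev_add, ih]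

theorem hev_one (x : Fin 2 → L) : hev 0 (1 : L[X]) x = 1 := by
  unfold hev; simp

theorem hev_pow (n k : ℕ) (p : L[X]) (hp : p.natDegree ≤ n) (x : Fin 2 → L) :
    hev (k * n) (p ^ k) x = hev n p x ^ k := by
  induction k with
  | zero => simp [hev_one]
  | succ k ih =>
    rw [pow_succ, pow_succ, ← ih, add_mul, one_mul]
    exact hev_mul _ _ _ _ ((Polynomial.natDegree_pow_le).trans (Nat.mul_le_mul le_rfl hp)) hp x

theorem hev_smul (n : ℕ) (p : L[X]) (c : L) (x : Fin 2 → L) :
    hev n p (fun i => c * x i) = c ^ n * hev n p x := by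
  unfold hev
  rw [Finset.mul_sum]
  apply Finset.sum_congr rfl
  intro j hj
  have hj' : j ≤ n := Nat.lt_succ_iff.1 (Finset.mem_range.1 hj)
  have : c ^ n = c ^ j * c ^ (n - j) := by rw [← pow_add]; congr 1; omega
  rw [this, mul_pow, mul_pow]; ring

theorem hev_X (x : Fin 2 → L) : hev 1 (X : L[X]) x = x 0 := by
  unfold hev
  simp [Finset.sum_range_succ]

theorem hev_one_one (x : Fin 2 → L) : hev 1 (1 : L[X]) x = x 1 := by
  unfold hev
  simp [Polynomial.coeff_one]

theorem hev_map {L' : Type*} [Field L'] (φ : L →+* L') (n : ℕ) (p : L[X]) (x : Fin 2 → L) :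
    hev n (p.map φ) (fun i => φ (x i)) = φ (hev n p x) := by
  unfold hev
  rw [map_sum]
  apply Finset.sum_congr rfl
  intro j _
  rw [Polynomial.coeff_map, map_mul, map_mul, map_pow, map_pow]

end hev

/-! ### composition -/

section hcomp

variable {L : Type*} [Field L]

/-- The form `p(g_0, g_1)`, `p` of degree `m`. -/
noncomputable def hcomp (m : ℕ) (p : L[X]) (g : Fin 2 → L[X]) : L[X] :=
  ∑ j ∈ Finset.range (m + 1), C (p.coeff j) * g 0 ^ j * g 1 ^ (m - j)

theorem natDegree_hcomp (m n : ℕ) (p : L[X]) (g : Fin 2 → L[X]) (hg : ∀ i, (g i).natDegree ≤ n) :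
    (hcomp m p g).natDegree ≤ m * n := by
  unfold hcomp
  apply Polynomial.natDegree_sum_le_of_forall_le
  intro j hj
  have hj' : j ≤ m := Nat.lt_succ_iff.1 (Finset.mem_range.1 hj)
  have h0 : (g 0 ^ j).natDegree ≤ j * n := (Polynomial.natDegree_pow_le).trans (Nat.mul_le_mul le_rfl (hg 0))
  have h1 : (g 1 ^ (m - j)).natDegree ≤ (m - j) * n :=
    (Polynomial.natDegree_pow_le).trans (Nat.mul_le_mul le_rfl (hg 1))
  calc (C (p.coeff j) * g 0 ^ j * g 1 ^ (m - j)).natDegree
      ≤ (C (p.coeff j) * g 0 ^ j).natDegree + (g 1 ^ (m - j)).natDegree := Polynomial.natDegree_mul_le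
    _ ≤ j * n + (m - j) * n := add_le_add ((Polynomial.natDegree_C_mul_le _ _).trans h0) h1
    _ = m * n := by rw [← add_mul]; congr 1; omega

theorem hev_hcomp (m n : ℕ) (p : L[X]) (g : Fin 2 → L[X]) (hg : ∀ i, (g i).natDegree ≤ n)
    (x : Fin 2 → L) : hev (m * n) (hcomp m p g) x = hev m p (fun i => hev n (g i) x) := by
  unfold hcomp
  rw [hev_sum]
  conv_rhs => unfold hev
  apply Finset.sum_congr rfl
  intro j hj
  have hj' : j ≤ m := Nat.lt_succ_iff.1 (Finset.mem_range.1 hj)
  have e : m * n = j * n + (m - j) * n := by rw [← add_mul]; congr 1; omega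
  have h0 : (g 0 ^ j).natDegree ≤ j * n := (Polynomial.natDegree_pow_le).trans (Nat.mul_le_mul le_rfl (hg 0))
  have h1 : (g 1 ^ (m - j)).natDegree ≤ (m - j) * n :=
    (Polynomial.natDegree_pow_le).trans (Nat.mul_le_mul le_rfl (hg 1))
  rw [e, mul_assoc, hev_C_mul, hev_mul _ _ _ _ h0 h1, hev_pow _ _ _ (hg 0), hev_pow _ _ _ (hg 1),
    mul_assoc]
  rfl

theorem hcomp_map {L' : Type*} [Field L'] (φ : L →+* L') (m : ℕ) (p : L[X]) (g : Fin 2 → L[X]) :
    (hcomp m p g).map φ = hcomp m (p.map φ) (fun i => (g i).map φ) := by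
  unfold hcomp
  rw [Polynomial.map_sum]
  apply Finset.sum_congr rfl
  intro j _
  simp

/-- The composition with `g` in the field of rational functions. -/
theorem hcomp_ratFunc (m : ℕ) (p : L[X]) (g : Fin 2 → L[X]) :
    algebraMap L[X] (RatFunc L) (hcomp m p g) =
      hev m (p.map ((algebraMap L[X] (RatFunc L)).comp C)) (fun i => algebraMap L[X] (RatFunc L) (g i)) := by
  unfold hcomp hev
  rw [map_sum]
  apply Finset.sum_congr rfl
  intro j _
  rw [map_mul, map_mul, map_pow, map_pow, Polynomial.coeff_map]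
  rfl

theorem hcomp_mul (a b : ℕ) (p q : L[X]) (hp : p.natDegree ≤ a) (hq : q.natDegree ≤ b)
    (g : Fin 2 → L[X]) : hcomp (a + b) (p * q) g = hcomp a p g * hcomp b q g := by
  apply IsFractionRing.injective L[X] (RatFunc L)
  rw [map_mul, hcomp_ratFunc, hcomp_ratFunc, hcomp_ratFunc, Polynomial.map_mul]
  exact hev_mul _ _ _ _ ((Polynomial.natDegree_map_le).trans hp)
    ((Polynomial.natDegree_map_le).trans hq) _

theorem hcomp_C_mul (m : ℕ) (c : L) (p : L[X]) (g : Fin 2 → L[X]) :
    hcomp m (C c * p) g = C c * hcomp m p g := by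
  unfold hcomp
  rw [Finset.mul_sum]
  apply Finset.sum_congr rfl
  intro j _
  rw [Polynomial.coeff_C_mul, C_mul]; ring

/-- A product of linear forms. -/
noncomputable def lprod (l : List (L × L)) (g : Fin 2 → L[X]) : L[X] :=
  (l.map fun ab => C ab.1 * g 0 - C ab.2 * g 1).prod

theorem natDegree_lprod (n : ℕ) (l : List (L × L)) (g : Fin 2 → L[X])
    (hg : ∀ i, (g i).natDegree ≤ n) : (lprod l g).natDegree ≤ l.length * n := by
  induction l with
  | nil => simp [lprod]
  | cons ab l ih =>
    have e : lprod (ab :: l) g = (C ab.1 * g 0 - C ab.2 * g 1) * lprod l g := by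
      simp [lprod]
    rw [e, List.length_cons, add_mul, one_mul, add_comm]
    refine (Polynomial.natDegree_mul_le).trans (add_le_add ?_ ih)
    refine (Polynomial.natDegree_sub_le _ _).trans (max_le ?_ ?_)
    · exact (Polynomial.natDegree_C_mul_le _ _).trans (hg 0)
    · exact (Polynomial.natDegree_C_mul_le _ _).trans (hg 1)

theorem hcomp_lprod (l : List (L × L)) (g : Fin 2 → L[X]) :
    hcomp l.length (lprod l ![X, 1]) g = lprod l g := by
  have hX : ∀ i, ((![X, 1] : Fin 2 → L[X]) i).natDegree ≤ 1 := by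
    intro i; fin_cases i <;> simp
  induction l with
  | nil => simp [hcomp, lprod]
  | cons ab l ih =>
    have e : ∀ g : Fin 2 → L[X], lprod (ab :: l) g = (C ab.1 * g 0 - C ab.2 * g 1) * lprod l g := by
      intro g; simp [lprod]
    rw [e, e, List.length_cons, add_comm, hcomp_mul, ih]
    · congr 1
      unfold hcomp
      simp [Finset.sum_range_succ, Polynomial.coeff_X, Polynomial.coeff_C]
      ring
    · refine (Polynomial.natDegree_sub_le _ _).trans (max_le ?_ ?_)
      · exact (Polynomial.natDegree_C_mul_le _ _).trans (hX 0)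
      · exact (Polynomial.natDegree_C_mul_le _ _).trans (hX 1)
    · simpa using natDegree_lprod 1 l _ hX

theorem exists_lprod [IsAlgClosed L] (m : ℕ) (p : L[X]) (hp : p.natDegree ≤ m) :
    ∃ (c : L) (l : List (L × L)), l.length = m ∧ p = C c * lprod l ![X, 1] := by
  refine ⟨p.leadingCoeff, (p.roots.toList.map fun r => ((1 : L), r)) ++
    List.replicate (m - p.natDegree) (0, -1), ?_, ?_⟩
  · have : p.roots.card = p.natDegree := (splits_iff_card_roots.1 (IsAlgClosed.splits p))
    rw [List.length_append, List.length_map, Multiset.length_toList, this, List.length_replicate]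
    omega
  · have h := (IsAlgClosed.splits p).eq_prod_roots
    unfold lprod
    rw [List.map_append, List.prod_append, List.map_replicate, List.prod_replicate, List.map_map]
    have e1 : (C ((0 : L), (-1 : L)).1 * (![X, 1] : Fin 2 → L[X]) 0 -
      C ((0 : L), (-1 : L)).2 * (![X, 1] : Fin 2 → L[X]) 1) = 1 := by simp
    rw [e1, one_pow, mul_one]
    conv_lhs => rw [h]
    congr 1
    rw [← Multiset.coe_toList p.roots, Multiset.map_coe, Multiset.prod_coe]
    simp only [Multiset.coe_toList]
    congr 1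
    apply List.map_congr_left
    intro r _
    simp

end hcomp

end Pool.Agent.Lib_helper95.FP
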