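import Pool.Agent.Lib_helper95.FP.Clus

/-!
# The archimedean places: among many points two are close
-/

set_option autoImplicit false

universe u

namespace Pool.Agent.Lib_helper95.FP

open Polynomial Real Height AdmissibleAbsValues

/-- Packing in a disc. -/
theorem packing_disc (R η : ℝ) (hη : 0 < η) : ∃ m : ℕ, ∀ z : Fin m → ℂ, (∀ i, ‖z i‖ ≤ R) →
    ∃ i j, i ≠ j ∧ ‖z i - z j‖ < η := by
  classical
  obtain ⟨t, htf, ht⟩ := Metric.totallyBounded_iff.1
    (isCompact_closedBall (0 : ℂ) R).totallyBounded (η / 2) (by positivity)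
  refine ⟨htf.toFinset.card + 1, fun z hz => ?_⟩
  have h1 : ∀ i, ∃ y ∈ t, dist (z i) y < η / 2 := by
    intro i
    have h2 := ht (show z i ∈ Metric.closedBall (0 : ℂ) R by simpa using hz i)
    rw [Set.mem_iUnion₂] at h2
    obtain ⟨y, hy, h3⟩ := h2
    exact ⟨y, hy, h3⟩
  choose f hf hd using h1
  obtain ⟨i, _, j, _, hij, h2⟩ := Finset.exists_ne_map_eq_of_card_lt_of_maps_to
    (s := (Finset.univ : Finset (Fin (htf.toFinset.card + 1)))) (t := htf.toFinset)
    (f := f) (by simp) (fun i _ => by simpa using hf i)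
  refine ⟨i, j, hij, ?_⟩
  rw [← dist_eq_norm]
  calc dist (z i) (z j) ≤ dist (z i) (f i) + dist (z j) (f i) := dist_triangle_right _ _ _
    _ < η / 2 + η / 2 := add_lt_add (hd i) (h2 ▸ hd j)
    _ = η := by ring

/-- Packing on the projective line over `ℂ`, in any coordinates. -/
theorem packing_P1 (ρ : ℝ) (hρ : 0 < ρ) : ∃ m : ℕ, ∀ (x : Fin m → Fin 2 → ℂ) (a : Fin m → ℝ)
    (κ : ℝ), 0 < κ → (∀ i, 0 < a i) → (∀ i j, i ≠ j → wd (x i) (x j) ≠ 0) →
    (∀ i j, i ≠ j → κ * ‖wd (x i) (x j)‖ ≤ 2 * (a i * a j)) →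
    ∃ i j, i ≠ j ∧ κ * ‖wd (x i) (x j)‖ ≤ ρ * (a i * a j) := by
  obtain ⟨m, hm⟩ := packing_disc (4 / ρ ^ 2) (ρ ^ 3 / 8) (by positivity)
  refine ⟨3 + m, fun x a κ hκ ha hx hup => ?_⟩
  by_contra hcon
  push Not at hcon
  set i0 : Fin (3 + m) := ⟨0, by omega⟩ with hi0
  set i1 : Fin (3 + m) := ⟨1, by omega⟩ with hi1
  set i2 : Fin (3 + m) := ⟨2, by omega⟩ with hi2
  set e : Fin m → Fin (3 + m) := fun i => Fin.natAdd 3 i with he
  have h01 : i0 ≠ i1 := by simp [hi0, hi1]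
  have h20 : i2 ≠ i0 := by simp [hi0, hi2]
  have h21 : i2 ≠ i1 := by simp [hi1, hi2]
  have he0 : ∀ i, e i ≠ i0 := fun i h => by
    have := congrArg Fin.val h
    simp [he, hi0] at this
  have he1 : ∀ i, e i ≠ i1 := fun i h => by
    have := congrArg Fin.val h
    simp [he, hi1] at this
    omega
  have hee : ∀ i j, i ≠ j → e i ≠ e j := fun i j hij h => hij (by
    have := congrArg Fin.val h
    simp [he] at this
    exact Fin.ext this)
  set z : Fin m → ℂ := fun i => (wd (x (e i)) (x i0) * wd (x i2) (x i1)) /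
    (wd (x (e i)) (x i1) * wd (x i2) (x i0)) with hz
  have p : ∀ i j, i ≠ j → 0 < ‖wd (x i) (x j)‖ := fun i j hij => norm_pos_iff.2 (hx i j hij)
  obtain ⟨i, j, hij, hlt⟩ := hm z (by
    intro i
    rw [hz]
    simp only [norm_div, norm_mul]
    have q1 := p _ _ (he1 i)
    have q2 := p _ _ h20
    have u1 := hup _ _ (he0 i)
    have u2 := hup _ _ h21
    have l1 := (hcon _ _ (he1 i)).le
    have l2 := (hcon _ _ h20).le
    rw [div_le_div_iff₀ (mul_pos q1 q2) (by positivity)]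
    have b0 := ha i0
    have b1 := ha i1
    have b2 := ha i2
    have bi := ha (e i)
    have A := mul_le_mul u1 u2 (by positivity) (by positivity)
    have B := mul_le_mul l1 l2 (by positivity) (by positivity)
    have A' : (κ * ‖wd (x (e i)) (x i0)‖) * (κ * ‖wd (x i2) (x i1)‖) * ρ ^ 2 ≤
        4 * (ρ * (a (e i) * a i1) * (ρ * (a i2 * a i0))) := by
      calc _ ≤ 2 * (a (e i) * a i0) * (2 * (a i2 * a i1)) * ρ ^ 2 :=
            mul_le_mul_of_nonneg_right A (by positivity)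
        _ = _ := by ring
    have C : κ ^ 2 * (‖wd (x (e i)) (x i0)‖ * ‖wd (x i2) (x i1)‖ * ρ ^ 2) ≤
        κ ^ 2 * (4 * (‖wd (x (e i)) (x i1)‖ * ‖wd (x i2) (x i0)‖)) := by
      calc κ ^ 2 * (‖wd (x (e i)) (x i0)‖ * ‖wd (x i2) (x i1)‖ * ρ ^ 2) =
            (κ * ‖wd (x (e i)) (x i0)‖) * (κ * ‖wd (x i2) (x i1)‖) * ρ ^ 2 := by ring
        _ ≤ 4 * (ρ * (a (e i) * a i1) * (ρ * (a i2 * a i0))) := A'
        _ ≤ 4 * ((κ * ‖wd (x (e i)) (x i1)‖) * (κ * ‖wd (x i2) (x i0)‖)) := by linarith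
        _ = _ := by ring
    exact le_of_mul_le_mul_left C (by positivity))
  apply absurd hlt
  rw [not_lt]
  have e1 : z i - z j = (wd (x i2) (x i1) * wd (x (e i)) (x (e j)) * wd (x i0) (x i1)) /
      (wd (x i2) (x i0) * wd (x (e i)) (x i1) * wd (x (e j)) (x i1)) := by
    rw [hz]
    have w1 := hx _ _ (he1 i)
    have w2 := hx _ _ (he1 j)
    have w3 := hx _ _ h20
    field_simp
    unfold wd
    ring
  rw [e1]
  simp only [norm_div, norm_mul]
  have q1 := p _ _ h20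
  have q2 := p _ _ (he1 i)
  have q3 := p _ _ (he1 j)
  rw [div_le_div_iff₀ (by positivity) (by positivity)]
  have b0 := ha i0
  have b1 := ha i1
  have b2 := ha i2
  have bi := ha (e i)
  have bj := ha (e j)
  have u1 := hup _ _ h20
  have u2 := hup _ _ (he1 i)
  have u3 := hup _ _ (he1 j)
  have l1 := (hcon _ _ h21).le
  have l2 := (hcon _ _ (hee i j hij)).le
  have l3 := (hcon _ _ h01).le
  have A := mul_le_mul (mul_le_mul u1 u2 (by positivity) (by positivity)) u3
    (by positivity) (by positivity)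
  have B := mul_le_mul (mul_le_mul l1 l2 (by positivity) (by positivity)) l3
    (by positivity) (by positivity)
  have C : κ ^ 3 * (ρ ^ 3 * (‖wd (x i2) (x i0)‖ * ‖wd (x (e i)) (x i1)‖ *
      ‖wd (x (e j)) (x i1)‖)) ≤ κ ^ 3 * (‖wd (x i2) (x i1)‖ * ‖wd (x (e i)) (x (e j))‖ *
      ‖wd (x i0) (x i1)‖ * 8) := by
    calc κ ^ 3 * (ρ ^ 3 * (‖wd (x i2) (x i0)‖ * ‖wd (x (e i)) (x i1)‖ *
        ‖wd (x (e j)) (x i1)‖)) =
          ρ ^ 3 * ((κ * ‖wd (x i2) (x i0)‖) * (κ * ‖wd (x (e i)) (x i1)‖) *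
            (κ * ‖wd (x (e j)) (x i1)‖)) := by ring
      _ ≤ ρ ^ 3 * (2 * (a i2 * a i0) * (2 * (a (e i) * a i1)) * (2 * (a (e j) * a i1))) :=
          mul_le_mul_of_nonneg_left A (by positivity)
      _ = 8 * (ρ * (a i2 * a i1) * (ρ * (a (e i) * a (e j))) * (ρ * (a i0 * a i1))) := by ring
      _ ≤ 8 * ((κ * ‖wd (x i2) (x i1)‖) * (κ * ‖wd (x (e i)) (x (e j))‖) *
          (κ * ‖wd (x i0) (x i1)‖)) := mul_le_mul_of_nonneg_left B (by norm_num)
      _ = _ := by ring
  exact le_of_mul_le_mul_left C (by positivity)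

/-- **At an archimedean place of a number field, among many points there is a pair with Green
function at least `2`.** -/
theorem arch_ll (d : ℕ) (hd2 : 2 ≤ d) : ∃ m : ℕ, ∀ (K : Type u) [Field K] (ψ : K →+* ℂ)
    (v : AbsoluteValue K ℝ), (∀ a, v a = ‖ψ a‖) → ∀ (F : Fin 2 → K[X]), Good d F →
    ∀ x : Fin m → Fin 2 → K, (∀ i j, i ≠ j → wd (x i) (x j) ≠ 0) →
      ∃ i j, i ≠ j ∧ 2 ≤ gg v d F (x i) (x j) := by
  have hd : (2 : ℝ) ≤ d := by exact_mod_cast hd2
  have hd1 : (1 : ℝ) ≤ d - 1 := by linarith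
  have hd0 : (0 : ℝ) < d := by linarith
  have hcL := cL_pos hd2
  have hCL := CL_nonneg hd2
  have hl : 0 ≤ log ((2 * d).factorial : ℝ) :=
    Real.log_nonneg (by exact_mod_cast Nat.one_le_iff_ne_zero.2 (Nat.factorial_ne_zero _))
  set l := log ((2 * d).factorial : ℝ) with hldef
  obtain ⟨C0, hC0⟩ : ∃ C0 : ℝ, C0 = (CL d + 2) / cL d := ⟨_, rfl⟩
  have hC00 : 0 ≤ C0 := by rw [hC0]; positivity
  have hC0c : cL d * C0 = CL d + 2 := by rw [hC0]; field_simp
  obtain ⟨E, hE⟩ : ∃ E : ℝ, E = 2 * (C0 + l) + l + 2 := ⟨_, rfl⟩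
  obtain ⟨m, hm⟩ := packing_P1 (exp (-E)) (exp_pos _)
  have hle1 : ML d ≤ ML d + m := Nat.le_add_right _ _
  have hle2 : m ≤ ML d + m := Nat.le_add_left _ _
  refine ⟨ML d + m, fun K _ ψ v hv F hG x hx => ?_⟩
  by_cases hbig : C0 ≤ locRes d v F
  · obtain ⟨i, j, hij, h1⟩ := ll (v := v) (t := 1) (Or.inl rfl) hG
      (fun i : Fin (ML d) => x (Fin.castLE hle1 i))
      (fun i j hij => hx _ _ (fun h => hij (Fin.castLE_injective hle1 h)))
    refine ⟨Fin.castLE hle1 i, Fin.castLE hle1 j, fun h => hij (Fin.castLE_injective hle1 h), ?_⟩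
    refine le_trans ?_ h1
    have h2 : C0 ≤ max (locRes d v F) 0 := hbig.trans (le_max_left _ _)
    have h3 := mul_le_mul_of_nonneg_left h2 hcL.le
    push_cast
    linarith
  · obtain ⟨L, _, w, φ, γ, hφ, hγ, hR⟩ := exists_almost (v := v) d F C0 (not_le.1 hbig)
    have hS : SB w 1 := SB_one w
    have hG' := (hG.mp φ).cj hγ
    have hadj : γ.adjugate.det ≠ 0 := by
      rw [Matrix.det_adjugate]
      simpa using hγ
    set κ := w γ.adjugate.det with hκ
    have hκ0 : 0 < κ := w.pos hadj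
    set X : Fin m → Fin 2 → L := fun i => tr φ γ (x (Fin.castLE hle2 i)) with hX
    have hxx : ∀ i j : Fin m, i ≠ j →
        wd (x (Fin.castLE hle2 i)) (x (Fin.castLE hle2 j)) ≠ 0 :=
      fun i j hij => hx _ _ (fun h => hij (Fin.castLE_injective _ h))
    have hwX : ∀ i j : Fin m, w (wd (X i) (X j)) =
        κ * ‖wd (fun k => ψ (x (Fin.castLE hle2 i) k))
          (fun k => ψ (x (Fin.castLE hle2 j) k))‖ := by
      intro i j
      rw [hX]
      unfold tr
      rw [wd_mulVec, wd_mp, map_mul, hφ, wd_mp, hv]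
    have hXne : ∀ i j : Fin m, i ≠ j → wd (X i) (X j) ≠ 0 := fun i j hij =>
      wd_tr φ hγ _ _ (hxx i j hij)
    rcases Nat.lt_or_ge m 2 with hm2 | hm2
    · -- degenerate: `m < 2` is impossible for the packing statement
      exfalso
      obtain ⟨i, j, hij, _⟩ := hm (fun _ => ![1, 0]) (fun _ => 1) 1 one_pos (fun _ => one_pos)
        (fun i j hij => absurd (Fin.ext (by omega)) hij)
        (fun i j hij => absurd (Fin.ext (by omega)) hij)
      exact hij (Fin.ext (by omega))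
    have hXpos : ∀ i, 0 < nv w (X i) := by
      intro i
      apply nv_pos
      have : Nontrivial (Fin m) := Fin.nontrivial_iff_two_le.2 hm2
      obtain ⟨j, hj⟩ := exists_ne i
      exact ne_zero_of_wd (hXne i j hj.symm)
    obtain ⟨i, j, hij, h1⟩ := hm (fun i k => ψ (x (Fin.castLE hle2 i) k))
      (fun i => nv w (X i)) κ hκ0 hXpos
      (fun i j hij => by
        rw [wd_mp]
        exact (map_ne_zero ψ).2 (hxx i j hij))
      (fun i j _ => by
        rw [← hwX]
        have := wd_le hS (X i) (X j)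
        simpa using this)
    refine ⟨Fin.castLE hle2 i, Fin.castLE hle2 j,
      fun h => hij (Fin.castLE_injective hle2 h), ?_⟩
    rw [← hwX] at h1
    rw [← gg_tr hG hφ hγ _ _ (hxx i j hij), gg_eq hG']
    have e1 : tr φ γ (x (Fin.castLE hle2 i)) = X i := rfl
    have e2 : tr φ γ (x (Fin.castLE hle2 j)) = X j := rfl
    rw [e1, e2]
    set R := RR w d (cj d (mp φ F) γ) with hRdef
    have hXi := ne_zero_of_wd (hXne i j hij)
    have hXj := ne_zero_of_wd' (hXne i j hij)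
    have h2 := ht_le hS hG' (X i) hXi
    have h3 := ht_le hS hG' (X j) hXj
    rw [← hRdef, ← hldef] at h2 h3
    have hRge := RR_ge hS hG'
    rw [← hRdef, ← hldef] at hRge
    push_cast at h2 h3 hRge
    rw [one_mul] at h2 h3 hRge
    have h4 : (R + l) / (d - 1) ≤ R + l := div_le_self (by linarith) hd1
    have h5 : -l ≤ R / (d * (d - 1)) := by
      rw [le_div_iff₀ (by positivity)]
      have h6 : (1 : ℝ) ≤ d * (d - 1) := by nlinarith
      have h7 : l * 1 ≤ l * (d * (d - 1)) := mul_le_mul_of_nonneg_left h6 hl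
      linarith
    have h6 : log (w (wd (X i) (X j))) ≤ -E + (log (nv w (X i)) + log (nv w (X j))) := by
      have h7 := Real.log_le_log (w.pos (hXne i j hij)) h1
      rw [Real.log_mul (exp_pos _).ne' (mul_ne_zero (hXpos i).ne' (hXpos j).ne'), Real.log_exp,
        Real.log_mul (hXpos i).ne' (hXpos j).ne'] at h7
      exact h7
    rw [hE] at h6
    linarith

end Pool.Agent.Lib_helper95.FP
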