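import Pool.Agent.Lib_helper95.FP.Iter

/-!
# Bounds for determinants and forms with an absolute value

`SB w t`: sums of `n` terms of absolute value at most `B` have absolute value at most `n ^ t * B`; `t = 1` for every
absolute value, `t = 0` for the nonarchimedean ones.
-/

set_option autoImplicit false

namespace Pool.Agent.Lib_helper95.FP

open Polynomial

section

variable {L : Type*} [Field L]

/-- Sums of `n` terms. -/
def SB (w : AbsoluteValue L ℝ) (t : ℕ) : Prop :=
  ∀ (n : ℕ) (f : Fin n → L) (B : ℝ), 0 ≤ B → (∀ i, w (f i) ≤ B) → w (∑ i, f i) ≤ (n : ℝ) ^ t * B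

theorem SB_one (w : AbsoluteValue L ℝ) : SB w 1 := by
  intro n f B hB hf
  calc w (∑ i, f i) ≤ ∑ i, w (f i) := w.sum_le _ _
    _ ≤ ∑ _i : Fin n, B := Finset.sum_le_sum fun i _ => hf i
    _ = (n : ℝ) ^ 1 * B := by simp

theorem SB_zero (w : AbsoluteValue L ℝ) (hw : IsNonarchimedean w) : SB w 0 := by
  intro n f B hB hf
  rw [pow_zero, one_mul]
  induction n with
  | zero => simpa using hB
  | succ n ih =>
    rw [Fin.sum_univ_succ]
    exact (hw _ _).trans (max_le (hf 0) (ih (fun i => f i.succ) fun i => hf i.succ))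

theorem SB.finset {w : AbsoluteValue L ℝ} {t : ℕ} (h : SB w t) {ι : Type*} (s : Finset ι) (f : ι → L)
    (B : ℝ) (hB : 0 ≤ B) (hf : ∀ i ∈ s, w (f i) ≤ B) : w (∑ i ∈ s, f i) ≤ (s.card : ℝ) ^ t * B := by
  have e : ∑ i ∈ s, f i = ∑ i : Fin s.card, f (s.equivFin.symm i) := by
    rw [← Finset.sum_coe_sort s f]
    exact (Equiv.sum_comp s.equivFin.symm (fun i : s => f i)).symm
  rw [e]
  exact h _ _ B hB fun i => hf _ (s.equivFin.symm i).2

theorem SB.fintype {w : AbsoluteValue L ℝ} {t : ℕ} (h : SB w t) {ι : Type*} [Fintype ι] (f : ι → L)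
    (B : ℝ) (hB : 0 ≤ B) (hf : ∀ i, w (f i) ≤ B) :
    w (∑ i, f i) ≤ (Fintype.card ι : ℝ) ^ t * B := by
  have := h.finset Finset.univ f B hB (fun i _ => hf i)
  rwa [Finset.card_univ] at this

theorem SB.two {w : AbsoluteValue L ℝ} {t : ℕ} (h : SB w t) (a b : L) (B : ℝ)
    (ha : w a ≤ B) (hb : w b ≤ B) : w (a + b) ≤ 2 ^ t * B := by
  have hB : 0 ≤ B := (w.nonneg a).trans ha
  have := h 2 ![a, b] B hB (by intro i; fin_cases i <;> simpa)
  simpa using this

theorem SB.sub {w : AbsoluteValue L ℝ} {t : ℕ} (h : SB w t) (a b : L) (B : ℝ)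
    (ha : w a ≤ B) (hb : w b ≤ B) : w (a - b) ≤ 2 ^ t * B := by
  rw [sub_eq_add_neg]
  exact h.two a (-b) B ha (by rwa [w.map_neg])

/-- Determinants with bounds for the columns. -/
theorem det_le_col {w : AbsoluteValue L ℝ} {t : ℕ} (h : SB w t) {N : ℕ}
    (M : Matrix (Fin N) (Fin N) L) (B : Fin N → ℝ) (hM : ∀ i j, w (M i j) ≤ B j) :
    w M.det ≤ (N.factorial : ℝ) ^ t * ∏ j, B j := by
  rcases Nat.eq_zero_or_pos N with hN | hN
  · subst hN; simp
  have hB : ∀ j, 0 ≤ B j := fun j => (w.nonneg (M ⟨0, hN⟩ j)).trans (hM _ _)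
  rw [Matrix.det_apply']
  have e : (Fintype.card (Equiv.Perm (Fin N))) = N.factorial := by
    rw [Fintype.card_perm, Fintype.card_fin]
  rw [← e]
  apply h.fintype _ _ (Finset.prod_nonneg fun j _ => hB j)
  intro σ
  rw [map_mul, map_prod]
  have h1 : w ((Equiv.Perm.sign σ : ℤ) : L) = 1 := by
    rcases Int.units_eq_one_or (Equiv.Perm.sign σ) with hs | hs
    · rw [hs]; simp
    · rw [hs]; simp
  rw [h1, one_mul]
  exact Finset.prod_le_prod (fun j _ => w.nonneg _) fun j _ => hM _ _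

/-- Determinants with bounds for the rows. -/
theorem det_le_row {w : AbsoluteValue L ℝ} {t : ℕ} (h : SB w t) {N : ℕ}
    (M : Matrix (Fin N) (Fin N) L) (B : Fin N → ℝ) (hM : ∀ i j, w (M i j) ≤ B i) :
    w M.det ≤ (N.factorial : ℝ) ^ t * ∏ i, B i := by
  rw [← Matrix.det_transpose]
  exact det_le_col h _ B fun i j => hM j i

/-- Cramer's rule as an inequality. -/
theorem cramer_le {w : AbsoluteValue L ℝ} {t : ℕ} (h : SB w t) {N : ℕ}
    (M : Matrix (Fin N) (Fin N) L) (v : Fin N → L) (B U : ℝ) (hM : ∀ i j, w (M i j) ≤ B)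
    (hU : ∀ i, w ((M.mulVec v) i) ≤ U) (k : Fin N) :
    w (v k) * w M.det ≤ (N.factorial : ℝ) ^ t * (U * B ^ (N - 1)) := by
  have e : (M.updateCol k (M.mulVec v)).det = M.det * v k := by
    rw [← Matrix.cramer_apply, Matrix.cramer_eq_adjugate_mulVec, Matrix.mulVec_mulVec,
      Matrix.adjugate_mul, Matrix.smul_mulVec, Matrix.one_mulVec]
    rfl
  have h2 := det_le_col h (M.updateCol k (M.mulVec v)) (fun j => if j = k then U else B) (by
    intro i j
    by_cases hj : j = k
    · subst hj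
      rw [if_pos rfl, Matrix.updateCol_self]; exact hU i
    · rw [if_neg hj, Matrix.updateCol_ne hj]; exact hM i j)
  rw [e, map_mul, mul_comm (w M.det)] at h2
  have e3 : ∏ j : Fin N, (if j = k then U else B) = U * B ^ (N - 1) := by
    rw [← Finset.mul_prod_erase Finset.univ _ (Finset.mem_univ k), if_pos rfl]
    congr 1
    rw [Finset.prod_congr rfl (g := fun _ => B)
      (fun j hj => if_neg (Finset.ne_of_mem_erase hj)), Finset.prod_const,
      Finset.card_erase_of_mem (Finset.mem_univ k), Finset.card_univ, Fintype.card_fin]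
  rwa [e3] at h2

/-! ### vectors -/

/-- The maximum norm of a vector. -/
noncomputable def nv (w : AbsoluteValue L ℝ) (x : Fin 2 → L) : ℝ := max (w (x 0)) (w (x 1))

theorem nv_nonneg (w : AbsoluteValue L ℝ) (x : Fin 2 → L) : 0 ≤ nv w x :=
  (w.nonneg _).trans (le_max_left _ _)

theorem nv_pos (w : AbsoluteValue L ℝ) (x : Fin 2 → L) (hx : x ≠ 0) : 0 < nv w x := by
  rcases lt_or_eq_of_le (nv_nonneg w x) with h | h
  · exact h
  · exfalso
    apply hx
    have h0 : w (x 0) = 0 := le_antisymm ((le_max_left _ _).trans h.symm.le) (w.nonneg _)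
    have h1 : w (x 1) = 0 := le_antisymm ((le_max_right _ _).trans h.symm.le) (w.nonneg _)
    funext i
    fin_cases i
    · exact w.eq_zero.1 h0
    · exact w.eq_zero.1 h1

theorem le_nv (w : AbsoluteValue L ℝ) (x : Fin 2 → L) (i : Fin 2) : w (x i) ≤ nv w x := by
  fin_cases i
  · exact le_max_left _ _
  · exact le_max_right _ _

theorem nv_le (w : AbsoluteValue L ℝ) (x : Fin 2 → L) (B : ℝ) (h : ∀ i, w (x i) ≤ B) :
    nv w x ≤ B := max_le (h 0) (h 1)

theorem nv_smul (w : AbsoluteValue L ℝ) (c : L) (x : Fin 2 → L) :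
    nv w (fun i => c * x i) = w c * nv w x := by
  unfold nv
  rw [map_mul, map_mul, mul_max_of_nonneg _ _ (w.nonneg c)]

/-- The wedge product. -/
def wd (x y : Fin 2 → L) : L := x 0 * y 1 - x 1 * y 0

theorem wd_self (x : Fin 2 → L) : wd x x = 0 := by unfold wd; ring

theorem wd_comm (x y : Fin 2 → L) : wd x y = - wd y x := by unfold wd; ring

theorem w_wd_comm (w : AbsoluteValue L ℝ) (x y : Fin 2 → L) : w (wd x y) = w (wd y x) := by
  rw [wd_comm, w.map_neg]

theorem wd_le {w : AbsoluteValue L ℝ} {t : ℕ} (h : SB w t) (x y : Fin 2 → L) :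
    w (wd x y) ≤ 2 ^ t * (nv w x * nv w y) := by
  unfold wd
  apply h.sub
  · rw [map_mul]
    exact mul_le_mul (le_nv w x 0) (le_nv w y 1) (w.nonneg _) (nv_nonneg w x)
  · rw [map_mul]
    exact mul_le_mul (le_nv w x 1) (le_nv w y 0) (w.nonneg _) (nv_nonneg w x)

theorem wd_smul (a b : L) (x y : Fin 2 → L) :
    wd (fun i => a * x i) (fun i => b * y i) = a * b * wd x y := by
  unfold wd; ring

theorem ne_zero_of_wd {x y : Fin 2 → L} (h : wd x y ≠ 0) : x ≠ 0 := by
  rintro rfl
  exact h (by simp [wd])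

theorem ne_zero_of_wd' {x y : Fin 2 → L} (h : wd x y ≠ 0) : y ≠ 0 := by
  rintro rfl
  exact h (by simp [wd])

/-- The triangle inequality. -/
theorem wd_triangle {w : AbsoluteValue L ℝ} {t : ℕ} (h : SB w t) (x y z : Fin 2 → L) (B : ℝ)
    (h1 : w (wd x y) * nv w z ≤ B) (h2 : w (wd y z) * nv w x ≤ B) :
    w (wd x z) * nv w y ≤ 2 ^ t * B := by
  have e : ∀ i, wd x z * y i = wd x y * z i + wd y z * x i := by
    intro i
    fin_cases i
    · simp [wd]; ring
    · simp [wd]; ring
  have e2 : w (wd x z) * nv w y = nv w (fun i => wd x z * y i) := (nv_smul w _ _).symm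
  rw [e2]
  apply nv_le
  intro i
  rw [e i]
  apply h.two
  · rw [map_mul]
    exact (mul_le_mul_of_nonneg_left (le_nv w z i) (w.nonneg _)).trans h1
  · rw [map_mul]
    exact (mul_le_mul_of_nonneg_left (le_nv w x i) (w.nonneg _)).trans h2

/-! ### forms -/

theorem hev_le {w : AbsoluteValue L ℝ} {t : ℕ} (h : SB w t) (n : ℕ) (p : L[X]) (x : Fin 2 → L)
    (B : ℝ) (hB : ∀ j, j ≤ n → w (p.coeff j) ≤ B) :
    w (hev n p x) ≤ ((n + 1 : ℕ) : ℝ) ^ t * (B * nv w x ^ n) := by
  have hB0 : 0 ≤ B := (w.nonneg _).trans (hB 0 (Nat.zero_le _))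
  unfold hev
  have := h.finset (Finset.range (n + 1)) (fun j => p.coeff j * x 0 ^ j * x 1 ^ (n - j))
    (B * nv w x ^ n) (mul_nonneg hB0 (pow_nonneg (nv_nonneg w x) _)) (by
      intro j hj
      have hj' : j ≤ n := Nat.lt_succ_iff.1 (Finset.mem_range.1 hj)
      rw [map_mul, map_mul, map_pow, map_pow]
      have e : nv w x ^ n = nv w x ^ j * nv w x ^ (n - j) := by rw [← pow_add]; congr 1; omega
      rw [e, ← mul_assoc]
      apply mul_le_mul
      · exact mul_le_mul (hB j hj') (pow_le_pow_left₀ (w.nonneg _) (le_nv w x 0) _)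
          (pow_nonneg (w.nonneg _) _) hB0
      · exact pow_le_pow_left₀ (w.nonneg _) (le_nv w x 1) _
      · exact pow_nonneg (w.nonneg _) _
      · exact mul_nonneg hB0 (pow_nonneg (nv_nonneg w x) _))
  rwa [Finset.card_range] at this

/-- The norm of a pair of forms of degree `d`: the maximum of the coefficients. -/
noncomputable def nF (w : AbsoluteValue L ℝ) (d : ℕ) (F : Fin 2 → L[X]) : ℝ :=
  Finset.sup' (Finset.univ ×ˢ Finset.range (d + 1)) (by simp)
    (fun ij : Fin 2 × ℕ => w ((F ij.1).coeff ij.2))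

theorem le_nF (w : AbsoluteValue L ℝ) (d : ℕ) (F : Fin 2 → L[X]) (i : Fin 2) (j : ℕ) (hj : j ≤ d) :
    w ((F i).coeff j) ≤ nF w d F :=
  Finset.le_sup' (fun ij : Fin 2 × ℕ => w ((F ij.1).coeff ij.2)) (b := (i, j))
    (by simp; omega)

theorem nF_le (w : AbsoluteValue L ℝ) (d : ℕ) (F : Fin 2 → L[X]) (B : ℝ)
    (h : ∀ i j, j ≤ d → w ((F i).coeff j) ≤ B) : nF w d F ≤ B := by
  apply Finset.sup'_le
  intro ij hij
  have := (Finset.mem_product.1 hij).2
  exact h ij.1 ij.2 (Nat.lt_succ_iff.1 (Finset.mem_range.1 this))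

theorem exists_nF (w : AbsoluteValue L ℝ) (d : ℕ) (F : Fin 2 → L[X]) :
    ∃ i j, j ≤ d ∧ nF w d F = w ((F i).coeff j) := by
  obtain ⟨ij, h1, h2⟩ := Finset.exists_mem_eq_sup' (s := Finset.univ ×ˢ Finset.range (d + 1))
    (by simp) (fun ij : Fin 2 × ℕ => w ((F ij.1).coeff ij.2))
  exact ⟨ij.1, ij.2, Nat.lt_succ_iff.1 (Finset.mem_range.1 (Finset.mem_product.1 h1).2), h2⟩

theorem nF_nonneg (w : AbsoluteValue L ℝ) (d : ℕ) (F : Fin 2 → L[X]) : 0 ≤ nF w d F := by
  obtain ⟨i, j, _, h⟩ := exists_nF w d F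
  rw [h]; exact w.nonneg _

theorem nv_hmap_le {w : AbsoluteValue L ℝ} {t : ℕ} (h : SB w t) (d : ℕ) (F : Fin 2 → L[X])
    (x : Fin 2 → L) : nv w (hmap d F x) ≤ ((d + 1 : ℕ) : ℝ) ^ t * (nF w d F * nv w x ^ d) := by
  apply nv_le
  intro i
  exact hev_le h d (F i) x _ fun j hj => le_nF w d F i j hj

theorem coeff_le_nF (w : AbsoluteValue L ℝ) (d : ℕ) (F : Fin 2 → L[X])
    (hF : ∀ i, (F i).natDegree ≤ d) (i : Fin 2) (j : ℕ) : w ((F i).coeff j) ≤ nF w d F := by
  by_cases hj : j ≤ d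
  · exact le_nF w d F i j hj
  · rw [coeff_eq_zero_of_natDegree_lt (lt_of_le_of_lt (hF i) (not_le.1 hj)), map_zero]
    exact nF_nonneg w d F

/-- Upper bound for the resultant. -/
theorem res_le {w : AbsoluteValue L ℝ} {t : ℕ} (h : SB w t) (d : ℕ) (F : Fin 2 → L[X]) (A B : ℝ)
    (hA : ∀ j, w ((F 0).coeff j) ≤ A) (hB : ∀ j, w ((F 1).coeff j) ≤ B) :
    w (res d F) ≤ ((2 * d).factorial : ℝ) ^ t * (A ^ d * B ^ d) := by
  have hA0 : 0 ≤ A := (w.nonneg _).trans (hA 0)
  have hB0 : 0 ≤ B := (w.nonneg _).trans (hB 0)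
  unfold res resultant
  have h1 := det_le_col h (sylvester (F 0) (F 1) d d)
    (fun j => Fin.addCases (motive := fun _ => ℝ) (fun _ => B) (fun _ => A) j) (by
      intro i j
      induction j using Fin.addCases with
      | left j =>
        simp only [sylvester, Matrix.of_apply, Fin.addCases_left]
        split_ifs
        · exact hB _
        · rw [map_zero]; exact hB0
      | right j =>
        simp only [sylvester, Matrix.of_apply, Fin.addCases_right]
        split_ifs
        · exact hA _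
        · rw [map_zero]; exact hA0)
  rw [Fin.prod_univ_add] at h1
  simp only [Fin.addCases_left, Fin.addCases_right, Finset.prod_const, Finset.card_univ,
    Fintype.card_fin] at h1
  rw [two_mul, mul_comm (A ^ d)]
  exact h1

/-- Lower bound for the values of a pair of forms. -/
theorem nv_hmap_ge {w : AbsoluteValue L ℝ} {t : ℕ} (h : SB w t) (d : ℕ) (hd : 1 ≤ d)
    (F : Fin 2 → L[X]) (hF : ∀ i, (F i).natDegree ≤ d) (x : Fin 2 → L) (hx : x ≠ 0) :
    nv w x ^ d * w (res d F) ≤
      ((2 * d).factorial : ℝ) ^ t * (nv w (hmap d F x) * nF w d F ^ (2 * d - 1)) := by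
  have hpos := nv_pos w x hx
  -- the vector of monomials
  set m : Fin (d + d) → L := fun k => x 0 ^ (k : ℕ) * x 1 ^ (d + d - 1 - k) with hm
  have key : ∀ (g : L[X]) (hg : g.natDegree ≤ d) (j₁ : Fin d),
      ∑ k : Fin (d + d), (if (k : ℕ) ∈ Set.Icc (j₁ : ℕ) (j₁ + d) then g.coeff (k - j₁) else 0) * m k =
      x 0 ^ (j₁ : ℕ) * x 1 ^ (d - 1 - j₁) * hev d g x := by
    intro g hg j₁
    have hj := j₁.2
    have e1 : hev ((d - 1) + d) ((X : L[X]) ^ (j₁ : ℕ) * g) x =
        hev (d - 1) ((X : L[X]) ^ (j₁ : ℕ)) x * hev d g x :=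
      hev_mul _ _ _ _ (by simp; omega) hg _
    have e2 : hev (d - 1) ((X : L[X]) ^ (j₁ : ℕ)) x = x 0 ^ (j₁ : ℕ) * x 1 ^ (d - 1 - j₁) := by
      unfold hev
      rw [Finset.sum_eq_single (j₁ : ℕ)]
      · simp
      · intro b _ hb
        rw [coeff_X_pow, if_neg hb]; ring
      · intro h
        exact absurd (Finset.mem_range.2 (by omega)) h
    rw [← e2, ← e1]
    unfold hev
    have e3 : d - 1 + d + 1 = d + d := by omega
    rw [e3, Finset.sum_range]
    apply Finset.sum_congr rfl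
    intro k _
    rw [coeff_X_pow_mul', hm]
    have e4 : d + d - 1 - (k : ℕ) = d - 1 + d - (k : ℕ) := by omega
    simp only [e4]
    by_cases h : (j₁ : ℕ) ≤ k
    · rw [if_pos h]
      by_cases h2 : (k : ℕ) ≤ j₁ + d
      · rw [if_pos (Set.mem_Icc.2 ⟨h, h2⟩)]; ring
      · rw [if_neg (fun h3 => h2 (Set.mem_Icc.1 h3).2),
          coeff_eq_zero_of_natDegree_lt (lt_of_le_of_lt hg (by omega))]
        ring
    · rw [if_neg h, if_neg (fun h3 => h (Set.mem_Icc.1 h3).1)]; ring
  set S := (sylvester (F 0) (F 1) d d).transpose with hS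
  have hdet : S.det = res d F := by rw [hS, Matrix.det_transpose]; rfl
  have hSB : ∀ i j, w (S i j) ≤ nF w d F := by
    intro i j
    rw [hS, Matrix.transpose_apply]
    induction i using Fin.addCases with
    | left i =>
      simp only [sylvester, Matrix.of_apply, Fin.addCases_left]
      split_ifs
      · exact coeff_le_nF w d F hF 1 _
      · rw [map_zero]; exact nF_nonneg w d F
    | right i =>
      simp only [sylvester, Matrix.of_apply, Fin.addCases_right]
      split_ifs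
      · exact coeff_le_nF w d F hF 0 _
      · rw [map_zero]; exact nF_nonneg w d F
  have hmon : ∀ (a b : ℕ), w (x 0 ^ a * x 1 ^ b) ≤ nv w x ^ (a + b) := by
    intro a b
    rw [map_mul, map_pow, map_pow, pow_add]
    exact mul_le_mul (pow_le_pow_left₀ (w.nonneg _) (le_nv w x 0) _)
      (pow_le_pow_left₀ (w.nonneg _) (le_nv w x 1) _) (pow_nonneg (w.nonneg _) _)
      (pow_nonneg (nv_nonneg w x) _)
  have hU : ∀ i, w ((S.mulVec m) i) ≤ nv w x ^ (d - 1) * nv w (hmap d F x) := by
    intro i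
    rw [Matrix.mulVec, dotProduct]
    simp only [hS, Matrix.transpose_apply]
    induction i using Fin.addCases with
    | left i =>
      simp only [sylvester, Matrix.of_apply, Fin.addCases_left]
      rw [key (F 1) (hF 1) i, map_mul]
      apply mul_le_mul
      · refine (hmon _ _).trans (le_of_eq ?_)
        congr 1
        have := i.2
        omega
      · exact le_nv w (hmap d F x) 1
      · exact w.nonneg _
      · exact pow_nonneg (nv_nonneg w x) _
    | right i =>
      simp only [sylvester, Matrix.of_apply, Fin.addCases_right]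
      rw [key (F 0) (hF 0) i, map_mul]
      apply mul_le_mul
      · refine (hmon _ _).trans (le_of_eq ?_)
        congr 1
        have := i.2
        omega
      · exact le_nv w (hmap d F x) 0
      · exact w.nonneg _
      · exact pow_nonneg (nv_nonneg w x) _
  have hfin : ∀ k : Fin (d + d), w (m k) * w (res d F) ≤ (((2 * d).factorial : ℕ) : ℝ) ^ t *
      (nv w x ^ (d - 1) * nv w (hmap d F x) * nF w d F ^ (2 * d - 1)) := by
    intro k
    have := cramer_le h S m _ _ hSB hU k
    rw [hdet, ← two_mul] at this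
    exact this
  have hmax : nv w x ^ (2 * d - 1) * w (res d F) ≤ (((2 * d).factorial : ℕ) : ℝ) ^ t *
      (nv w x ^ (d - 1) * nv w (hmap d F x) * nF w d F ^ (2 * d - 1)) := by
    rcases le_total (w (x 0)) (w (x 1)) with h01 | h01
    · have e : nv w x = w (x 1) := max_eq_right h01
      have := hfin ⟨0, by omega⟩
      have e2 : w (m ⟨0, by omega⟩) = nv w x ^ (2 * d - 1) := by
        rw [hm, e]; simp only [pow_zero, one_mul, Nat.sub_zero]
        rw [map_pow]; congr 1; omega
      rwa [e2] at this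
    · have e : nv w x = w (x 0) := max_eq_left h01
      have := hfin ⟨d + d - 1, by omega⟩
      have e2 : w (m ⟨d + d - 1, by omega⟩) = nv w x ^ (2 * d - 1) := by
        rw [hm, e]; simp only [Nat.sub_self, pow_zero, mul_one]
        rw [map_pow]; congr 1; omega
      rwa [e2] at this
  have e5 : nv w x ^ (2 * d - 1) = nv w x ^ (d - 1) * nv w x ^ d := by
    rw [← pow_add]; congr 1; omega
  have hp : 0 < nv w x ^ (d - 1) := pow_pos hpos _
  rw [e5] at hmax
  have h3 : nv w x ^ (d - 1) * (nv w x ^ d * w (res d F)) ≤ nv w x ^ (d - 1) *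
      ((((2 * d).factorial : ℕ) : ℝ) ^ t * (nv w (hmap d F x) * nF w d F ^ (2 * d - 1))) := by
    calc nv w x ^ (d - 1) * (nv w x ^ d * w (res d F))
        = nv w x ^ (d - 1) * nv w x ^ d * w (res d F) := by ring
      _ ≤ _ := hmax
      _ = _ := by ring
  exact le_of_mul_le_mul_left h3 hp

theorem hmap_ne_zero (d : ℕ) (hd : 1 ≤ d) (F : Fin 2 → L[X]) (hF : ∀ i, (F i).natDegree ≤ d)
    (w : AbsoluteValue L ℝ) (hr : res d F ≠ 0) (x : Fin 2 → L) (hx : x ≠ 0) : hmap d F x ≠ 0 := by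
  intro h0
  have h := nv_hmap_ge (SB_one w) d hd F hF x hx
  have e : nv w (hmap d F x) = 0 := by rw [h0]; simp [nv]
  rw [e] at h
  have h1 : 0 < nv w x ^ d * w (res d F) := mul_pos (pow_pos (nv_pos w x hx) _) (w.pos hr)
  simp at h
  linarith

end

end Pool.Agent.Lib_helper95.FP
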