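import Pool.Agent.Lib_helper95.FP.Ext

/-!
# A Cauchy type determinant for a pair of forms

For points `x_i`, `y_j` the determinant of `(G(y_j) ∧ G(x_i)) / (y_j ∧ x_i)` is, up to sign, the product of the
Vandermonde determinants of the `x_i`, of the `y_j` and of the resultant of `G`.
-/

set_option autoImplicit false

namespace Pool.Agent.Lib_helper95.FP

open Polynomial

section products

variable {M : Type*} [CommMonoid M]

theorem prod_Ioi_ite {n : ℕ} (i : Fin n) (g : Fin n → M) :
    ∏ j ∈ Finset.Ioi i, g j = ∏ j, if i < j then g j else 1 := by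
  rw [← Finset.prod_filter]
  congr 1
  ext j
  simp

theorem prod_append {α : Type*} {n m : ℕ} (x : Fin n → α) (y : Fin m → α) (f : α → α → M) :
    ∏ i : Fin (n + m), ∏ j ∈ Finset.Ioi i, f (Fin.append x y i) (Fin.append x y j) =
      (∏ i, ∏ j ∈ Finset.Ioi i, f (x i) (x j)) * (∏ i, ∏ j ∈ Finset.Ioi i, f (y i) (y j)) *
        ∏ i, ∏ j, f (x i) (y j) := by
  simp only [prod_Ioi_ite]
  rw [Fin.prod_univ_add]
  have h1 : ∀ i : Fin n, (∏ j : Fin (n + m), if Fin.castAdd m i < j then
      f (Fin.append x y (Fin.castAdd m i)) (Fin.append x y j) else 1) =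
      (∏ j, if i < j then f (x i) (x j) else 1) * ∏ j, f (x i) (y j) := by
    intro i
    rw [Fin.prod_univ_add]
    simp only [Fin.append_left, Fin.append_right]
    congr 1
    apply Finset.prod_congr rfl
    intro j _
    rw [if_pos]
    rw [Fin.lt_def]
    simp
    omega
  have h2 : ∀ i : Fin m, (∏ j : Fin (n + m), if Fin.natAdd n i < j then
      f (Fin.append x y (Fin.natAdd n i)) (Fin.append x y j) else 1) =
      ∏ j, if i < j then f (y i) (y j) else 1 := by
    intro i
    rw [Fin.prod_univ_add]
    simp only [Fin.append_left, Fin.append_right]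
    have h3 : (∏ j : Fin n, if Fin.natAdd n i < Fin.castAdd m j then f (y i) (x j) else 1) = 1 := by
      apply Finset.prod_eq_one
      intro j _
      rw [if_neg]
      rw [Fin.lt_def]
      simp
      omega
    rw [h3, one_mul]
    apply Finset.prod_congr rfl
    intro j _
    have : (Fin.natAdd n i < Fin.natAdd n j) ↔ i < j := by
      rw [Fin.lt_def, Fin.lt_def]
      simp
    simp only [this]
  rw [Finset.prod_congr rfl fun i _ => h1 i, Finset.prod_congr rfl fun i _ => h2 i,
    Finset.prod_mul_distrib]
  exact mul_right_comm _ _ _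

theorem prod_erase_sq {n : ℕ} (f : Fin n → Fin n → M) (hf : ∀ i j, f i j = f j i) :
    ∏ i, ∏ j ∈ Finset.univ.erase i, f i j = (∏ i, ∏ j ∈ Finset.Ioi i, f i j) ^ 2 := by
  have h1 : ∀ i : Fin n, ∏ j ∈ Finset.univ.erase i, f i j =
      (∏ j, if i < j then f i j else 1) * ∏ j, if j < i then f i j else 1 := by
    intro i
    rw [← Finset.prod_mul_distrib]
    have h2 : ∏ j ∈ Finset.univ.erase i, f i j = ∏ j, if j = i then 1 else f i j := by
      have h3 : (Finset.univ.erase i) = Finset.univ.filter fun j => ¬ j = i := by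
        ext j; simp
      rw [h3, Finset.prod_filter]
      apply Finset.prod_congr rfl
      intro j _
      by_cases hj : j = i
      · rw [if_neg (not_not.2 hj), if_pos hj]
      · rw [if_pos hj, if_neg hj]
    rw [h2]
    apply Finset.prod_congr rfl
    intro j _
    rcases lt_trichotomy i j with h | h | h
    · rw [if_neg h.ne', if_pos h, if_neg (not_lt.2 h.le), mul_one]
    · rw [if_pos h.symm, if_neg (h ▸ lt_irrefl _), if_neg (h ▸ lt_irrefl _), mul_one]
    · rw [if_neg h.ne, if_neg (not_lt.2 h.le), if_pos h, one_mul]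
  rw [Finset.prod_congr rfl fun i _ => h1 i, Finset.prod_mul_distrib, sq]
  congr 1
  · apply Finset.prod_congr rfl
    intro i _
    rw [prod_Ioi_ite]
  · rw [Finset.prod_comm]
    apply Finset.prod_congr rfl
    intro i _
    rw [prod_Ioi_ite]
    apply Finset.prod_congr rfl
    intro j _
    rw [hf]

end products

section

variable {L : Type*} [Field L]

/-- The Vandermonde matrix of points of the projective line. -/
noncomputable def VM {n : ℕ} (x : Fin n → Fin 2 → L) : Matrix (Fin n) (Fin n) L :=
  Matrix.projVandermonde (fun i => x i 0) (fun i => x i 1)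

theorem w_det_VM (w : AbsoluteValue L ℝ) {n : ℕ} (x : Fin n → Fin 2 → L) :
    w (VM x).det = ∏ i, ∏ j ∈ Finset.Ioi i, w (wd (x i) (x j)) := by
  unfold VM
  rw [Matrix.det_projVandermonde, map_prod]
  apply Finset.prod_congr rfl
  intro i _
  rw [map_prod]
  apply Finset.prod_congr rfl
  intro j _
  have e2 : x j 0 * x i 1 - x i 0 * x j 1 = - wd (x i) (x j) := by unfold wd; ring
  rw [e2, w.map_neg]

theorem VM_mulVec {n : ℕ} (x : Fin n → Fin 2 → L) (p : L[X]) (i : Fin n) :
    (VM x).mulVec (fun k : Fin n => p.coeff k) i = hev (n - 1) p (x i) := by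
  have hn : 0 < n := i.pos
  unfold hev VM
  have e : n - 1 + 1 = n := by omega
  rw [Matrix.mulVec, dotProduct, e, Finset.sum_range]
  apply Finset.sum_congr rfl
  intro k _
  rw [Matrix.projVandermonde_apply, Fin.val_rev]
  have : n - (k + 1) = n - 1 - (k : ℕ) := by omega
  rw [this]
  ring

/-- the product of the forms `y ↦ y ∧ x_l` over a finite set -/
theorem hev_prod_wedge {ι : Type*} (s : Finset ι) (x : ι → Fin 2 → L) (y : Fin 2 → L) :
    (∏ l ∈ s, (C (x l 1) * X - C (x l 0))).natDegree ≤ s.card ∧
    hev s.card (∏ l ∈ s, (C (x l 1) * X - C (x l 0))) y = ∏ l ∈ s, wd y (x l) := by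
  classical
  induction s using Finset.induction_on with
  | empty => simp [hev_one]
  | insert a s ha ih =>
    rw [Finset.prod_insert ha, Finset.card_insert_of_notMem ha, Finset.prod_insert ha]
    have h1 : (C (x a 1) * X - C (x a 0) : L[X]).natDegree ≤ 1 := by
      rw [sub_eq_add_neg, ← C_neg]
      exact Polynomial.natDegree_linear_le
    have h2 : hev 1 (C (x a 1) * X - C (x a 0)) y = wd y (x a) := by
      unfold hev wd
      rw [Finset.sum_range_succ, Finset.sum_range_one]
      simp [Polynomial.coeff_C]
      ring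
    constructor
    · rw [add_comm]
      exact (Polynomial.natDegree_mul_le).trans (add_le_add h1 ih.1)
    · rw [add_comm, hev_mul 1 _ _ _ h1 ih.1, h2, ih.2]

/-- The block matrix with diagonal blocks of determinant one. -/
theorem w_det_blocks (w : AbsoluteValue L ℝ) {n : ℕ} (a b p r : Fin n → L)
    (h : ∀ i, a i * p i + b i * r i = 1) :
    w (Matrix.fromBlocks (Matrix.diagonal p) (Matrix.diagonal (fun i => - b i))
      (Matrix.diagonal r) (Matrix.diagonal a)).det = 1 := by
  set N := Matrix.fromBlocks (Matrix.diagonal p) (Matrix.diagonal (fun i => - b i))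
      (Matrix.diagonal r) (Matrix.diagonal a) with hN
  set N2 := Matrix.fromBlocks (Matrix.diagonal a) (Matrix.diagonal b)
      (Matrix.diagonal (fun i => - r i)) (Matrix.diagonal p) with hN2
  have hNN : N * N2 = 1 := by
    rw [hN, hN2, Matrix.fromBlocks_multiply, ← Matrix.fromBlocks_one]
    simp only [Matrix.diagonal_mul_diagonal, Matrix.diagonal_add]
    congr 1
    · rw [← Matrix.diagonal_one]
      congr 1
      funext i
      have := h i
      linear_combination this
    · rw [← Matrix.diagonal_zero]
      congr 1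
      funext i
      ring
    · rw [← Matrix.diagonal_zero]
      congr 1
      funext i
      ring
    · rw [← Matrix.diagonal_one]
      congr 1
      funext i
      have := h i
      linear_combination this
  have hdet : N2.det = N.det := by
    have e1 : N.det = (N.transpose.submatrix (Equiv.sumComm (Fin n) (Fin n)) (Equiv.sumComm (Fin n) (Fin n))).det := by
      rw [Matrix.det_submatrix_equiv_self, Matrix.det_transpose]
    have e2 : N.transpose.submatrix (Equiv.sumComm (Fin n) (Fin n)) (Equiv.sumComm (Fin n) (Fin n)) =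
        Matrix.fromBlocks (Matrix.diagonal a) (Matrix.diagonal (fun i => - b i))
          (Matrix.diagonal r) (Matrix.diagonal p) := by
      rw [hN, Matrix.fromBlocks_transpose]
      simp only [Matrix.diagonal_transpose]
      ext i j
      rcases i with i | i <;> rcases j with j | j <;> rfl
    have e3 : N2 = Matrix.fromBlocks 1 0 0 (-1) * Matrix.fromBlocks (Matrix.diagonal a)
        (Matrix.diagonal (fun i => - b i)) (Matrix.diagonal r) (Matrix.diagonal p) *
        Matrix.fromBlocks 1 0 0 (-1) := by
      rw [Matrix.fromBlocks_multiply, Matrix.fromBlocks_multiply]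
      simp only [one_mul, mul_one, zero_mul, mul_zero, add_zero, zero_add, neg_mul, mul_neg, neg_neg]
      rw [hN2]
      congr 1
      · rw [Matrix.diagonal_neg]
        congr 1
        funext i
        simp
      · rw [Matrix.diagonal_neg]
    rw [e3, Matrix.det_mul, Matrix.det_mul, ← e2, ← e1, Matrix.det_fromBlocks_zero₂₁,
      Matrix.det_neg, Matrix.det_one, Fintype.card_fin]
    have h1 : ((-1 : L) ^ n) * (-1) ^ n = 1 := by rw [← mul_pow]; simp
    linear_combination N.det * h1
  have h2 := congrArg (fun A => w (Matrix.det A)) hNN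
  simp only [Matrix.det_mul, Matrix.det_one, map_mul, map_one, hdet] at h2
  rcases mul_self_eq_one_iff.1 h2 with h3 | h3
  · exact h3
  · have := w.nonneg N.det
    linarith

theorem cauchy (w : AbsoluteValue L ℝ) {n : ℕ} (G : Fin 2 → L[X]) (hG : ∀ i, (G i).natDegree ≤ n)
    (x y : Fin n → Fin 2 → L) (hx : ∀ i j, i ≠ j → wd (x i) (x j) ≠ 0)
    (hxy : ∀ i j, wd (y j) (x i) ≠ 0) (hGx : ∀ i, hmap n G (x i) ≠ 0) :
    w (VM x).det * w (VM y).det * w (res n G) =
      w (Matrix.det (Matrix.of fun j i : Fin n =>
        wd (hmap n G (y j)) (hmap n G (x i)) / wd (y j) (x i))) := by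
  classical
  have hVx : w (VM x).det ≠ 0 := by
    rw [w_det_VM]
    refine Finset.prod_ne_zero_iff.2 fun i _ => Finset.prod_ne_zero_iff.2 fun j hj => ?_
    exact (w.pos (hx i j (Finset.mem_Ioi.1 hj).ne)).ne'
  have hVx0 : (VM x).det ≠ 0 := fun h => hVx (by rw [h, map_zero])
  have hunit : IsUnit (VM x).det := isUnit_iff_ne_zero.2 hVx0
  set a : Fin n → L := fun i => hmap n G (x i) 1 with ha
  set b : Fin n → L := fun i => hmap n G (x i) 0 with hb
  set c : Fin n → L := fun i => hmap n G (y i) 1 with hc
  set e : Fin n → L := fun i => hmap n G (y i) 0 with he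
  set W := VM y * (VM x)⁻¹ with hW
  have hWV : W * VM x = VM y := by
    rw [hW, Matrix.mul_assoc, Matrix.nonsing_inv_mul _ hunit, Matrix.mul_one]
  -- the big matrix
  have hbig := congrArg w (det_sylv_vand n G hG (Fin.append x y))
  rw [map_mul] at hbig
  have hleft : w (∏ i : Fin (n + n), ∏ j ∈ Finset.Ioi i,
      (Fin.append x y j 0 * Fin.append x y i 1 - Fin.append x y i 0 * Fin.append x y j 1)) =
      w (VM x).det * w (VM y).det * ∏ i, ∏ j, w (wd (x i) (y j)) := by
    rw [w_det_VM, w_det_VM, ← prod_append x y (fun u v => w (wd u v)), map_prod]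
    apply Finset.prod_congr rfl
    intro i _
    rw [map_prod]
    apply Finset.prod_congr rfl
    intro j _
    have e2 : Fin.append x y j 0 * Fin.append x y i 1 - Fin.append x y i 0 * Fin.append x y j 1 =
      - wd (Fin.append x y i) (Fin.append x y j) := by unfold wd; ring
    rw [e2, w.map_neg]
  have hright : (Matrix.of fun (i j : Fin (n + n)) => Fin.addCases (motive := fun _ => L)
        (fun j₁ : Fin n => Fin.append x y i 0 ^ (j₁ : ℕ) * Fin.append x y i 1 ^ (n - 1 - j₁) *
          hmap n G (Fin.append x y i) 1)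
        (fun j₁ : Fin n => Fin.append x y i 0 ^ (j₁ : ℕ) * Fin.append x y i 1 ^ (n - 1 - j₁) *
          hmap n G (Fin.append x y i) 0) j) =
      (Matrix.fromBlocks (Matrix.diagonal a * VM x) (Matrix.diagonal b * VM x)
        (Matrix.diagonal c * VM y) (Matrix.diagonal e * VM y)).submatrix finSumFinEquiv.symm
          finSumFinEquiv.symm := by
    ext i j
    have hVMa : ∀ (u : Fin n → Fin 2 → L) (i j : Fin n),
        VM u i j = u i 0 ^ (j : ℕ) * u i 1 ^ (n - 1 - j) := by
      intro u i j
      unfold VM
      rw [Matrix.projVandermonde_apply, Fin.val_rev]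
      have : n - (j + 1) = n - 1 - (j : ℕ) := by omega
      rw [this]
    rw [Matrix.of_apply, Matrix.submatrix_apply]
    induction i using Fin.addCases with
    | left i =>
      induction j using Fin.addCases with
      | left j =>
        rw [Fin.addCases_left, finSumFinEquiv_symm_apply_castAdd, finSumFinEquiv_symm_apply_castAdd,
          Matrix.fromBlocks_apply₁₁, Matrix.diagonal_mul, Fin.append_left, hVMa, mul_comm]
      | right j =>
        rw [Fin.addCases_right, finSumFinEquiv_symm_apply_castAdd, finSumFinEquiv_symm_apply_natAdd,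
          Matrix.fromBlocks_apply₁₂, Matrix.diagonal_mul, Fin.append_left, hVMa, mul_comm]
    | right i =>
      induction j using Fin.addCases with
      | left j =>
        rw [Fin.addCases_left, finSumFinEquiv_symm_apply_natAdd, finSumFinEquiv_symm_apply_castAdd,
          Matrix.fromBlocks_apply₂₁, Matrix.diagonal_mul, Fin.append_right, hVMa, mul_comm]
      | right j =>
        rw [Fin.addCases_right, finSumFinEquiv_symm_apply_natAdd, finSumFinEquiv_symm_apply_natAdd,
          Matrix.fromBlocks_apply₂₂, Matrix.diagonal_mul, Fin.append_right, hVMa, mul_comm]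
  rw [hleft, hright, Matrix.det_submatrix_equiv_self] at hbig
  -- factor the big matrix
  have hfac : Matrix.fromBlocks (Matrix.diagonal a * VM x) (Matrix.diagonal b * VM x)
        (Matrix.diagonal c * VM y) (Matrix.diagonal e * VM y) =
      Matrix.fromBlocks (Matrix.diagonal a) (Matrix.diagonal b) (Matrix.diagonal c * W)
        (Matrix.diagonal e * W) * Matrix.fromBlocks (VM x) 0 0 (VM x) := by
    rw [Matrix.fromBlocks_multiply]
    simp only [Matrix.mul_zero, add_zero, zero_add, Matrix.mul_assoc, hWV]
  obtain ⟨p, r, hpr⟩ : ∃ p r : Fin n → L, ∀ i, a i * p i + b i * r i = 1 := by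
    have : ∀ i, ∃ p r : L, a i * p + b i * r = 1 := by
      intro i
      by_cases h1 : a i = 0
      · have h2 : b i ≠ 0 := by
          intro h2
          apply hGx i
          funext k
          fin_cases k
          · exact h2
          · exact h1
        exact ⟨0, (b i)⁻¹, by rw [mul_inv_cancel₀ h2]; ring⟩
      · exact ⟨(a i)⁻¹, 0, by rw [mul_inv_cancel₀ h1]; ring⟩
    choose p r hpr using this
    exact ⟨p, r, hpr⟩
  set E : Matrix (Fin n) (Fin n) L := Matrix.of fun j i =>
    W j i * wd (hmap n G (y j)) (hmap n G (x i)) with hE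
  have hprod : Matrix.fromBlocks (Matrix.diagonal a) (Matrix.diagonal b) (Matrix.diagonal c * W)
        (Matrix.diagonal e * W) * Matrix.fromBlocks (Matrix.diagonal p)
        (Matrix.diagonal (fun i => - b i)) (Matrix.diagonal r) (Matrix.diagonal a) =
      Matrix.fromBlocks 1 0 (Matrix.diagonal c * W * Matrix.diagonal p +
        Matrix.diagonal e * W * Matrix.diagonal r) E := by
    rw [Matrix.fromBlocks_multiply]
    congr 1
    · rw [Matrix.diagonal_mul_diagonal, Matrix.diagonal_mul_diagonal, Matrix.diagonal_add,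
        ← Matrix.diagonal_one]
      congr 1
      funext i
      exact hpr i
    · rw [Matrix.diagonal_mul_diagonal, Matrix.diagonal_mul_diagonal, Matrix.diagonal_add,
        ← Matrix.diagonal_zero]
      congr 1
      funext i
      ring
    · ext j i
      rw [Matrix.add_apply, Matrix.mul_diagonal, Matrix.mul_diagonal, Matrix.diagonal_mul,
        Matrix.diagonal_mul, hE, Matrix.of_apply, hc, he, ha, hb]
      unfold wd
      ring
  have hdetbig : w (Matrix.fromBlocks (Matrix.diagonal a * VM x) (Matrix.diagonal b * VM x)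
        (Matrix.diagonal c * VM y) (Matrix.diagonal e * VM y)).det =
      w E.det * (w (VM x).det) ^ 2 := by
    have h1 := congrArg (fun A => w (Matrix.det A)) hprod
    simp only [Matrix.det_mul, map_mul] at h1
    rw [w_det_blocks w a b p r hpr, mul_one, Matrix.det_fromBlocks_zero₁₂, Matrix.det_one,
      one_mul] at h1
    rw [hfac, Matrix.det_mul, map_mul, h1, Matrix.det_fromBlocks_zero₂₁, map_mul, sq]
  -- Lagrange interpolation
  set Q : Matrix (Fin n) (Fin n) L := Matrix.of fun k i =>
    (∏ l ∈ Finset.univ.erase i, (C (x l 1) * X - C (x l 0) : L[X])).coeff k with hQ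
  have hcardE : ∀ i : Fin n, (Finset.univ.erase i).card = n - 1 := by
    intro i
    rw [Finset.card_erase_of_mem (Finset.mem_univ i), Finset.card_univ, Fintype.card_fin]
  have hmulQ : ∀ (u : Fin n → Fin 2 → L) (j i : Fin n),
      (VM u * Q) j i = ∏ l ∈ Finset.univ.erase i, wd (u j) (x l) := by
    intro u j i
    have h1 := (hev_prod_wedge (Finset.univ.erase i) x (u j)).2
    rw [hcardE] at h1
    rw [← h1, ← VM_mulVec]
    rfl
  set P : Fin n → L := fun i => ∏ l ∈ Finset.univ.erase i, wd (x i) (x l) with hP
  have hxQ : VM x * Q = Matrix.diagonal P := by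
    ext j i
    rw [hmulQ]
    by_cases hij : j = i
    · rw [hij, Matrix.diagonal_apply_eq]
    · rw [Matrix.diagonal_apply_ne _ hij]
      exact Finset.prod_eq_zero (Finset.mem_erase.2 ⟨hij, Finset.mem_univ j⟩) (wd_self _)
  have hWP : ∀ j i, W j i * P i = ∏ l ∈ Finset.univ.erase i, wd (y j) (x l) := by
    intro j i
    rw [← hmulQ y j i, ← hWV, Matrix.mul_assoc, hxQ, Matrix.mul_diagonal]
  set α : Fin n → L := fun j => ∏ l, wd (y j) (x l) with hα
  have hEP : ∀ j i, P i * E j i = α j *
      (wd (hmap n G (y j)) (hmap n G (x i)) / wd (y j) (x i)) := by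
    intro j i
    have h1 : α j = wd (y j) (x i) * ∏ l ∈ Finset.univ.erase i, wd (y j) (x l) :=
      (Finset.mul_prod_erase Finset.univ (fun l => wd (y j) (x l)) (Finset.mem_univ i)).symm
    rw [h1, ← hWP j i, hE, Matrix.of_apply]
    have h2 := hxy i j
    field_simp
  have hdetE : (∏ i, P i) * E.det = (∏ j, α j) * (Matrix.det (Matrix.of fun j i : Fin n =>
        wd (hmap n G (y j)) (hmap n G (x i)) / wd (y j) (x i))) := by
    rw [← Matrix.det_mul_row, ← Matrix.det_mul_column]
    congr 1
    ext j i
    rw [Matrix.of_apply, Matrix.of_apply, Matrix.of_apply, hEP]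
  have hwP : w (∏ i, P i) = (w (VM x).det) ^ 2 := by
    rw [w_det_VM, ← prod_erase_sq (fun i j => w (wd (x i) (x j))) (fun i j => w_wd_comm w _ _),
      map_prod]
    apply Finset.prod_congr rfl
    intro i _
    rw [hP, map_prod]
  have hwα : w (∏ j, α j) = ∏ i, ∏ j, w (wd (x i) (y j)) := by
    have h1 := Finset.prod_comm (s := (Finset.univ : Finset (Fin n)))
      (t := (Finset.univ : Finset (Fin n))) (f := fun i j => w (wd (x i) (y j)))
    rw [h1, map_prod]
    apply Finset.prod_congr rfl
    intro j _
    rw [hα, map_prod]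
    apply Finset.prod_congr rfl
    intro i _
    exact w_wd_comm w _ _
  have hα0 : w (∏ j, α j) ≠ 0 := by
    rw [map_prod]
    refine Finset.prod_ne_zero_iff.2 fun j _ => ?_
    rw [hα, map_prod]
    exact Finset.prod_ne_zero_iff.2 fun i _ => (w.pos (hxy i j)).ne'
  have hfin := congrArg w hdetE
  rw [map_mul, map_mul, hwP] at hfin
  rw [hdetbig, ← hwα] at hbig
  apply mul_left_cancel₀ hα0
  rw [← hfin]
  linear_combination hbig

end

end Pool.Agent.Lib_helper95.FP
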