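import Pool.Agent.Lib_helper95.FP.One

/-!
# The choice of the iterate, and the reduction to one place
-/

set_option autoImplicit false

universe u

namespace Pool.Agent.Lib_helper95.FP

open Polynomial Real Height AdmissibleAbsValues

theorem sq_le_two_pow (k : ℕ) : k ^ 2 ≤ 2 ^ (k + 1) := by
  have h : ∀ k : ℕ, (k + 3) ^ 2 ≤ 2 ^ (k + 4) := by
    intro k
    induction k with
    | zero => norm_num
    | succ k ih =>
      calc (k + 1 + 3) ^ 2 = (k + 3) ^ 2 + (2 * k + 7) := by ring
        _ ≤ (k + 3) ^ 2 + (k + 3) ^ 2 := by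
          apply Nat.add_le_add_left
          nlinarith
        _ ≤ 2 ^ (k + 4) + 2 ^ (k + 4) := Nat.add_le_add ih ih
        _ = 2 ^ (k + 1 + 4) := by ring
  rcases Nat.lt_or_ge k 3 with hk | hk
  · interval_cases k <;> norm_num
  · obtain ⟨j, rfl⟩ := Nat.exists_eq_add_of_le hk
    have := h j
    rw [Nat.add_comm 3 j]
    exact this

/-- The choice of the iterate: `d ^ k` is at least `(k + 1) q E` but not much larger. -/
theorem choose_k (d : ℕ) (hd2 : 2 ≤ d) (E : ℝ) (hE : 1 ≤ E) : ∃ A : ℝ, 0 < A ∧ ∀ q : ℝ, 1 ≤ q →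
    ∃ k : ℕ, 1 ≤ k ∧ ((k : ℝ) + 1) * (q * E) ≤ (d : ℝ) ^ k ∧
      (d : ℝ) ^ k ≤ A * (q * log (q + 1)) := by
  have hd : (2 : ℝ) ≤ d := by exact_mod_cast hd2
  have hd0 : (0 : ℝ) < d := by linarith
  have hl2 : 0 < log (2 : ℝ) := Real.log_pos (by norm_num)
  have hlE : 0 ≤ log E := Real.log_nonneg hE
  obtain ⟨C, hC⟩ : ∃ C : ℝ, C = (3 + (2 + 2 * log E / log 2) / log 2 * 1) / log 2 + 2 / log 2 :=
    ⟨_, rfl⟩
  obtain ⟨C1, hC1⟩ : ∃ C1 : ℝ, C1 = 3 / log 2 + 2 / log 2 + 2 * log E / log 2 / log 2 := ⟨_, rfl⟩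
  have hC10 : 0 < C1 := by rw [hC1]; positivity
  refine ⟨d / log 2 + d * E * C1, by positivity, fun q hq => ?_⟩
  have hlq : log 2 ≤ log (q + 1) := Real.log_le_log (by norm_num) (by linarith)
  have hlq0 : 0 < log (q + 1) := lt_of_lt_of_le hl2 hlq
  have hqq : 0 < q * log (q + 1) := by positivity
  -- existence
  have hex : ∃ k : ℕ, 1 ≤ k ∧ ((k : ℝ) + 1) * (q * E) ≤ (d : ℝ) ^ k := by
    obtain ⟨k, hk1, hk⟩ := exists_k d hd2 (4 / (q * E)) (by positivity)
    refine ⟨k, hk1, ?_⟩
    have h1 : 4 * ((k : ℝ) + 1) * (q * E) ≤ ((d : ℝ) ^ k - 1) * 4 := by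
      calc 4 * ((k : ℝ) + 1) * (q * E) ≤ ((d : ℝ) ^ k - 1) * (4 / (q * E)) * (q * E) :=
            mul_le_mul_of_nonneg_right hk (by positivity)
        _ = _ := by field_simp
    linarith
  classical
  obtain ⟨hk1, hk⟩ := Nat.find_spec hex
  set k := Nat.find hex with hkdef
  refine ⟨k, hk1, hk, ?_⟩
  rcases Nat.lt_or_ge k 2 with hk2 | hk2
  · have hk' : k = 1 := by omega
    rw [hk', pow_one]
    have h1 : (d : ℝ) ≤ d / log 2 * (q * log (q + 1)) := by
      rw [div_mul_eq_mul_div, le_div_iff₀ hl2]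
      have h2 : log 2 ≤ q * log (q + 1) := by
        calc log 2 ≤ log (q + 1) := hlq
          _ = 1 * log (q + 1) := (one_mul _).symm
          _ ≤ q * log (q + 1) := mul_le_mul_of_nonneg_right hq hlq0.le
      exact mul_le_mul_of_nonneg_left h2 hd0.le
    have h3 : 0 ≤ d * E * C1 * (q * log (q + 1)) := by positivity
    linarith
  · have hmin := Nat.find_min hex (m := k - 1) (by omega)
    rw [not_and, not_le] at hmin
    have h1 := hmin (by omega)
    have hcast : ((k - 1 : ℕ) : ℝ) + 1 = k := by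
      rw [Nat.cast_sub hk1]; push_cast; ring
    rw [hcast] at h1
    have hk0 : (0 : ℝ) < k := by exact_mod_cast (by omega : 0 < k)
    -- the bound for `k`
    have h2 : (2 : ℝ) ^ (k - 1) ≤ (d : ℝ) ^ (k - 1) := pow_le_pow_left₀ (by norm_num) hd _
    have h3 : ((2 : ℝ) ^ (k - 1)) ^ 2 ≤ (k * (q * E)) ^ 2 :=
      pow_le_pow_left₀ (by positivity) (h2.trans h1.le) 2
    have h4 : (k : ℝ) ^ 2 ≤ 2 ^ (k + 1) := by exact_mod_cast sq_le_two_pow k
    have h5 : ((2 : ℝ) ^ (k - 1)) ^ 2 * 8 = 2 ^ (k + 1) * 2 ^ k := by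
      obtain ⟨j, hj⟩ := Nat.exists_eq_add_of_le hk1
      have e1 : k - 1 = j := by omega
      rw [e1, hj]
      ring
    have h6 : (2 : ℝ) ^ k ≤ 8 * (q * E) ^ 2 := by
      have h7 : (2 : ℝ) ^ (k + 1) * 2 ^ k ≤ 2 ^ (k + 1) * (8 * (q * E) ^ 2) := by
        rw [← h5]
        calc ((2 : ℝ) ^ (k - 1)) ^ 2 * 8 ≤ (k * (q * E)) ^ 2 * 8 :=
              mul_le_mul_of_nonneg_right h3 (by norm_num)
          _ = (k : ℝ) ^ 2 * (8 * (q * E) ^ 2) := by ring
          _ ≤ _ := mul_le_mul_of_nonneg_right h4 (by positivity)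
      exact le_of_mul_le_mul_left h7 (by positivity)
    have h7 : (k : ℝ) * log 2 ≤ 3 * log 2 + 2 * (log q + log E) := by
      have h8 := Real.log_le_log (by positivity) h6
      rw [Real.log_pow, Real.log_mul (by norm_num) (by positivity), Real.log_pow,
        Real.log_mul (by positivity) (by positivity)] at h8
      have h9 : log (8 : ℝ) = 3 * log 2 := by
        rw [show (8 : ℝ) = 2 ^ 3 by norm_num, Real.log_pow]; norm_num
      rw [h9] at h8
      push_cast at h8
      exact h8
    have h8 : log q ≤ log (q + 1) := Real.log_le_log (by linarith) (by linarith)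
    have h9 : (k : ℝ) ≤ C1 * log (q + 1) := by
      have h10 : (k : ℝ) ≤ 3 + 2 * log (q + 1) / log 2 + 2 * log E / log 2 := by
        rw [← sub_nonneg]
        have h11 : 0 ≤ (3 * log 2 + 2 * (log q + log E)) - k * log 2 := sub_nonneg.2 h7
        have h12 : 0 ≤ (3 * log 2 + 2 * (log (q + 1) + log E) - k * log 2) / log 2 := by
          apply div_nonneg _ hl2.le
          linarith
        have h13 : (3 * log 2 + 2 * (log (q + 1) + log E) - k * log 2) / log 2 =
            3 + 2 * log (q + 1) / log 2 + 2 * log E / log 2 - k := by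
          field_simp
          ring
        rw [← h13]
        exact h12
      have h11 : (3 : ℝ) ≤ 3 / log 2 * log (q + 1) := by
        rw [div_mul_eq_mul_div, le_div_iff₀ hl2]
        linarith
      have h12 : 2 * log E / log 2 ≤ 2 * log E / log 2 / log 2 * log (q + 1) := by
        rw [div_mul_eq_mul_div (2 * log E / log 2), le_div_iff₀ hl2]
        exact mul_le_mul_of_nonneg_left hlq (by positivity)
      have h13 : 2 * log (q + 1) / log 2 = 2 / log 2 * log (q + 1) := by ring
      rw [hC1]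
      linarith
    have h10 : (d : ℝ) ^ k = d * (d : ℝ) ^ (k - 1) := by
      rw [← pow_succ']
      congr 1
      omega
    rw [h10]
    have h11 : (d : ℝ) * (d : ℝ) ^ (k - 1) ≤ d * (k * (q * E)) :=
      mul_le_mul_of_nonneg_left h1.le hd0.le
    have h12 : d * (k * (q * E)) ≤ d * (C1 * log (q + 1) * (q * E)) :=
      mul_le_mul_of_nonneg_left (mul_le_mul_of_nonneg_right h9 (by positivity)) hd0.le
    have h13 : d * (C1 * log (q + 1) * (q * E)) = d * E * C1 * (q * log (q + 1)) := by ring
    have h14 : 0 ≤ d / log 2 * (q * log (q + 1)) := by positivity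
    linarith

section

variable {K : Type u} [Field K] [AdmissibleAbsValues K]

open Classical in
/-- Reduction to one place: one absolute value in `T` carries its share. -/
theorem exists_single {d : ℕ} {F : Fin 2 → K[X]} (hG : Good d F)
    (T : Finset (AbsoluteValue K ℝ)) (hT : T.Nonempty) :
    ∃ v₁ ∈ T, placeSum (fun v => if v ∈ T then locRes d v F else 0) ≤
      T.card * (mu v₁ * locRes d v₁ F) := by
  obtain ⟨B, hB⟩ := exists_B hG (fun i : Fin 0 => ((fun _ => 1) : Fin 2 → K)) (fun i => i.elim0)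
    (fun i : Fin 0 => (1 : K)) (fun i => i.elim0)
  have hloc0 : ∀ v : nonarchAbsVal (K := K), v ∉ B → locRes d v.val F = 0 := fun v hv =>
    locRes_good hG v (hB v hv).1
  have e1 : placeSum (fun v => if v ∈ T then locRes d v F else 0) =
      ∑ v' ∈ T, mu v' * locRes d v' F := by
    rw [placeSum_eq B _ (fun v hv => by simp only [hloc0 v hv, ite_self])]
    have e2 : (fun v => if v ∈ T then locRes d v F else 0) =
        fun v => ∑ v' ∈ T, if v = v' then locRes d v F else 0 := by
      funext v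
      rw [Finset.sum_ite_eq]
    rw [e2, gs_sum]
    apply Finset.sum_congr rfl
    intro v' _
    rw [← placeSum_single v' (fun v => locRes d v F)]
    rw [placeSum_eq B _ (fun v hv => by simp only [hloc0 v hv, ite_self])]
  obtain ⟨v₁, hv₁, hmax⟩ := T.exists_max_image (fun v => mu v * locRes d v F) hT
  refine ⟨v₁, hv₁, ?_⟩
  rw [e1, ← nsmul_eq_mul]
  exact Finset.sum_le_card_nsmul T _ _ hmax

end

section nf

variable {K : Type u} [Field K] [NumberField K]

theorem one_le_mu (v : NumberField.InfinitePlace K) : 1 ≤ mu v.val := by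
  classical
  unfold mu placeSum
  have h1 : (1 : ℝ) ≤ (archAbsVal.map fun w : AbsoluteValue K ℝ => if w = v.val then (1 : ℝ) else 0).sum := by
    rw [NumberField.sum_archAbsVal_eq]
    have h2 := Finset.single_le_sum (f := fun w : NumberField.InfinitePlace K =>
      w.mult • (if w.val = v.val then (1 : ℝ) else 0)) (fun w _ => by positivity)
      (Finset.mem_univ v)
    refine le_trans ?_ h2
    simp only [if_true, nsmul_eq_mul, mul_one]
    exact_mod_cast v.mult_pos
  have h2 : 0 ≤ ∑ᶠ w : nonarchAbsVal (K := K), if w.val = v.val then (1 : ℝ) else 0 := by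
    apply finsum_nonneg
    intro w
    split_ifs
    · exact zero_le_one
    · exact le_rfl
  linarith

theorem mu_le_two (v₀ : AbsoluteValue K ℝ) (hv : tt v₀ = 1) : mu v₀ ≤ 2 := by
  classical
  have hna : ∀ w : nonarchAbsVal (K := K), w.val ≠ v₀ := by
    rintro w rfl
    rw [tt_nonarch] at hv
    exact absurd hv (by norm_num)
  unfold mu placeSum
  have h2 : ∑ᶠ w : nonarchAbsVal (K := K), (if w.val = v₀ then (1 : ℝ) else 0) = 0 := by
    have : (fun w : nonarchAbsVal (K := K) => if w.val = v₀ then (1 : ℝ) else 0) = fun _ => 0 := by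
      funext w
      rw [if_neg (hna w)]
    rw [this, finsum_zero]
  rw [h2, add_zero, NumberField.sum_archAbsVal_eq]
  by_cases h : ∃ w : NumberField.InfinitePlace K, w.val = v₀
  · obtain ⟨w, hw⟩ := h
    rw [Finset.sum_eq_single w]
    · rw [if_pos hw, nsmul_eq_mul, mul_one]
      unfold NumberField.InfinitePlace.mult
      split_ifs <;> norm_num
    · intro w' _ hw'
      rw [if_neg, smul_zero]
      intro h
      exact hw' (Subtype.ext (h.trans hw.symm))
    · intro h
      exact absurd (Finset.mem_univ _) h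
  · push Not at h
    rw [Finset.sum_eq_zero]
    · norm_num
    · intro w _
      rw [if_neg (h w), smul_zero]

end nf

end Pool.Agent.Lib_helper95.FP
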