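import Pool.Agent.Lib_helper95.FP.Main

/-!
# Clusters: at one place the points split into few classes of good pairs
-/

set_option autoImplicit false

universe u

namespace Pool.Agent.Lib_helper95.FP

open Polynomial Real Height AdmissibleAbsValues

/-- The greedy clustering: if every `m` points contain a good pair, then a proportion `1 / m` of
the points forms a class all of whose pairs are almost good. -/
theorem cluster {ι : Type*} [DecidableEq ι] (g : ι → ι → ℝ) (lam : ι → ℝ) (θ τ : ℝ)
    (hτ : 0 ≤ τ) (hsymm : ∀ x y, g x y = g y x)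
    (htri : ∀ x y z, x ≠ y → y ≠ z → x ≠ z → lam y ≤ lam x → lam y ≤ lam z →
      min (g x y) (g y z) - τ ≤ g x z) :
    ∀ (m : ℕ) (S : Finset ι), (∀ Q ⊆ S, Q.card = m → ∃ x ∈ Q, ∃ y ∈ Q, x ≠ y ∧ θ ≤ g x y) →
      ∃ S' ⊆ S, S.card ≤ m * S'.card ∧ ∀ x ∈ S', ∀ y ∈ S', x ≠ y → θ - τ ≤ g x y := by
  intro m
  induction m with
  | zero =>
    intro S hS
    obtain ⟨x, hx, _⟩ := hS ∅ (Finset.empty_subset _) rfl
    exact absurd hx (Finset.notMem_empty x)
  | succ m ih =>
    intro S hS
    rcases S.eq_empty_or_nonempty with rfl | hne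
    · exact ⟨∅, Finset.empty_subset _, by simp, by simp⟩
    · obtain ⟨y, hyS, hy⟩ := S.exists_min_image lam hne
      set G := insert y (S.filter fun x => θ ≤ g x y) with hG
      set B := S.filter (fun x => x ≠ y ∧ ¬ θ ≤ g x y) with hB
      have hGS : G ⊆ S := by
        intro x hx
        rcases Finset.mem_insert.1 hx with rfl | hx
        · exact hyS
        · exact (Finset.mem_filter.1 hx).1
      have hBS : B ⊆ S := Finset.filter_subset _ _
      have hcard : S.card ≤ G.card + B.card := by
        have h1 : S ⊆ G ∪ B := by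
          intro x hx
          by_cases hxy : x = y
          · exact Finset.mem_union_left _ (hxy ▸ Finset.mem_insert_self y _)
          · by_cases hθ : θ ≤ g x y
            · exact Finset.mem_union_left _ (Finset.mem_insert_of_mem
                (Finset.mem_filter.2 ⟨hx, hθ⟩))
            · exact Finset.mem_union_right _ (Finset.mem_filter.2 ⟨hx, hxy, hθ⟩)
        exact (Finset.card_le_card h1).trans (Finset.card_union_le _ _)
      have hGood : ∀ x ∈ G, ∀ z ∈ G, x ≠ z → θ - τ ≤ g x z := by
        intro x hx z hz hxz
        rcases Finset.mem_insert.1 hx with hxy | hx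
        · rcases Finset.mem_insert.1 hz with hzy | hz
          · exact absurd (hxy.trans hzy.symm) hxz
          · have h1 := (Finset.mem_filter.1 hz).2
            rw [hxy, hsymm]
            linarith
        · rcases Finset.mem_insert.1 hz with hzy | hz
          · have h1 := (Finset.mem_filter.1 hx).2
            rw [hzy]
            linarith
          · by_cases hxy : x = y
            · have h1 := (Finset.mem_filter.1 hz).2
              rw [hxy, hsymm]
              linarith
            · by_cases hzy : z = y
              · have h1 := (Finset.mem_filter.1 hx).2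
                rw [hzy]
                linarith
              · have h1 := (Finset.mem_filter.1 hx).2
                have h2 := (Finset.mem_filter.1 hz).2
                have h3 := htri x y z hxy (Ne.symm hzy) hxz
                  (hy x (Finset.mem_filter.1 hx).1) (hy z (Finset.mem_filter.1 hz).1)
                rw [hsymm z y] at h2
                have h4 : θ ≤ min (g x y) (g y z) := le_min h1 h2
                linarith
      obtain ⟨S'', hS''B, hS''c, hS''g⟩ := ih B (by
        intro Q hQ hQc
        have hyQ : y ∉ Q := fun h => ((Finset.mem_filter.1 (hQ h)).2.1) rfl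
        obtain ⟨x, hx, z, hz, hxz, hg⟩ := hS (insert y Q)
          (Finset.insert_subset hyS (hQ.trans hBS)) (by rw [Finset.card_insert_of_notMem hyQ, hQc])
        rcases Finset.mem_insert.1 hx with hxy | hx
        · rcases Finset.mem_insert.1 hz with hzy | hz
          · exact absurd (hxy.trans hzy.symm) hxz
          · exfalso
            rw [hxy, hsymm] at hg
            exact (Finset.mem_filter.1 (hQ hz)).2.2 hg
        · rcases Finset.mem_insert.1 hz with hzy | hz
          · exfalso
            rw [hzy] at hg
            exact (Finset.mem_filter.1 (hQ hx)).2.2 hg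
          · exact ⟨x, hx, z, hz, hxz, hg⟩)
      rcases le_total G.card S''.card with h | h
      · refine ⟨S'', hS''B.trans hBS, ?_, hS''g⟩
        calc S.card ≤ G.card + B.card := hcard
          _ ≤ S''.card + m * S''.card := Nat.add_le_add h hS''c
          _ = (m + 1) * S''.card := by ring
      · refine ⟨G, hGS, ?_, hGood⟩
        calc S.card ≤ G.card + B.card := hcard
          _ ≤ G.card + m * G.card := Nat.add_le_add_left (hS''c.trans (Nat.mul_le_mul_left m h)) _
          _ = (m + 1) * G.card := by ring

/-- The triangle inequality for the Green function, at a point of least potential. -/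
theorem gg_triangle {L : Type*} [Field L] {w : AbsoluteValue L ℝ} {t : ℕ} (h : SB w t) (d : ℕ)
    (F : Fin 2 → L[X]) (x y z : Fin 2 → L) (hxy : wd x y ≠ 0) (hyz : wd y z ≠ 0)
    (hxz : wd x z ≠ 0) (h1 : HH w d F y - log (nv w y) ≤ HH w d F x - log (nv w x))
    (h2 : HH w d F y - log (nv w y) ≤ HH w d F z - log (nv w z)) :
    min (gg w d F x y) (gg w d F y z) - t * log 2 ≤ gg w d F x z := by
  have hx := nv_pos w x (ne_zero_of_wd hxy)
  have hy := nv_pos w y (ne_zero_of_wd hyz)
  have hz := nv_pos w z (ne_zero_of_wd' hyz)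
  have pxy := w.pos hxy
  have pyz := w.pos hyz
  have pxz := w.pos hxz
  have key := wd_triangle h x y z (max (w (wd x y) * nv w z) (w (wd y z) * nv w x))
    (le_max_left _ _) (le_max_right _ _)
  unfold gg
  rcases max_choice (w (wd x y) * nv w z) (w (wd y z) * nv w x) with hm | hm
  · rw [hm] at key
    have h3 := Real.log_le_log (mul_pos pxz hy) key
    rw [Real.log_mul pxz.ne' hy.ne', Real.log_mul (by positivity) (mul_pos pxy hz).ne',
      Real.log_mul pxy.ne' hz.ne', Real.log_pow] at h3
    have h4 := min_le_left (-log (w (wd x y)) + HH w d F x + HH w d F y -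
      log (w (res d F)) / (d * (d - 1))) (-log (w (wd y z)) + HH w d F y + HH w d F z -
      log (w (res d F)) / (d * (d - 1)))
    linarith
  · rw [hm] at key
    have h3 := Real.log_le_log (mul_pos pxz hy) key
    rw [Real.log_mul pxz.ne' hy.ne', Real.log_mul (by positivity) (mul_pos pyz hx).ne',
      Real.log_mul pyz.ne' hx.ne', Real.log_pow] at h3
    have h4 := min_le_right (-log (w (wd x y)) + HH w d F x + HH w d F y -
      log (w (res d F)) / (d * (d - 1))) (-log (w (wd y z)) + HH w d F y + HH w d F z -
      log (w (res d F)) / (d * (d - 1)))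
    linarith

/-- Classes of good pairs at one absolute value. -/
theorem gg_cluster {L : Type*} [Field L] {w : AbsoluteValue L ℝ} {t : ℕ} (h : SB w t) (d : ℕ)
    (F : Fin 2 → L[X]) (θ : ℝ) (m : ℕ)
    (hm : ∀ x : Fin m → Fin 2 → L, (∀ i j, i ≠ j → wd (x i) (x j) ≠ 0) →
      ∃ i j, i ≠ j ∧ θ ≤ gg w d F (x i) (x j))
    (N : ℕ) (x : Fin N → Fin 2 → L) (hx : ∀ i j, i ≠ j → wd (x i) (x j) ≠ 0) :
    ∃ S : Finset (Fin N), N ≤ m * S.card ∧
      ∀ i ∈ S, ∀ j ∈ S, i ≠ j → θ - t * log 2 ≤ gg w d F (x i) (x j) := by
  have hl2 : 0 ≤ log (2 : ℝ) := Real.log_nonneg (by norm_num)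
  obtain ⟨S, _, h1, h2⟩ := cluster (fun i j => gg w d F (x i) (x j))
    (fun i => HH w d F (x i) - log (nv w (x i))) θ (t * log 2)
    (mul_nonneg (Nat.cast_nonneg _) hl2) (fun i j => gg_comm w d F _ _)
    (fun i j k hij hjk hik h1 h2 => gg_triangle h d F _ _ _ (hx i j hij) (hx j k hjk) (hx i k hik)
      h1 h2) m Finset.univ (by
      intro Q _ hQ
      obtain ⟨i, j, hij, hg⟩ := hm (fun i : Fin m => x (Q.orderEmbOfFin hQ i))
        (fun i j hij => hx _ _ (fun h => hij ((Q.orderEmbOfFin hQ).injective h)))
      exact ⟨_, Q.orderEmbOfFin_mem hQ i, _, Q.orderEmbOfFin_mem hQ j,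
        fun h => hij ((Q.orderEmbOfFin hQ).injective h), hg⟩)
  exact ⟨S, by simpa using h1, h2⟩

end Pool.Agent.Lib_helper95.FP
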