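import Mathlib

/-!
# Combinatorial lemmas: maximal separated sets, a pigeonhole argument on scales
-/

set_option autoImplicit false

namespace Pool.Agent.Lib_helper95.FP

/-- A maximal independent set of a symmetric relation. -/
theorem exists_max_indep {ι : Type*} (S : Finset ι) (R : ι → ι → Prop)
    (hsymm : ∀ i j, R i j → R j i) :
    ∃ T ⊆ S, (∀ i ∈ T, ∀ j ∈ T, i ≠ j → ¬ R i j) ∧ ∀ x ∈ S, x ∈ T ∨ ∃ y ∈ T, R y x := by
  classical
  obtain ⟨P, hP⟩ : ∃ P : Finset ι → Prop, ∀ T, P T ↔ ∀ i ∈ T, ∀ j ∈ T, i ≠ j → ¬ R i j :=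
    ⟨_, fun _ => Iff.rfl⟩
  obtain ⟨T, hT, hmax⟩ := Finset.exists_max_image
    (S.powerset.filter P) Finset.card ⟨∅, by simp [hP]⟩
  rw [Finset.mem_filter, Finset.mem_powerset] at hT
  have hT2 := (hP T).1 hT.2
  refine ⟨T, hT.1, hT2, ?_⟩
  intro x hx
  by_contra hcon
  push Not at hcon
  obtain ⟨hxT, hR⟩ := hcon
  have h1 : insert x T ∈ S.powerset.filter P := by
    rw [Finset.mem_filter, Finset.mem_powerset, hP]
    refine ⟨Finset.insert_subset hx hT.1, ?_⟩
    intro i hi j hj hij
    rw [Finset.mem_insert] at hi hj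
    rcases hi with rfl | hi
    · rcases hj with rfl | hj
      · exact absurd rfl hij
      · exact fun h => hR j hj (hsymm _ _ h)
    · rcases hj with rfl | hj
      · exact hR i hi
      · exact hT2 i hi j hj hij
  have h2 := hmax _ h1
  rw [Finset.card_insert_of_notMem hxT] at h2
  omega

/-- Independent sets for a relation of bounded degree. -/
theorem exists_indep {ι : Type*} [DecidableEq ι] (S : Finset ι) (R : ι → ι → Prop)
    [∀ i j, Decidable (R i j)]
    (hsymm : ∀ i j, R i j → R j i) (a : ℕ) (h : ∀ i ∈ S, (S.filter fun j => R i j).card ≤ a)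
    (l : ℕ) (hl : l * (a + 1) ≤ S.card) :
    ∃ T ⊆ S, T.card = l ∧ ∀ i ∈ T, ∀ j ∈ T, i ≠ j → ¬ R i j := by
  obtain ⟨T, hTS, hT, hmax⟩ := exists_max_indep S R hsymm
  have hcov : S ⊆ T.biUnion fun i => insert i (S.filter fun j => R i j) := by
    intro x hx
    rw [Finset.mem_biUnion]
    rcases hmax x hx with h1 | ⟨y, hy, hR⟩
    · exact ⟨x, h1, Finset.mem_insert_self _ _⟩
    · exact ⟨y, hy, Finset.mem_insert_of_mem (Finset.mem_filter.2 ⟨hx, hR⟩)⟩
  have hcard : S.card ≤ T.card * (a + 1) :=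
    (Finset.card_le_card hcov).trans (Finset.card_biUnion_le_card_mul _ _ _ fun i hi =>
      (Finset.card_insert_le _ _).trans (Nat.succ_le_succ (h i (hTS hi))))
  have hlT : l ≤ T.card := by
    by_contra hlt
    have : T.card + 1 ≤ l := by omega
    have h2 : (T.card + 1) * (a + 1) ≤ l * (a + 1) := Nat.mul_le_mul this le_rfl
    nlinarith
  obtain ⟨T', hT', hc⟩ := Finset.exists_subset_card_eq hlT
  exact ⟨T', hT'.trans hTS, hc, fun i hi j hj => hT i (hT' hi) j (hT' hj)⟩

/-- The star lemma: among many points there are `m + 1` with almost equal mutual distances. -/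
theorem star {ι : Type*} (dist : ι → ι → ℝ) (A q : ℝ) (hq : 0 < q)
    (hsymm : ∀ x y, dist x y = dist y x) (hself : ∀ x, dist x x = 0)
    (htri : ∀ x y z B, dist x y ≤ B → dist y z ≤ B → dist x z ≤ A * B) (m : ℕ) :
    ∀ (k : ℕ) (S : Finset ι) (δ : ℝ), 0 < δ → m ^ k < S.card →
      (∀ x ∈ S, ∀ y ∈ S, dist x y ≤ A * δ) →
      (∀ x ∈ S, ∀ y ∈ S, x ≠ y → A * δ * q ^ k < dist x y) →
      ∃ T ⊆ S, m < T.card ∧ ∃ δ' : ℝ, 0 < δ' ∧
        (∀ x ∈ T, ∀ y ∈ T, x ≠ y → δ' * q < dist x y) ∧ (∀ x ∈ T, ∀ y ∈ T, dist x y ≤ A * δ') := by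
  classical
  intro k
  induction k with
  | zero =>
    intro S δ _ hc h1 h2
    rw [pow_zero] at hc
    obtain ⟨a, ha, b, hb, hab⟩ := Finset.one_lt_card.1 hc
    have := h2 a ha b hb hab
    rw [pow_zero, mul_one] at this
    exact absurd (h1 a ha b hb) (not_le.2 this)
  | succ k ih =>
    intro S δ hδ hc h1 h2
    obtain ⟨T, hTS, hT, hmax⟩ := exists_max_indep S (fun x y => dist x y ≤ δ * q)
      (fun x y h => by rwa [hsymm])
    by_cases hm : m < T.card
    · exact ⟨T, hTS, hm, δ, hδ, fun x hx y hy hxy => not_le.1 (hT x hx y hy hxy),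
        fun x hx y hy => h1 x (hTS hx) y (hTS hy)⟩
    · have hm' : T.card ≤ m := not_lt.1 hm
      have hnear : ∀ x ∈ S, ∃ y ∈ T, dist y x ≤ δ * q := by
        intro x hx
        rcases hmax x hx with h | h
        · exact ⟨x, h, by rw [hself]; positivity⟩
        · exact h
      choose! f hf using hnear
      have hcard : T.card * m ^ k < S.card := by
        refine lt_of_le_of_lt (Nat.mul_le_mul hm' le_rfl) ?_
        rw [← pow_succ']
        exact hc
      obtain ⟨y, hy, hcy⟩ := Finset.exists_lt_card_fiber_of_mul_lt_card_of_maps_to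
        (fun x hx => (hf x hx).1) hcard
      set S' := S.filter fun x => f x = y with hS'
      have hS'S : S' ⊆ S := Finset.filter_subset _ _
      have hd' : ∀ x ∈ S', dist y x ≤ δ * q := by
        intro x hx
        rw [hS', Finset.mem_filter] at hx
        have := (hf x hx.1).2
        rwa [hx.2] at this
      obtain ⟨T', hT', hr⟩ := ih S' (δ * q) (by positivity) hcy
        (fun x hx z hz => htri x y z _ (by rw [hsymm]; exact hd' x hx) (hd' z hz))
        (fun x hx z hz hxz => by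
          have := h2 x (hS'S hx) z (hS'S hz) hxz
          have e : A * (δ * q) * q ^ k = A * δ * q ^ (k + 1) := by rw [pow_succ]; ring
          rwa [e])
      exact ⟨T', hT'.trans hS'S, hr⟩

end Pool.Agent.Lib_helper95.FP
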