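import Pool.Agent.Lib_helper95.FP.Loc

/-!
# Change of coordinates, scaling, field extension
-/

set_option autoImplicit false

namespace Pool.Agent.Lib_helper95.FP

open Polynomial Real

section

variable {L : Type*} [Field L]

/-! ### associativity of the composition -/

theorem hcomp_assoc (m n : ℕ) (p : L[X]) (g h : Fin 2 → L[X]) (hg : ∀ i, (g i).natDegree ≤ n) :
    hcomp (m * n) (hcomp m p g) h = hcomp m p (fun i => hcomp n (g i) h) := by
  apply IsFractionRing.injective L[X] (RatFunc L)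
  rw [hcomp_ratFunc, hcomp_ratFunc, hcomp_map,
    hev_hcomp m n _ _ (fun i => (Polynomial.natDegree_map_le).trans (hg i))]
  congr 1
  funext i
  rw [hcomp_ratFunc]

theorem hcomp_add (m : ℕ) (p q : L[X]) (g : Fin 2 → L[X]) :
    hcomp m (p + q) g = hcomp m p g + hcomp m q g := by
  unfold hcomp
  rw [← Finset.sum_add_distrib]
  apply Finset.sum_congr rfl
  intro j _
  rw [Polynomial.coeff_add, C_add]; ring

/-! ### linear substitutions -/

/-- The linear forms given by a matrix. -/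
noncomputable def lin (γ : Matrix (Fin 2) (Fin 2) L) : Fin 2 → L[X] :=
  fun i => C (γ i 0) * X + C (γ i 1)

theorem natDegree_lin1 (γ : Matrix (Fin 2) (Fin 2) L) (i : Fin 2) : (lin γ i).natDegree ≤ 1 :=
  Polynomial.natDegree_linear_le

theorem lin_coeff_zero (γ : Matrix (Fin 2) (Fin 2) L) (i : Fin 2) : (lin γ i).coeff 0 = γ i 1 := by
  simp [lin]

theorem lin_coeff_one (γ : Matrix (Fin 2) (Fin 2) L) (i : Fin 2) : (lin γ i).coeff 1 = γ i 0 := by
  simp [lin, Polynomial.coeff_C]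

theorem hev_lin (γ : Matrix (Fin 2) (Fin 2) L) (i : Fin 2) (x : Fin 2 → L) :
    hev 1 (lin γ i) x = γ.mulVec x i := by
  unfold hev
  rw [Finset.sum_range_succ, Finset.sum_range_one, lin_coeff_zero, lin_coeff_one]
  simp [Matrix.mulVec, dotProduct, Fin.sum_univ_two]
  ring

theorem hcomp_lin (γ γ' : Matrix (Fin 2) (Fin 2) L) (i : Fin 2) :
    hcomp 1 (lin γ i) (lin γ') = lin (γ * γ') i := by
  unfold hcomp
  rw [Finset.sum_range_succ, Finset.sum_range_one, lin_coeff_zero, lin_coeff_one]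
  simp only [lin, Matrix.mul_apply, Fin.sum_univ_two, C_add, C_mul]
  simp
  ring

theorem res_lin1 (γ : Matrix (Fin 2) (Fin 2) L) :
    (resultant (lin γ 0) (lin γ 1) 1 1) ^ 2 = γ.det ^ 2 := by
  have hX : ∀ i, ((![X, 1] : Fin 2 → L[X]) i).natDegree ≤ 1 := by
    intro i; fin_cases i <;> simp
  have k3 : (resultant ((![X, 1] : Fin 2 → L[X]) 0) ((![X, 1] : Fin 2 → L[X]) 1) 1 1) ^ 2 = 1 := by
    simp
  have h := res_lin ![X, 1] 1 hX (γ 0 0) (-γ 0 1) (γ 1 0) (-γ 1 1)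
  rw [mul_pow, k3] at h
  have e0 : C (γ 0 0) * (![X, 1] : Fin 2 → L[X]) 0 - C (-γ 0 1) * (![X, 1] : Fin 2 → L[X]) 1 =
      lin γ 0 := by
    simp [lin]
  have e1 : C (γ 1 0) * (![X, 1] : Fin 2 → L[X]) 0 - C (-γ 1 1) * (![X, 1] : Fin 2 → L[X]) 1 =
      lin γ 1 := by
    simp [lin]
  rw [e0, e1] at h
  rw [h, Matrix.det_fin_two]
  ring

/-- The conjugate `adj(γ) ∘ F ∘ γ` of a pair of forms. -/
noncomputable def cj (d : ℕ) (F : Fin 2 → L[X]) (γ : Matrix (Fin 2) (Fin 2) L) : Fin 2 → L[X] :=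
  fun i => C (γ.adjugate i 0) * hcomp d (F 0) (lin γ) + C (γ.adjugate i 1) * hcomp d (F 1) (lin γ)

theorem natDegree_cj (d : ℕ) (F : Fin 2 → L[X]) (γ : Matrix (Fin 2) (Fin 2) L) (i : Fin 2) :
    (cj d F γ i).natDegree ≤ d := by
  have h : ∀ j, (hcomp d (F j) (lin γ)).natDegree ≤ d := fun j => by
    have := natDegree_hcomp d 1 (F j) (lin γ) (natDegree_lin1 γ)
    rwa [mul_one] at this
  unfold cj
  exact (Polynomial.natDegree_add_le _ _).trans (max_le
    ((Polynomial.natDegree_C_mul_le _ _).trans (h 0))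
    ((Polynomial.natDegree_C_mul_le _ _).trans (h 1)))

theorem hmap_cj (d : ℕ) (F : Fin 2 → L[X]) (γ : Matrix (Fin 2) (Fin 2) L) (x : Fin 2 → L) :
    hmap d (cj d F γ) x = γ.adjugate.mulVec (hmap d F (γ.mulVec x)) := by
  have h : ∀ j, hev d (hcomp d (F j) (lin γ)) x = hmap d F (γ.mulVec x) j := fun j => by
    have := hev_hcomp d 1 (F j) (lin γ) (natDegree_lin1 γ) x
    rw [mul_one] at this
    rw [this]
    unfold hmap
    congr 1
    funext i
    exact hev_lin γ i x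
  funext i
  show hev d (cj d F γ i) x = _
  unfold cj
  rw [hev_add, hev_C_mul, hev_C_mul, h, h]
  simp [Matrix.mulVec, dotProduct, Fin.sum_univ_two]

theorem hcomp_sum_smul (d : ℕ) (F : Fin 2 → L[X]) (a b : L) (g : Fin 2 → L[X]) :
    hcomp d (C a * F 0 + C b * F 1) g = C a * hcomp d (F 0) g + C b * hcomp d (F 1) g := by
  rw [hcomp_add, hcomp_C_mul, hcomp_C_mul]

theorem cj_cj (d : ℕ) (F : Fin 2 → L[X]) (γ γ' : Matrix (Fin 2) (Fin 2) L) :
    cj d (cj d F γ) γ' = cj d F (γ * γ') := by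
  have h : ∀ j, hcomp d (hcomp d (F j) (lin γ)) (lin γ') = hcomp d (F j) (lin (γ * γ')) := fun j => by
    have := hcomp_assoc d 1 (F j) (lin γ) (lin γ') (natDegree_lin1 γ)
    rw [mul_one] at this
    rw [this]
    congr 1
    funext i
    exact hcomp_lin γ γ' i
  have e : ∀ k, hcomp d (cj d F γ k) (lin γ') =
      C (γ.adjugate k 0) * hcomp d (F 0) (lin (γ * γ')) +
      C (γ.adjugate k 1) * hcomp d (F 1) (lin (γ * γ')) := by
    intro k
    unfold cj
    rw [hcomp_add, hcomp_C_mul, hcomp_C_mul, h, h]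
  funext i
  have e2 : cj d (cj d F γ) γ' i = C (γ'.adjugate i 0) * hcomp d (cj d F γ 0) (lin γ') +
      C (γ'.adjugate i 1) * hcomp d (cj d F γ 1) (lin γ') := rfl
  have e3 : cj d F (γ * γ') i = C ((γ * γ').adjugate i 0) * hcomp d (F 0) (lin (γ * γ')) +
      C ((γ * γ').adjugate i 1) * hcomp d (F 1) (lin (γ * γ')) := rfl
  rw [e2, e3, e 0, e 1, Matrix.adjugate_mul_distrib]
  simp only [Matrix.mul_apply, Fin.sum_univ_two, C_add, C_mul]
  ring

theorem res_cj (d : ℕ) (F : Fin 2 → L[X]) (hF : ∀ i, (F i).natDegree ≤ d)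
    (γ : Matrix (Fin 2) (Fin 2) L) :
    (res d (cj d F γ)) ^ 2 = (γ.det ^ (d * d + d) * res d F) ^ 2 := by
  have hd : ∀ j, (hcomp d (F j) (lin γ)).natDegree ≤ d := fun j => by
    have := natDegree_hcomp d 1 (F j) (lin γ) (natDegree_lin1 γ)
    rwa [mul_one] at this
  have h1 := res_lin (fun j => hcomp d (F j) (lin γ)) d hd (γ 1 1) (γ 0 1) (-γ 1 0) (-γ 0 0)
  have h2 := res_hcomp d 1 (F 0) (F 1) (lin γ) (hF 0) (hF 1) (natDegree_lin1 γ)
  rw [mul_one, pow_one] at h2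
  have e0 : cj d F γ 0 = C (γ 1 1) * hcomp d (F 0) (lin γ) - C (γ 0 1) * hcomp d (F 1) (lin γ) := by
    unfold cj
    rw [Matrix.adjugate_fin_two]
    simp
    ring
  have e1 : cj d F γ 1 = C (-γ 1 0) * hcomp d (F 0) (lin γ) - C (-γ 0 0) * hcomp d (F 1) (lin γ) := by
    unfold cj
    rw [Matrix.adjugate_fin_two]
    simp
  have e2 : res d (cj d F γ) = resultant
      (C (γ 1 1) * (fun j => hcomp d (F j) (lin γ)) 0 - C (γ 0 1) * (fun j => hcomp d (F j) (lin γ)) 1)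
      (C (-γ 1 0) * (fun j => hcomp d (F j) (lin γ)) 0 - C (-γ 0 0) * (fun j => hcomp d (F j) (lin γ)) 1)
      d d := by
    unfold res
    rw [e0, e1]
  rw [e2, h1, mul_pow, h2]
  have h3 := res_lin1 γ
  have e3 : γ 1 1 * -γ 0 0 - γ 0 1 * -γ 1 0 = - γ.det := by rw [Matrix.det_fin_two]; ring
  rw [e3]
  have e4 : ((-γ.det) ^ d) ^ 2 = (γ.det ^ d) ^ 2 := by
    rw [← pow_mul, ← pow_mul, mul_comm d 2, pow_mul, pow_mul, neg_pow_two]
  have e5 : ((resultant (lin γ 0) (lin γ 1) 1 1) ^ (d * d)) ^ 2 = (γ.det ^ (d * d)) ^ 2 := by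
    rw [← pow_mul, mul_comm (d * d) 2, pow_mul, h3, ← pow_mul, ← pow_mul, mul_comm 2]
  rw [e4]
  calc (γ.det ^ d) ^ 2 * ((resultant (F 0) (F 1) d d) * (resultant (lin γ 0) (lin γ 1) 1 1) ^ (d * d)) ^ 2
      = (γ.det ^ d) ^ 2 * ((resultant (F 0) (F 1) d d) ^ 2 *
        ((resultant (lin γ 0) (lin γ 1) 1 1) ^ (d * d)) ^ 2) := by ring
    _ = _ := by rw [e5]; unfold res; ring

theorem Good.cj {d : ℕ} {F : Fin 2 → L[X]} (hG : Good d F) {γ : Matrix (Fin 2) (Fin 2) L}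
    (hγ : γ.det ≠ 0) : Good d (cj d F γ) where
  two_le := hG.two_le
  deg := natDegree_cj d F γ
  res_ne := by
    intro h
    have h1 := res_cj d F hG.deg γ
    rw [h] at h1
    have h2 : γ.det ^ (d * d + d) * res d F ≠ 0 := mul_ne_zero (pow_ne_zero _ hγ) hG.res_ne
    exact (pow_ne_zero 2 h2) (by rw [← h1]; simp)

theorem log_res_cj (w : AbsoluteValue L ℝ) {d : ℕ} {F : Fin 2 → L[X]} (hG : Good d F)
    {γ : Matrix (Fin 2) (Fin 2) L} (hγ : γ.det ≠ 0) :
    log (w (res d (Pool.Agent.Lib_helper95.FP.cj d F γ))) =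
      (d * d + d) * log (w γ.det) + log (w (res d F)) := by
  have h1 := congrArg (fun z => log (w z)) (res_cj d F hG.deg γ)
  simp only [map_pow, Real.log_pow] at h1
  rw [map_mul, Real.log_mul (by rw [map_pow]; exact pow_ne_zero _ (w.pos hγ).ne')
    (w.pos hG.res_ne).ne', map_pow, Real.log_pow] at h1
  push_cast at h1
  linarith

/-! ### matrices and norms -/

theorem mulVec_ne_zero' {γ : Matrix (Fin 2) (Fin 2) L} (hγ : γ.det ≠ 0) {x : Fin 2 → L}
    (hx : x ≠ 0) : γ.mulVec x ≠ 0 := by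
  intro h
  apply hx
  exact Matrix.eq_zero_of_mulVec_eq_zero hγ h

/-- The maximum of the entries. -/
noncomputable def nM (w : AbsoluteValue L ℝ) (γ : Matrix (Fin 2) (Fin 2) L) : ℝ :=
  max (nv w (γ 0)) (nv w (γ 1))

theorem nM_nonneg (w : AbsoluteValue L ℝ) (γ : Matrix (Fin 2) (Fin 2) L) : 0 ≤ nM w γ :=
  (nv_nonneg w _).trans (le_max_left _ _)

theorem le_nM (w : AbsoluteValue L ℝ) (γ : Matrix (Fin 2) (Fin 2) L) (i j : Fin 2) :
    w (γ i j) ≤ nM w γ := by
  refine (le_nv w (γ i) j).trans ?_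
  fin_cases i
  · exact le_max_left _ _
  · exact le_max_right _ _

theorem nM_le (w : AbsoluteValue L ℝ) (γ : Matrix (Fin 2) (Fin 2) L) (B : ℝ)
    (h : ∀ i j, w (γ i j) ≤ B) : nM w γ ≤ B :=
  max_le (nv_le w _ _ (h 0)) (nv_le w _ _ (h 1))

theorem nM_adjugate (w : AbsoluteValue L ℝ) (γ : Matrix (Fin 2) (Fin 2) L) :
    nM w γ.adjugate ≤ nM w γ := by
  apply nM_le
  intro i j
  rw [Matrix.adjugate_fin_two]
  fin_cases i <;> fin_cases j <;> simp <;> exact le_nM w γ _ _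

theorem nv_mulVec_le {w : AbsoluteValue L ℝ} {t : ℕ} (h : SB w t) (γ : Matrix (Fin 2) (Fin 2) L)
    (x : Fin 2 → L) : nv w (γ.mulVec x) ≤ 2 ^ t * (nM w γ * nv w x) := by
  apply nv_le
  intro i
  simp only [Matrix.mulVec, dotProduct, Fin.sum_univ_two]
  apply h.two
  · rw [map_mul]
    exact mul_le_mul (le_nM w γ _ _) (le_nv w x _) (w.nonneg _) (nM_nonneg w γ)
  · rw [map_mul]
    exact mul_le_mul (le_nM w γ _ _) (le_nv w x _) (w.nonneg _) (nM_nonneg w γ)

theorem adj_mulVec (γ : Matrix (Fin 2) (Fin 2) L) (x : Fin 2 → L) :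
    γ.adjugate.mulVec (γ.mulVec x) = fun i => γ.det * x i := by
  rw [Matrix.mulVec_mulVec, Matrix.adjugate_mul, Matrix.smul_mulVec, Matrix.one_mulVec]
  rfl

theorem mulVec_adj (γ : Matrix (Fin 2) (Fin 2) L) (x : Fin 2 → L) :
    γ.mulVec (γ.adjugate.mulVec x) = fun i => γ.det * x i := by
  rw [Matrix.mulVec_mulVec, Matrix.mul_adjugate, Matrix.smul_mulVec, Matrix.one_mulVec]
  rfl

theorem nv_le_mulVec {w : AbsoluteValue L ℝ} {t : ℕ} (h : SB w t) (γ : Matrix (Fin 2) (Fin 2) L)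
    (x : Fin 2 → L) : w γ.det * nv w x ≤ 2 ^ t * (nM w γ * nv w (γ.mulVec x)) := by
  have h1 := nv_mulVec_le h γ.adjugate (γ.mulVec x)
  rw [adj_mulVec, nv_smul] at h1
  refine h1.trans ?_
  gcongr
  · exact nv_nonneg w _
  · exact nM_adjugate w γ

theorem nM_pos {w : AbsoluteValue L ℝ} {γ : Matrix (Fin 2) (Fin 2) L} (hγ : γ.det ≠ 0) :
    0 < nM w γ := by
  rcases lt_or_eq_of_le (nM_nonneg w γ) with h | h
  · exact h
  · exfalso
    apply hγ
    have h1 : ∀ i j, γ i j = 0 := fun i j =>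
      w.eq_zero.1 (le_antisymm ((le_nM w γ i j).trans h.symm.le) (w.nonneg _))
    rw [Matrix.det_fin_two, h1, h1, h1]; ring

theorem wd_mulVec (γ : Matrix (Fin 2) (Fin 2) L) (x y : Fin 2 → L) :
    wd (γ.mulVec x) (γ.mulVec y) = γ.det * wd x y := by
  unfold wd
  rw [Matrix.det_fin_two]
  simp only [Matrix.mulVec, dotProduct, Fin.sum_univ_two]
  ring

/-- The local height in other coordinates. -/
theorem HH_cj {w : AbsoluteValue L ℝ} {d : ℕ} {F : Fin 2 → L[X]} (hG : Good d F)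
    {γ : Matrix (Fin 2) (Fin 2) L} (hγ : γ.det ≠ 0) (x : Fin 2 → L) (hx : x ≠ 0) :
    HH w d (cj d F γ) x = HH w d F (γ.mulVec x) + log (w γ.det) / (d - 1) := by
  have hd : (1 : ℝ) < d := by exact_mod_cast (lt_of_lt_of_le one_lt_two hG.two_le)
  have hd1 : (0 : ℝ) < d - 1 := by linarith
  have hdet : 0 < w γ.det := w.pos hγ
  have hM : 0 < nM w γ := nM_pos hγ
  set C₀ := (|RR w d F| + log ((2 * d).factorial) + log (d + 1)) / (d - 1) with hC₀
  symm
  refine HH_unique (hG.cj hγ) (fun x => HH w d F (γ.mulVec x) + log (w γ.det) / (d - 1)) ?_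
    (C₀ + |log (nF w d F) / (d - 1)| + (|log 2 + log (nM w γ)| + |log (w γ.det)|) +
      |log (w γ.det) / (d - 1)|) ?_ x hx
  · intro x hx
    have hne := mulVec_ne_zero' hγ hx
    rw [hmap_cj, mulVec_adj, HH_smul hG _ hγ _ (hmap_ne_zero d (by have := hG.two_le; omega) F
      hG.deg w hG.res_ne _ hne), HH_hmap hG _ hne]
    field_simp
    ring
  · intro x hx
    have hne := mulVec_ne_zero' hγ hx
    have hpx := nv_pos w x hx
    have hpy := nv_pos w _ hne
    have h2 : ht w d F (γ.mulVec x) ≤ C₀ := by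
      have := ht_le_of (w := w) hG _ (fun x hx => (le_abs_self _).trans (abs_lt_le hG x hx)) _ hne
      rwa [← hC₀] at this
    have h3 : - C₀ ≤ ht w d F (γ.mulVec x) := by
      have := ht_ge_of (w := w) hG (-(|RR w d F| + log ((2 * d).factorial) + log (d + 1)))
        (fun x hx => by
          have := abs_lt_le (w := w) hG x hx
          rw [abs_le] at this
          exact this.1) _ hne
      rw [neg_div] at this
      exact this
    have h4 := Real.log_le_log hpy (nv_mulVec_le (SB_one w) γ x)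
    have h5 := Real.log_le_log (mul_pos hdet hpx) (nv_le_mulVec (SB_one w) γ x)
    rw [pow_one, Real.log_mul (by norm_num) (by positivity), Real.log_mul (by positivity)
      (by positivity)] at h4
    rw [pow_one, Real.log_mul hdet.ne' hpx.ne', Real.log_mul (by norm_num) (by positivity),
      Real.log_mul hM.ne' hpy.ne'] at h5
    have a1 := abs_le.1 (le_refl |log (nF w d F) / ((d : ℝ) - 1)|)
    have a2 := abs_le.1 (le_refl |log 2 + log (nM w γ)|)
    have a3 := abs_le.1 (le_refl |log (w γ.det)|)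
    have a4 := abs_le.1 (le_refl |log (w γ.det) / ((d : ℝ) - 1)|)
    unfold HH
    rw [abs_le]
    constructor
    · linarith [a1.1, a1.2, a2.1, a2.2, a3.1, a3.2, a4.1, a4.2, abs_nonneg (log (w γ.det)),
        abs_nonneg (log 2 + log (nM w γ))]
    · linarith [a1.1, a1.2, a2.1, a2.2, a3.1, a3.2, a4.1, a4.2, abs_nonneg (log (w γ.det)),
        abs_nonneg (log 2 + log (nM w γ))]

/-- The two variable Green's function in other coordinates. -/
theorem gg_cj {w : AbsoluteValue L ℝ} {d : ℕ} {F : Fin 2 → L[X]} (hG : Good d F)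
    {γ : Matrix (Fin 2) (Fin 2) L} (hγ : γ.det ≠ 0) (x y : Fin 2 → L) (hxy : wd x y ≠ 0) :
    gg w d (cj d F γ) x y = gg w d F (γ.mulVec x) (γ.mulVec y) := by
  have hd : (1 : ℝ) < d := by exact_mod_cast (lt_of_lt_of_le one_lt_two hG.two_le)
  have hd1 : (d : ℝ) - 1 ≠ 0 := by linarith
  have hd0 : (d : ℝ) ≠ 0 := by linarith
  unfold gg
  rw [HH_cj hG hγ x (ne_zero_of_wd hxy), HH_cj hG hγ y (ne_zero_of_wd' hxy), log_res_cj w hG hγ,
    wd_mulVec, map_mul, Real.log_mul (w.pos hγ).ne' (w.pos hxy).ne']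
  field_simp
  ring

end

end Pool.Agent.Lib_helper95.FP
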