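import Pool.Agent.Lib_helper95.FP.Vand

/-!
# The core of the local estimate
-/

set_option autoImplicit false

namespace Pool.Agent.Lib_helper95.FP

open Polynomial Real

theorem final_arith (d D ε r e : ℝ) (hd : 2 ≤ d) (hD : 256 ≤ D) (h2 : (d + 1) ^ 2 ≤ D)
    (hε : ε * D ^ 3 = 1) (hε0 : 0 < ε) (hr : 0 < r) (he : d * (d - 1) * e = D * (D - 1))
    (h : -(144 * (r / d + ((d + 1) ^ 2 + 4) * (ε * r))) - 12 * D ^ 2 * (ε * r) - e * r ≤
      ε * r - D * ((2 * D - 12) * ((1 / (d * (d - 1)) - ε) * r / 2) +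
        12 * (d * ((1 / (d * (d - 1)) - ε) * r / 2) - ((d + 1) ^ 2 + 2) * (ε * r))) +
        2 * D * ((1 + ε) * r / (d - 1))) : False := by
  have hd0 : 0 < d := by linarith
  have hd1 : 0 < d - 1 := by linarith
  obtain ⟨u, hu⟩ : ∃ u, u = 1 / d := ⟨_, rfl⟩
  obtain ⟨v, hv⟩ : ∃ v, v = 1 / (d - 1) := ⟨_, rfl⟩
  have hu0 : 0 < u := by rw [hu]; positivity
  have hv0 : 0 < v := by rw [hv]; positivity
  have hud : u * d = 1 := by rw [hu]; field_simp
  have hvd : v * (d - 1) = 1 := by rw [hv]; field_simp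
  have hv2u : v ≤ 2 * u := by
    rw [hu, hv, mul_one_div, div_le_div_iff₀ hd1 hd0]; linarith
  have hv1 : v ≤ 1 := by
    rw [hv, div_le_one hd1]; linarith
  have hdD : d ≤ D := by
    have a0 : 0 ≤ d * d := by positivity
    linarith
  have hDu : 1 ≤ D * u := by
    rw [hu, mul_one_div, le_div_iff₀ hd0]; linarith
  have heq : e = u * v * (D * (D - 1)) := by
    rw [← he]
    linear_combination (-(e * (d - 1) * v)) * hud - e * hvd
  have e1 : r / d = u * r := by rw [hu]; ring
  have e2 : 1 / (d * (d - 1)) = u * v := by rw [hu, hv, div_mul_div_comm, one_mul]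
  have e3 : (1 + ε) * r / (d - 1) = (1 + ε) * r * v := by rw [hv]; ring
  rw [e1, e2, e3, heq] at h
  have key : r * (-144 * u + u * v * D + 6 * D * u - 2 * D * v) ≤
      r * (ε * (1 + D * (2 * D - 12 + 12 * d) / 2 + 12 * D * ((d + 1) ^ 2 + 2) + 2 * D * v +
        144 * ((d + 1) ^ 2 + 4) + 12 * D ^ 2)) := by
    have e4 : D * (12 * (d - 1)) * (u * v) / 2 * r = 6 * D * u * r := by
      linear_combination (6 * D * u * r) * hvd
    linarith [h, e4]
  have key2 := le_of_mul_le_mul_left key hr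
  have l1 : D * u ≤ -144 * u + u * v * D + 6 * D * u - 2 * D * v := by
    have : 0 ≤ u * v * D := by positivity
    have a1 := mul_le_mul_of_nonneg_left hv2u (by linarith : (0 : ℝ) ≤ D)
    have a2 := mul_pos hu0 (by linarith : (0 : ℝ) < D - 144)
    linarith
  have l2 : 1 + D * (2 * D - 12 + 12 * d) / 2 + 12 * D * ((d + 1) ^ 2 + 2) + 2 * D * v +
        144 * ((d + 1) ^ 2 + 4) + 12 * D ^ 2 ≤ 100 * D ^ 2 := by
    have a1 := mul_le_mul_of_nonneg_left h2 (by linarith : (0 : ℝ) ≤ D)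
    have a2 := mul_le_mul_of_nonneg_left hdD (by linarith : (0 : ℝ) ≤ D)
    have a3 := mul_le_mul_of_nonneg_left hv1 (by linarith : (0 : ℝ) ≤ D)
    have a4 : 256 * D ≤ D * D := mul_le_mul_of_nonneg_right hD (by linarith)
    linarith
  have l3 : ε * (100 * D ^ 2) < 1 := by
    have a1 : ε * (100 * D ^ 2) * D = 100 := by linear_combination 100 * hε
    by_contra hcon
    have a2 := mul_le_mul_of_nonneg_right (not_lt.1 hcon) (by linarith : (0 : ℝ) ≤ D)
    linarith
  have l4 := mul_le_mul_of_nonneg_left l2 hε0.le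
  linarith

section

variable {L : Type*} [Field L]

theorem core {w : AbsoluteValue L ℝ} {t : ℕ} (h : SB w t) {d : ℕ} {G : Fin 2 → L[X]}
    (hG : Good d G) (hn : nF w d G = 1) (ε : ℝ) (hε : ε * ((d : ℝ) ^ 8) ^ 3 = 1)
    (hr : 0 < RR w d G)
    (ht1 : t * log ((d ^ 8 + d ^ 8).factorial) ≤ ε * RR w d G) {ι : Type*} (S : Finset ι)
    (q : ι → Fin 2 → L) (hS : 2 * d ^ 8 + 13 * d + 13 ≤ S.card) (hq : ∀ i ∈ S, nv w (q i) = 1)
    (hsep : ∀ i ∈ S, ∀ j ∈ S, i ≠ j → exp (-(ε * RR w d G)) ≤ w (wd (q i) (q j)))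
    (hht : ∀ i ∈ S, ∀ j ∈ S, i ≠ j → (1 / (d * (d - 1)) - ε) * RR w d G ≤
      ht w d G (q i) + ht w d G (q j)) : False := by
  classical
  have hd2 := hG.two_le
  have hd : (2 : ℝ) ≤ d := by exact_mod_cast hd2
  have hd1 : (0 : ℝ) < d - 1 := by linarith
  have hd0 : (0 : ℝ) < d := by linarith
  have hD256 : 256 ≤ d ^ 8 :=
    calc 256 = 2 ^ 8 := by norm_num
      _ ≤ d ^ 8 := Nat.pow_le_pow_left hd2 8
  have hdD : (d + 1) ^ 2 ≤ d ^ 8 :=
    calc (d + 1) ^ 2 ≤ (d * d) ^ 2 := Nat.pow_le_pow_left (by nlinarith) 2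
      _ = d ^ 4 := by ring
      _ ≤ d ^ 8 := Nat.pow_le_pow_right (by omega) (by norm_num)
  have hdD1 : d + 1 ≤ d ^ 8 := le_trans (by nlinarith) hdD
  set r := RR w d G with hrdef
  have hε0 : 0 < ε := by
    by_contra hcon
    have : ε * ((d : ℝ) ^ 8) ^ 3 ≤ 0 := mul_nonpos_of_nonpos_of_nonneg (not_lt.1 hcon) (by positivity)
    linarith
  have her : 0 < ε * r := mul_pos hε0 hr
  -- logarithms of the constants
  have hlog : ∀ n : ℕ, 1 ≤ n → n ≤ (d ^ 8 + d ^ 8).factorial → t * log n ≤ ε * r := by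
    intro n h1 h2
    refine le_trans ?_ ht1
    apply mul_le_mul_of_nonneg_left _ (Nat.cast_nonneg t)
    exact Real.log_le_log (by exact_mod_cast h1) (by exact_mod_cast h2)
  have hpow : ∀ n : ℕ, 1 ≤ n → n ≤ (d ^ 8 + d ^ 8).factorial → (n : ℝ) ^ t ≤ exp (ε * r) := by
    intro n h1 h2
    have hnpos : (0 : ℝ) < n := by exact_mod_cast h1
    rw [← Real.log_le_iff_le_exp (pow_pos hnpos t), Real.log_pow]
    exact hlog n h1 h2
  have f1 : (d + 1).factorial ≤ (d ^ 8 + d ^ 8).factorial := Nat.factorial_le (by omega)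
  have f2 : (2 * d).factorial ≤ (d ^ 8 + d ^ 8).factorial := Nat.factorial_le (by omega)
  have f3 : 2 ≤ (d ^ 8 + d ^ 8).factorial := by
    calc 2 = Nat.factorial 2 := rfl
      _ ≤ _ := Nat.factorial_le (by omega)
  have f4 : d + 1 ≤ (d ^ 8 + d ^ 8).factorial := (Nat.self_le_factorial _).trans f1
  set N2 : ℝ := ((d : ℝ) + 1) ^ 2 with hN2
  have hδpow : exp (-(ε * r)) ^ ((d + 1) ^ 2) = exp (-(N2 * (ε * r))) := by
    rw [← Real.exp_nat_mul]
    congr 1
    rw [hN2]; push_cast; ring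
  have hN2pos : 0 ≤ N2 := by positivity
  -- step 1: large local heights
  set κ₀ := (1 / (d * (d - 1)) - ε) * r / 2 with hκ₀
  set S1 := S.filter (fun i => κ₀ ≤ ht w d G (q i)) with hS1
  have hS1S : S1 ⊆ S := Finset.filter_subset _ _
  have hS1c : S.card ≤ S1.card + 1 := by
    have h1 : (S.filter (fun i => ¬ κ₀ ≤ ht w d G (q i))).card ≤ 1 := by
      rw [Finset.card_le_one]
      intro a ha b hb
      rw [Finset.mem_filter] at ha hb
      by_contra hab
      have h1 := hht a ha.1 b hb.1 hab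
      have h2 := not_le.1 ha.2
      have h3 := not_le.1 hb.2
      rw [hκ₀] at h2 h3
      linarith
    have h2 := Finset.card_filter_add_card_filter_not (s := S) (p := fun i => κ₀ ≤ ht w d G (q i))
    rw [← hS1] at h2
    omega
  have hne : ∀ i ∈ S, q i ≠ 0 := by
    intro i hi h0
    have := hq i hi
    rw [h0] at this
    simp [nv] at this
  have hGne : ∀ i ∈ S, hmap d G (q i) ≠ 0 := fun i hi =>
    hmap_ne_zero d (by omega) G hG.deg w hG.res_ne _ (hne i hi)
  have hδ1 : exp (-(ε * r)) ≤ 1 := Real.exp_le_one_iff.2 (by linarith)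
  -- step 2: the images are not small
  set S2 := S1.filter (fun i => ¬ nv w (hmap d G (q i)) ≤ exp (-((N2 + 2) * (ε * r)))) with hS2
  have hS2S1 : S2 ⊆ S1 := Finset.filter_subset _ _
  have hS2c : S1.card ≤ S2.card + d := by
    obtain ⟨i, j, hj, hij⟩ := exists_nF w d G
    rw [hn] at hij
    have h1 := few_small h d (G i) S1 q (fun i hi => (hq i (hS1S hi)).le) (exp (-(ε * r)))
      (exp (-((N2 + 2) * (ε * r)))) (exp_pos _) hδ1
      (fun a ha b hb hab => hsep a (hS1S ha) b (hS1S hb) hab) j hj (by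
        rw [← hij, one_mul, hδpow]
        calc ((d + 1).factorial : ℝ) ^ t * exp (-((N2 + 2) * (ε * r)))
            ≤ exp (ε * r) * exp (-((N2 + 2) * (ε * r))) :=
              mul_le_mul_of_nonneg_right (hpow _ (Nat.factorial_pos _) f1) (exp_pos _).le
          _ = exp (-((N2 + 1) * (ε * r))) := by rw [← Real.exp_add]; congr 1; ring
          _ < exp (-(N2 * (ε * r))) := Real.exp_lt_exp.2 (by linarith))
      (fun i => nv w (hmap d G (q i)) ≤ exp (-((N2 + 2) * (ε * r))))
      (fun a _ hP => (le_nv w (hmap d G (q a)) i).trans hP)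
    have h2 := Finset.card_filter_add_card_filter_not (s := S1)
      (p := fun i => nv w (hmap d G (q i)) ≤ exp (-((N2 + 2) * (ε * r))))
    rw [← hS2] at h2
    omega
  -- step 3: the normalised images
  have hcex : ∀ i ∈ S, ∃ c : L, c ≠ 0 ∧ nv w (fun k => c * hmap d G (q i) k) = 1 ∧
      (c * hmap d G (q i) 0 = 1 ∨ c * hmap d G (q i) 1 = 1) := fun i hi =>
    exists_norm_one w _ (hGne i hi)
  choose! c hc0 hc1 hc2 using hcex
  set p : ι → Fin 2 → L := fun i k => c i * hmap d G (q i) k with hp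
  have hpne : ∀ i ∈ S, p i ≠ 0 := fun i hi => smul_ne_zero' (hc0 i hi) (hGne i hi)
  have hpht : ∀ i ∈ S2, d * κ₀ - (N2 + 2) * (ε * r) ≤ ht w d G (p i) := by
    intro i hi
    have hiS := hS1S (hS2S1 hi)
    have h1 : κ₀ ≤ ht w d G (q i) := (Finset.mem_filter.1 (hS2S1 hi)).2
    have h2 := not_le.1 (Finset.mem_filter.1 hi).2
    rw [hp, ht_smul hG _ (hc0 i hiS) _ (hGne i hiS), ht_hmap hG _ (hne i hiS)]
    have h3 : lt w d G (q i) ≤ (N2 + 2) * (ε * r) := by
      unfold lt
      rw [hq i hiS, hn, Real.log_one]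
      have h4 := Real.log_le_log (exp_pos _) h2.le
      rw [Real.log_exp] at h4
      linarith
    have h5 := mul_le_mul_of_nonneg_left h1 hd0.le
    linarith
  -- step 4: few images are near a given one
  set A3 := r / d + (N2 + 4) * (ε * r) with hA3
  have hA3pos : 0 ≤ A3 := by positivity
  have hnear : ∀ i ∈ S2, (S2.filter fun j => w (wd (p i) (p j)) ≤ exp (-A3)).card ≤ d := by
    intro i hi
    have hiS := hS1S (hS2S1 hi)
    obtain ⟨j, hj, hlogj, hposj⟩ := exists_coeff h hG hn (p i) (hc2 i hiS)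
    refine few_small h d (C (p i 0) * G 1 - C (p i 1) * G 0) S2 q
      (fun i hi => (hq i (hS1S (hS2S1 hi))).le) (exp (-(ε * r)))
      (exp (-(r / d + (N2 + 3) * (ε * r)))) (exp_pos _) hδ1
      (fun a ha b hb hab => hsep a (hS1S (hS2S1 ha)) b (hS1S (hS2S1 hb)) hab) j hj ?_
      (fun j => w (wd (p i) (p j)) ≤ exp (-A3)) ?_
    · rw [hδpow]
      have h1 : exp (-(r / d) - ε * r) ≤ w ((C (p i 0) * G 1 - C (p i 1) * G 0).coeff j) := by
        rw [← Real.le_log_iff_exp_le hposj]
        refine le_trans ?_ hlogj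
        rw [neg_div, add_div]
        have h2 : t * log ((2 * d).factorial) / d ≤ ε * r := by
          rw [div_le_iff₀ hd0]
          have h3 := hlog _ (Nat.factorial_pos _) f2
          have h4 : ε * r * 1 ≤ ε * r * d := mul_le_mul_of_nonneg_left (by linarith) her.le
          linarith
        linarith
      calc ((d + 1).factorial : ℝ) ^ t * exp (-(r / d + (N2 + 3) * (ε * r)))
          ≤ exp (ε * r) * exp (-(r / d + (N2 + 3) * (ε * r))) :=
            mul_le_mul_of_nonneg_right (hpow _ (Nat.factorial_pos _) f1) (exp_pos _).le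
        _ = exp (-(r / d) - (N2 + 2) * (ε * r)) := by rw [← Real.exp_add]; congr 1; ring
        _ < exp (-(r / d) - (N2 + 1) * (ε * r)) := Real.exp_lt_exp.2 (by linarith)
        _ = exp (-(r / d) - ε * r) * exp (-(N2 * (ε * r))) := by
          rw [← Real.exp_add]; congr 1; ring
        _ ≤ _ := mul_le_mul_of_nonneg_right h1 (exp_pos _).le
    · intro j hj hP
      have hjS := hS1S (hS2S1 hj)
      rw [hev_wedge]
      have e1 : wd (p i) (p j) = c j * wd (p i) (hmap d G (q j)) := by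
        rw [hp]; unfold wd; ring
      rw [e1, map_mul] at hP
      have e2 : w (c j) * nv w (hmap d G (q j)) = 1 := by
        have := hc1 j hjS
        rwa [nv_smul] at this
      have hnv : nv w (hmap d G (q j)) ≤ exp (ε * r) := by
        have h1 := nv_hmap_le h d G (q j)
        rw [hn, hq j hjS, one_pow, mul_one, mul_one] at h1
        exact h1.trans (hpow _ (by omega) f4)
      calc w (wd (p i) (hmap d G (q j)))
          = (w (c j) * w (wd (p i) (hmap d G (q j)))) * nv w (hmap d G (q j)) := by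
            linear_combination (-(w (wd (p i) (hmap d G (q j))))) * e2
        _ ≤ exp (-A3) * exp (ε * r) := mul_le_mul hP hnv (nv_nonneg w _) (exp_pos _).le
        _ = exp (-(r / d + (N2 + 3) * (ε * r))) := by
          rw [← Real.exp_add, hA3]; congr 1; ring
  -- step 5: twelve images
  obtain ⟨T, hTS2, hTc, hT⟩ := exists_indep S2 (fun i j => w (wd (p i) (p j)) ≤ exp (-A3))
    (fun i j hij => by rwa [w_wd_comm]) d hnear 12 (by omega)
  -- step 6: the points away from the images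
  set S3 := S1.filter (fun j => ¬ ∃ i ∈ T, w (wd (q j) (p i)) ≤ exp (-(3 * (ε * r)))) with hS3
  have hS3S1 : S3 ⊆ S1 := Finset.filter_subset _ _
  have hS3c : S1.card ≤ S3.card + 12 := by
    have h1 : (S1.filter (fun j => ∃ i ∈ T, w (wd (q j) (p i)) ≤ exp (-(3 * (ε * r))))).card
        ≤ 12 := by
      have hsub : S1.filter (fun j => ∃ i ∈ T, w (wd (q j) (p i)) ≤ exp (-(3 * (ε * r)))) ⊆
          T.biUnion fun i => S1.filter fun j => w (wd (q j) (p i)) ≤ exp (-(3 * (ε * r))) := by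
        intro j hj
        rw [Finset.mem_filter] at hj
        obtain ⟨i, hi, hij⟩ := hj.2
        exact Finset.mem_biUnion.2 ⟨i, hi, Finset.mem_filter.2 ⟨hj.1, hij⟩⟩
      refine (Finset.card_le_card hsub).trans ?_
      have := Finset.card_biUnion_le_card_mul T
        (fun i => S1.filter fun j => w (wd (q j) (p i)) ≤ exp (-(3 * (ε * r)))) 1 (by
          intro i hi
          rw [Finset.card_le_one]
          intro a ha b hb
          rw [Finset.mem_filter] at ha hb
          by_contra hab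
          have hiS := hS1S (hS2S1 (hTS2 hi))
          have h1 := wd_triangle h (q a) (p i) (q b) (exp (-(3 * (ε * r))))
            (by rw [hq b (hS1S hb.1), mul_one]; exact ha.2)
            (by rw [hq a (hS1S ha.1), mul_one, w_wd_comm]; exact hb.2)
          rw [hc1 i hiS, mul_one] at h1
          have h2 := hsep a (hS1S ha.1) b (hS1S hb.1) hab
          have h3 : (2 : ℝ) ^ t * exp (-(3 * (ε * r))) ≤ exp (ε * r) * exp (-(3 * (ε * r))) :=
            mul_le_mul_of_nonneg_right (by exact_mod_cast hpow 2 (by norm_num) f3) (exp_pos _).le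
          rw [← Real.exp_add] at h3
          have h4 := Real.exp_le_exp.1 (h2.trans (h1.trans h3))
          linarith)
      omega
    have h2 := Finset.card_filter_add_card_filter_not (s := S1)
      (p := fun j => ∃ i ∈ T, w (wd (q j) (p i)) ≤ exp (-(3 * (ε * r))))
    rw [← hS3] at h2
    omega
  obtain ⟨S4, hS4, hS4c⟩ := Finset.exists_subset_card_eq
    (show d ^ 8 + d ^ 8 - 12 ≤ S3.card by omega)
  -- step 7: all the points
  have hcard : Fintype.card (S4 ⊕ T) = d ^ 8 + d ^ 8 := by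
    rw [Fintype.card_sum, Fintype.card_coe, Fintype.card_coe, hS4c, hTc]; omega
  set e := Fintype.equivFinOfCardEq hcard with he
  set Z : S4 ⊕ T → Fin 2 → L := Sum.elim (fun s => q s) (fun i => p i) with hZ
  set χ : S4 ⊕ T → ℝ := Sum.elim (fun _ => 0) (fun _ => 1) with hχ
  have hS4S : ∀ s ∈ S4, s ∈ S := fun s hs => hS1S (hS3S1 (hS4 hs))
  have hTS : ∀ s ∈ T, s ∈ S := fun s hs => hS1S (hS2S1 (hTS2 hs))
  have hZnv : ∀ s, nv w (Z s) = 1 := by
    rintro (s | s)
    · exact hq _ (hS4S _ s.2)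
    · exact hc1 _ (hTS _ s.2)
  have hZsep : ∀ a b, a ≠ b → exp (-(χ a * χ b * A3 + 3 * (ε * r))) ≤ w (wd (Z a) (Z b)) := by
    rintro (a | a) (b | b) hab
    · simp only [hχ, hZ, Sum.elim_inl, zero_mul, zero_add]
      refine le_trans ?_ (hsep _ (hS4S _ a.2) _ (hS4S _ b.2) (fun h => hab (by
        rw [Subtype.ext h])))
      exact Real.exp_le_exp.2 (by linarith)
    · simp only [hχ, hZ, Sum.elim_inl, Sum.elim_inr, zero_mul, zero_add]
      have h1 := (Finset.mem_filter.1 (hS4 a.2)).2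
      push Not at h1
      exact (h1 _ b.2).le
    · simp only [hχ, hZ, Sum.elim_inl, Sum.elim_inr, mul_zero, zero_mul, zero_add]
      have h1 := (Finset.mem_filter.1 (hS4 b.2)).2
      push Not at h1
      rw [w_wd_comm]
      exact (h1 _ a.2).le
    · simp only [hχ, hZ, Sum.elim_inr, one_mul]
      have h1 := not_le.1 (hT _ a.2 _ b.2 (fun h => hab (by rw [Subtype.ext h])))
      refine le_trans ?_ h1.le
      exact Real.exp_le_exp.2 (by linarith)
  have main := vand_log h hG hn 8 (fun i => Z (e.symm i)) (fun i => hZnv _)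
    (fun i j => χ (e.symm i) * χ (e.symm j) * A3 + 3 * (ε * r))
    (fun i j hij => hZsep _ _ (fun h => hij (e.symm.injective h)))
  rw [← hrdef] at main
  -- the sums
  have hχ0 : ∀ s, 0 ≤ χ s := by
    rintro (s | s)
    · exact le_refl (0 : ℝ)
    · exact zero_le_one
  have hsumχ : ∑ i, χ (e.symm i) = 12 := by
    rw [Equiv.sum_comp e.symm χ, Fintype.sum_sum_type]
    simp [hχ, hTc]
  have hsum1 : ∑ i, ∑ j ∈ Finset.Ioi i, (χ (e.symm i) * χ (e.symm j) * A3 + 3 * (ε * r)) ≤
      144 * A3 + 12 * ((d : ℝ) ^ 8) ^ 2 * (ε * r) := by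
    calc ∑ i, ∑ j ∈ Finset.Ioi i, (χ (e.symm i) * χ (e.symm j) * A3 + 3 * (ε * r))
        ≤ ∑ i, ∑ j, (χ (e.symm i) * χ (e.symm j) * A3 + 3 * (ε * r)) := by
          apply Finset.sum_le_sum
          intro i _
          apply Finset.sum_le_sum_of_subset_of_nonneg (Finset.subset_univ _)
          intro j _ _
          have := mul_nonneg (mul_nonneg (hχ0 (e.symm i)) (hχ0 (e.symm j))) hA3pos
          linarith
      _ = ∑ i, (χ (e.symm i) * 12 * A3 + (d ^ 8 + d ^ 8 : ℕ) * (3 * (ε * r))) := by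
          apply Finset.sum_congr rfl
          intro i _
          rw [Finset.sum_add_distrib, ← Finset.sum_mul, ← Finset.mul_sum, hsumχ, Finset.sum_const,
            Finset.card_univ, Fintype.card_fin, nsmul_eq_mul]
      _ = 144 * A3 + 12 * ((d : ℝ) ^ 8) ^ 2 * (ε * r) := by
          rw [Finset.sum_add_distrib, ← Finset.sum_mul, ← Finset.sum_mul, hsumχ, Finset.sum_const,
            Finset.card_univ, Fintype.card_fin, nsmul_eq_mul]
          push_cast
          ring
  have hsum2 : (2 * (d : ℝ) ^ 8 - 12) * κ₀ + 12 * (d * κ₀ - (N2 + 2) * (ε * r)) ≤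
      ∑ i, ht w d G (Z (e.symm i)) := by
    rw [Equiv.sum_comp e.symm (fun s => ht w d G (Z s)), Fintype.sum_sum_type]
    apply add_le_add
    · calc (2 * (d : ℝ) ^ 8 - 12) * κ₀ = ∑ _s : S4, κ₀ := by
            rw [Finset.sum_const, Finset.card_univ, Fintype.card_coe, hS4c, nsmul_eq_mul,
              Nat.cast_sub (by omega)]
            push_cast
            ring
        _ ≤ _ := Finset.sum_le_sum fun s _ => (Finset.mem_filter.1 (hS3S1 (hS4 s.2))).2
    · calc 12 * (d * κ₀ - (N2 + 2) * (ε * r)) = ∑ _s : T, (d * κ₀ - (N2 + 2) * (ε * r)) := by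
            rw [Finset.sum_const, Finset.card_univ, Fintype.card_coe, hTc, nsmul_eq_mul]
            norm_num
        _ ≤ _ := Finset.sum_le_sum fun s _ => hpht _ (hTS2 s.2)
  have hsum3 : ∑ i, (-((d : ℝ) ^ 8 * ht w d G (Z (e.symm i))) +
      (r + t * log ((2 * d).factorial)) / (d - 1)) ≤
      -((d : ℝ) ^ 8 * ((2 * (d : ℝ) ^ 8 - 12) * κ₀ + 12 * (d * κ₀ - (N2 + 2) * (ε * r)))) +
        2 * (d : ℝ) ^ 8 * ((1 + ε) * r / (d - 1)) := by
    rw [Finset.sum_add_distrib, Finset.sum_neg_distrib, ← Finset.mul_sum, Finset.sum_const,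
      Finset.card_univ, Fintype.card_fin, nsmul_eq_mul]
    have h1 : (0 : ℝ) ≤ (d : ℝ) ^ 8 := by positivity
    have h2 := mul_le_mul_of_nonneg_left hsum2 h1
    have h3 : (r + t * log ((2 * d).factorial)) / (d - 1) ≤ (1 + ε) * r / (d - 1) := by
      apply div_le_div_of_nonneg_right _ hd1.le
      have := hlog _ (Nat.factorial_pos _) f2
      linarith
    have h4 := mul_le_mul_of_nonneg_left h3 (by positivity : (0 : ℝ) ≤ 2 * (d : ℝ) ^ 8)
    push_cast
    linarith
  have heR : (d : ℝ) * (d - 1) * (eR d 8) = (d : ℝ) ^ 8 * ((d : ℝ) ^ 8 - 1) := by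
    have h1 := congrArg (fun n : ℕ => (n : ℝ)) (eR_formula d 8)
    simp only [Nat.cast_mul] at h1
    rw [Nat.cast_sub (by omega), Nat.cast_sub (by omega)] at h1
    push_cast at h1
    exact h1
  refine final_arith d ((d : ℝ) ^ 8) ε r (eR d 8) hd (by exact_mod_cast hD256)
    (by exact_mod_cast hdD) hε hε0 hr heR ?_
  rw [← hN2, ← hκ₀]
  have h5 := ht1
  rw [hA3] at hsum1
  linarith

end

end Pool.Agent.Lib_helper95.FP
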