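import Pool.Agent.Lib_helper95.FP.Conj

/-!
# Scaling and field extension
-/

set_option autoImplicit false

namespace Pool.Agent.Lib_helper95.FP

open Polynomial Real

section scale

variable {L : Type*} [Field L]

/-- The pair of forms multiplied with a constant. -/
noncomputable def sc (c : L) (F : Fin 2 → L[X]) : Fin 2 → L[X] := fun i => C c * F i

theorem hmap_sc (d : ℕ) (c : L) (F : Fin 2 → L[X]) (x : Fin 2 → L) :
    hmap d (sc c F) x = fun i => c * hmap d F x i := by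
  funext i
  exact hev_C_mul d c (F i) x

theorem nF_sc (w : AbsoluteValue L ℝ) (d : ℕ) (c : L) (F : Fin 2 → L[X]) :
    nF w d (sc c F) = w c * nF w d F := by
  apply le_antisymm
  · apply nF_le
    intro i j hj
    rw [sc, coeff_C_mul, map_mul]
    exact mul_le_mul_of_nonneg_left (le_nF w d F i j hj) (w.nonneg _)
  · obtain ⟨i, j, hj, h⟩ := exists_nF w d F
    rw [h, ← map_mul, ← coeff_C_mul]
    exact le_nF w d (sc c F) i j hj

theorem res_sc (d : ℕ) (c : L) (F : Fin 2 → L[X]) : res d (sc c F) = c ^ (2 * d) * res d F := by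
  unfold res sc
  rw [resultant_C_mul_left, resultant_C_mul_right, two_mul, pow_add]
  ring

theorem Good.sc {d : ℕ} {F : Fin 2 → L[X]} (hG : Good d F) {c : L} (hc : c ≠ 0) :
    Good d (sc c F) where
  two_le := hG.two_le
  deg := fun i => (Polynomial.natDegree_C_mul_le _ _).trans (hG.deg i)
  res_ne := by
    rw [res_sc]
    exact mul_ne_zero (pow_ne_zero _ hc) hG.res_ne

theorem RR_sc (w : AbsoluteValue L ℝ) {d : ℕ} {F : Fin 2 → L[X]} (hG : Good d F) {c : L}
    (hc : c ≠ 0) : RR w d (Pool.Agent.Lib_helper95.FP.sc c F) = RR w d F := by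
  unfold RR
  rw [nF_sc, res_sc, map_mul, map_pow, Real.log_mul (w.pos hc).ne' (nF_pos hG).ne',
    Real.log_mul (pow_ne_zero _ (w.pos hc).ne') (w.pos hG.res_ne).ne', Real.log_pow]
  push_cast
  ring

theorem HH_sc (w : AbsoluteValue L ℝ) {d : ℕ} {F : Fin 2 → L[X]} (hG : Good d F) {c : L}
    (hc : c ≠ 0) (x : Fin 2 → L) (hx : x ≠ 0) :
    HH w d (Pool.Agent.Lib_helper95.FP.sc c F) x = HH w d F x + log (w c) / (d - 1) := by
  have hd : (1 : ℝ) < d := by exact_mod_cast (lt_of_lt_of_le one_lt_two hG.two_le)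
  have hd1 : (d : ℝ) - 1 ≠ 0 := by linarith
  have hw : w c ≠ 0 := (w.pos hc).ne'
  have hlt : ∀ n : ℕ, lt w d (Pool.Agent.Lib_helper95.FP.sc c F)
      ((hmap d (Pool.Agent.Lib_helper95.FP.sc c F))^[n] x) = lt w d F ((hmap d F)^[n] x) := by
    intro n
    have hit : ∃ e : L, e ≠ 0 ∧ (hmap d (Pool.Agent.Lib_helper95.FP.sc c F))^[n] x =
        fun i => e * ((hmap d F)^[n] x) i := by
      induction n with
      | zero => exact ⟨1, one_ne_zero, by funext i; simp⟩
      | succ n ih =>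
        obtain ⟨e, he, h⟩ := ih
        refine ⟨c * e ^ d, mul_ne_zero hc (pow_ne_zero _ he), ?_⟩
        rw [Function.iterate_succ_apply', h, Function.iterate_succ_apply', hmap_sc, hmap_smul]
        funext i
        ring
    obtain ⟨e, he, h⟩ := hit
    rw [h]
    have hn := iter_ne_zero hG w n x hx
    have h1 : nv w ((hmap d F)^[n] x) ≠ 0 := (nv_pos w _ hn).ne'
    have h2 : nv w (hmap d F ((hmap d F)^[n] x)) ≠ 0 :=
      (nv_pos w _ (hmap_ne_zero d (by have := hG.two_le; omega) F hG.deg w hG.res_ne _ hn)).ne'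
    have e3 : hmap d (Pool.Agent.Lib_helper95.FP.sc c F) (fun i => e * ((hmap d F)^[n] x) i) =
        fun i => (c * e ^ d) * hmap d F ((hmap d F)^[n] x) i := by
      rw [hmap_sc, hmap_smul]
      funext i
      ring
    unfold lt
    rw [e3, nF_sc, nv_smul, nv_smul, map_mul, map_pow, Real.log_mul (w.pos he).ne' h1,
      Real.log_mul (mul_ne_zero hw (pow_ne_zero _ (w.pos he).ne')) h2,
      Real.log_mul hw (pow_ne_zero _ (w.pos he).ne'), Real.log_pow,
      Real.log_mul hw (nF_pos hG).ne']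
    ring
  have e1 : ht w d (Pool.Agent.Lib_helper95.FP.sc c F) x = ht w d F x := by
    unfold ht
    apply tsum_congr
    intro n
    rw [hlt n]
  unfold HH
  rw [e1, nF_sc, Real.log_mul hw (nF_pos hG).ne']
  ring

theorem gg_sc (w : AbsoluteValue L ℝ) {d : ℕ} {F : Fin 2 → L[X]} (hG : Good d F) {c : L}
    (hc : c ≠ 0) (x y : Fin 2 → L) (hxy : wd x y ≠ 0) :
    gg w d (Pool.Agent.Lib_helper95.FP.sc c F) x y = gg w d F x y := by
  have hd : (1 : ℝ) < d := by exact_mod_cast (lt_of_lt_of_le one_lt_two hG.two_le)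
  have hd1 : (d : ℝ) - 1 ≠ 0 := by linarith
  have hd0 : (d : ℝ) ≠ 0 := by linarith
  unfold gg
  rw [HH_sc w hG hc x (ne_zero_of_wd hxy), HH_sc w hG hc y (ne_zero_of_wd' hxy), res_sc, map_mul,
    map_pow, Real.log_mul (pow_ne_zero _ (w.pos hc).ne') (w.pos hG.res_ne).ne', Real.log_pow]
  push_cast
  field_simp
  ring

/-- Normalisation of the coefficients. -/
theorem exists_sc (w : AbsoluteValue L ℝ) {d : ℕ} {F : Fin 2 → L[X]} (hG : Good d F) :
    ∃ c : L, c ≠ 0 ∧ nF w d (Pool.Agent.Lib_helper95.FP.sc c F) = 1 := by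
  obtain ⟨i, j, hj, h⟩ := exists_nF w d F
  have hp := nF_pos (w := w) hG
  have hne : (F i).coeff j ≠ 0 := by
    intro h0
    rw [h0, map_zero] at h
    linarith
  refine ⟨((F i).coeff j)⁻¹, inv_ne_zero hne, ?_⟩
  rw [nF_sc, h, map_inv₀, inv_mul_cancel₀ (w.pos hne).ne']

/-- Normalisation of a vector. -/
theorem exists_norm_one (w : AbsoluteValue L ℝ) (x : Fin 2 → L) (hx : x ≠ 0) :
    ∃ c : L, c ≠ 0 ∧ nv w (fun i => c * x i) = 1 ∧ (c * x 0 = 1 ∨ c * x 1 = 1) := by
  have hp := nv_pos w x hx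
  rcases le_total (w (x 0)) (w (x 1)) with h | h
  · have e : nv w x = w (x 1) := max_eq_right h
    have hne : x 1 ≠ 0 := by
      intro h0
      rw [h0, map_zero] at e
      linarith
    refine ⟨(x 1)⁻¹, inv_ne_zero hne, ?_, Or.inr (inv_mul_cancel₀ hne)⟩
    rw [nv_smul, e, map_inv₀, inv_mul_cancel₀ (w.pos hne).ne']
  · have e : nv w x = w (x 0) := max_eq_left h
    have hne : x 0 ≠ 0 := by
      intro h0
      rw [h0, map_zero] at e
      linarith
    refine ⟨(x 0)⁻¹, inv_ne_zero hne, ?_, Or.inl (inv_mul_cancel₀ hne)⟩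
    rw [nv_smul, e, map_inv₀, inv_mul_cancel₀ (w.pos hne).ne']

end scale

section ext

variable {K L : Type*} [Field K] [Field L]

/-- The pair of forms over a larger field. -/
noncomputable def mp (φ : K →+* L) (F : Fin 2 → K[X]) : Fin 2 → L[X] := fun i => (F i).map φ

theorem hmap_mp (φ : K →+* L) (d : ℕ) (F : Fin 2 → K[X]) (x : Fin 2 → K) :
    hmap d (mp φ F) (fun i => φ (x i)) = fun i => φ (hmap d F x i) := by
  funext i
  exact hev_map φ d (F i) x

theorem iter_mp (φ : K →+* L) (d : ℕ) (F : Fin 2 → K[X]) (x : Fin 2 → K) (n : ℕ) :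
    (hmap d (mp φ F))^[n] (fun i => φ (x i)) = fun i => φ ((hmap d F)^[n] x i) := by
  induction n with
  | zero => rfl
  | succ n ih => rw [Function.iterate_succ_apply', ih, hmap_mp, Function.iterate_succ_apply']

theorem nv_mp {v : AbsoluteValue K ℝ} {w : AbsoluteValue L ℝ} {φ : K →+* L}
    (h : ∀ a, w (φ a) = v a) (x : Fin 2 → K) : nv w (fun i => φ (x i)) = nv v x := by
  unfold nv
  rw [h, h]

theorem nF_mp {v : AbsoluteValue K ℝ} {w : AbsoluteValue L ℝ} {φ : K →+* L}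
    (h : ∀ a, w (φ a) = v a) (d : ℕ) (F : Fin 2 → K[X]) : nF w d (mp φ F) = nF v d F := by
  unfold nF mp
  congr 1
  funext ij
  rw [coeff_map, h]

theorem res_mp (φ : K →+* L) (d : ℕ) (F : Fin 2 → K[X]) : res d (mp φ F) = φ (res d F) := by
  unfold res mp
  rw [resultant_map_map]

theorem Good.mp {d : ℕ} {F : Fin 2 → K[X]} (hG : Good d F) (φ : K →+* L) : Good d (mp φ F) where
  two_le := hG.two_le
  deg := fun i => (Polynomial.natDegree_map_le).trans (hG.deg i)
  res_ne := by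
    rw [res_mp]
    exact (map_ne_zero φ).2 hG.res_ne

theorem wd_mp (φ : K →+* L) (x y : Fin 2 → K) :
    wd (fun i => φ (x i)) (fun i => φ (y i)) = φ (wd x y) := by
  unfold wd
  rw [map_sub, map_mul, map_mul]

theorem RR_mp {v : AbsoluteValue K ℝ} {w : AbsoluteValue L ℝ} {φ : K →+* L}
    (h : ∀ a, w (φ a) = v a) (d : ℕ) (F : Fin 2 → K[X]) : RR w d (mp φ F) = RR v d F := by
  unfold RR
  rw [nF_mp h, res_mp, h]

theorem lt_mp {v : AbsoluteValue K ℝ} {w : AbsoluteValue L ℝ} {φ : K →+* L}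
    (h : ∀ a, w (φ a) = v a) (d : ℕ) (F : Fin 2 → K[X]) (x : Fin 2 → K) :
    lt w d (mp φ F) (fun i => φ (x i)) = lt v d F x := by
  unfold lt
  rw [nF_mp h, nv_mp h, hmap_mp, nv_mp h]

theorem ht_mp {v : AbsoluteValue K ℝ} {w : AbsoluteValue L ℝ} {φ : K →+* L}
    (h : ∀ a, w (φ a) = v a) (d : ℕ) (F : Fin 2 → K[X]) (x : Fin 2 → K) :
    ht w d (mp φ F) (fun i => φ (x i)) = ht v d F x := by
  unfold ht
  apply tsum_congr
  intro n
  rw [iter_mp, lt_mp h]

theorem HH_mp {v : AbsoluteValue K ℝ} {w : AbsoluteValue L ℝ} {φ : K →+* L}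
    (h : ∀ a, w (φ a) = v a) (d : ℕ) (F : Fin 2 → K[X]) (x : Fin 2 → K) :
    HH w d (mp φ F) (fun i => φ (x i)) = HH v d F x := by
  unfold HH
  rw [nv_mp h, ht_mp h, nF_mp h]

theorem gg_mp {v : AbsoluteValue K ℝ} {w : AbsoluteValue L ℝ} {φ : K →+* L}
    (h : ∀ a, w (φ a) = v a) (d : ℕ) (F : Fin 2 → K[X]) (x y : Fin 2 → K) :
    gg w d (mp φ F) (fun i => φ (x i)) (fun i => φ (y i)) = gg v d F x y := by
  unfold gg
  rw [HH_mp h, HH_mp h, wd_mp, h, res_mp, h]

theorem nonarch_of_natCast (w : AbsoluteValue L ℝ) (h : ∀ n : ℕ, w (n : L) ≤ 1) :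
    IsNonarchimedean w := by
  letI : NormedField L := w.toNormedField
  have h2 : IsUltrametricDist L :=
    IsUltrametricDist.isUltrametricDist_of_forall_norm_natCast_le_one (R := L) h
  exact IsUltrametricDist.isNonarchimedean_norm (R := L)

theorem nonarch_ext {v : AbsoluteValue K ℝ} {w : AbsoluteValue L ℝ} {φ : K →+* L}
    (h : ∀ a, w (φ a) = v a) (hv : IsNonarchimedean v) : IsNonarchimedean w := by
  apply nonarch_of_natCast
  intro n
  rw [← map_natCast φ n, h]
  exact IsNonarchimedean.apply_natCast_le_one hv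

end ext

end Pool.Agent.Lib_helper95.FP
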