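import Pool.Agent.Lib_helper95.FP.Interp

/-!
# The determinant inequality for an iterate
-/

set_option autoImplicit false

namespace Pool.Agent.Lib_helper95.FP

open Polynomial Real

section

variable {L : Type*} [Field L]

theorem w_res_pit (w : AbsoluteValue L ℝ) (d : ℕ) (F : Fin 2 → L[X])
    (hF : ∀ i, (F i).natDegree ≤ d) (k : ℕ) :
    w (res (d ^ k) (pit d F k)) = w (res d F) ^ eR d k := by
  have h := congrArg w (res_pit d F hF k)
  rw [map_pow, map_pow, map_pow] at h
  exact (pow_left_inj₀ (w.nonneg _) (pow_nonneg (w.nonneg _) _) two_ne_zero).1 h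

theorem vand_log {w : AbsoluteValue L ℝ} {t : ℕ} (h : SB w t) {d : ℕ} {G : Fin 2 → L[X]}
    (hG : Good d G) (hn : nF w d G = 1) (k : ℕ) (z : Fin (d ^ k + d ^ k) → Fin 2 → L)
    (hz : ∀ i, nv w (z i) = 1) (a : Fin (d ^ k + d ^ k) → Fin (d ^ k + d ^ k) → ℝ)
    (ha : ∀ i j, i ≠ j → exp (-(a i j)) ≤ w (wd (z i) (z j))) :
    -(∑ i, ∑ j ∈ Finset.Ioi i, a i j) - (eR d k) * RR w d G ≤
      t * log ((d ^ k + d ^ k).factorial) +
        ∑ i, (-((d : ℝ) ^ k * ht w d G (z i)) +
          (RR w d G + t * log ((2 * d).factorial)) / (d - 1)) := by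
  have hne : ∀ i, z i ≠ 0 := by
    intro i h0
    have := hz i
    rw [h0] at this
    simp [nv] at this
  have hr : 0 < w (res d G) := w.pos hG.res_ne
  have hRR : RR w d G = - log (w (res d G)) := by
    unfold RR
    rw [hn, Real.log_one]; ring
  have hdet := congrArg w (det_sylv_vand (d ^ k) (pit d G k) (natDegree_pit d G hG.deg k) z)
  rw [map_mul, w_res_pit w d G hG.deg k] at hdet
  have hup := det_le_row h (Matrix.of fun (i j : Fin (d ^ k + d ^ k)) =>
      Fin.addCases (motive := fun _ => L)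
        (fun j₁ : Fin (d ^ k) => z i 0 ^ (j₁ : ℕ) * z i 1 ^ (d ^ k - 1 - j₁) *
          hmap (d ^ k) (pit d G k) (z i) 1)
        (fun j₁ : Fin (d ^ k) => z i 0 ^ (j₁ : ℕ) * z i 1 ^ (d ^ k - 1 - j₁) *
          hmap (d ^ k) (pit d G k) (z i) 0) j)
      (fun i => nv w ((hmap d G)^[k] (z i))) (by
    intro i j
    have hm : ∀ a b : ℕ, ∀ c : Fin 2, w (z i 0 ^ a * z i 1 ^ b *
        hmap (d ^ k) (pit d G k) (z i) c) ≤ nv w ((hmap d G)^[k] (z i)) := by
      intro a b c
      rw [hmap_pit d G hG.deg k, map_mul, map_mul, map_pow, map_pow]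
      have h0 : w (z i 0) ≤ 1 := (le_nv w (z i) 0).trans (hz i).le
      have h1 : w (z i 1) ≤ 1 := (le_nv w (z i) 1).trans (hz i).le
      have h2 : w (z i 0) ^ a * w (z i 1) ^ b ≤ 1 :=
        mul_le_one₀ (pow_le_one₀ (w.nonneg _) h0) (pow_nonneg (w.nonneg _) _)
          (pow_le_one₀ (w.nonneg _) h1)
      calc w (z i 0) ^ a * w (z i 1) ^ b * w ((hmap d G)^[k] (z i) c)
          ≤ 1 * nv w ((hmap d G)^[k] (z i)) :=
            mul_le_mul h2 (le_nv w _ c) (w.nonneg _) zero_le_one
        _ = _ := one_mul _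
    rw [Matrix.of_apply]
    induction j using Fin.addCases with
    | left j₁ => rw [Fin.addCases_left]; exact hm _ _ _
    | right j₁ => rw [Fin.addCases_right]; exact hm _ _ _)
  rw [← hdet] at hup
  -- the lower bound
  have hlow : exp (-(∑ i, ∑ j ∈ Finset.Ioi i, a i j)) ≤
      w (∏ i : Fin (d ^ k + d ^ k), ∏ j ∈ Finset.Ioi i, (z j 0 * z i 1 - z i 0 * z j 1)) := by
    rw [map_prod, ← Finset.sum_neg_distrib, Real.exp_sum]
    apply Finset.prod_le_prod (fun i _ => (exp_pos _).le)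
    intro i _
    rw [map_prod, ← Finset.sum_neg_distrib, Real.exp_sum]
    apply Finset.prod_le_prod (fun i _ => (exp_pos _).le)
    intro j hj
    have hij : i ≠ j := (Finset.mem_Ioi.1 hj).ne
    have e2 : z j 0 * z i 1 - z i 0 * z j 1 = - wd (z i) (z j) := by unfold wd; ring
    rw [e2, w.map_neg]
    exact ha i j hij
  have hres : exp (-(eR d k * RR w d G)) = w (res d G) ^ eR d k := by
    rw [hRR, mul_neg, neg_neg, ← Real.log_pow, Real.exp_log (pow_pos hr _)]
  have hB : ∀ i, nv w ((hmap d G)^[k] (z i)) ≤ exp (-((d : ℝ) ^ k * ht w d G (z i)) +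
          (RR w d G + t * log ((2 * d).factorial)) / (d - 1)) := by
    intro i
    have hpos : 0 < nv w ((hmap d G)^[k] (z i)) := nv_pos w _ (iter_ne_zero hG w k _ (hne i))
    rw [← Real.log_le_iff_le_exp hpos, log_nv_iter hG k _ (hne i)]
    have h1 := ht_le h hG _ (iter_ne_zero hG w k _ (hne i))
    have h2 : HH w d G (z i) = - ht w d G (z i) := by
      unfold HH
      rw [hz i, hn, Real.log_one]; ring
    rw [h2, hn, Real.log_one, zero_div]
    linarith
  have hfac : (0 : ℝ) < (d ^ k + d ^ k).factorial := by exact_mod_cast Nat.factorial_pos _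
  have hfin : exp (-(∑ i, ∑ j ∈ Finset.Ioi i, a i j) + -(eR d k * RR w d G)) ≤
      exp (t * log ((d ^ k + d ^ k).factorial) +
        ∑ i, (-((d : ℝ) ^ k * ht w d G (z i)) +
          (RR w d G + t * log ((2 * d).factorial)) / (d - 1))) := by
    rw [Real.exp_add, hres]
    refine (mul_le_mul_of_nonneg_right hlow (pow_nonneg (w.nonneg _) _)).trans ?_
    refine hup.trans ?_
    rw [Real.exp_add, ← Real.log_pow, Real.exp_log (pow_pos hfac t), Real.exp_sum]
    exact mul_le_mul_of_nonneg_left (Finset.prod_le_prod (fun i _ => nv_nonneg w _)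
      fun i _ => hB i) (pow_nonneg hfac.le _)
  have := Real.exp_le_exp.1 hfin
  linarith

end

end Pool.Agent.Lib_helper95.FP
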