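import Pool.Agent.Lib_helper95.FP.Cauchy
import Pool.Agent.Lib_helper95.FP.Vand

/-!
# The lower bound for the sum of the Green's function over all pairs
-/

set_option autoImplicit false

namespace Pool.Agent.Lib_helper95.FP

open Polynomial Real

section

variable {L : Type*} [Field L]

theorem bracket_le_aux {w : AbsoluteValue L ℝ} {t : ℕ} (h : SB w t) (d a s : ℕ) (has : a + s ≤ d)
    (u v : Fin 2 → L) :
    w (u 0 ^ (a + s) * u 1 ^ (d - (a + s)) * (v 0 ^ a * v 1 ^ (d - a)) -
      u 0 ^ a * u 1 ^ (d - a) * (v 0 ^ (a + s) * v 1 ^ (d - (a + s)))) ≤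
      (d : ℝ) ^ t * ((nv w u * nv w v) ^ (d - 1) * w (wd u v)) := by
  have hnu := nv_nonneg w u
  have hnv := nv_nonneg w v
  rcases Nat.eq_zero_or_pos s with hs | hs
  · subst hs
    rw [add_zero, sub_eq_zero_of_eq (by ring), map_zero]
    have := w.nonneg (wd u v)
    positivity
  have e1 : u 0 ^ (a + s) * u 1 ^ (d - (a + s)) * (v 0 ^ a * v 1 ^ (d - a)) -
      u 0 ^ a * u 1 ^ (d - a) * (v 0 ^ (a + s) * v 1 ^ (d - (a + s))) =
      ∑ i ∈ Finset.range s, (u 0 ^ a * u 1 ^ (d - (a + s)) * (v 0 ^ a * v 1 ^ (d - (a + s))) *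
        ((u 0 * v 1) ^ i * (u 1 * v 0) ^ (s - 1 - i)) * wd u v) := by
    have e2 : v 1 ^ (d - a) = v 1 ^ (d - (a + s)) * v 1 ^ s := by rw [← pow_add]; congr 1; omega
    have e3 : u 1 ^ (d - a) = u 1 ^ (d - (a + s)) * u 1 ^ s := by rw [← pow_add]; congr 1; omega
    have e4 := (Commute.all (u 0 * v 1) (u 1 * v 0)).geom_sum₂_mul s
    rw [← Finset.sum_mul, ← Finset.mul_sum, e2, e3, pow_add, pow_add]
    have e5 : wd u v = u 0 * v 1 - u 1 * v 0 := rfl
    rw [e5, mul_assoc (u 0 ^ a * u 1 ^ (d - (a + s)) * (v 0 ^ a * v 1 ^ (d - (a + s)))), e4,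
      mul_pow, mul_pow]
    ring
  rw [e1]
  have h1 := h.finset (Finset.range s) (fun i => u 0 ^ a * u 1 ^ (d - (a + s)) *
    (v 0 ^ a * v 1 ^ (d - (a + s))) * ((u 0 * v 1) ^ i * (u 1 * v 0) ^ (s - 1 - i)) * wd u v)
    ((nv w u * nv w v) ^ (d - 1) * w (wd u v))
    (by have := w.nonneg (wd u v); positivity) (by
      intro i hi
      have hi' := Finset.mem_range.1 hi
      rw [map_mul]
      apply mul_le_mul_of_nonneg_right _ (w.nonneg _)
      simp only [map_mul, map_pow]
      have hu0 := le_nv w u 0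
      have hu1 := le_nv w u 1
      have hv0 := le_nv w v 0
      have hv1 := le_nv w v 1
      have p0 := w.nonneg (u 0)
      have p1 := w.nonneg (u 1)
      have q0 := w.nonneg (v 0)
      have q1 := w.nonneg (v 1)
      calc w (u 0) ^ a * w (u 1) ^ (d - (a + s)) * (w (v 0) ^ a * w (v 1) ^ (d - (a + s))) *
            ((w (u 0) * w (v 1)) ^ i * (w (u 1) * w (v 0)) ^ (s - 1 - i))
          ≤ nv w u ^ a * nv w u ^ (d - (a + s)) * (nv w v ^ a * nv w v ^ (d - (a + s))) *
            ((nv w u * nv w v) ^ i * (nv w u * nv w v) ^ (s - 1 - i)) := by gcongr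
        _ = (nv w u * nv w v) ^ (a + (d - (a + s)) + i + (s - 1 - i)) := by
            simp only [mul_pow, pow_add]; ring
        _ = (nv w u * nv w v) ^ (d - 1) := by congr 1; omega)
  rw [Finset.card_range] at h1
  refine h1.trans ?_
  apply mul_le_mul_of_nonneg_right _ (by have := w.nonneg (wd u v); positivity)
  exact pow_le_pow_left₀ (Nat.cast_nonneg s) (by exact_mod_cast (by omega : s ≤ d)) t

theorem bracket_le {w : AbsoluteValue L ℝ} {t : ℕ} (h : SB w t) (d a b : ℕ) (ha : a ≤ d)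
    (hb : b ≤ d) (u v : Fin 2 → L) :
    w (u 0 ^ a * u 1 ^ (d - a) * (v 0 ^ b * v 1 ^ (d - b)) -
      u 0 ^ b * u 1 ^ (d - b) * (v 0 ^ a * v 1 ^ (d - a))) ≤
      (d : ℝ) ^ t * ((nv w u * nv w v) ^ (d - 1) * w (wd u v)) := by
  rcases le_total b a with hab | hab
  · obtain ⟨s, rfl⟩ := Nat.exists_eq_add_of_le hab
    exact bracket_le_aux h d b s ha u v
  · obtain ⟨s, rfl⟩ := Nat.exists_eq_add_of_le hab
    have := bracket_le_aux h d a s hb u v
    rw [← w.map_neg] at this
    refine le_trans (le_of_eq ?_) this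
    congr 1
    ring

theorem wd_hmap_le {w : AbsoluteValue L ℝ} {t : ℕ} (h : SB w t) (d : ℕ) (F : Fin 2 → L[X])
    (u v : Fin 2 → L) :
    w (wd (hmap d F u) (hmap d F v)) ≤ (((d + 1) * (d + 1) * d : ℕ) : ℝ) ^ t *
      (nF w d F ^ 2 * ((nv w u * nv w v) ^ (d - 1) * w (wd u v))) := by
  have e : wd (hmap d F u) (hmap d F v) =
      ∑ ab ∈ Finset.range (d + 1) ×ˢ Finset.range (d + 1),
        (F 0).coeff ab.1 * (F 1).coeff ab.2 *
          (u 0 ^ ab.1 * u 1 ^ (d - ab.1) * (v 0 ^ ab.2 * v 1 ^ (d - ab.2)) -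
            u 0 ^ ab.2 * u 1 ^ (d - ab.2) * (v 0 ^ ab.1 * v 1 ^ (d - ab.1))) := by
    rw [Finset.sum_product]
    unfold wd hmap hev
    rw [Finset.sum_mul_sum, Finset.sum_mul_sum, Finset.sum_comm (f := fun i j =>
      (F 1).coeff i * u 0 ^ i * u 1 ^ (d - i) * ((F 0).coeff j * v 0 ^ j * v 1 ^ (d - j))),
      ← Finset.sum_sub_distrib]
    apply Finset.sum_congr rfl
    intro a _
    rw [← Finset.sum_sub_distrib]
    apply Finset.sum_congr rfl
    intro b _
    ring
  rw [e]
  have hn := nF_nonneg w d F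
  have hu := nv_nonneg w u
  have hv := nv_nonneg w v
  have hw := w.nonneg (wd u v)
  have h1 := h.finset (Finset.range (d + 1) ×ˢ Finset.range (d + 1)) (fun ab : ℕ × ℕ =>
        (F 0).coeff ab.1 * (F 1).coeff ab.2 *
          (u 0 ^ ab.1 * u 1 ^ (d - ab.1) * (v 0 ^ ab.2 * v 1 ^ (d - ab.2)) -
            u 0 ^ ab.2 * u 1 ^ (d - ab.2) * (v 0 ^ ab.1 * v 1 ^ (d - ab.1))))
    (nF w d F ^ 2 * ((d : ℝ) ^ t * ((nv w u * nv w v) ^ (d - 1) * w (wd u v)))) (by positivity) (by
      rintro ⟨a, b⟩ hab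
      rw [Finset.mem_product, Finset.mem_range, Finset.mem_range] at hab
      have ha : a ≤ d := by omega
      have hb : b ≤ d := by omega
      simp only
      rw [map_mul, map_mul]
      apply mul_le_mul _ (bracket_le h d a b ha hb u v) (w.nonneg _) (by positivity)
      rw [sq]
      exact mul_le_mul (le_nF w d F 0 a ha) (le_nF w d F 1 b hb) (w.nonneg _) hn)
  rw [Finset.card_product, Finset.card_range] at h1
  refine h1.trans (le_of_eq ?_)
  push_cast
  rw [mul_pow ((d + 1 : ℝ) * (d + 1))]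
  ring

/-- The constant of one step. -/
noncomputable def stepE (w : AbsoluteValue L ℝ) (t d : ℕ) (F : Fin 2 → L[X]) : ℝ :=
  t * log ((d + 1) * (d + 1) * d : ℕ) + 2 * (RR w d F + t * log ((2 * d).factorial))

theorem step_le {w : AbsoluteValue L ℝ} {t : ℕ} (h : SB w t) {d : ℕ} {F : Fin 2 → L[X]}
    (hG : Good d F) (u v : Fin 2 → L) (hu : u ≠ 0) (hv : v ≠ 0) :
    w (wd (hmap d F u) (hmap d F v)) * (nv w u * nv w v) ≤
      w (wd u v) * exp (stepE w t d F) * (nv w (hmap d F u) * nv w (hmap d F v)) := by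
  have hd2 := hG.two_le
  have h1 := wd_hmap_le h d F u v
  have key : ∀ x : Fin 2 → L, x ≠ 0 → nF w d F * nv w x ^ d ≤
      exp (RR w d F + t * log ((2 * d).factorial)) * nv w (hmap d F x) := by
    intro x hx
    have hne := hmap_ne_zero d (by omega) F hG.deg w hG.res_ne x hx
    have h2 := lt_le h hG x hx
    unfold lt at h2
    have hp1 := nv_pos w x hx
    have hp2 := nv_pos w _ hne
    have hp3 := nF_pos (w := w) hG
    rw [← Real.log_le_log_iff (by positivity) (by positivity),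
      Real.log_mul hp3.ne' (by positivity), Real.log_mul (exp_pos _).ne' hp2.ne', Real.log_exp,
      Real.log_pow]
    linarith
  have hn := nF_nonneg w d F
  have hu' := nv_nonneg w u
  have hv' := nv_nonneg w v
  have hw := w.nonneg (wd u v)
  have e1 : (nv w u * nv w v) ^ (d - 1) * (nv w u * nv w v) = nv w u ^ d * nv w v ^ d := by
    rw [← pow_succ, ← mul_pow]; congr 1; omega
  have hC : (0 : ℝ) < (((d + 1) * (d + 1) * d : ℕ) : ℝ) := by
    exact_mod_cast (by positivity : 0 < (d + 1) * (d + 1) * d)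
  have hexp : exp (stepE w t d F) = (((d + 1) * (d + 1) * d : ℕ) : ℝ) ^ t *
      (exp (RR w d F + t * log ((2 * d).factorial)) *
        exp (RR w d F + t * log ((2 * d).factorial))) := by
    unfold stepE
    rw [Real.exp_add, ← Real.log_pow, Real.exp_log (pow_pos hC t), two_mul, Real.exp_add]
  calc w (wd (hmap d F u) (hmap d F v)) * (nv w u * nv w v)
      ≤ ((((d + 1) * (d + 1) * d : ℕ) : ℝ) ^ t *
      (nF w d F ^ 2 * ((nv w u * nv w v) ^ (d - 1) * w (wd u v)))) * (nv w u * nv w v) :=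
        mul_le_mul_of_nonneg_right h1 (by positivity)
    _ = (((d + 1) * (d + 1) * d : ℕ) : ℝ) ^ t * w (wd u v) *
      ((nF w d F * nv w u ^ d) * (nF w d F * nv w v ^ d)) := by
        linear_combination ((((d + 1) * (d + 1) * d : ℕ) : ℝ) ^ t * nF w d F ^ 2 * w (wd u v)) * e1
    _ ≤ (((d + 1) * (d + 1) * d : ℕ) : ℝ) ^ t * w (wd u v) *
      ((exp (RR w d F + t * log ((2 * d).factorial)) * nv w (hmap d F u)) *
        (exp (RR w d F + t * log ((2 * d).factorial)) * nv w (hmap d F v))) := by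
        apply mul_le_mul_of_nonneg_left _ (by positivity)
        exact mul_le_mul (key u hu) (key v hv) (by positivity)
          (mul_nonneg (exp_pos _).le (nv_nonneg w _))
    _ = _ := by rw [hexp]; ring

theorem iter_le {w : AbsoluteValue L ℝ} {t : ℕ} (h : SB w t) {d : ℕ} {F : Fin 2 → L[X]}
    (hG : Good d F) (k : ℕ) (u v : Fin 2 → L) (hu : u ≠ 0) (hv : v ≠ 0) :
    w (wd ((hmap d F)^[k] u) ((hmap d F)^[k] v)) * (nv w u * nv w v) ≤
      w (wd u v) * exp (k * stepE w t d F) *
        (nv w ((hmap d F)^[k] u) * nv w ((hmap d F)^[k] v)) := by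
  induction k with
  | zero => simp
  | succ k ih =>
    rw [Function.iterate_succ_apply', Function.iterate_succ_apply']
    set u' := (hmap d F)^[k] u with hu'
    set v' := (hmap d F)^[k] v with hv'
    have hu0 : u' ≠ 0 := iter_ne_zero hG w k u hu
    have hv0 : v' ≠ 0 := iter_ne_zero hG w k v hv
    have h1 := step_le h hG u' v' hu0 hv0
    have p1 := nv_pos w u' hu0
    have p2 := nv_pos w v' hv0
    have p3 := nv_nonneg w (hmap d F u')
    have p4 := nv_nonneg w (hmap d F v')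
    have p5 := nv_pos w u hu
    have p6 := nv_pos w v hv
    have hpos : 0 < nv w u' * nv w v' := mul_pos p1 p2
    apply le_of_mul_le_mul_right _ hpos
    calc w (wd (hmap d F u') (hmap d F v')) * (nv w u * nv w v) * (nv w u' * nv w v')
        = (w (wd (hmap d F u') (hmap d F v')) * (nv w u' * nv w v')) * (nv w u * nv w v) := by ring
      _ ≤ (w (wd u' v') * exp (stepE w t d F) * (nv w (hmap d F u') * nv w (hmap d F v'))) *
          (nv w u * nv w v) := mul_le_mul_of_nonneg_right h1 (by positivity)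
      _ = (w (wd u' v') * (nv w u * nv w v)) *
          (exp (stepE w t d F) * (nv w (hmap d F u') * nv w (hmap d F v'))) := by ring
      _ ≤ (w (wd u v) * exp (k * stepE w t d F) * (nv w u' * nv w v')) *
          (exp (stepE w t d F) * (nv w (hmap d F u') * nv w (hmap d F v'))) :=
          mul_le_mul_of_nonneg_right ih (by positivity)
      _ = w (wd u v) * exp ((k + 1 : ℕ) * stepE w t d F) *
          (nv w (hmap d F u') * nv w (hmap d F v')) * (nv w u' * nv w v') := by
          have : exp ((k + 1 : ℕ) * stepE w t d F) =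
              exp (k * stepE w t d F) * exp (stepE w t d F) := by
            rw [← Real.exp_add]; congr 1; push_cast; ring
          rw [this]; ring

/-- Determinants with bounds of product form for the entries. -/
theorem det_le_rc {w : AbsoluteValue L ℝ} {t : ℕ} (h : SB w t) {N : ℕ}
    (M : Matrix (Fin N) (Fin N) L) (b c : Fin N → ℝ) (hb : ∀ i, 0 ≤ b i) (hc : ∀ i, 0 ≤ c i)
    (hM : ∀ i j, w (M i j) ≤ b i * c j) :
    w M.det ≤ (N.factorial : ℝ) ^ t * ((∏ i, b i) * ∏ j, c j) := by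
  rw [Matrix.det_apply']
  have e : (Fintype.card (Equiv.Perm (Fin N))) = N.factorial := by
    rw [Fintype.card_perm, Fintype.card_fin]
  rw [← e]
  apply h.fintype _ _ (mul_nonneg (Finset.prod_nonneg fun j _ => hb j)
    (Finset.prod_nonneg fun j _ => hc j))
  intro σ
  rw [map_mul, map_prod]
  have h1 : w ((Equiv.Perm.sign σ : ℤ) : L) = 1 := by
    rcases Int.units_eq_one_or (Equiv.Perm.sign σ) with hs | hs
    · rw [hs]; simp
    · rw [hs]; simp
  rw [h1, one_mul, ← Equiv.prod_comp σ b, ← Finset.prod_mul_distrib]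
  exact Finset.prod_le_prod (fun j _ => w.nonneg _) fun j _ => hM _ _

theorem sum_erase_const {n : ℕ} (hn : 1 ≤ n) (c : ℝ) :
    ∑ i : Fin n, ∑ _j ∈ Finset.univ.erase i, c = n * (n - 1) * c := by
  have h1 : ∀ i : Fin n, ∑ _j ∈ Finset.univ.erase i, c = (n - 1) * c := by
    intro i
    rw [Finset.sum_const, Finset.card_erase_of_mem (Finset.mem_univ i), Finset.card_univ,
      Fintype.card_fin, nsmul_eq_mul, Nat.cast_sub hn, Nat.cast_one]
  rw [Finset.sum_congr rfl fun i _ => h1 i, Finset.sum_const, Finset.card_univ, Fintype.card_fin,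
    nsmul_eq_mul]
  ring

theorem sum_erase_add {n : ℕ} (hn : 1 ≤ n) (f : Fin n → ℝ) :
    ∑ i : Fin n, ∑ j ∈ Finset.univ.erase i, (f i + f j) = 2 * (n - 1) * ∑ i, f i := by
  have h1 : ∀ i : Fin n, ∑ j ∈ Finset.univ.erase i, (f i + f j) =
      (n - 1) * f i + (∑ j, f j - f i) := by
    intro i
    rw [Finset.sum_add_distrib, Finset.sum_const, Finset.card_erase_of_mem (Finset.mem_univ i),
      Finset.card_univ, Fintype.card_fin, nsmul_eq_mul, Nat.cast_sub hn, Nat.cast_one,
      ← Finset.add_sum_erase Finset.univ f (Finset.mem_univ i)]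
    ring
  rw [Finset.sum_congr rfl fun i _ => h1 i, Finset.sum_add_distrib, Finset.sum_sub_distrib,
    Finset.sum_const, Finset.card_univ, Fintype.card_fin, nsmul_eq_mul, ← Finset.mul_sum]
  ring

theorem log_det_VM (w : AbsoluteValue L ℝ) {n : ℕ} (x : Fin n → Fin 2 → L)
    (hx : ∀ i j, i ≠ j → wd (x i) (x j) ≠ 0) :
    ∑ i, ∑ j ∈ Finset.univ.erase i, log (w (wd (x i) (x j))) = 2 * log (w (VM x).det) := by
  have h1 := congrArg Real.log (prod_erase_sq (fun i j => w (wd (x i) (x j)))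
    (fun i j => w_wd_comm w _ _))
  rw [← w_det_VM, Real.log_pow] at h1
  push_cast at h1
  rw [← h1, Real.log_prod]
  · apply Finset.sum_congr rfl
    intro i _
    rw [Real.log_prod]
    intro j hj
    exact (w.pos (hx i j (Finset.ne_of_mem_erase hj).symm)).ne'
  · intro i _
    refine Finset.prod_ne_zero_iff.2 fun j hj => ?_
    exact (w.pos (hx i j (Finset.ne_of_mem_erase hj).symm)).ne'

theorem sum_gg (w : AbsoluteValue L ℝ) {d : ℕ} {F : Fin 2 → L[X]} {n : ℕ} (hn : 1 ≤ n)
    (x : Fin n → Fin 2 → L) (hx : ∀ i j, i ≠ j → wd (x i) (x j) ≠ 0) :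
    ∑ i, ∑ j ∈ Finset.univ.erase i, gg w d F (x i) (x j) =
      -(2 * log (w (VM x).det)) + 2 * (n - 1) * ∑ i, HH w d F (x i) -
        n * (n - 1) * (log (w (res d F)) / (d * (d - 1))) := by
  rw [← log_det_VM w x hx, ← sum_erase_add hn, ← sum_erase_const hn, ← Finset.sum_neg_distrib,
    ← Finset.sum_add_distrib, ← Finset.sum_sub_distrib]
  apply Finset.sum_congr rfl
  intro i _
  rw [← Finset.sum_neg_distrib, ← Finset.sum_add_distrib, ← Finset.sum_sub_distrib]
  apply Finset.sum_congr rfl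
  intro j _
  unfold gg
  ring

/-- The lower bound for the sum over all pairs (one absolute value, one coordinate). -/
theorem fek {w : AbsoluteValue L ℝ} {t : ℕ} (h : SB w t) {d : ℕ} {F : Fin 2 → L[X]}
    (hG : Good d F) (k : ℕ) (x y : Fin (d ^ k) → Fin 2 → L)
    (hx0 : ∀ i, x i ≠ 0) (hy0 : ∀ i, y i ≠ 0)
    (hx : ∀ i j, i ≠ j → wd (x i) (x j) ≠ 0) (hy : ∀ i j, i ≠ j → wd (y i) (y j) ≠ 0)
    (hxy : ∀ i j, wd (y j) (x i) ≠ 0) :
    -(2 * (t * log ((d ^ k).factorial)) + 2 * (d : ℝ) ^ k * (k * stepE w t d F) +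
      4 * (d : ℝ) ^ k * ((t * log (d + 1) + RR w d F + t * log ((2 * d).factorial)) / (d - 1))) ≤
    ∑ i, ∑ j ∈ Finset.univ.erase i, gg w d F (x i) (x j) +
      ∑ i, ∑ j ∈ Finset.univ.erase i, gg w d F (y i) (y j) := by
  have hd2 := hG.two_le
  have hd : (2 : ℝ) ≤ d := by exact_mod_cast hd2
  have hd1 : (0 : ℝ) < d - 1 := by linarith
  have hd0 : (0 : ℝ) < d := by linarith
  have hn : 1 ≤ d ^ k := Nat.one_le_pow _ _ (by omega)
  have hcau := cauchy w (pit d F k) (natDegree_pit d F hG.deg k) x y hx hxy (fun i => by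
    rw [hmap_pit d F hG.deg]
    exact iter_ne_zero hG w k _ (hx0 i))
  rw [w_res_pit w d F hG.deg k] at hcau
  simp only [hmap_pit d F hG.deg] at hcau
  have hrc := det_le_rc h (Matrix.of fun j i : Fin (d ^ k) =>
        wd ((hmap d F)^[k] (y j)) ((hmap d F)^[k] (x i)) / wd (y j) (x i))
      (fun j => exp (k * stepE w t d F) * (nv w ((hmap d F)^[k] (y j)) / nv w (y j)))
      (fun i => nv w ((hmap d F)^[k] (x i)) / nv w (x i))
      (fun j => mul_nonneg (exp_pos _).le (div_nonneg (nv_nonneg w _) (nv_nonneg w _)))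
      (fun j => div_nonneg (nv_nonneg w _) (nv_nonneg w _))
      (fun j i => by
        rw [Matrix.of_apply, map_div₀]
        have h1 := iter_le h hG k (y j) (x i) (hy0 j) (hx0 i)
        have p1 := w.pos (hxy i j)
        have p2 := nv_pos w _ (hx0 i)
        have p3 := nv_pos w _ (hy0 j)
        rw [div_le_iff₀ p1]
        have e1 : exp (k * stepE w t d F) * (nv w ((hmap d F)^[k] (y j)) / nv w (y j)) *
            (nv w ((hmap d F)^[k] (x i)) / nv w (x i)) * w (wd (y j) (x i)) =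
            (w (wd (y j) (x i)) * exp (k * stepE w t d F) *
        (nv w ((hmap d F)^[k] (y j)) * nv w ((hmap d F)^[k] (x i)))) / (nv w (y j) * nv w (x i)) := by
          field_simp
        rw [e1, le_div_iff₀ (mul_pos p3 p2)]
        exact h1)
  rw [← hcau] at hrc
  have hVx : w (VM x).det ≠ 0 := by
    rw [w_det_VM]
    refine Finset.prod_ne_zero_iff.2 fun i _ => Finset.prod_ne_zero_iff.2 fun j hj => ?_
    exact (w.pos (hx i j (Finset.mem_Ioi.1 hj).ne)).ne'
  have hVy : w (VM y).det ≠ 0 := by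
    rw [w_det_VM]
    refine Finset.prod_ne_zero_iff.2 fun i _ => Finset.prod_ne_zero_iff.2 fun j hj => ?_
    exact (w.pos (hy i j (Finset.mem_Ioi.1 hj).ne)).ne'
  have hres : 0 < w (res d F) := w.pos hG.res_ne
  have hfac : (0 : ℝ) < (d ^ k).factorial := by exact_mod_cast Nat.factorial_pos _
  have hpt : ∀ z : Fin 2 → L, z ≠ 0 → 0 < nv w ((hmap d F)^[k] z) / nv w z := fun z hz =>
    div_pos (nv_pos w _ (iter_ne_zero hG w k z hz)) (nv_pos w z hz)
  have hlog := Real.log_le_log (by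
    have := w.nonneg (VM x).det
    have := w.nonneg (VM y).det
    positivity) hrc
  rw [Real.log_mul (mul_ne_zero hVx hVy) (by positivity), Real.log_mul hVx hVy, Real.log_pow,
    Real.log_mul (by positivity) (mul_ne_zero
      (Finset.prod_ne_zero_iff.2 fun j _ => (mul_pos (exp_pos _) (hpt _ (hy0 j))).ne')
      (Finset.prod_ne_zero_iff.2 fun j _ => (hpt _ (hx0 j)).ne')),
    Real.log_mul (Finset.prod_ne_zero_iff.2 fun j _ => (mul_pos (exp_pos _) (hpt _ (hy0 j))).ne')
      (Finset.prod_ne_zero_iff.2 fun j _ => (hpt _ (hx0 j)).ne'), Real.log_pow,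
    Real.log_prod (fun j _ => (mul_pos (exp_pos _) (hpt _ (hy0 j))).ne'),
    Real.log_prod (fun j _ => (hpt _ (hx0 j)).ne')] at hlog
  set K₁ := (t * log (d + 1) + RR w d F + t * log ((2 * d).factorial)) / (d - 1) with hK₁
  have hpoint : ∀ z : Fin 2 → L, z ≠ 0 → log (nv w ((hmap d F)^[k] z) / nv w z) ≤
      ((d : ℝ) ^ k - 1) * HH w d F z + K₁ := by
    intro z hz
    have hz' := iter_ne_zero hG w k z hz
    rw [Real.log_div (nv_pos w _ hz').ne' (nv_pos w z hz).ne', log_nv_iter hG k z hz]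
    have h1 := ht_le h hG _ hz'
    have h2 := ht_ge h hG z hz
    have h3 : HH w d F z = log (nv w z) - ht w d F z + log (nF w d F) / (d - 1) := rfl
    have h4 : K₁ = (RR w d F + t * log ((2 * d).factorial)) / (d - 1) -
        (-(t * log (d + 1))) / (d - 1) := by
      rw [hK₁]; ring
    rw [h4]
    linarith
  have hsx : ∑ i, log (nv w ((hmap d F)^[k] (x i)) / nv w (x i)) ≤
      ((d : ℝ) ^ k - 1) * ∑ i, HH w d F (x i) + (d : ℝ) ^ k * K₁ := by
    calc _ ≤ ∑ i, (((d : ℝ) ^ k - 1) * HH w d F (x i) + K₁) :=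
          Finset.sum_le_sum fun i _ => hpoint _ (hx0 i)
      _ = _ := by
        rw [Finset.sum_add_distrib, ← Finset.mul_sum, Finset.sum_const, Finset.card_univ,
          Fintype.card_fin, nsmul_eq_mul]
        push_cast
        ring
  have hsy : ∑ j, log (exp (k * stepE w t d F) * (nv w ((hmap d F)^[k] (y j)) / nv w (y j))) ≤
      (d : ℝ) ^ k * (k * stepE w t d F) +
      (((d : ℝ) ^ k - 1) * ∑ i, HH w d F (y i) + (d : ℝ) ^ k * K₁) := by
    calc _ ≤ ∑ j, (k * stepE w t d F + (((d : ℝ) ^ k - 1) * HH w d F (y j) + K₁)) := by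
          apply Finset.sum_le_sum
          intro j _
          rw [Real.log_mul (exp_pos _).ne' (hpt _ (hy0 j)).ne', Real.log_exp]
          have := hpoint _ (hy0 j)
          linarith
      _ = _ := by
        rw [Finset.sum_add_distrib, Finset.sum_add_distrib, Finset.sum_const, Finset.sum_const,
          Finset.card_univ, Fintype.card_fin, nsmul_eq_mul, nsmul_eq_mul, ← Finset.mul_sum]
        push_cast
        ring
  rw [sum_gg w hn x hx, sum_gg w hn y hy]
  have heR : ((d ^ k : ℕ) : ℝ) * (((d ^ k : ℕ) : ℝ) - 1) * (log (w (res d F)) / (d * (d - 1))) =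
      eR d k * log (w (res d F)) := by
    have h1 := congrArg (fun n : ℕ => (n : ℝ)) (eR_formula d k)
    simp only [Nat.cast_mul] at h1
    rw [Nat.cast_sub (by omega), Nat.cast_sub hn, Nat.cast_one] at h1
    rw [← h1]
    field_simp
  rw [heR]
  push_cast at heR ⊢
  linarith

end

end Pool.Agent.Lib_helper95.FP
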