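import Pool.Agent.Lib_helper95.FP.Inv

/-!
# The theorem in one statement
-/

set_option autoImplicit false

universe u

namespace Pool.Agent.Lib_helper95.FP

open Polynomial Real Height AdmissibleAbsValues

theorem tendsto_can {K : Type u} [Field K] [AdmissibleAbsValues K] {d : ℕ} {F : Fin 2 → K[X]}
    (hG : Good d F) (x : Fin 2 → K) (hx : x ≠ 0) :
    Filter.Tendsto (fun n : ℕ => logHeight ((hmap d F)^[n] x) / (d : ℝ) ^ n) Filter.atTop
      (nhds (canHeight d F x)) := by
  obtain ⟨B, hB⟩ := exists_B hG (fun _ : Fin 1 => x) (fun _ => hx) (fun i : Fin 0 => (1 : K))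
    (fun i => i.elim0)
  have hB' : ∀ v : nonarchAbsVal (K := K), v ∉ B → GoodAt d F v.val ∧ nv v.val x = 1 :=
    fun v hv => ⟨(hB v hv).1, (hB v hv).2.1 0⟩
  rw [canHeight_eq hG x hx B hB']
  exact tendsto_canHeight hG x hx B hB'

open Classical in
/-- All fields with a product formula: many points, and points with infinite orbit. -/
theorem final_gen (d : ℕ) (hd2 : 2 ≤ d) (s : ℕ) (δ : ℝ) (hδ : 0 < δ) :
    ∃ (N : ℕ) (c C : ℝ), 0 < c ∧ 0 ≤ C ∧ ∀ (K : Type u) [Field K] [AdmissibleAbsValues K]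
      (F : Fin 2 → K[X]), Good d F → ∀ T : Finset (AbsoluteValue K ℝ), T.card ≤ s →
      δ * placeSum (fun v => locRes d v F) ≤
        placeSum (fun v => if v ∈ T then locRes d v F else 0) →
      (∀ x : Fin N → Fin 2 → K, (∀ i j, i ≠ j → wd (x i) (x j) ≠ 0) →
        ∃ i, c * placeSum (fun v => locRes d v F) - C * totalWeight K ≤ canHeight d F (x i)) ∧
      ∀ P : Fin 2 → K, (∀ m n, m ≠ n → wd ((hmap d F)^[m] P) ((hmap d F)^[n] P) ≠ 0) →
        c * placeSum (fun v => locRes d v F) - C * totalWeight K ≤ canHeight d F P := by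
  obtain ⟨N, c, C, hc, hC, hmain⟩ := main.{u} d hd2 s δ hδ
  have hd : (2 : ℝ) ≤ d := by exact_mod_cast hd2
  have hdN : (0 : ℝ) < (d : ℝ) ^ (N + 2) := by positivity
  have hdN1 : (1 : ℝ) ≤ (d : ℝ) ^ (N + 2) := one_le_pow₀ (by linarith)
  have hc' : c / (d : ℝ) ^ (N + 2) ≤ c := div_le_self hc.le hdN1
  refine ⟨N + 2, c / (d : ℝ) ^ (N + 2), C, by positivity, hC, ?_⟩
  intro K _ _ F hG T hT hδT
  have htw : (0 : ℝ) ≤ totalWeight K := Nat.cast_nonneg _
  set S := placeSum (fun v => locRes d v F) with hS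
  -- the many points statement
  have hmany : ∀ x : Fin (N + 2) → Fin 2 → K, (∀ i j, i ≠ j → wd (x i) (x j) ≠ 0) →
      ∃ i, c * S - C * totalWeight K ≤ canHeight d F (x i) := by
    intro x hx
    obtain ⟨i, hi⟩ := hmain K _ _ F hG T hT hδT (fun i : Fin N => x (Fin.castLE (by omega) i))
      (fun i j hij => hx _ _ (fun h => hij (Fin.castLE_injective _ h)))
    exact ⟨_, hi⟩
  refine ⟨fun x hx => ?_, fun P hP => ?_⟩
  · obtain ⟨i, hi⟩ := hmany x hx
    refine ⟨i, ?_⟩
    have hx0 : x i ≠ 0 := by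
      by_cases h0 : i = 0
      · exact ne_zero_of_wd (hx i 1 (by rw [h0]; exact (Fin.zero_ne_one)))
      · exact ne_zero_of_wd (hx i 0 h0)
    have hcan0 := canHeight_nonneg hG (x i) hx0
    rcases le_or_gt 0 S with hS0 | hS0
    · have := mul_le_mul_of_nonneg_right hc' hS0
      linarith
    · have h1 : c / (d : ℝ) ^ (N + 2) * S ≤ 0 :=
        mul_nonpos_of_nonneg_of_nonpos (by positivity) hS0.le
      have h2 : 0 ≤ C * totalWeight K := mul_nonneg hC htw
      linarith
  · have hP0 : P ≠ 0 := ne_zero_of_wd (hP 0 1 (by norm_num))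
    have hne : ∀ k, (hmap d F)^[k] P ≠ 0 := fun k => iter_ne_zero' hG k P hP0
    have hcan0 := canHeight_nonneg hG P hP0
    obtain ⟨i, hi⟩ := hmany (fun i => (hmap d F)^[(i : ℕ)] P)
      (fun i j hij => hP i j (fun h => hij (Fin.ext h)))
    rw [canHeight_hmap hG P hP0 hne i] at hi
    have h1 : (d : ℝ) ^ (i : ℕ) * canHeight d F P ≤ (d : ℝ) ^ (N + 2) * canHeight d F P :=
      mul_le_mul_of_nonneg_right (pow_le_pow_right₀ (by linarith) i.2.le) hcan0
    have h3 : (c / (d : ℝ) ^ (N + 2) * S - C * totalWeight K / (d : ℝ) ^ (N + 2)) *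
        (d : ℝ) ^ (N + 2) = c * S - C * totalWeight K := by
      field_simp
    have h4 : c / (d : ℝ) ^ (N + 2) * S - C * totalWeight K / (d : ℝ) ^ (N + 2) ≤
        canHeight d F P := by
      apply le_of_mul_le_mul_right _ hdN
      rw [h3]
      linarith
    have h5 : C * totalWeight K / (d : ℝ) ^ (N + 2) ≤ C * totalWeight K :=
      div_le_self (mul_nonneg hC htw) hdN1
    linarith

open Classical in
/-- Number fields of degree at most `D`, and the heights given by regular functions. -/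
theorem final_nf (d : ℕ) (hd2 : 2 ≤ d) (D s : ℕ) (δ : ℝ) (hδ : 0 < δ) (m l : ℕ)
    (I : Fin l → MvPolynomial (Fin 2 × Fin (d + 1)) ℤ) (hI : ∀ k, Inv.{u} d m (I k)) :
    ∃ c₁ c₂ : ℝ, 0 < c₁ ∧ 0 < c₂ ∧ ∀ (K : Type u) [Field K] [NumberField K],
      Module.finrank ℚ K ≤ D → ∀ (F : Fin 2 → K[X]), Good d F →
      ∀ T : Finset (AbsoluteValue K ℝ), T.card ≤ s →
      δ * placeSum (fun v => locRes d v F) ≤
        placeSum (fun v => if v ∈ T then locRes d v F else 0) →
      ∀ P : Fin 2 → K, (∀ m n, m ≠ n → wd ((hmap d F)^[m] P) ((hmap d F)^[n] P) ≠ 0) →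
        c₁ * (max (placeSum (fun v => locRes d v F)) (logHeight (modPoint d m I F)) /
          Module.finrank ℚ K) + c₂ ≤ canHeight d F P / Module.finrank ℚ K := by
  obtain ⟨c₁, c₂, hc₁, hc₂, hmain⟩ := nf_main.{u} d hd2 D s δ hδ
  have hl : 0 ≤ log ((2 * d).factorial : ℝ) :=
    Real.log_nonneg (by exact_mod_cast Nat.one_le_iff_ne_zero.2 (Nat.factorial_ne_zero _))
  have hlC : ∀ k, 0 ≤ log (Cpol (I k) : ℝ) := fun k =>
    Real.log_nonneg (by exact_mod_cast (by unfold Cpol; omega : 0 < Cpol (I k)))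
  obtain ⟨C6, hC6⟩ : ∃ C6 : ℝ, C6 = m * log ((2 * d).factorial) + ∑ k, log (Cpol (I k) : ℝ) :=
    ⟨_, rfl⟩
  have hC60 : 0 ≤ C6 := by
    rw [hC6]
    have := Finset.sum_nonneg (s := Finset.univ) fun k _ => hlC k
    positivity
  set c₁' := min (c₁ / (m + 1)) (c₂ / (2 * (C6 + 1))) with hc₁'
  have hc₁'0 : 0 < c₁' := lt_min (by positivity) (by positivity)
  refine ⟨c₁', c₂ / 2, hc₁'0, by positivity, ?_⟩
  intro K _ _ hD F hG T hT hδT P hP
  have h1 := hmain K hD F hG T hT hδT P hP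
  have h2 := modPoint_le hG m I hI
  rw [← hC6] at h2
  set n : ℝ := (Module.finrank ℚ K : ℝ) with hn
  have htw : (totalWeight K : ℝ) = n := by
    rw [NumberField.totalWeight_eq_finrank]
  have hn0 : 0 < n := by
    rw [← htw]
    exact_mod_cast NumberField.totalWeight_pos K
  rw [htw] at h2
  set S := placeSum (fun v => locRes d v F) with hS
  set M := max S 0 with hM
  have hM0 : 0 ≤ M := le_max_right _ _
  have hSM : S ≤ M := le_max_left _ _
  have hm0 : (0 : ℝ) ≤ m := Nat.cast_nonneg _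
  have h3 : max S (logHeight (modPoint d m I F)) ≤ (m + 1) * M + n * C6 := by
    have h4 : 0 ≤ n * C6 := by positivity
    have h5 : 0 ≤ m * M := by positivity
    have h6 : m * S ≤ m * M := mul_le_mul_of_nonneg_left hSM hm0
    apply max_le
    · linarith
    · linarith
  have h4 : c₁' * max S (logHeight (modPoint d m I F)) ≤ c₁ * M + c₂ / 2 * n := by
    have h5 : c₁' * ((m + 1) * M) ≤ c₁ * M := by
      have : c₁' * (m + 1) ≤ c₁ := by
        calc c₁' * (m + 1) ≤ c₁ / (m + 1) * (m + 1) :=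
              mul_le_mul_of_nonneg_right (min_le_left _ _) (by positivity)
          _ = c₁ := by field_simp
      calc c₁' * ((m + 1) * M) = (c₁' * (m + 1)) * M := by ring
        _ ≤ _ := mul_le_mul_of_nonneg_right this hM0
    have h6 : c₁' * (n * C6) ≤ c₂ / 2 * n := by
      have : c₁' * C6 ≤ c₂ / 2 := by
        calc c₁' * C6 ≤ c₂ / (2 * (C6 + 1)) * C6 :=
              mul_le_mul_of_nonneg_right (min_le_right _ _) hC60
          _ ≤ c₂ / (2 * (C6 + 1)) * (C6 + 1) :=
              mul_le_mul_of_nonneg_left (by linarith) (by positivity)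
          _ = c₂ / 2 := by field_simp
      calc c₁' * (n * C6) = (c₁' * C6) * n := by ring
        _ ≤ _ := mul_le_mul_of_nonneg_right this hn0.le
    calc c₁' * max S (logHeight (modPoint d m I F)) ≤ c₁' * ((m + 1) * M + n * C6) :=
          mul_le_mul_of_nonneg_left h3 hc₁'0.le
      _ = c₁' * ((m + 1) * M) + c₁' * (n * C6) := by ring
      _ ≤ _ := by linarith
  rw [le_div_iff₀ hn0]
  have h5 : (c₁' * (max S (logHeight (modPoint d m I F)) / n) + c₂ / 2) * n =
      c₁' * max S (logHeight (modPoint d m I F)) + c₂ / 2 * n := by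
    field_simp
  rw [h5]
  linarith

end Pool.Agent.Lib_helper95.FP
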