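import Mathlib

/-!
# Ramsey's theorem for finitely many graphs without large cliques
-/

set_option autoImplicit false

universe u u'

namespace Pool.Agent.Lib_helper95.FP

/-- Ramsey's theorem for two colours. -/
theorem ramsey2 (a b : ℕ) : ∃ N : ℕ, ∀ (ι : Type u) (S : Finset ι) (R : ι → ι → Prop),
    (∀ i j, R i j → R j i) → N ≤ S.card →
    (∃ A ⊆ S, A.card = a ∧ ∀ i ∈ A, ∀ j ∈ A, i ≠ j → R i j) ∨
    (∃ B ⊆ S, B.card = b ∧ ∀ i ∈ B, ∀ j ∈ B, i ≠ j → ¬ R i j) := by
  classical
  obtain ⟨n, hn⟩ : ∃ n, n = a + b := ⟨_, rfl⟩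
  induction n generalizing a b with
  | zero =>
    refine ⟨0, fun ι S R _ _ => Or.inl ⟨∅, by simp, by simp; omega, by simp⟩⟩
  | succ n ih =>
    rcases Nat.eq_zero_or_pos a with ha | ha
    · exact ⟨0, fun ι S R _ _ => Or.inl ⟨∅, by simp, by simp; omega, by simp⟩⟩
    rcases Nat.eq_zero_or_pos b with hb | hb
    · exact ⟨0, fun ι S R _ _ => Or.inr ⟨∅, by simp, by simp; omega, by simp⟩⟩
    obtain ⟨N1, h1⟩ := ih (a - 1) b (by omega)
    obtain ⟨N2, h2⟩ := ih a (b - 1) (by omega)
    refine ⟨N1 + N2 + 1, fun ι S R hR hS => ?_⟩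
    obtain ⟨x, hx⟩ : S.Nonempty := Finset.card_pos.1 (by omega)
    set S' := S.erase x with hS'
    have hc : S'.card = S.card - 1 := Finset.card_erase_of_mem hx
    have hsplit := Finset.card_filter_add_card_filter_not (s := S') (p := fun y => R x y)
    have hsub : S' ⊆ S := Finset.erase_subset _ _
    rcases (by omega : N1 ≤ (S'.filter fun y => R x y).card ∨
        N2 ≤ (S'.filter fun y => ¬ R x y).card) with h | h
    · rcases h1 ι _ R hR h with ⟨A, hA, hAc, hAR⟩ | ⟨B, hB, hBc, hBR⟩
      · left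
        have hxA : x ∉ A := fun hxA => by
          have := (Finset.mem_filter.1 (hA hxA)).1
          exact (Finset.notMem_erase x S) this
        refine ⟨insert x A, ?_, ?_, ?_⟩
        · exact Finset.insert_subset hx ((hA.trans (Finset.filter_subset _ _)).trans hsub)
        · rw [Finset.card_insert_of_notMem hxA, hAc]; omega
        · intro i hi j hj hij
          rw [Finset.mem_insert] at hi hj
          rcases hi with rfl | hi
          · rcases hj with rfl | hj
            · exact absurd rfl hij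
            · exact (Finset.mem_filter.1 (hA hj)).2
          · rcases hj with rfl | hj
            · exact hR _ _ (Finset.mem_filter.1 (hA hi)).2
            · exact hAR i hi j hj hij
      · right
        exact ⟨B, (hB.trans (Finset.filter_subset _ _)).trans hsub, hBc, hBR⟩
    · rcases h2 ι _ R hR h with ⟨A, hA, hAc, hAR⟩ | ⟨B, hB, hBc, hBR⟩
      · left
        exact ⟨A, (hA.trans (Finset.filter_subset _ _)).trans hsub, hAc, hAR⟩
      · right
        have hxB : x ∉ B := fun hxB => by
          have := (Finset.mem_filter.1 (hB hxB)).1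
          exact (Finset.notMem_erase x S) this
        refine ⟨insert x B, ?_, ?_, ?_⟩
        · exact Finset.insert_subset hx ((hB.trans (Finset.filter_subset _ _)).trans hsub)
        · rw [Finset.card_insert_of_notMem hxB, hBc]; omega
        · intro i hi j hj hij
          rw [Finset.mem_insert] at hi hj
          rcases hi with rfl | hi
          · rcases hj with rfl | hj
            · exact absurd rfl hij
            · exact (Finset.mem_filter.1 (hB hj)).2
          · rcases hj with rfl | hj
            · exact fun h => (Finset.mem_filter.1 (hB hi)).2 (hR _ _ h)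
            · exact hBR i hi j hj hij

/-- Finitely many graphs without cliques of size `M` have a common independent set of size `n`. -/
theorem ramsey_multi (M n s : ℕ) : ∃ N : ℕ, ∀ (ι : Type u) (α : Type u') (S : Finset ι)
    (T : Finset α) (R : α → ι → ι → Prop), (∀ c i j, R c i j → R c j i) → T.card ≤ s →
    (∀ c ∈ T, ∀ A : Finset ι, A ⊆ S → A.card = M → ∃ i ∈ A, ∃ j ∈ A, i ≠ j ∧ ¬ R c i j) →
    N ≤ S.card → ∃ B ⊆ S, B.card = n ∧ ∀ c ∈ T, ∀ i ∈ B, ∀ j ∈ B, i ≠ j → ¬ R c i j := by
  classical
  induction s with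
  | zero =>
    refine ⟨n, fun ι α S T R _ hT _ hS => ?_⟩
    obtain ⟨B, hB, hBc⟩ := Finset.exists_subset_card_eq hS
    refine ⟨B, hB, hBc, fun c hc => ?_⟩
    have : T = ∅ := Finset.card_eq_zero.1 (Nat.le_zero.1 hT)
    rw [this] at hc
    simp at hc
  | succ s ih =>
    obtain ⟨N0, h0⟩ := ih
    obtain ⟨N1, h1⟩ := ramsey2.{u} M N0
    refine ⟨max N1 n, fun ι α S T R hR hT hcl hS => ?_⟩
    rcases T.eq_empty_or_nonempty with rfl | ⟨c, hc⟩
    · obtain ⟨B, hB, hBc⟩ := Finset.exists_subset_card_eq ((le_max_right N1 n).trans hS)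
      exact ⟨B, hB, hBc, fun c hc => by simp at hc⟩
    · rcases h1 ι S (R c) (hR c) ((le_max_left N1 n).trans hS) with ⟨A, hA, hAc, hAR⟩ |
        ⟨B, hB, hBc, hBR⟩
      · obtain ⟨i, hi, j, hj, hij, hn⟩ := hcl c hc A hA hAc
        exact absurd (hAR i hi j hj hij) hn
      · obtain ⟨B', hB', hB'c, hB'R⟩ := h0 ι α B (T.erase c) R hR
          (by rw [Finset.card_erase_of_mem hc]; omega)
          (fun c' hc' A hA => hcl c' (Finset.mem_of_mem_erase hc') A (hA.trans hB)) hBc.ge
        refine ⟨B', hB'.trans hB, hB'c, fun c' hc' i hi j hj hij => ?_⟩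
        by_cases hcc : c' = c
        · rw [hcc]
          exact hBR i (hB' hi) j (hB' hj) hij
        · exact hB'R c' (Finset.mem_erase.2 ⟨hcc, hc'⟩) i hi j hj hij

end Pool.Agent.Lib_helper95.FP
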