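import Pool.Agent.Lib_helper95.FP.LocK
import Pool.Agent.Lib_helper95.FP.Rams

/-!
# Global sums, the canonical height
-/

set_option autoImplicit false

universe u

namespace Pool.Agent.Lib_helper95.FP

open Polynomial Real Height AdmissibleAbsValues

section

variable {K : Type u} [Field K] [AdmissibleAbsValues K]

/-- The sum over the archimedean absolute values and over a finite set of nonarchimedean ones. -/
noncomputable def gs (B : Finset (nonarchAbsVal (K := K))) (f : AbsoluteValue K ℝ → ℝ) : ℝ :=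
  (archAbsVal.map f).sum + ∑ v ∈ B, f v.val

theorem gs_add (B : Finset (nonarchAbsVal (K := K))) (f g : AbsoluteValue K ℝ → ℝ) :
    gs B (fun v => f v + g v) = gs B f + gs B g := by
  unfold gs
  rw [Multiset.sum_map_add, Finset.sum_add_distrib]
  ring

theorem gs_mul (B : Finset (nonarchAbsVal (K := K))) (c : ℝ) (f : AbsoluteValue K ℝ → ℝ) :
    gs B (fun v => c * f v) = c * gs B f := by
  unfold gs
  rw [Multiset.sum_map_mul_left, ← Finset.mul_sum]
  ring

theorem gs_sub (B : Finset (nonarchAbsVal (K := K))) (f g : AbsoluteValue K ℝ → ℝ) :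
    gs B (fun v => f v - g v) = gs B f - gs B g := by
  have h := gs_add B f (fun v => (-1) * g v)
  rw [gs_mul] at h
  have e : (fun v => f v - g v) = fun v => f v + (-1) * g v := by funext v; ring
  rw [e, h]; ring

theorem gs_zero (B : Finset (nonarchAbsVal (K := K))) :
    gs B (fun _ => (0 : ℝ)) = 0 := by
  unfold gs
  simp

theorem gs_sum {ι : Type*} (B : Finset (nonarchAbsVal (K := K))) (s : Finset ι)
    (f : ι → AbsoluteValue K ℝ → ℝ) : gs B (fun v => ∑ i ∈ s, f i v) = ∑ i ∈ s, gs B (f i) := by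
  classical
  induction s using Finset.induction_on with
  | empty => simp [gs_zero]
  | insert a s ha ih =>
    rw [Finset.sum_insert ha, ← ih, ← gs_add]
    congr 1
    funext v
    rw [Finset.sum_insert ha]

theorem gs_le (B : Finset (nonarchAbsVal (K := K))) (f g : AbsoluteValue K ℝ → ℝ)
    (h1 : ∀ v ∈ archAbsVal (K := K), f v ≤ g v) (h2 : ∀ v ∈ B, f v.val ≤ g v.val) :
    gs B f ≤ gs B g :=
  add_le_add (Multiset.sum_map_le_sum_map f g h1) (Finset.sum_le_sum h2)

theorem gs_congr (B : Finset (nonarchAbsVal (K := K))) (f g : AbsoluteValue K ℝ → ℝ)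
    (h1 : ∀ v ∈ archAbsVal (K := K), f v = g v) (h2 : ∀ v ∈ B, f v.val = g v.val) :
    gs B f = gs B g :=
  le_antisymm (gs_le B f g (fun v hv => (h1 v hv).le) fun v hv => (h2 v hv).le)
    (gs_le B g f (fun v hv => (h1 v hv).ge) fun v hv => (h2 v hv).ge)

open Classical in
/-- The exponent of the constants: `0` for nonarchimedean absolute values, `1` for the others. -/
noncomputable def tt (v : AbsoluteValue K ℝ) : ℕ := if IsNonarchimedean v then 0 else 1

theorem AV_tt (v : AbsoluteValue K ℝ) : AV v (tt v) := by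
  classical
  unfold tt AV
  by_cases h : IsNonarchimedean v
  · right; rw [if_pos h]; exact ⟨rfl, h⟩
  · left; rw [if_neg h]

theorem tt_le (v : AbsoluteValue K ℝ) : (tt v : ℝ) ≤ 1 := by
  classical
  unfold tt
  split_ifs <;> simp

theorem tt_nonarch (v : nonarchAbsVal (K := K)) : tt v.val = 0 := by
  classical
  unfold tt
  rw [if_pos (AdmissibleAbsValues.isNonarchimedean _ v.2)]

theorem gs_tt_le (B : Finset (nonarchAbsVal (K := K))) (c : ℝ) (hc : 0 ≤ c) :
    gs B (fun v => (tt v : ℝ) * c) ≤ totalWeight K * c := by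
  unfold gs totalWeight
  have h1 : ∑ v ∈ B, (tt v.val : ℝ) * c = 0 := by
    apply Finset.sum_eq_zero
    intro v _
    rw [tt_nonarch]; simp
  rw [h1, add_zero]
  have h2 := Multiset.sum_map_le_sum_map (s := archAbsVal (K := K)) (fun v => (tt v : ℝ) * c)
    (fun _ => c) (fun v _ => by
      have := mul_le_mul_of_nonneg_right (tt_le v) hc
      linarith)
  rw [Multiset.map_const', Multiset.sum_replicate, nsmul_eq_mul] at h2
  exact h2

theorem gs_tt_nonneg (B : Finset (nonarchAbsVal (K := K))) (f : AbsoluteValue K ℝ → ℝ)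
    (hf : ∀ v, 0 ≤ f v) : 0 ≤ gs B f := by
  rw [← gs_zero B]
  exact gs_le B _ _ (fun v _ => hf v) (fun v _ => hf v)

/-! ### the product formula -/

theorem finite_ne_one {a : K} (ha : a ≠ 0) : {v : nonarchAbsVal (K := K) | v.val a ≠ 1}.Finite :=
  AdmissibleAbsValues.hasFiniteMulSupport ha

theorem product_gs (B : Finset (nonarchAbsVal (K := K))) {a : K} (ha : a ≠ 0)
    (hB : ∀ v : nonarchAbsVal (K := K), v ∉ B → v.val a = 1) :
    gs B (fun v => log (v a)) = 0 := by
  have h := congrArg Real.log (AdmissibleAbsValues.product_formula ha)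
  have h0 : ∏ᶠ v : nonarchAbsVal (K := K), v.val a = ∏ v ∈ B, v.val a := by
    apply finprod_eq_prod_of_mulSupport_subset
    intro v hv
    by_contra hcon
    exact hv (hB v (by simpa using hcon))
  rw [h0, Real.log_one, Real.log_mul, Real.log_multiset_prod, Real.log_prod, Multiset.map_map] at h
  · exact h
  · intro v _
    exact (v.val.pos ha).ne'
  · intro x hx
    obtain ⟨v, _, rfl⟩ := Multiset.mem_map.1 hx
    exact (v.pos ha).ne'
  · intro hx
    obtain ⟨v, _, h1⟩ := Multiset.mem_map.1 (Multiset.prod_eq_zero_iff.1 hx)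
    exact (v.pos ha).ne' h1
  · exact Finset.prod_ne_zero_iff.2 fun v _ => (v.val.pos ha).ne'

theorem iSup_nv (v : AbsoluteValue K ℝ) (x : Fin 2 → K) : ⨆ i, v (x i) = nv v x := by
  apply le_antisymm
  · exact ciSup_le fun i => le_nv v x i
  · exact nv_le v x _ fun i => Finite.le_ciSup (fun i => v (x i)) i

theorem logHeight_gs (B : Finset (nonarchAbsVal (K := K))) {x : Fin 2 → K} (hx : x ≠ 0)
    (hB : ∀ v : nonarchAbsVal (K := K), v ∉ B → nv v.val x = 1) :
    logHeight x = gs B (fun v => log (nv v x)) := by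
  rw [logHeight_eq_log_mulHeight, mulHeight_eq hx]
  simp only [iSup_nv]
  have h0 : ∏ᶠ v : nonarchAbsVal (K := K), nv v.val x = ∏ v ∈ B, nv v.val x := by
    apply finprod_eq_prod_of_mulSupport_subset
    intro v hv
    by_contra hcon
    exact hv (hB v (by simpa using hcon))
  rw [h0, Real.log_mul, Real.log_multiset_prod, Real.log_prod, Multiset.map_map]
  · rfl
  · intro v _
    exact (nv_pos _ x hx).ne'
  · intro y hy
    obtain ⟨v, _, rfl⟩ := Multiset.mem_map.1 hy
    exact (nv_pos _ x hx).ne'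
  · intro hx'
    obtain ⟨v, _, h1⟩ := Multiset.mem_map.1 (Multiset.prod_eq_zero_iff.1 hx')
    exact (nv_pos _ x hx).ne' h1
  · exact Finset.prod_ne_zero_iff.2 fun v _ => (nv_pos _ x hx).ne'

/-! ### good places -/

theorem finite_nv {x : Fin 2 → K} (hx : x ≠ 0) :
    {v : nonarchAbsVal (K := K) | nv v.val x ≠ 1}.Finite := by
  have h1 : ({v : nonarchAbsVal (K := K) | nv v.val x ≠ 1}) ⊆
      ⋃ i : Fin 2, {v : nonarchAbsVal (K := K) | x i ≠ 0 ∧ v.val (x i) ≠ 1} := by
    intro v hv
    by_contra hcon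
    rw [Set.mem_iUnion] at hcon
    push Not at hcon
    apply hv
    have h2 : ∀ i, x i ≠ 0 → v.val (x i) = 1 := by
      intro i hi
      by_contra h3
      exact hcon i ⟨hi, h3⟩
    apply le_antisymm
    · apply nv_le
      intro i
      by_cases hi : x i = 0
      · rw [hi, map_zero]; exact zero_le_one
      · exact (h2 i hi).le
    · obtain ⟨i, hi⟩ : ∃ i, x i ≠ 0 := Function.ne_iff.1 hx
      rw [← h2 i hi]
      exact le_nv _ _ _
  refine Set.Finite.subset (Set.finite_iUnion fun i => ?_) h1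
  by_cases hi : x i = 0
  · refine Set.Finite.subset Set.finite_empty ?_
    rintro v ⟨h, _⟩
    exact absurd hi h
  · exact (finite_ne_one hi).subset fun v hv => hv.2

theorem finite_nF {d : ℕ} {F : Fin 2 → K[X]} (hG : Good d F) :
    {v : nonarchAbsVal (K := K) | nF v.val d F ≠ 1}.Finite := by
  have hex : ∃ i j, j ≤ d ∧ (F i).coeff j ≠ 0 := by
    by_contra hcon
    push Not at hcon
    have h0 : F 0 = 0 := by
      ext j
      by_cases hj : j ≤ d
      · exact hcon 0 j hj
      · rw [coeff_eq_zero_of_natDegree_lt (lt_of_le_of_lt (hG.deg 0) (not_le.1 hj))]; simp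
    apply hG.res_ne
    unfold res
    rw [h0, resultant_zero_left]
    have := hG.two_le
    simp
    omega
  have h1 : ({v : nonarchAbsVal (K := K) | nF v.val d F ≠ 1}) ⊆
      ⋃ ij : Fin 2 × Fin (d + 1), {v : nonarchAbsVal (K := K) | (F ij.1).coeff ij.2 ≠ 0 ∧
        v.val ((F ij.1).coeff ij.2) ≠ 1} := by
    intro v hv
    by_contra hcon
    rw [Set.mem_iUnion] at hcon
    push Not at hcon
    apply hv
    have h2 : ∀ i j, j ≤ d → (F i).coeff j ≠ 0 → v.val ((F i).coeff j) = 1 := by
      intro i j hj hi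
      by_contra h3
      exact hcon (i, ⟨j, Nat.lt_succ_of_le hj⟩) ⟨hi, h3⟩
    apply le_antisymm
    · apply nF_le
      intro i j hj
      by_cases hi : (F i).coeff j = 0
      · rw [hi, map_zero]; exact zero_le_one
      · exact (h2 i j hj hi).le
    · obtain ⟨i, j, hj, hi⟩ := hex
      rw [← h2 i j hj hi]
      exact le_nF _ _ _ _ _ hj
  refine Set.Finite.subset (Set.finite_iUnion fun ij => ?_) h1
  by_cases hi : (F ij.1).coeff ij.2 = 0
  · refine Set.Finite.subset Set.finite_empty ?_
    rintro v ⟨h, _⟩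
    exact absurd hi h
  · exact (finite_ne_one hi).subset fun v hv => hv.2

/-- `v` is a place of good reduction in the given coordinates. -/
def GoodAt (d : ℕ) (F : Fin 2 → K[X]) (v : AbsoluteValue K ℝ) : Prop :=
  nF v d F = 1 ∧ v (res d F) = 1

theorem finite_bad {d : ℕ} {F : Fin 2 → K[X]} (hG : Good d F) :
    {v : nonarchAbsVal (K := K) | ¬ GoodAt d F v.val}.Finite := by
  refine ((finite_nF hG).union (finite_ne_one hG.res_ne)).subset ?_
  intro v hv
  by_contra hcon
  rw [Set.mem_union] at hcon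
  push Not at hcon
  apply hv
  constructor
  · by_contra h; exact hcon.1 h
  · by_contra h; exact hcon.2 h

theorem nv_iter_good {d : ℕ} {F : Fin 2 → K[X]} (hG : Good d F) (v : nonarchAbsVal (K := K))
    (hv : GoodAt d F v.val) (x : Fin 2 → K) (hx : x ≠ 0) (hx1 : nv v.val x = 1) (n : ℕ) :
    nv v.val ((hmap d F)^[n] x) = 1 := by
  have hS := SB_zero v.val (AdmissibleAbsValues.isNonarchimedean _ v.2)
  induction n with
  | zero => exact hx1
  | succ n ih =>
    rw [Function.iterate_succ_apply']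
    have h1 := nv_hmap_le hS d F ((hmap d F)^[n] x)
    have h2 := nv_hmap_ge hS d (by have := hG.two_le; omega) F hG.deg _
      (iter_ne_zero hG v.val n x hx)
    rw [ih, hv.1] at h1
    rw [ih, hv.1, hv.2] at h2
    simp at h1 h2
    exact le_antisymm h1 h2

theorem locRes_good {d : ℕ} {F : Fin 2 → K[X]} (hG : Good d F) (v : nonarchAbsVal (K := K))
    (hv : GoodAt d F v.val) : locRes d v.val F = 0 := by
  have hAV : AV v.val 0 := Or.inr ⟨rfl, AdmissibleAbsValues.isNonarchimedean _ v.2⟩
  apply le_antisymm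
  · have h1 := locRes_le_RR hAV hG
    unfold RR at h1
    rw [hv.1, hv.2] at h1
    simpa using h1
  · have h1 := locRes_ge hAV hG
    simpa using h1

/-! ### the canonical height -/

/-- The canonical height, relative to the family of absolute values of `K`:
`lim d^(-n) h(F^n(x))`. -/
noncomputable def canHeight (d : ℕ) (F : Fin 2 → K[X]) (x : Fin 2 → K) : ℝ :=
  Filter.limUnder Filter.atTop (fun n : ℕ => logHeight ((hmap d F)^[n] x) / (d : ℝ) ^ n)

theorem tendsto_local (v : AbsoluteValue K ℝ) {d : ℕ} {F : Fin 2 → K[X]} (hG : Good d F)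
    (x : Fin 2 → K) (hx : x ≠ 0) :
    Filter.Tendsto (fun n : ℕ => log (nv v ((hmap d F)^[n] x)) / (d : ℝ) ^ n) Filter.atTop
      (nhds (HH v d F x)) := by
  have hd : (1 : ℝ) < d := by exact_mod_cast (lt_of_lt_of_le one_lt_two hG.two_le)
  set C := (|RR v d F| + log ((2 * d).factorial) + log (d + 1)) / (d - 1) +
    |log (nF v d F) / (d - 1)| with hC
  have hb : ∀ n : ℕ, |log (nv v ((hmap d F)^[n] x)) / (d : ℝ) ^ n - HH v d F x| ≤
      C * (1 / (d : ℝ)) ^ n := by
    intro n
    have hn := iter_ne_zero hG v n x hx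
    have hpos : (0 : ℝ) < (d : ℝ) ^ n := by positivity
    have e : log (nv v ((hmap d F)^[n] x)) / (d : ℝ) ^ n - HH v d F x =
        (ht v d F ((hmap d F)^[n] x) - log (nF v d F) / (d - 1)) / (d : ℝ) ^ n := by
      rw [log_nv_iter hG n x hx]
      field_simp
      ring
    rw [e, abs_div, abs_of_pos hpos, one_div_pow, mul_one_div]
    apply div_le_div_of_nonneg_right _ hpos.le
    have h2 : ht v d F ((hmap d F)^[n] x) ≤
        (|RR v d F| + log ((2 * d).factorial) + log (d + 1)) / (d - 1) :=
      ht_le_of hG _ (fun x hx => (le_abs_self _).trans (abs_lt_le hG x hx)) _ hn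
    have h3 : (-(|RR v d F| + log ((2 * d).factorial) + log (d + 1))) / (d - 1) ≤
        ht v d F ((hmap d F)^[n] x) :=
      ht_ge_of hG _ (fun x hx => by
        have := abs_lt_le (w := v) hG x hx
        rw [abs_le] at this
        exact this.1) _ hn
    rw [neg_div] at h3
    have h5 := le_abs_self (log (nF v d F) / ((d : ℝ) - 1))
    have h6 := neg_abs_le (log (nF v d F) / ((d : ℝ) - 1))
    rw [hC, abs_le]
    constructor <;> linarith
  have hlim : Filter.Tendsto (fun k : ℕ => C * (1 / (d : ℝ)) ^ k) Filter.atTop (nhds 0) := by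
    have := (tendsto_pow_atTop_nhds_zero_of_lt_one (by positivity)
      ((div_lt_one (by linarith)).2 hd)).const_mul C
    rwa [mul_zero] at this
  have h0 := squeeze_zero_norm (fun n => by rw [Real.norm_eq_abs]; exact hb n) hlim
  have := h0.add_const (HH v d F x)
  simpa using this

theorem tendsto_canHeight {d : ℕ} {F : Fin 2 → K[X]} (hG : Good d F) (x : Fin 2 → K)
    (hx : x ≠ 0) (B : Finset (nonarchAbsVal (K := K)))
    (hB : ∀ v : nonarchAbsVal (K := K), v ∉ B → GoodAt d F v.val ∧ nv v.val x = 1) :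
    Filter.Tendsto (fun n : ℕ => logHeight ((hmap d F)^[n] x) / (d : ℝ) ^ n) Filter.atTop
      (nhds (gs B (fun v => HH v d F x))) := by
  classical
  have e : (fun n : ℕ => logHeight ((hmap d F)^[n] x) / (d : ℝ) ^ n) =
      fun n : ℕ => ((archAbsVal (K := K)).map fun v =>
        log (nv v ((hmap d F)^[n] x)) / (d : ℝ) ^ n).sum +
        ∑ v ∈ B, log (nv v.val ((hmap d F)^[n] x)) / (d : ℝ) ^ n := by
    funext n
    have hn : (hmap d F)^[n] x ≠ 0 := by
      rcases (archAbsVal (K := K)).empty_or_exists_mem with h0 | ⟨v, _⟩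
      · by_cases hne : Nonempty (nonarchAbsVal (K := K))
        · obtain ⟨v⟩ := hne
          exact iter_ne_zero hG v.val n x hx
        · exact iter_ne_zero hG (AbsoluteValue.trivial) n x hx
      · exact iter_ne_zero hG v n x hx
    rw [logHeight_gs B hn (fun v hv => nv_iter_good hG v (hB v hv).1 x hx (hB v hv).2 n)]
    unfold gs
    rw [add_div, Finset.sum_div]
    congr 1
    rw [div_eq_mul_inv, ← Multiset.sum_map_mul_right]
    simp only [div_eq_mul_inv]
  rw [e]
  unfold gs
  apply Filter.Tendsto.add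
  · exact tendsto_multiset_sum _ fun v _ => tendsto_local v hG x hx
  · exact tendsto_finsetSum _ fun v _ => tendsto_local v.val hG x hx

theorem canHeight_eq {d : ℕ} {F : Fin 2 → K[X]} (hG : Good d F) (x : Fin 2 → K)
    (hx : x ≠ 0) (B : Finset (nonarchAbsVal (K := K)))
    (hB : ∀ v : nonarchAbsVal (K := K), v ∉ B → GoodAt d F v.val ∧ nv v.val x = 1) :
    canHeight d F x = gs B (fun v => HH v d F x) :=
  (tendsto_canHeight hG x hx B hB).limUnder_eq

/-- A finite set of places that contains all the bad ones for finitely many nonzero points and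
finitely many nonzero elements. -/
theorem exists_B {d : ℕ} {F : Fin 2 → K[X]} (hG : Good d F) {ι ι' : Type*} [Finite ι] [Finite ι']
    (x : ι → Fin 2 → K) (hx : ∀ i, x i ≠ 0) (a : ι' → K) (ha : ∀ i, a i ≠ 0) :
    ∃ B : Finset (nonarchAbsVal (K := K)), ∀ v : nonarchAbsVal (K := K), v ∉ B →
      GoodAt d F v.val ∧ (∀ i, nv v.val (x i) = 1) ∧ ∀ i, v.val (a i) = 1 := by
  have hfin : ({v : nonarchAbsVal (K := K) | ¬ GoodAt d F v.val} ∪
      ((⋃ i, {v : nonarchAbsVal (K := K) | nv v.val (x i) ≠ 1}) ∪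
        ⋃ i, {v : nonarchAbsVal (K := K) | v.val (a i) ≠ 1})).Finite :=
    (finite_bad hG).union ((Set.finite_iUnion fun i => finite_nv (hx i)).union
      (Set.finite_iUnion fun i => finite_ne_one (ha i)))
  refine ⟨hfin.toFinset, fun v hv => ?_⟩
  rw [Set.Finite.mem_toFinset, Set.mem_union, Set.mem_union, Set.mem_iUnion, Set.mem_iUnion] at hv
  push Not at hv
  refine ⟨?_, fun i => ?_, fun i => ?_⟩
  · by_contra h
    exact hv.1 h
  · by_contra h
    exact hv.2.1 i h
  · by_contra h
    exact hv.2.2 i h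

/-- The sum of the Green's functions. -/
theorem gs_gg {d : ℕ} {F : Fin 2 → K[X]} (hG : Good d F) (x y : Fin 2 → K)
    (hxy : wd x y ≠ 0) (B : Finset (nonarchAbsVal (K := K)))
    (hB : ∀ v : nonarchAbsVal (K := K), v ∉ B → GoodAt d F v.val ∧ nv v.val x = 1 ∧
      nv v.val y = 1 ∧ v.val (wd x y) = 1) :
    gs B (fun v => gg v d F x y) = canHeight d F x + canHeight d F y := by
  rw [canHeight_eq hG x (ne_zero_of_wd hxy) B (fun v hv => ⟨(hB v hv).1, (hB v hv).2.1⟩),
    canHeight_eq hG y (ne_zero_of_wd' hxy) B (fun v hv => ⟨(hB v hv).1, (hB v hv).2.2.1⟩)]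
  have h1 := product_gs B hxy (fun v hv => (hB v hv).2.2.2)
  have h2 := product_gs B hG.res_ne (fun v hv => (hB v hv).1.2)
  have e : (fun v : AbsoluteValue K ℝ => gg v d F x y) = fun v =>
      (((-1) * log (v (wd x y)) + HH v d F x) + HH v d F y) -
        (1 / (d * (d - 1))) * log (v (res d F)) := by
    funext v
    unfold gg
    ring
  rw [e, gs_sub, gs_add, gs_add, gs_mul, gs_mul, h1, h2]
  ring

end

end Pool.Agent.Lib_helper95.FP
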