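import Pool.Agent.Lib_helper95.FP.Ext
import Pool.Agent.Lib_helper95.FP.Comb

/-!
# Interpolation: a form is small if it is small at separated points
-/

set_option autoImplicit false

namespace Pool.Agent.Lib_helper95.FP

open Polynomial Real

section

variable {L : Type*} [Field L]

theorem interp {w : AbsoluteValue L ℝ} {t : ℕ} (h : SB w t) (n : ℕ) (p : L[X])
    (z : Fin (n + 1) → Fin 2 → L) (hz : ∀ i, nv w (z i) ≤ 1) (δ U : ℝ) (hδ : 0 < δ) (hδ1 : δ ≤ 1)
    (hsep : ∀ i j, i ≠ j → δ ≤ w (wd (z i) (z j))) (hU : ∀ i, w (hev n p (z i)) ≤ U) (j : ℕ)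
    (hj : j ≤ n) : w (p.coeff j) * δ ^ ((n + 1) ^ 2) ≤ ((n + 1).factorial : ℝ) ^ t * U := by
  set M := Matrix.projVandermonde (fun i => z i 0) (fun i => z i 1) with hM
  have hMle : ∀ i j, w (M i j) ≤ 1 := by
    intro i j
    rw [hM, Matrix.projVandermonde_apply, map_mul, map_pow, map_pow]
    have h0 : w (z i 0) ≤ 1 := (le_nv w (z i) 0).trans (hz i)
    have h1 : w (z i 1) ≤ 1 := (le_nv w (z i) 1).trans (hz i)
    exact mul_le_one₀ (pow_le_one₀ (w.nonneg _) h0) (pow_nonneg (w.nonneg _) _)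
      (pow_le_one₀ (w.nonneg _) h1)
  have hval : ∀ i, M.mulVec (fun k : Fin (n + 1) => p.coeff k) i = hev n p (z i) := by
    intro i
    unfold hev
    rw [Matrix.mulVec, dotProduct, Finset.sum_range]
    apply Finset.sum_congr rfl
    intro k _
    rw [hM, Matrix.projVandermonde_apply, Fin.val_rev]
    have : n + 1 - (k + 1) = n - (k : ℕ) := by omega
    rw [this]
    ring
  have hc := cramer_le h M (fun k : Fin (n + 1) => p.coeff k) 1 U hMle
    (fun i => by rw [hval i]; exact hU i) ⟨j, by omega⟩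
  rw [one_pow, mul_one] at hc
  refine le_trans ?_ hc
  apply mul_le_mul_of_nonneg_left _ (w.nonneg _)
  rw [hM, Matrix.det_projVandermonde, map_prod]
  have e : δ ^ ((n + 1) ^ 2) = ∏ _i : Fin (n + 1), δ ^ (n + 1) := by
    rw [Finset.prod_const, Finset.card_univ, Fintype.card_fin, ← pow_mul, sq]
  rw [e]
  apply Finset.prod_le_prod (fun i _ => by positivity)
  intro i _
  rw [map_prod]
  have hc2 : (Finset.Ioi i).card ≤ n + 1 := (Finset.card_le_univ _).trans (by simp)
  calc δ ^ (n + 1) ≤ δ ^ (Finset.Ioi i).card := pow_le_pow_of_le_one hδ.le hδ1 hc2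
    _ = ∏ _j ∈ Finset.Ioi i, δ := by rw [Finset.prod_const]
    _ ≤ _ := by
      apply Finset.prod_le_prod (fun _ _ => hδ.le)
      intro j hj
      have hne : i ≠ j := (Finset.mem_Ioi.1 hj).ne
      have h3 := hsep i j hne
      have e2 : z j 0 * z i 1 - z i 0 * z j 1 = - wd (z i) (z j) := by unfold wd; ring
      rwa [e2, w.map_neg]

/-- A form with a large coefficient is small at few separated points. -/
theorem few_small {w : AbsoluteValue L ℝ} {t : ℕ} (h : SB w t) (n : ℕ) (p : L[X]) {ι : Type*}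
    (S : Finset ι) (z : ι → Fin 2 → L) (hz : ∀ i ∈ S, nv w (z i) ≤ 1) (δ U : ℝ) (hδ : 0 < δ)
    (hδ1 : δ ≤ 1) (hsep : ∀ i ∈ S, ∀ j ∈ S, i ≠ j → δ ≤ w (wd (z i) (z j))) (j : ℕ) (hj : j ≤ n)
    (hU : ((n + 1).factorial : ℝ) ^ t * U < w (p.coeff j) * δ ^ ((n + 1) ^ 2))
    (P : ι → Prop) [DecidablePred P] (hP : ∀ i ∈ S, P i → w (hev n p (z i)) ≤ U) :
    (S.filter P).card ≤ n := by
  by_contra hcon
  have hcon' : n + 1 ≤ (S.filter P).card := by omega
  obtain ⟨T, hT, hc⟩ := Finset.exists_subset_card_eq hcon'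
  have e := T.equivFinOfCardEq hc
  have hmem : ∀ k, ((e.symm k : T) : ι) ∈ S ∧ P ((e.symm k : T) : ι) := fun k =>
    Finset.mem_filter.1 (hT (e.symm k).2)
  have := interp h n p (fun k => z (e.symm k : T)) (fun k => hz _ (hmem k).1) δ U hδ hδ1
    (fun a b hab => hsep _ (hmem a).1 _ (hmem b).1 (fun h => hab (e.symm.injective (Subtype.ext h))))
    (fun k => hP _ (hmem k).1 (hmem k).2) j hj
  linarith

theorem ht_smul {w : AbsoluteValue L ℝ} {d : ℕ} {F : Fin 2 → L[X]} (hG : Good d F) (c : L)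
    (hc : c ≠ 0) (x : Fin 2 → L) (hx : x ≠ 0) :
    ht w d F (fun i => c * x i) = ht w d F x := by
  have h1 := HH_smul (w := w) hG c hc x hx
  unfold HH at h1
  rw [nv_smul, Real.log_mul (w.pos hc).ne' (nv_pos w x hx).ne'] at h1
  linarith

theorem resultant_add_mul_right' (f g : L[X]) (c : L) (n : ℕ) (hf : f.natDegree ≤ n) :
    resultant f (g + f * C c) n n = resultant f g n n :=
  resultant_add_mul_right _ _ _ _ _ (by simp) hf

theorem resultant_add_mul_left' (f g : L[X]) (c : L) (n : ℕ) (hg : g.natDegree ≤ n) :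
    resultant (f + g * C c) g n n = resultant f g n n :=
  resultant_add_mul_left _ _ _ _ _ (by simp) hg

/-- The form `p ∧ G` has a large coefficient. -/
theorem exists_coeff {w : AbsoluteValue L ℝ} {t : ℕ} (h : SB w t) {d : ℕ} {G : Fin 2 → L[X]}
    (hG : Good d G) (hn : nF w d G = 1) (p : Fin 2 → L) (hp : p 0 = 1 ∨ p 1 = 1) :
    ∃ j ≤ d, - (RR w d G + t * log ((2 * d).factorial)) / d ≤
      log (w ((C (p 0) * G 1 - C (p 1) * G 0).coeff j)) ∧
      0 < w ((C (p 0) * G 1 - C (p 1) * G 0).coeff j) := by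
  have hd2 := hG.two_le
  have hd : (0 : ℝ) < d := by exact_mod_cast (by omega : 0 < d)
  set P := C (p 0) * G 1 - C (p 1) * G 0 with hP
  have hPdeg : P.natDegree ≤ d := (Polynomial.natDegree_sub_le _ _).trans (max_le
    ((Polynomial.natDegree_C_mul_le _ _).trans (hG.deg 1))
    ((Polynomial.natDegree_C_mul_le _ _).trans (hG.deg 0)))
  obtain ⟨j, hj, hmax⟩ := Finset.exists_max_image (Finset.range (d + 1)) (fun j => w (P.coeff j))
    ⟨0, by simp⟩
  have hj' : j ≤ d := Nat.lt_succ_iff.1 (Finset.mem_range.1 hj)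
  have hle : ∀ k, w (P.coeff k) ≤ w (P.coeff j) := by
    intro k
    by_cases hk : k ≤ d
    · exact hmax k (Finset.mem_range.2 (by omega))
    · rw [coeff_eq_zero_of_natDegree_lt (lt_of_le_of_lt hPdeg (not_le.1 hk)), map_zero]
      exact w.nonneg _
  have hG1 : ∀ i k, w ((G i).coeff k) ≤ 1 := fun i k => hn ▸ coeff_le_nF w d G hG.deg i k
  have hfac : (0 : ℝ) < (2 * d).factorial := by exact_mod_cast Nat.factorial_pos _
  have hres : w (res d G) ≤ ((2 * d).factorial : ℝ) ^ t * (w (P.coeff j)) ^ d := by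
    rcases hp with h0 | h1
    · have e : res d ![G 0, P] = res d G := by
        unfold res
        simp only [Matrix.cons_val_zero, Matrix.cons_val_one]
        have : P = G 1 + G 0 * C (- p 1) := by
          rw [hP, h0, C_neg]; simp only [map_one, one_mul]; ring
        rw [this, resultant_add_mul_right' _ _ _ _ (hG.deg 0)]
      have := res_le h d ![G 0, P] 1 (w (P.coeff j)) (hG1 0) hle
      rw [e] at this
      simpa using this
    · have e : w (res d ![P, G 1]) = w (res d G) := by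
        unfold res
        simp only [Matrix.cons_val_zero, Matrix.cons_val_one]
        have : P = C (-1) * G 0 + G 1 * C (p 0) := by
          rw [hP, h1, C_neg]; simp only [map_one, one_mul]; ring
        rw [this, resultant_add_mul_left' _ _ _ _ (hG.deg 1), resultant_C_mul_left, map_mul,
          map_pow, w.map_neg, map_one, one_pow, one_mul]
      have := res_le h d ![P, G 1] (w (P.coeff j)) 1 hle (hG1 1)
      rw [e] at this
      simpa using this
  have hrpos : 0 < w (res d G) := w.pos hG.res_ne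
  have hpos : 0 < w (P.coeff j) := by
    rcases lt_or_eq_of_le (w.nonneg (P.coeff j)) with h1 | h1
    · exact h1
    · rw [← h1, zero_pow (by omega)] at hres
      simp at hres
      exact absurd hres hG.res_ne
  refine ⟨j, hj', ?_, hpos⟩
  have h2 := Real.log_le_log hrpos hres
  rw [Real.log_mul (by positivity) (by positivity), Real.log_pow, Real.log_pow] at h2
  unfold RR
  rw [hn, Real.log_one, div_le_iff₀ hd]
  linarith

theorem hev_wedge (d : ℕ) (G : Fin 2 → L[X]) (p x : Fin 2 → L) :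
    hev d (C (p 0) * G 1 - C (p 1) * G 0) x = wd p (hmap d G x) := by
  have e : C (p 0) * G 1 - C (p 1) * G 0 = C (p 0) * G 1 + C (-p 1) * G 0 := by
    rw [C_neg]; ring
  rw [e, hev_add, hev_C_mul, hev_C_mul]
  unfold wd hmap
  ring

end

end Pool.Agent.Lib_helper95.FP
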