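import Pool.Agent.Lib_helper95.FP.NF

/-!
# Regular functions on the moduli space: comparison of heights
-/

set_option autoImplicit false

universe u

namespace Pool.Agent.Lib_helper95.FP

open Polynomial Real Height AdmissibleAbsValues

/-- The coefficient vector of a pair of forms of degree `d`. -/
noncomputable def cf {L : Type*} [Field L] (d : ℕ) (F : Fin 2 → L[X]) :
    Fin 2 × Fin (d + 1) → L := fun ij => (F ij.1).coeff ij.2

/-- The value of a polynomial in the coefficients. -/
noncomputable def ev {L : Type*} [Field L] (d : ℕ) (I : MvPolynomial (Fin 2 × Fin (d + 1)) ℤ)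
    (F : Fin 2 → L[X]) : L := MvPolynomial.aeval (cf d F) I

/-- `I / Res^m` is a regular function on the moduli space `M_d`: `I` is homogeneous of degree `2 d m` in the
coefficients and it is an invariant of the same weight as `Res ^ m`. -/
structure Inv (d m : ℕ) (I : MvPolynomial (Fin 2 × Fin (d + 1)) ℤ) : Prop where
  homog : I.IsHomogeneous (2 * d * m)
  inv : ∀ (L : Type u) [Field L] (F : Fin 2 → L[X]), (∀ i, (F i).natDegree ≤ d) →
    ∀ γ : Matrix (Fin 2) (Fin 2) L, γ.det ≠ 0 →
      ev d I (cj d F γ) = γ.det ^ (m * (d * (d + 1))) * ev d I F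

section one

variable {L : Type*} [Field L]

theorem int_le {w : AbsoluteValue L ℝ} {t : ℕ} (h : SB w t) (n : ℤ) :
    w (n : L) ≤ (n.natAbs : ℝ) ^ t := by
  have h1 : ∀ k : ℕ, w (k : L) ≤ (k : ℝ) ^ t := by
    intro k
    have := h k (fun _ => (1 : L)) 1 zero_le_one (fun _ => by rw [map_one])
    simpa using this
  rcases Int.natAbs_eq n with h2 | h2
  · rw [h2]
    simpa using h1 n.natAbs
  · rw [h2]
    simpa using h1 n.natAbs

/-- The bound for the values of an integral polynomial. -/
noncomputable def Cpol {σ : Type*} (I : MvPolynomial σ ℤ) : ℕ :=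
  I.support.card * (∑ e ∈ I.support, (I.coeff e).natAbs) + 1

theorem ev_le {w : AbsoluteValue L ℝ} {t : ℕ} (h : SB w t) (d N : ℕ)
    (I : MvPolynomial (Fin 2 × Fin (d + 1)) ℤ) (hI : I.IsHomogeneous N) (F : Fin 2 → L[X]) :
    w (ev d I F) ≤ (Cpol I : ℝ) ^ t * nF w d F ^ N := by
  have hn := nF_nonneg w d F
  have e : ev d I F = ∑ e ∈ I.support, ((I.coeff e : ℤ) : L) * ∏ ij, cf d F ij ^ e ij := by
    unfold ev
    rw [MvPolynomial.aeval_def, MvPolynomial.eval₂_eq']
    rfl
  rw [e]
  have h1 := h.finset I.support (fun e => ((I.coeff e : ℤ) : L) * ∏ ij, cf d F ij ^ e ij)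
    (((∑ e ∈ I.support, (I.coeff e).natAbs : ℕ) : ℝ) ^ t * nF w d F ^ N) (by positivity) (by
      intro e he
      rw [map_mul]
      apply mul_le_mul _ _ (w.nonneg _) (by positivity)
      · refine (int_le h _).trans ?_
        apply pow_le_pow_left₀ (Nat.cast_nonneg _)
        exact_mod_cast Finset.single_le_sum (f := fun e => (I.coeff e).natAbs)
          (fun _ _ => Nat.zero_le _) he
      · rw [map_prod]
        have hdeg : ∑ ij, e ij = N := by
          have := hI (MvPolynomial.mem_support_iff.1 he)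
          rw [Finsupp.weight_apply, Finsupp.sum_fintype _ _ (by simp)] at this
          simpa using this
        rw [← hdeg, ← Finset.prod_pow_eq_pow_sum]
        apply Finset.prod_le_prod (fun _ _ => w.nonneg _)
        intro ij _
        rw [map_pow]
        exact pow_le_pow_left₀ (w.nonneg _) (le_nF w d F ij.1 ij.2 (Nat.lt_succ_iff.1 ij.2.2)) _)
  refine h1.trans ?_
  rw [← mul_assoc, ← mul_pow]
  apply mul_le_mul_of_nonneg_right _ (by positivity)
  apply pow_le_pow_left₀ (by positivity)
  unfold Cpol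
  push_cast
  linarith

theorem ev_mp {K : Type*} [Field K] (φ : K →+* L) (d : ℕ)
    (I : MvPolynomial (Fin 2 × Fin (d + 1)) ℤ) (F : Fin 2 → K[X]) :
    ev d I (mp φ F) = φ (ev d I F) := by
  unfold ev
  rw [MvPolynomial.aeval_def, MvPolynomial.aeval_def, MvPolynomial.eval₂_eq', MvPolynomial.eval₂_eq',
    map_sum]
  apply Finset.sum_congr rfl
  intro e _
  rw [map_mul, map_prod]
  congr 1
  · simp
  · apply Finset.prod_congr rfl
    intro ij _
    rw [map_pow]
    unfold cf mp
    rw [coeff_map]

end one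

section loc

variable {K : Type u} [Field K]

theorem log_ev_le {v : AbsoluteValue K ℝ} {t : ℕ} (h : AV v t) {d : ℕ} {F : Fin 2 → K[X]}
    (hG : Good d F) (m : ℕ) (I : MvPolynomial (Fin 2 × Fin (d + 1)) ℤ) (hI : Inv.{u} d m I)
    (hne : ev d I F ≠ 0) :
    log (v (ev d I F)) ≤ m * log (v (res d F)) + t * log (Cpol I) +
      m * max (locRes d v F) 0 := by
  apply le_of_forall_pos_sub_le
  intro η hη
  set η' := η / (m + 1) with hη'
  have hη'0 : 0 < η' := by positivity
  have hηe : m * η' ≤ η := by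
    have h1 : (m + 1) * η' = η := by rw [hη']; field_simp
    linarith
  obtain ⟨L, _, w, φ, γ, hφ, hγ, hR⟩ := exists_almost (v := v) d F (locRes d v F + η')
    (by linarith)
  have hS := h.sb hφ
  have hG' := (hG.mp φ).cj hγ
  have h1 := hI.inv L (mp φ F) (hG.mp φ).deg γ hγ
  have h2 := ev_le hS d _ I hI.homog (cj d (mp φ F) γ)
  have hC : (0 : ℝ) < Cpol I := by exact_mod_cast (by unfold Cpol; omega : 0 < Cpol I)
  have hv : 0 < v (ev d I F) := v.pos hne
  have hdet := w.pos hγ
  rw [h1, ev_mp, map_mul, map_pow, hφ] at h2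
  have h3 := Real.log_le_log (mul_pos (pow_pos hdet _) hv) h2
  rw [Real.log_mul (pow_ne_zero _ hdet.ne') hv.ne', Real.log_pow,
    Real.log_mul (pow_ne_zero _ hC.ne') (pow_ne_zero _ (nF_pos hG').ne'), Real.log_pow,
    Real.log_pow] at h3
  have h4 := log_res_cj w (hG.mp φ) hγ
  rw [res_mp, hφ] at h4
  have h5 : RR w d (cj d (mp φ F) γ) = 2 * d * log (nF w d (cj d (mp φ F) γ)) -
      log (w (res d (cj d (mp φ F) γ))) := rfl
  have h6 : RR w d (cj d (mp φ F) γ) ≤ max (locRes d v F) 0 + η' := by
    have := le_max_left (locRes d v F) 0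
    linarith
  have h7 := mul_le_mul_of_nonneg_left h6 (Nat.cast_nonneg (α := ℝ) m)
  rw [h5, h4] at h7
  push_cast at h3 h7
  have e : (m : ℝ) * (d * (d + 1)) * log (w γ.det) = m * ((d * d + d) * log (w γ.det)) := by ring
  have e2 : (2 : ℝ) * d * m * log (nF w d (cj d (mp φ F) γ)) =
      m * (2 * d * log (nF w d (cj d (mp φ F) γ))) := by ring
  rw [e, e2] at h3
  linarith

end loc

section glob

variable {K : Type u} [Field K] [AdmissibleAbsValues K]

theorem logHeight_gs' {ι : Type*} [Finite ι] (B : Finset (nonarchAbsVal (K := K))) {x : ι → K}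
    (hx : x ≠ 0) (hB : ∀ v : nonarchAbsVal (K := K), v ∉ B → ⨆ i, v.val (x i) = 1) :
    logHeight x = gs B (fun v => log (⨆ i, v (x i))) := by
  obtain ⟨i₀, hi₀⟩ : ∃ i, x i ≠ 0 := Function.ne_iff.1 hx
  have hpos : ∀ v : AbsoluteValue K ℝ, 0 < ⨆ i, v (x i) := fun v =>
    lt_of_lt_of_le (v.pos hi₀) (Finite.le_ciSup (fun i => v (x i)) i₀)
  rw [logHeight_eq_log_mulHeight, mulHeight_eq hx]
  have h0 : ∏ᶠ v : nonarchAbsVal (K := K), (⨆ i, v.val (x i)) = ∏ v ∈ B, ⨆ i, v.val (x i) := by
    apply finprod_eq_prod_of_mulSupport_subset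
    intro v hv
    by_contra hcon
    exact hv (hB v (by simpa using hcon))
  rw [h0, Real.log_mul, Real.log_multiset_prod, Real.log_prod, Multiset.map_map]
  · rfl
  · intro v _
    exact (hpos v.val).ne'
  · intro y hy
    obtain ⟨v, _, rfl⟩ := Multiset.mem_map.1 hy
    exact (hpos v).ne'
  · intro hx'
    obtain ⟨v, _, h1⟩ := Multiset.mem_map.1 (Multiset.prod_eq_zero_iff.1 hx')
    exact (hpos v).ne' h1
  · exact Finset.prod_ne_zero_iff.2 fun v _ => (hpos v.val).ne'

/-- The point of projective space given by `Res^m` and finitely many invariants. -/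
noncomputable def modPoint (d m : ℕ) {l : ℕ} (I : Fin l → MvPolynomial (Fin 2 × Fin (d + 1)) ℤ)
    (F : Fin 2 → K[X]) : Fin (l + 1) → K :=
  Fin.cons (res d F ^ m) (fun k => ev d (I k) F)

/-- The height given by regular functions is at most a multiple of the moduli height. -/
theorem modPoint_le {d : ℕ} {F : Fin 2 → K[X]} (hG : Good d F) (m : ℕ) {l : ℕ}
    (I : Fin l → MvPolynomial (Fin 2 × Fin (d + 1)) ℤ) (hI : ∀ k, Inv.{u} d m (I k)) :
    logHeight (modPoint d m I F) ≤ m * placeSum (fun v => locRes d v F) +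
      totalWeight K * (m * log ((2 * d).factorial) + ∑ k, log (Cpol (I k))) := by
  have hl : 0 ≤ log ((2 * d).factorial : ℝ) :=
    Real.log_nonneg (by exact_mod_cast Nat.one_le_iff_ne_zero.2 (Nat.factorial_ne_zero _))
  have hlC : ∀ k, 0 ≤ log (Cpol (I k) : ℝ) := fun k =>
    Real.log_nonneg (by exact_mod_cast (by unfold Cpol; omega : 0 < Cpol (I k)))
  have hsum0 : 0 ≤ ∑ k, log (Cpol (I k) : ℝ) := Finset.sum_nonneg fun k _ => hlC k
  have hres : res d F ^ m ≠ 0 := pow_ne_zero _ hG.res_ne
  have hx : modPoint d m I F ≠ 0 := by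
    intro h
    apply hres
    have := congrFun h 0
    simpa [modPoint] using this
  obtain ⟨B, hB⟩ := exists_B hG (fun i : Fin 0 => ((fun _ => 1) : Fin 2 → K)) (fun i => i.elim0)
    (fun _ : Fin 1 => res d F) (fun _ => hG.res_ne)
  have hBs : ∀ v : nonarchAbsVal (K := K), v ∉ B → ⨆ i, v.val (modPoint d m I F i) = 1 := by
    intro v hv
    have hgood := (hB v hv).1
    have hS := SB_zero v.val (AdmissibleAbsValues.isNonarchimedean _ v.2)
    apply le_antisymm
    · apply ciSup_le
      intro i
      refine Fin.cases ?_ (fun k => ?_) i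
      · simp [modPoint, hgood.2]
      · have h1 := ev_le hS d _ (I k) (hI k).homog F
        rw [hgood.1] at h1
        simpa [modPoint] using h1
    · have h1 := Finite.le_ciSup (fun i => v.val (modPoint d m I F i)) 0
      have h2 : v.val (modPoint d m I F 0) = 1 := by simp [modPoint, hgood.2]
      rw [h2] at h1
      exact h1
  rw [logHeight_gs' B hx hBs, placeSum_eq B _ (fun v hv => locRes_good hG v (hB v hv).1)]
  have hp := product_gs B hG.res_ne (fun v hv => (hB v hv).2.2 0)
  have key : ∀ v : AbsoluteValue K ℝ, log (⨆ i, v (modPoint d m I F i)) ≤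
      (m * log (v (res d F)) + m * locRes d v F) +
        tt v * (m * log ((2 * d).factorial) + ∑ k, log (Cpol (I k))) := by
    intro v
    have h4 := locRes_ge (AV_tt v) hG
    have htt : (0 : ℝ) ≤ tt v := Nat.cast_nonneg _
    have h5 : max (locRes d v F) 0 ≤ locRes d v F + tt v * log ((2 * d).factorial) := by
      have h2 : 0 ≤ (tt v : ℝ) * log ((2 * d).factorial) := mul_nonneg htt hl
      exact max_le (by linarith) (by linarith)
    have h6 := mul_le_mul_of_nonneg_left h5 (Nat.cast_nonneg (α := ℝ) m)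
    have h7 := le_max_right (locRes d v F) 0
    have h8 : 0 ≤ m * max (locRes d v F) 0 := mul_nonneg (Nat.cast_nonneg _) h7
    have h9 : 0 ≤ tt v * ∑ k, log (Cpol (I k) : ℝ) := mul_nonneg htt hsum0
    obtain ⟨i, hi⟩ := exists_eq_ciSup_of_finite (f := fun i => v (modPoint d m I F i))
    rw [← hi]
    by_cases hi0 : modPoint d m I F i = 0
    · -- impossible for the maximum
      exfalso
      have h1 := Finite.le_ciSup (fun i => v (modPoint d m I F i)) 0
      rw [← hi, hi0, map_zero] at h1
      have h2 : v (modPoint d m I F 0) = v (res d F ^ m) := by simp [modPoint]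
      rw [h2] at h1
      exact absurd (v.pos hres) (not_lt.2 h1)
    · revert hi0
      refine Fin.cases ?_ (fun k => ?_) i
      · intro _
        have h2 : modPoint d m I F 0 = res d F ^ m := by simp [modPoint]
        rw [h2, map_pow, Real.log_pow]
        linarith
      · intro hk
        have h2 : modPoint d m I F k.succ = ev d (I k) F := by simp [modPoint]
        rw [h2] at hk ⊢
        have h3 := log_ev_le (AV_tt v) hG m (I k) (hI k) hk
        have h10 : tt v * log (Cpol (I k) : ℝ) ≤ tt v * ∑ k, log (Cpol (I k) : ℝ) :=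
          mul_le_mul_of_nonneg_left (Finset.single_le_sum (f := fun k => log (Cpol (I k) : ℝ))
            (fun k _ => hlC k) (Finset.mem_univ k)) htt
        linarith
  have h1 := gs_le B _ _ (fun v _ => key v) (fun v _ => key v.val)
  rw [gs_add, gs_add, gs_mul, gs_mul, hp] at h1
  have h2 := gs_tt_le B (m * log ((2 * d).factorial) + ∑ k, log (Cpol (I k) : ℝ)) (by positivity)
  linarith

end glob

end Pool.Agent.Lib_helper95.FP
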