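import Pool.Agent.Lib_helper95.FP.Res

/-!
# Iterates of a pair of forms, Sylvester times Vandermonde
-/

set_option autoImplicit false

namespace Pool.Agent.Lib_helper95.FP

open Polynomial

section

variable {L : Type*} [Field L]

/-- The map of `L^2` given by a pair of forms of degree `d`. -/
noncomputable def hmap (d : ℕ) (F : Fin 2 → L[X]) (x : Fin 2 → L) : Fin 2 → L :=
  fun i => hev d (F i) x

/-- The pair of forms of degree `d ^ k` of the `k`-th iterate. -/
noncomputable def pit (d : ℕ) (F : Fin 2 → L[X]) : ℕ → (Fin 2 → L[X])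
  | 0 => ![X, 1]
  | k + 1 => fun i => hcomp (d ^ k) (pit d F k i) F

theorem natDegree_pit (d : ℕ) (F : Fin 2 → L[X]) (hF : ∀ i, (F i).natDegree ≤ d) (k : ℕ) (i : Fin 2) :
    (pit d F k i).natDegree ≤ d ^ k := by
  cases k with
  | zero => fin_cases i <;> simp [pit]
  | succ k =>
    have := natDegree_hcomp (d ^ k) d (pit d F k i) F hF
    rw [pow_succ]
    exact this

theorem hmap_pit (d : ℕ) (F : Fin 2 → L[X]) (hF : ∀ i, (F i).natDegree ≤ d) (k : ℕ)
    (x : Fin 2 → L) : hmap (d ^ k) (pit d F k) x = (hmap d F)^[k] x := by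
  induction k generalizing x with
  | zero =>
    funext i
    fin_cases i
    · show hev (d ^ 0) (pit d F 0 0) x = x 0
      simp only [pit, pow_zero, Matrix.cons_val_zero]
      exact hev_X x
    · show hev (d ^ 0) (pit d F 0 1) x = x 1
      simp only [pit, pow_zero, Matrix.cons_val_one]
      exact hev_one_one x
  | succ k ih =>
    rw [Function.iterate_succ, Function.comp_apply, ← ih]
    funext i
    show hev (d ^ (k + 1)) (hcomp (d ^ k) (pit d F k i) F) x = hev (d ^ k) (pit d F k i) (hmap d F x)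
    rw [pow_succ, hev_hcomp _ _ _ _ hF]
    rfl

/-- The resultant of a pair of forms. -/
noncomputable def res (d : ℕ) (F : Fin 2 → L[X]) : L := resultant (F 0) (F 1) d d

/-- The exponent of the resultant of the iterate. -/
def eR (d : ℕ) : ℕ → ℕ
  | 0 => 0
  | k + 1 => d * eR d k + d ^ k * d ^ k

theorem res_pit (d : ℕ) (F : Fin 2 → L[X]) (hF : ∀ i, (F i).natDegree ≤ d) (k : ℕ) :
    (res (d ^ k) (pit d F k)) ^ 2 = ((res d F) ^ eR d k) ^ 2 := by
  induction k with
  | zero =>
    simp [res, pit, eR]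
  | succ k ih =>
    have h := res_hcomp (d ^ k) d (pit d F k 0) (pit d F k 1) F (natDegree_pit d F hF k 0)
      (natDegree_pit d F hF k 1) hF
    have e : res (d ^ (k + 1)) (pit d F (k + 1)) =
        resultant (hcomp (d ^ k) (pit d F k 0) F) (hcomp (d ^ k) (pit d F k 1) F) (d ^ k * d) (d ^ k * d) := by
      unfold res
      rw [pow_succ]
      rfl
    rw [e, h]
    have h2 : (resultant (pit d F k 0) (pit d F k 1) (d ^ k) (d ^ k)) = res (d ^ k) (pit d F k) := rfl
    have h3 : resultant (F 0) (F 1) d d = res d F := rfl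
    rw [h2, h3, mul_pow, ← pow_mul _ d 2, mul_comm d 2, pow_mul, ih, eR, pow_add, mul_pow, ← pow_mul,
      ← pow_mul, ← pow_mul, ← pow_mul]
    congr 2
    ring

theorem eR_formula (d k : ℕ) : d * (d - 1) * eR d k = d ^ k * (d ^ k - 1) := by
  rcases Nat.eq_zero_or_pos d with hd | hd
  · subst hd
    cases k with
    | zero => simp
    | succ k => simp
  · obtain ⟨a, rfl⟩ : ∃ a, d = a + 1 := ⟨d - 1, by omega⟩
    induction k with
    | zero => simp [eR]
    | succ k ih =>
      have h1 : 1 ≤ (a + 1) ^ k := Nat.one_le_pow _ _ (by omega)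
      obtain ⟨b, hb⟩ : ∃ b, (a + 1) ^ k = b + 1 := ⟨(a + 1) ^ k - 1, by omega⟩
      have e1 : (a + 1) ^ (k + 1) - 1 = (b + 1) * (a + 1) - 1 := by rw [pow_succ, hb]
      have e2 : (b + 1) * (a + 1) - 1 = b * (a + 1) + a := by
        have : (b + 1) * (a + 1) = b * (a + 1) + a + 1 := by ring
        omega
      rw [eR, e1, e2, pow_succ, hb]
      rw [hb] at ih
      simp only [Nat.add_sub_cancel] at ih ⊢
      calc (a + 1) * a * ((a + 1) * eR (a + 1) k + (b + 1) * (b + 1))
          = (a + 1) * ((a + 1) * a * eR (a + 1) k) + (a + 1) * a * ((b + 1) * (b + 1)) := by ring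
        _ = (a + 1) * ((b + 1) * b) + (a + 1) * a * ((b + 1) * (b + 1)) := by rw [ih]
        _ = (b + 1) * (a + 1) * (b * (a + 1) + a) := by ring

/-- The Sylvester matrix times the Vandermonde matrix of `2 n` points. -/
theorem det_sylv_vand (n : ℕ) (G : Fin 2 → L[X]) (hG : ∀ i, (G i).natDegree ≤ n)
    (z : Fin (n + n) → (Fin 2 → L)) :
    (∏ i : Fin (n + n), ∏ j ∈ Finset.Ioi i, (z j 0 * z i 1 - z i 0 * z j 1)) * res n G =
      Matrix.det (Matrix.of fun (i j : Fin (n + n)) => Fin.addCases (motive := fun _ => L)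
        (fun j₁ : Fin n => z i 0 ^ (j₁ : ℕ) * z i 1 ^ (n - 1 - j₁) * hmap n G (z i) 1)
        (fun j₁ : Fin n => z i 0 ^ (j₁ : ℕ) * z i 1 ^ (n - 1 - j₁) * hmap n G (z i) 0) j) := by
  rw [← Matrix.det_projVandermonde (fun i => z i 0) (fun i => z i 1)]
  unfold res resultant
  rw [← Matrix.det_mul]
  congr 1
  ext i j
  rw [Matrix.mul_apply]
  have key : ∀ (g : L[X]) (hg : g.natDegree ≤ n) (j₁ : Fin n),
      ∑ k : Fin (n + n), Matrix.projVandermonde (fun i => z i 0) (fun i => z i 1) i k *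
        (if (k : ℕ) ∈ Set.Icc (j₁ : ℕ) (j₁ + n) then g.coeff (k - j₁) else 0) =
      z i 0 ^ (j₁ : ℕ) * z i 1 ^ (n - 1 - j₁) * hev n g (z i) := by
    intro g hg j₁
    have hj := j₁.2
    have e1 : hev ((n - 1) + n) ((X : L[X]) ^ (j₁ : ℕ) * g) (z i) =
        hev (n - 1) ((X : L[X]) ^ (j₁ : ℕ)) (z i) * hev n g (z i) :=
      hev_mul _ _ _ _ (by simp; omega) hg _
    have e2 : hev (n - 1) ((X : L[X]) ^ (j₁ : ℕ)) (z i) = z i 0 ^ (j₁ : ℕ) * z i 1 ^ (n - 1 - j₁) := by
      unfold hev
      rw [Finset.sum_eq_single (j₁ : ℕ)]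
      · simp
      · intro b _ hb
        rw [coeff_X_pow, if_neg hb]; ring
      · intro h
        exact absurd (Finset.mem_range.2 (by omega)) h
    rw [← e2, ← e1]
    unfold hev
    have e3 : n - 1 + n + 1 = n + n := by omega
    rw [e3, Finset.sum_range]
    apply Finset.sum_congr rfl
    intro k _
    rw [Matrix.projVandermonde_apply, coeff_X_pow_mul', Fin.val_rev]
    have e4 : n + n - (k + 1) = n - 1 + n - (k : ℕ) := by omega
    rw [e4]
    by_cases h : (j₁ : ℕ) ≤ k
    · rw [if_pos h]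
      by_cases h2 : (k : ℕ) ≤ j₁ + n
      · rw [if_pos (Set.mem_Icc.2 ⟨h, h2⟩)]; ring
      · rw [if_neg (fun h3 => h2 (Set.mem_Icc.1 h3).2),
          coeff_eq_zero_of_natDegree_lt (lt_of_le_of_lt hg (by omega))]
        ring
    · rw [if_neg h, if_neg (fun h3 => h (Set.mem_Icc.1 h3).1)]; ring
  induction j using Fin.addCases with
  | left j₁ =>
    simp only [sylvester, Matrix.of_apply, Fin.addCases_left]
    exact key (G 1) (hG 1) j₁
  | right j₁ =>
    simp only [sylvester, Matrix.of_apply, Fin.addCases_right]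
    exact key (G 0) (hG 0) j₁

end

end Pool.Agent.Lib_helper95.FP
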