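import Pool.Agent.Lib_helper95.FP.Core

/-!
# The local lemma: among many points there is a pair with a large Green's function
-/

set_option autoImplicit false

namespace Pool.Agent.Lib_helper95.FP

open Polynomial Real

section

variable {L : Type*} [Field L]

theorem ll_main {w : AbsoluteValue L ℝ} {t : ℕ} (h : SB w t) {d : ℕ} {F : Fin 2 → L[X]}
    (hG : Good d F) (ε : ℝ) (hε : ε * ((d : ℝ) ^ 8) ^ 3 = 1) (r : ℝ) (hr : 0 < r)
    (ht1 : t * log ((d ^ 8 + d ^ 8).factorial) ≤ ε / 4 * r) (hR : RR w d F ≤ 3 * r)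
    (hmin : ∀ γ : Matrix (Fin 2) (Fin 2) L, γ.det ≠ 0 → r ≤ RR w d (cj d F γ))
    (M : ℕ) (hM : (2 * d ^ 8 + 13 * d + 14) ^ (36 * (d ^ 8) ^ 3) < M) (x : Fin M → Fin 2 → L)
    (hx0 : ∀ i, x i ≠ 0) (hx : ∀ i j, i ≠ j → wd (x i) (x j) ≠ 0) :
    ∃ i j, i ≠ j ∧ ε / 2 * r ≤ gg w d F (x i) (x j) := by
  classical
  by_contra hcon
  push Not at hcon
  have hd2 := hG.two_le
  have hd : (2 : ℝ) ≤ d := by exact_mod_cast hd2
  have hd1 : (1 : ℝ) ≤ d - 1 := by linarith
  have hd0 : (0 : ℝ) < d := by linarith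
  have hD256 : 256 ≤ d ^ 8 :=
    calc 256 = 2 ^ 8 := by norm_num
      _ ≤ d ^ 8 := Nat.pow_le_pow_left hd2 8
  have hdD : d ≤ d ^ 8 := Nat.le_self_pow (by norm_num) d
  have hDr : (256 : ℝ) ≤ (d : ℝ) ^ 8 := by exact_mod_cast hD256
  have hε0 : 0 < ε := by
    by_contra hcon
    have : ε * ((d : ℝ) ^ 8) ^ 3 ≤ 0 := mul_nonpos_of_nonpos_of_nonneg (not_lt.1 hcon) (by positivity)
    linarith
  have hε1 : ε ≤ 1 := by
    by_contra hcon
    have h1 : (1 : ℝ) ≤ ((d : ℝ) ^ 8) ^ 3 := one_le_pow₀ (by linarith)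
    have h2 := not_le.1 hcon
    nlinarith
  have her : 0 < ε * r := mul_pos hε0 hr
  have her1 : ε * r ≤ r := by nlinarith
  -- logarithms of the constants
  have hlog : ∀ n : ℕ, 1 ≤ n → n ≤ (d ^ 8 + d ^ 8).factorial → t * log n ≤ ε / 4 * r := by
    intro n h1 h2
    refine le_trans ?_ ht1
    apply mul_le_mul_of_nonneg_left _ (Nat.cast_nonneg t)
    exact Real.log_le_log (by exact_mod_cast h1) (by exact_mod_cast h2)
  have f2 : (2 * d).factorial ≤ (d ^ 8 + d ^ 8).factorial := Nat.factorial_le (by omega)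
  have f3 : 2 ≤ (d ^ 8 + d ^ 8).factorial := by
    calc 2 = Nat.factorial 2 := rfl
      _ ≤ _ := Nat.factorial_le (by omega)
  have h2t : (2 : ℝ) ^ t ≤ exp (ε / 4 * r) := by
    rw [← Real.log_le_iff_le_exp (by positivity), Real.log_pow]
    exact_mod_cast hlog 2 (by norm_num) f3
  have hlog2 : t * log 2 ≤ ε / 4 * r := by exact_mod_cast hlog 2 (by norm_num) f3
  have hlogd := hlog _ (Nat.factorial_pos _) f2
  -- normalised points
  have hcex : ∀ i, ∃ c : L, c ≠ 0 ∧ nv w (fun k => c * x i k) = 1 := fun i => by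
    obtain ⟨c, h1, h2, _⟩ := exists_norm_one w _ (hx0 i)
    exact ⟨c, h1, h2⟩
  choose c hc0 hc1 using hcex
  set y : Fin M → Fin 2 → L := fun i k => c i * x i k with hy
  have hyne : ∀ i, y i ≠ 0 := fun i => smul_ne_zero' (hc0 i) (hx0 i)
  have hwy : ∀ i j, i ≠ j → wd (y i) (y j) ≠ 0 := by
    intro i j hij
    have : wd (y i) (y j) = c i * c j * wd (x i) (x j) := wd_smul _ _ _ _
    rw [this]
    exact mul_ne_zero (mul_ne_zero (hc0 i) (hc0 j)) (hx i j hij)
  have hgy : ∀ i j, i ≠ j → gg w d F (y i) (y j) < ε / 2 * r := by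
    intro i j hij
    have : gg w d F (y i) (y j) = gg w d F (x i) (x j) :=
      gg_smul hG _ _ (hc0 i) (hc0 j) _ _ (hx i j hij)
    rw [this]
    exact hcon i j hij
  -- the distances
  have hdist1 : ∀ i j, w (wd (y i) (y j)) ≤ 2 ^ t * 1 := by
    intro i j
    have := wd_le h (y i) (y j)
    rw [hc1 i, hc1 j, mul_one] at this
    exact this
  have hdist2 : ∀ i j, i ≠ j → exp (-(8 * r)) < w (wd (y i) (y j)) := by
    intro i j hij
    have hpos : 0 < w (wd (y i) (y j)) := w.pos (hwy i j hij)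
    rw [← Real.lt_log_iff_exp_lt hpos]
    have h1 := hgy i j hij
    rw [gg_eq hG, hc1 i, hc1 j, Real.log_one] at h1
    have hb : (RR w d F + t * log ((2 * d).factorial)) / (d - 1) ≤ 13 / 4 * r := by
      rw [div_le_iff₀ (by linarith)]
      have h3 : 13 / 4 * r * 1 ≤ 13 / 4 * r * (d - 1) :=
        mul_le_mul_of_nonneg_left hd1 (by positivity)
      linarith
    have h2 := (ht_le h hG (y i) (hyne i)).trans hb
    have h3 := (ht_le h hG (y j) (hyne j)).trans hb
    have h4 : -(1 / 4 * r) ≤ RR w d F / (d * (d - 1)) := by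
      rw [le_div_iff₀ (by positivity)]
      have h5 := RR_ge h hG
      have h6 : (1 : ℝ) ≤ d * (d - 1) := by nlinarith
      have h7 : 1 / 4 * r * 1 ≤ 1 / 4 * r * (d * (d - 1)) :=
        mul_le_mul_of_nonneg_left h6 (by positivity)
      linarith
    linarith
  -- the star
  have hkε : (((36 * (d ^ 8) ^ 3 : ℕ) : ℝ)) * (ε / 4 * r) = 9 * r := by
    push_cast
    linear_combination (9 * r) * hε
  obtain ⟨T, -, hTc, δ, hδ, hT1, hT2⟩ := star (fun i j => w (wd (y i) (y j))) (2 ^ t)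
    (exp (-(ε / 4 * r))) (exp_pos _) (fun i j => w_wd_comm w _ _)
    (fun i => by simp only [wd_self, map_zero])
    (fun i j k B h1 h2 => by
      have := wd_triangle h (y i) (y j) (y k) B (by rw [hc1 k, mul_one]; exact h1)
        (by rw [hc1 i, mul_one]; exact h2)
      rwa [hc1 j, mul_one] at this)
    (2 * d ^ 8 + 13 * d + 14) (36 * (d ^ 8) ^ 3) Finset.univ 1 one_pos
    (by rw [Finset.card_univ, Fintype.card_fin]; exact hM)
    (fun i _ j _ => hdist1 i j)
    (fun i _ j _ hij => by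
      refine lt_of_le_of_lt ?_ (hdist2 i j hij)
      rw [mul_one, ← Real.exp_nat_mul, mul_neg, hkε]
      calc (2 : ℝ) ^ t * exp (-(9 * r)) ≤ exp (ε / 4 * r) * exp (-(9 * r)) :=
            mul_le_mul_of_nonneg_right h2t (exp_pos _).le
        _ = exp (ε / 4 * r - 9 * r) := by rw [← Real.exp_add, sub_eq_add_neg]
        _ ≤ exp (-(8 * r)) := Real.exp_le_exp.2 (by linarith))
  obtain ⟨a, haT, b, hbT, hab⟩ := Finset.one_lt_card.1 (show 1 < T.card by omega)
  set T' := (T.erase a).erase b with hT'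
  have hT'c : 2 * d ^ 8 + 13 * d + 13 ≤ T'.card := by
    rw [hT', Finset.card_erase_of_mem (Finset.mem_erase.2 ⟨hab.symm, hbT⟩),
      Finset.card_erase_of_mem haT]
    omega
  have hT'T : ∀ i ∈ T', i ∈ T ∧ i ≠ a ∧ i ≠ b := by
    intro i hi
    rw [hT', Finset.mem_erase, Finset.mem_erase] at hi
    exact ⟨hi.2.2, hi.2.1, hi.1⟩
  -- the coordinates
  set γ : Matrix (Fin 2) (Fin 2) L := !![y a 0, y b 0; y a 1, y b 1] with hγ
  have hdet : γ.det = wd (y a) (y b) := by
    rw [hγ, Matrix.det_fin_two_of]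
    unfold wd
    ring
  have hdet0 : γ.det ≠ 0 := by rw [hdet]; exact hwy a b hab
  set q' : Fin M → Fin 2 → L := fun i => ![wd (y i) (y b), wd (y a) (y i)] with hq'
  have hγq' : ∀ i, γ.mulVec (q' i) = fun k => γ.det * y i k := by
    intro i
    rw [hdet, hq', hγ]
    funext k
    fin_cases k
    · simp [Matrix.mulVec, dotProduct, Fin.sum_univ_two, wd]; ring
    · simp [Matrix.mulVec, dotProduct, Fin.sum_univ_two, wd]; ring
  have hq'ne : ∀ i, q' i ≠ 0 := by
    intro i h0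
    have h1 := hγq' i
    rw [h0, Matrix.mulVec_zero] at h1
    have h2 : (fun k => γ.det * y i k) ≠ 0 := smul_ne_zero' hdet0 (hyne i)
    exact h2 h1.symm
  have hq'nv : ∀ i ∈ T', nv w (q' i) ≤ 2 ^ t * δ := by
    intro i hi
    obtain ⟨h1, h2, h3⟩ := hT'T i hi
    apply nv_le
    intro k
    fin_cases k
    · exact hT2 i h1 b hbT
    · exact hT2 a haT i h1
  have hq'wd : ∀ i j, wd (q' i) (q' j) = wd (y a) (y b) * wd (y i) (y j) := by
    intro i j
    rw [hq']
    simp only [wd, Matrix.cons_val_zero, Matrix.cons_val_one]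
    ring
  have hbex : ∀ i, ∃ β : L, β ≠ 0 ∧ nv w (fun k => β * q' i k) = 1 := fun i => by
    obtain ⟨c, h1, h2, _⟩ := exists_norm_one w _ (hq'ne i)
    exact ⟨c, h1, h2⟩
  choose β hβ0 hβ1 using hbex
  set q : Fin M → Fin 2 → L := fun i k => β i * q' i k with hq
  have hqne : ∀ i, q i ≠ 0 := fun i => smul_ne_zero' (hβ0 i) (hq'ne i)
  have hwq : ∀ i j, wd (q i) (q j) = β i * β j * (wd (y a) (y b) * wd (y i) (y j)) := by
    intro i j
    have : wd (q i) (q j) = β i * β j * wd (q' i) (q' j) := wd_smul _ _ _ _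
    rw [this, hq'wd]
  have hwq0 : ∀ i j, i ≠ j → wd (q i) (q j) ≠ 0 := by
    intro i j hij
    rw [hwq]
    exact mul_ne_zero (mul_ne_zero (hβ0 i) (hβ0 j)) (mul_ne_zero (hwy a b hab) (hwy i j hij))
  have hβlow : ∀ i ∈ T', exp (-(ε / 2 * r)) ≤ w (β i) * (δ * exp (-(ε / 4 * r))) := by
    intro i hi
    have h1 : w (β i) * nv w (q' i) = 1 := by
      have := hβ1 i
      rwa [nv_smul] at this
    have h2 : w (β i) * nv w (q' i) ≤ w (β i) * (exp (ε / 4 * r) * δ) :=
      mul_le_mul_of_nonneg_left ((hq'nv i hi).trans (mul_le_mul_of_nonneg_right h2t hδ.le))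
        (w.nonneg _)
    rw [h1] at h2
    calc exp (-(ε / 2 * r)) = 1 * (exp (-(ε / 4 * r)) * exp (-(ε / 4 * r))) := by
          rw [← Real.exp_add, one_mul]; congr 1; ring
      _ ≤ (w (β i) * (exp (ε / 4 * r) * δ)) * (exp (-(ε / 4 * r)) * exp (-(ε / 4 * r))) :=
          mul_le_mul_of_nonneg_right h2 (by positivity)
      _ = w (β i) * (δ * exp (-(ε / 4 * r))) * (exp (ε / 4 * r) * exp (-(ε / 4 * r))) := by ring
      _ = w (β i) * (δ * exp (-(ε / 4 * r))) := by
          rw [← Real.exp_add, add_neg_cancel, Real.exp_zero, mul_one]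
  -- the map in the new coordinates
  have hGγ : Good d (cj d F γ) := hG.cj hdet0
  obtain ⟨s, hs0, hs1⟩ := exists_sc w hGγ
  set G := sc s (cj d F γ) with hGdef
  have hGG : Good d G := hGγ.sc hs0
  have hRRG : RR w d G = RR w d (cj d F γ) := RR_sc w hGγ hs0
  have hrG : r ≤ RR w d G := by rw [hRRG]; exact hmin γ hdet0
  have hggG : ∀ i j, i ≠ j → gg w d G (q i) (q j) = gg w d F (y i) (y j) := by
    intro i j hij
    rw [hGdef, gg_sc w hGγ hs0 _ _ (hwq0 i j hij), gg_cj hG hdet0 _ _ (hwq0 i j hij)]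
    have e1 : ∀ i, γ.mulVec (q i) = fun k => (β i * γ.det) * y i k := by
      intro i
      have : q i = β i • q' i := rfl
      rw [this, Matrix.mulVec_smul, hγq']
      funext k
      simp [mul_assoc]
    rw [e1 i, e1 j]
    exact gg_smul hG _ _ (mul_ne_zero (hβ0 i) hdet0) (mul_ne_zero (hβ0 j) hdet0) _ _ (hwy i j hij)
  refine core h hGG hs1 ε hε (lt_of_lt_of_le hr hrG) ?_ T' q hT'c (fun i _ => hβ1 i) ?_ ?_
  · refine ht1.trans ?_
    have h1 : ε * r ≤ ε * RR w d G := mul_le_mul_of_nonneg_left hrG hε0.le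
    linarith
  · intro i hi j hj hij
    obtain ⟨hiT, hia, hib⟩ := hT'T i hi
    obtain ⟨hjT, hja, hjb⟩ := hT'T j hj
    have h1 := hβlow i hi
    have h2 := hβlow j hj
    have h3 := (hT1 a haT b hbT hab).le
    have h4 := (hT1 i hiT j hjT hij).le
    rw [hwq, map_mul, map_mul, map_mul]
    calc exp (-(ε * RR w d G)) ≤ exp (-(ε * r)) :=
          Real.exp_le_exp.2 (by
            have := mul_le_mul_of_nonneg_left hrG hε0.le
            linarith)
      _ = exp (-(ε / 2 * r)) * exp (-(ε / 2 * r)) := by rw [← Real.exp_add]; congr 1; ring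
      _ ≤ (w (β i) * (δ * exp (-(ε / 4 * r)))) * (w (β j) * (δ * exp (-(ε / 4 * r)))) :=
          mul_le_mul h1 h2 (exp_pos _).le (by positivity)
      _ = w (β i) * w (β j) * ((δ * exp (-(ε / 4 * r))) * (δ * exp (-(ε / 4 * r)))) := by ring
      _ ≤ w (β i) * w (β j) * (w (wd (y a) (y b)) * w (wd (y i) (y j))) :=
          mul_le_mul_of_nonneg_left (mul_le_mul h3 h4 (by positivity) (w.nonneg _)) (by positivity)
  · intro i hi j hj hij
    have h1 := hgy i j hij
    rw [← hggG i j hij, gg_eq hGG, hβ1 i, hβ1 j, Real.log_one] at h1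
    have hpos : 0 < w (wd (q i) (q j)) := w.pos (hwq0 i j hij)
    have h2 : log (w (wd (q i) (q j))) ≤ t * log 2 := by
      rw [← Real.log_pow]
      apply Real.log_le_log hpos
      have := wd_le h (q i) (q j)
      rw [hβ1 i, hβ1 j, mul_one, mul_one] at this
      exact this
    have h3 : ε * r ≤ ε * RR w d G := mul_le_mul_of_nonneg_left hrG hε0.le
    have e1 : (1 / (d * (d - 1)) - ε) * RR w d G = RR w d G / (d * (d - 1)) - ε * RR w d G := by
      ring
    rw [e1]
    linarith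

end

end Pool.Agent.Lib_helper95.FP
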