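import Pool.Agent.Lib_helper95.FP.Bd

/-!
# Local heights of a pair of forms for one absolute value
-/

set_option autoImplicit false

namespace Pool.Agent.Lib_helper95.FP

open Polynomial Real

section

variable {L : Type*} [Field L]

/-- A pair of forms of degree `d ≥ 2` without common zero. -/
structure Good (d : ℕ) (F : Fin 2 → L[X]) : Prop where
  two_le : 2 ≤ d
  deg : ∀ i, (F i).natDegree ≤ d
  res_ne : res d F ≠ 0

/-- The logarithm of the resultant ratio `‖F‖^(2d) / |Res F|`. -/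
noncomputable def RR (w : AbsoluteValue L ℝ) (d : ℕ) (F : Fin 2 → L[X]) : ℝ :=
  2 * d * log (nF w d F) - log (w (res d F))

/-- `log (‖F‖ ‖x‖^d / ‖F(x)‖)` -/
noncomputable def lt (w : AbsoluteValue L ℝ) (d : ℕ) (F : Fin 2 → L[X]) (x : Fin 2 → L) : ℝ :=
  d * log (nv w x) + log (nF w d F) - log (nv w (hmap d F x))

/-- The sum of `lt` along the orbit. -/
noncomputable def ht (w : AbsoluteValue L ℝ) (d : ℕ) (F : Fin 2 → L[X]) (x : Fin 2 → L) : ℝ :=
  ∑' n : ℕ, lt w d F ((hmap d F)^[n] x) / (d : ℝ) ^ (n + 1)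

/-- The homogeneous local height (escape rate) `lim d^(-n) log ‖F^n(x)‖`. -/
noncomputable def HH (w : AbsoluteValue L ℝ) (d : ℕ) (F : Fin 2 → L[X]) (x : Fin 2 → L) : ℝ :=
  log (nv w x) - ht w d F x + log (nF w d F) / (d - 1)

/-- The two variable Green's function. -/
noncomputable def gg (w : AbsoluteValue L ℝ) (d : ℕ) (F : Fin 2 → L[X]) (x y : Fin 2 → L) : ℝ :=
  - log (w (wd x y)) + HH w d F x + HH w d F y - log (w (res d F)) / (d * (d - 1))

theorem nF_pos {w : AbsoluteValue L ℝ} {d : ℕ} {F : Fin 2 → L[X]} (hG : Good d F) :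
    0 < nF w d F := by
  rcases lt_or_eq_of_le (nF_nonneg w d F) with h | h
  · exact h
  · exfalso
    have h1 := res_le (SB_one w) d F (nF w d F) (nF w d F) (coeff_le_nF w d F hG.deg 0)
      (coeff_le_nF w d F hG.deg 1)
    have h2 : 0 < w (res d F) := w.pos hG.res_ne
    rw [← h, zero_pow (by have := hG.two_le; omega)] at h1
    simp at h1
    exact hG.res_ne h1

theorem log_nat_pow (n t : ℕ) : log ((n : ℝ) ^ t) = t * log n := by
  rw [Real.log_pow]

theorem lt_ge {w : AbsoluteValue L ℝ} {t : ℕ} (h : SB w t) {d : ℕ} {F : Fin 2 → L[X]}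
    (hG : Good d F) (x : Fin 2 → L) (hx : x ≠ 0) :
    - (t * log (d + 1)) ≤ lt w d F x := by
  have h1 := nv_hmap_le h d F x
  have hpos : 0 < nv w (hmap d F x) :=
    nv_pos w _ (hmap_ne_zero d (by have := hG.two_le; omega) F hG.deg w hG.res_ne x hx)
  have hx' := nv_pos w x hx
  have hn := nF_pos (w := w) hG
  have h2 := Real.log_le_log hpos h1
  rw [Real.log_mul (by positivity) (by positivity), Real.log_mul (by positivity) (by positivity),
    Real.log_pow, Real.log_pow] at h2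
  unfold lt
  push_cast at h2
  linarith

theorem lt_le {w : AbsoluteValue L ℝ} {t : ℕ} (h : SB w t) {d : ℕ} {F : Fin 2 → L[X]}
    (hG : Good d F) (x : Fin 2 → L) (hx : x ≠ 0) :
    lt w d F x ≤ RR w d F + t * log ((2 * d).factorial) := by
  have hd := hG.two_le
  have h1 := nv_hmap_ge h d (by omega) F hG.deg x hx
  have hpos : 0 < nv w (hmap d F x) :=
    nv_pos w _ (hmap_ne_zero d (by omega) F hG.deg w hG.res_ne x hx)
  have hx' := nv_pos w x hx
  have hn := nF_pos (w := w) hG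
  have hr : 0 < w (res d F) := w.pos hG.res_ne
  have hf : (0 : ℝ) < (2 * d).factorial := by exact_mod_cast Nat.factorial_pos _
  have h2 := Real.log_le_log (by positivity) h1
  rw [Real.log_mul (by positivity) (by positivity), Real.log_mul (by positivity) (by positivity),
    Real.log_mul (by positivity) (by positivity),
    Real.log_pow, Real.log_pow, Real.log_pow] at h2
  have e : ((2 * d - 1 : ℕ) : ℝ) = 2 * d - 1 := by
    rw [Nat.cast_sub (by omega)]; push_cast; ring
  rw [e] at h2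
  unfold lt RR
  linarith

theorem RR_ge {w : AbsoluteValue L ℝ} {t : ℕ} (h : SB w t) {d : ℕ} {F : Fin 2 → L[X]}
    (hG : Good d F) : - (t * log ((2 * d).factorial)) ≤ RR w d F := by
  have h1 := res_le h d F (nF w d F) (nF w d F) (coeff_le_nF w d F hG.deg 0)
      (coeff_le_nF w d F hG.deg 1)
  have hn := nF_pos (w := w) hG
  have hr : 0 < w (res d F) := w.pos hG.res_ne
  have hf : (0 : ℝ) < (2 * d).factorial := by exact_mod_cast Nat.factorial_pos _
  have h2 := Real.log_le_log (by positivity) h1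
  rw [Real.log_mul (by positivity) (by positivity), Real.log_mul (by positivity) (by positivity),
    Real.log_pow, Real.log_pow] at h2
  unfold RR
  linarith

theorem iter_ne_zero {d : ℕ} {F : Fin 2 → L[X]} (hG : Good d F) (w : AbsoluteValue L ℝ) (n : ℕ)
    (x : Fin 2 → L) (hx : x ≠ 0) : (hmap d F)^[n] x ≠ 0 := by
  induction n with
  | zero => exact hx
  | succ n ih =>
    rw [Function.iterate_succ_apply']
    exact hmap_ne_zero d (by have := hG.two_le; omega) F hG.deg w hG.res_ne _ ih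

/-- A common bound for `|lt|`. -/
theorem abs_lt_le {w : AbsoluteValue L ℝ} {d : ℕ} {F : Fin 2 → L[X]} (hG : Good d F)
    (x : Fin 2 → L) (hx : x ≠ 0) :
    |lt w d F x| ≤ |RR w d F| + log ((2 * d).factorial) + log (d + 1) := by
  have h1 := lt_ge (SB_one w) hG x hx
  have h2 := lt_le (SB_one w) hG x hx
  have h3 : 0 ≤ log ((2 * d).factorial : ℝ) :=
    Real.log_nonneg (by exact_mod_cast Nat.one_le_iff_ne_zero.2 (Nat.factorial_ne_zero _))
  have h4 : 0 ≤ log ((d : ℝ) + 1) := Real.log_nonneg (by linarith [Nat.cast_nonneg (α := ℝ) d])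
  have h5 := le_abs_self (RR w d F)
  have h6 := neg_abs_le (RR w d F)
  simp only [Nat.cast_one, one_mul] at h1 h2
  rw [abs_le]
  constructor <;> linarith

theorem summable_ht {w : AbsoluteValue L ℝ} {d : ℕ} {F : Fin 2 → L[X]} (hG : Good d F)
    (x : Fin 2 → L) (hx : x ≠ 0) :
    Summable fun n : ℕ => lt w d F ((hmap d F)^[n] x) / (d : ℝ) ^ (n + 1) := by
  have hd : (1 : ℝ) < d := by exact_mod_cast (lt_of_lt_of_le one_lt_two hG.two_le)
  set B := |RR w d F| + log ((2 * d).factorial) + log (d + 1)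
  have hs : Summable fun n : ℕ => B * ((1 / (d : ℝ)) ^ (n + 1)) := by
    apply Summable.mul_left
    exact (summable_nat_add_iff 1).2 (summable_geometric_of_lt_one (by positivity)
      ((div_lt_one (by linarith)).2 hd))
  apply Summable.of_norm_bounded hs
  intro n
  rw [Real.norm_eq_abs, abs_div, abs_of_pos (pow_pos (by linarith : (0 : ℝ) < d) (n + 1)),
    one_div, inv_pow, ← div_eq_mul_inv]
  exact div_le_div_of_nonneg_right (abs_lt_le hG _ (iter_ne_zero hG w n x hx)) (by positivity)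

theorem tsum_geo (d : ℕ) (hd : 2 ≤ d) : ∑' n : ℕ, (1 : ℝ) / (d : ℝ) ^ (n + 1) = 1 / (d - 1) := by
  have hd' : (1 : ℝ) < d := by exact_mod_cast (lt_of_lt_of_le one_lt_two hd)
  have e : (fun n : ℕ => (1 : ℝ) / (d : ℝ) ^ (n + 1)) = fun n : ℕ => (1 / (d : ℝ)) * (1 / (d : ℝ)) ^ n := by
    funext n
    rw [pow_succ, one_div_pow]
    field_simp
  rw [e, tsum_mul_left, tsum_geometric_of_lt_one (by positivity) ((div_lt_one (by linarith)).2 hd')]
  have h1 : (d : ℝ) - 1 ≠ 0 := by linarith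
  have h2 : (d : ℝ) ≠ 0 := by linarith
  field_simp

theorem summable_geo (d : ℕ) (hd : 2 ≤ d) (c : ℝ) :
    Summable fun n : ℕ => c / (d : ℝ) ^ (n + 1) := by
  have hd' : (1 : ℝ) < d := by exact_mod_cast (lt_of_lt_of_le one_lt_two hd)
  have e : (fun n : ℕ => c / (d : ℝ) ^ (n + 1)) = fun n : ℕ => (c / (d : ℝ)) * (1 / (d : ℝ)) ^ n := by
    funext n
    rw [pow_succ, one_div_pow]
    field_simp
  rw [e]
  exact (summable_geometric_of_lt_one (by positivity) ((div_lt_one (by linarith)).2 hd')).mul_left _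

/-- bounds for `ht` from bounds for `lt` -/
theorem ht_le_of {w : AbsoluteValue L ℝ} {d : ℕ} {F : Fin 2 → L[X]} (hG : Good d F) (B : ℝ)
    (hB : ∀ x : Fin 2 → L, x ≠ 0 → lt w d F x ≤ B) (x : Fin 2 → L) (hx : x ≠ 0) :
    ht w d F x ≤ B / (d - 1) := by
  have hd : (1 : ℝ) < d := by exact_mod_cast (lt_of_lt_of_le one_lt_two hG.two_le)
  have e : B / ((d : ℝ) - 1) = ∑' n : ℕ, B / (d : ℝ) ^ (n + 1) := by
    have : (fun n : ℕ => B / (d : ℝ) ^ (n + 1)) = fun n : ℕ => B * (1 / (d : ℝ) ^ (n + 1)) := by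
      funext n; ring
    rw [this, tsum_mul_left, tsum_geo d hG.two_le]; ring
  rw [e]
  apply Summable.tsum_le_tsum _ (summable_ht hG x hx) (summable_geo d hG.two_le B)
  intro n
  exact div_le_div_of_nonneg_right (hB _ (iter_ne_zero hG w n x hx)) (by positivity)

theorem ht_ge_of {w : AbsoluteValue L ℝ} {d : ℕ} {F : Fin 2 → L[X]} (hG : Good d F) (B : ℝ)
    (hB : ∀ x : Fin 2 → L, x ≠ 0 → B ≤ lt w d F x) (x : Fin 2 → L) (hx : x ≠ 0) :
    B / (d - 1) ≤ ht w d F x := by
  have hd : (1 : ℝ) < d := by exact_mod_cast (lt_of_lt_of_le one_lt_two hG.two_le)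
  have e : B / ((d : ℝ) - 1) = ∑' n : ℕ, B / (d : ℝ) ^ (n + 1) := by
    have : (fun n : ℕ => B / (d : ℝ) ^ (n + 1)) = fun n : ℕ => B * (1 / (d : ℝ) ^ (n + 1)) := by
      funext n; ring
    rw [this, tsum_mul_left, tsum_geo d hG.two_le]; ring
  rw [e]
  apply Summable.tsum_le_tsum _ (summable_geo d hG.two_le B) (summable_ht hG x hx)
  intro n
  exact div_le_div_of_nonneg_right (hB _ (iter_ne_zero hG w n x hx)) (by positivity)

theorem ht_le {w : AbsoluteValue L ℝ} {t : ℕ} (h : SB w t) {d : ℕ} {F : Fin 2 → L[X]}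
    (hG : Good d F) (x : Fin 2 → L) (hx : x ≠ 0) :
    ht w d F x ≤ (RR w d F + t * log ((2 * d).factorial)) / (d - 1) :=
  ht_le_of hG _ (fun x hx => lt_le h hG x hx) x hx

theorem ht_ge {w : AbsoluteValue L ℝ} {t : ℕ} (h : SB w t) {d : ℕ} {F : Fin 2 → L[X]}
    (hG : Good d F) (x : Fin 2 → L) (hx : x ≠ 0) :
    (- (t * log (d + 1))) / (d - 1) ≤ ht w d F x :=
  ht_ge_of hG _ (fun x hx => lt_ge h hG x hx) x hx

theorem ht_hmap {w : AbsoluteValue L ℝ} {d : ℕ} {F : Fin 2 → L[X]} (hG : Good d F)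
    (x : Fin 2 → L) (hx : x ≠ 0) : ht w d F (hmap d F x) = d * ht w d F x - lt w d F x := by
  have hd : (1 : ℝ) < d := by exact_mod_cast (lt_of_lt_of_le one_lt_two hG.two_le)
  have hd0 : (d : ℝ) ≠ 0 := by linarith
  have h1 := (summable_ht (w := w) hG x hx).tsum_eq_zero_add
  have h2 : ∑' n : ℕ, lt w d F ((hmap d F)^[n + 1] x) / (d : ℝ) ^ (n + 1 + 1) =
      (1 / (d : ℝ)) * ht w d F (hmap d F x) := by
    unfold ht
    rw [← tsum_mul_left]
    apply tsum_congr
    intro n
    rw [Function.iterate_succ_apply, pow_succ (d : ℝ) (n + 1)]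
    field_simp
  have h3 : ht w d F x = lt w d F x / d + (1 / (d : ℝ)) * ht w d F (hmap d F x) := by
    rw [← h2]
    unfold ht
    rw [h1]
    simp
  rw [h3]
  field_simp
  ring

theorem HH_hmap {w : AbsoluteValue L ℝ} {d : ℕ} {F : Fin 2 → L[X]} (hG : Good d F)
    (x : Fin 2 → L) (hx : x ≠ 0) : HH w d F (hmap d F x) = d * HH w d F x := by
  have hd : (1 : ℝ) < d := by exact_mod_cast (lt_of_lt_of_le one_lt_two hG.two_le)
  have hd1 : (d : ℝ) - 1 ≠ 0 := by linarith
  unfold HH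
  rw [ht_hmap hG x hx]
  unfold lt
  field_simp
  ring

theorem HH_iter {w : AbsoluteValue L ℝ} {d : ℕ} {F : Fin 2 → L[X]} (hG : Good d F) (k : ℕ)
    (x : Fin 2 → L) (hx : x ≠ 0) : HH w d F ((hmap d F)^[k] x) = (d : ℝ) ^ k * HH w d F x := by
  induction k with
  | zero => simp
  | succ k ih =>
    rw [Function.iterate_succ_apply', HH_hmap hG _ (iter_ne_zero hG w k x hx), ih, pow_succ]
    ring

/-- Uniqueness of the local height. -/
theorem HH_unique {w : AbsoluteValue L ℝ} {d : ℕ} {F : Fin 2 → L[X]} (hG : Good d F)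
    (Φ : (Fin 2 → L) → ℝ) (hΦ : ∀ x, x ≠ 0 → Φ (hmap d F x) = d * Φ x) (B : ℝ)
    (hB : ∀ x, x ≠ 0 → |Φ x - log (nv w x)| ≤ B) (x : Fin 2 → L) (hx : x ≠ 0) :
    Φ x = HH w d F x := by
  have hd : (1 : ℝ) < d := by exact_mod_cast (lt_of_lt_of_le one_lt_two hG.two_le)
  set C := |RR w d F| + log ((2 * d).factorial) + log (d + 1) with hC
  set B' := B + (C / (d - 1) + |log (nF w d F) / (d - 1)|) with hB'
  have hd1 : (0 : ℝ) < d - 1 := by linarith
  have hH : ∀ x : Fin 2 → L, x ≠ 0 → |Φ x - HH w d F x| ≤ B' := by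
    intro x hx
    have h1 := hB x hx
    have h2 : ht w d F x ≤ C / (d - 1) :=
      ht_le_of hG C (fun x hx => (le_abs_self _).trans (abs_lt_le hG x hx)) x hx
    have h3 : (-C) / (d - 1) ≤ ht w d F x :=
      ht_ge_of hG (-C) (fun x hx => by
        have := abs_lt_le (w := w) hG x hx
        rw [abs_le] at this
        exact this.1) x hx
    rw [neg_div] at h3
    have h4 := abs_le.1 h1
    have h5 := le_abs_self (log (nF w d F) / ((d : ℝ) - 1))
    have h6 := neg_abs_le (log (nF w d F) / ((d : ℝ) - 1))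
    unfold HH
    rw [abs_le]
    constructor
    · linarith [h4.1, h4.2]
    · linarith [h4.1, h4.2]
  have hit : ∀ k : ℕ, ∀ x : Fin 2 → L, x ≠ 0 → Φ ((hmap d F)^[k] x) = (d : ℝ) ^ k * Φ x := by
    intro k
    induction k with
    | zero => intro x _; simp
    | succ k ih =>
      intro x hx
      rw [Function.iterate_succ_apply', hΦ _ (iter_ne_zero hG w k x hx), ih x hx, pow_succ]; ring
  have hle : ∀ k : ℕ, |Φ x - HH w d F x| ≤ B' * (1 / (d : ℝ)) ^ k := by
    intro k
    have h1 := hH _ (iter_ne_zero hG w k x hx)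
    rw [hit k x hx, HH_iter hG k x hx, ← mul_sub, abs_mul, abs_of_pos (pow_pos (by linarith) k)] at h1
    have h2 : (0 : ℝ) < (d : ℝ) ^ k := pow_pos (by linarith) k
    rw [one_div_pow]
    rw [mul_one_div, le_div_iff₀ h2]
    linarith
  have hlim : Filter.Tendsto (fun k : ℕ => B' * (1 / (d : ℝ)) ^ k) Filter.atTop (nhds (B' * 0)) :=
    (tendsto_pow_atTop_nhds_zero_of_lt_one (by positivity) ((div_lt_one (by linarith)).2 hd)).const_mul _
  have h0 : |Φ x - HH w d F x| ≤ 0 := by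
    have := ge_of_tendsto hlim (Filter.Eventually.of_forall hle)
    simpa using this
  have := abs_nonpos_iff.1 h0
  linarith

theorem hmap_smul (d : ℕ) (F : Fin 2 → L[X]) (c : L) (x : Fin 2 → L) :
    hmap d F (fun i => c * x i) = fun i => c ^ d * hmap d F x i := by
  funext i
  exact hev_smul d (F i) c x

theorem smul_ne_zero' {c : L} (hc : c ≠ 0) {x : Fin 2 → L} (hx : x ≠ 0) :
    (fun i => c * x i) ≠ 0 := by
  intro h
  apply hx
  funext i
  have := congrFun h i
  simpa [hc] using this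

theorem HH_smul {w : AbsoluteValue L ℝ} {d : ℕ} {F : Fin 2 → L[X]} (hG : Good d F) (c : L)
    (hc : c ≠ 0) (x : Fin 2 → L) (hx : x ≠ 0) :
    HH w d F (fun i => c * x i) = log (w c) + HH w d F x := by
  have hd : (1 : ℝ) < d := by exact_mod_cast (lt_of_lt_of_le one_lt_two hG.two_le)
  have hw : w c ≠ 0 := (w.pos hc).ne'
  have hlt : ∀ n : ℕ, lt w d F ((hmap d F)^[n] (fun i => c * x i)) = lt w d F ((hmap d F)^[n] x) := by
    intro n
    have hit : ∃ e : L, e ≠ 0 ∧ (hmap d F)^[n] (fun i => c * x i) = fun i => e * ((hmap d F)^[n] x) i := by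
      induction n with
      | zero => exact ⟨c, hc, rfl⟩
      | succ n ih =>
        obtain ⟨e, he, h⟩ := ih
        refine ⟨e ^ d, pow_ne_zero _ he, ?_⟩
        rw [Function.iterate_succ_apply', h, Function.iterate_succ_apply', hmap_smul]
    obtain ⟨e, he, h⟩ := hit
    rw [h]
    have hn := iter_ne_zero hG w n x hx
    have h1 : nv w ((hmap d F)^[n] x) ≠ 0 := (nv_pos w _ hn).ne'
    have h2 : nv w (hmap d F ((hmap d F)^[n] x)) ≠ 0 :=
      (nv_pos w _ (hmap_ne_zero d (by have := hG.two_le; omega) F hG.deg w hG.res_ne _ hn)).ne'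
    unfold lt
    rw [hmap_smul, nv_smul, nv_smul, map_pow, Real.log_mul (w.pos he).ne' h1,
      Real.log_mul (pow_ne_zero _ (w.pos he).ne') h2, Real.log_pow]
    ring
  have e1 : ht w d F (fun i => c * x i) = ht w d F x := by
    unfold ht
    apply tsum_congr
    intro n
    rw [hlt n]
  unfold HH
  rw [e1, nv_smul, Real.log_mul hw (nv_pos w x hx).ne']
  ring

/-- `log ‖F^k(x)‖` -/
theorem log_nv_iter {w : AbsoluteValue L ℝ} {d : ℕ} {F : Fin 2 → L[X]} (hG : Good d F) (k : ℕ)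
    (x : Fin 2 → L) (hx : x ≠ 0) :
    log (nv w ((hmap d F)^[k] x)) = (d : ℝ) ^ k * HH w d F x + ht w d F ((hmap d F)^[k] x) -
      log (nF w d F) / (d - 1) := by
  have := HH_iter (w := w) hG k x hx
  rw [← this]
  unfold HH
  ring

/-- `gg` in terms of `ht` -/
theorem gg_eq {w : AbsoluteValue L ℝ} {d : ℕ} {F : Fin 2 → L[X]} (hG : Good d F) (x y : Fin 2 → L) :
    gg w d F x y = - log (w (wd x y)) + log (nv w x) + log (nv w y) - ht w d F x - ht w d F y +
      RR w d F / (d * (d - 1)) := by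
  have hd : (1 : ℝ) < d := by exact_mod_cast (lt_of_lt_of_le one_lt_two hG.two_le)
  have hd1 : (d : ℝ) - 1 ≠ 0 := by linarith
  have hd0 : (d : ℝ) ≠ 0 := by linarith
  unfold gg HH RR
  field_simp
  ring

theorem gg_smul {w : AbsoluteValue L ℝ} {d : ℕ} {F : Fin 2 → L[X]} (hG : Good d F) (a b : L)
    (ha : a ≠ 0) (hb : b ≠ 0) (x y : Fin 2 → L) (hxy : wd x y ≠ 0) :
    gg w d F (fun i => a * x i) (fun i => b * y i) = gg w d F x y := by
  unfold gg
  rw [wd_smul, HH_smul hG a ha x (ne_zero_of_wd hxy), HH_smul hG b hb y (ne_zero_of_wd' hxy),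
    map_mul, map_mul, Real.log_mul (mul_ne_zero (w.pos ha).ne' (w.pos hb).ne') (w.pos hxy).ne',
    Real.log_mul (w.pos ha).ne' (w.pos hb).ne']
  ring

end

end Pool.Agent.Lib_helper95.FP
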