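import Pool.Agent.Lib_helper95.FP.LL
import Pool.Agent.Lib_helper95.FP.Fek

/-!
# The minimal resultant at an absolute value, and the local estimates in terms of it
-/

set_option autoImplicit false

universe u

namespace Pool.Agent.Lib_helper95.FP

open Polynomial Real

section one

variable {L : Type*} [Field L]

theorem lin_one_zero : lin (1 : Matrix (Fin 2) (Fin 2) L) 0 = X := by
  simp [lin]

theorem lin_one_one : lin (1 : Matrix (Fin 2) (Fin 2) L) 1 = 1 := by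
  simp [lin]

theorem hcomp_lin_one (d : ℕ) (p : L[X]) (hp : p.natDegree ≤ d) :
    hcomp d p (lin (1 : Matrix (Fin 2) (Fin 2) L)) = p := by
  unfold hcomp
  rw [lin_one_zero, lin_one_one]
  conv_rhs => rw [p.as_sum_range' (d + 1) (Nat.lt_succ_of_le hp)]
  apply Finset.sum_congr rfl
  intro j _
  rw [one_pow, mul_one, C_mul_X_pow_eq_monomial]

theorem cj_one (d : ℕ) (F : Fin 2 → L[X]) (hF : ∀ i, (F i).natDegree ≤ d) : cj d F 1 = F := by
  have h : ∀ i, cj d F 1 i = F i := by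
    rw [Fin.forall_fin_two]
    constructor
    · unfold cj
      rw [Matrix.adjugate_one, hcomp_lin_one d _ (hF 0), hcomp_lin_one d _ (hF 1)]
      simp
    · unfold cj
      rw [Matrix.adjugate_one, hcomp_lin_one d _ (hF 0), hcomp_lin_one d _ (hF 1)]
      simp
  funext i
  exact h i

end one

section K

variable {K : Type u} [Field K]

/-- The values `log (‖G‖^(2d) / |Res G|)` for all conjugates `G` of `F` over all fields with an absolute value that
extend `(K, v)`. -/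
def locSet (d : ℕ) (v : AbsoluteValue K ℝ) (F : Fin 2 → K[X]) : Set ℝ :=
  {ρ | ∃ (L : Type u) (_ : Field L) (w : AbsoluteValue L ℝ) (φ : K →+* L)
      (γ : Matrix (Fin 2) (Fin 2) L), (∀ a, w (φ a) = v a) ∧ γ.det ≠ 0 ∧
      ρ = RR w d (cj d (mp φ F) γ)}

/-- The local moduli height: the logarithm of the minimal resultant. -/
noncomputable def locRes (d : ℕ) (v : AbsoluteValue K ℝ) (F : Fin 2 → K[X]) : ℝ :=
  sInf (locSet d v F)

/-- `t = 1` is allowed for every absolute value, `t = 0` for the nonarchimedean ones. -/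
def AV (v : AbsoluteValue K ℝ) (t : ℕ) : Prop := t = 1 ∨ (t = 0 ∧ IsNonarchimedean v)

theorem AV.sb {v : AbsoluteValue K ℝ} {t : ℕ} (h : AV v t) {L : Type*} [Field L]
    {w : AbsoluteValue L ℝ} {φ : K →+* L} (hφ : ∀ a, w (φ a) = v a) : SB w t := by
  rcases h with rfl | ⟨rfl, h⟩
  · exact SB_one w
  · exact SB_zero w (nonarch_ext hφ h)

theorem locSet_nonempty (d : ℕ) (v : AbsoluteValue K ℝ) (F : Fin 2 → K[X]) :
    (locSet d v F).Nonempty :=
  ⟨RR v d (cj d (mp (RingHom.id K) F) 1), K, inferInstance, v, RingHom.id K, 1, fun _ => rfl,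
    by simp, rfl⟩

theorem locSet_ge {v : AbsoluteValue K ℝ} {t : ℕ} (h : AV v t) {d : ℕ} {F : Fin 2 → K[X]}
    (hG : Good d F) : ∀ ρ ∈ locSet d v F, -(t * log ((2 * d).factorial)) ≤ ρ := by
  rintro ρ ⟨L, _, w, φ, γ, hφ, hγ, rfl⟩
  exact RR_ge (h.sb hφ) ((hG.mp φ).cj hγ)

theorem locRes_ge {v : AbsoluteValue K ℝ} {t : ℕ} (h : AV v t) {d : ℕ} {F : Fin 2 → K[X]}
    (hG : Good d F) : -(t * log ((2 * d).factorial)) ≤ locRes d v F :=
  le_csInf (locSet_nonempty d v F) (locSet_ge h hG)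

theorem locRes_le {v : AbsoluteValue K ℝ} {t : ℕ} (h : AV v t) {d : ℕ} {F : Fin 2 → K[X]}
    (hG : Good d F) {L : Type u} [Field L] {w : AbsoluteValue L ℝ} {φ : K →+* L}
    (hφ : ∀ a, w (φ a) = v a) {γ : Matrix (Fin 2) (Fin 2) L} (hγ : γ.det ≠ 0) :
    locRes d v F ≤ RR w d (cj d (mp φ F) γ) :=
  csInf_le ⟨_, locSet_ge h hG⟩ ⟨L, inferInstance, w, φ, γ, hφ, hγ, rfl⟩

theorem mp_id (F : Fin 2 → K[X]) : mp (RingHom.id K) F = F := by
  funext i
  simp [mp]

theorem locRes_le_RR {v : AbsoluteValue K ℝ} {t : ℕ} (h : AV v t) {d : ℕ} {F : Fin 2 → K[X]}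
    (hG : Good d F) : locRes d v F ≤ RR v d F := by
  have h1 := locRes_le h hG (w := v) (φ := RingHom.id K) (fun _ => rfl)
    (γ := (1 : Matrix (Fin 2) (Fin 2) K)) (by simp)
  rwa [mp_id, cj_one d F hG.deg] at h1

/-- The coordinates of a point in the new chart. -/
noncomputable def tr {L : Type*} [Field L] (φ : K →+* L) (γ : Matrix (Fin 2) (Fin 2) L)
    (x : Fin 2 → K) : Fin 2 → L := γ.adjugate.mulVec (fun i => φ (x i))

theorem wd_tr {L : Type*} [Field L] (φ : K →+* L) {γ : Matrix (Fin 2) (Fin 2) L}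
    (hγ : γ.det ≠ 0) (x y : Fin 2 → K) (hxy : wd x y ≠ 0) : wd (tr φ γ x) (tr φ γ y) ≠ 0 := by
  unfold tr
  rw [wd_mulVec, wd_mp, Matrix.det_adjugate]
  refine mul_ne_zero ?_ ((map_ne_zero φ).2 hxy)
  simpa using hγ

theorem tr_ne_zero {L : Type*} [Field L] (φ : K →+* L) {γ : Matrix (Fin 2) (Fin 2) L}
    (hγ : γ.det ≠ 0) (x : Fin 2 → K) (hx : x ≠ 0) : tr φ γ x ≠ 0 := by
  intro h
  have h1 := mulVec_adj γ (fun i => φ (x i))
  unfold tr at h
  rw [h, Matrix.mulVec_zero] at h1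
  apply hx
  funext i
  have := congrFun h1 i
  simp only [Pi.zero_apply] at this
  have h2 := (mul_eq_zero.1 this.symm).resolve_left hγ
  exact (map_eq_zero φ).1 h2

theorem gg_tr {v : AbsoluteValue K ℝ} {d : ℕ} {F : Fin 2 → K[X]} (hG : Good d F)
    {L : Type*} [Field L] {w : AbsoluteValue L ℝ} {φ : K →+* L} (hφ : ∀ a, w (φ a) = v a)
    {γ : Matrix (Fin 2) (Fin 2) L} (hγ : γ.det ≠ 0) (x y : Fin 2 → K) (hxy : wd x y ≠ 0) :
    gg w d (cj d (mp φ F) γ) (tr φ γ x) (tr φ γ y) = gg v d F x y := by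
  rw [gg_cj (hG.mp φ) hγ _ _ (wd_tr φ hγ x y hxy)]
  unfold tr
  rw [mulVec_adj, mulVec_adj, gg_smul (hG.mp φ) _ _ hγ hγ, gg_mp hφ]
  rw [wd_mp]
  exact (map_ne_zero φ).2 hxy

/-- Almost minimal coordinates. -/
theorem exists_almost {v : AbsoluteValue K ℝ} (d : ℕ) (F : Fin 2 → K[X]) (B : ℝ)
    (hB : locRes d v F < B) :
    ∃ (L : Type u) (_ : Field L) (w : AbsoluteValue L ℝ) (φ : K →+* L)
      (γ : Matrix (Fin 2) (Fin 2) L), (∀ a, w (φ a) = v a) ∧ γ.det ≠ 0 ∧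
      RR w d (cj d (mp φ F) γ) < B := by
  obtain ⟨ρ, ⟨L, i, w, φ, γ, h1, h2, rfl⟩, h3⟩ := exists_lt_of_csInf_lt (locSet_nonempty d v F) hB
  exact ⟨L, i, w, φ, γ, h1, h2, h3⟩

/-- The trivial lower bound. -/
theorem tl {v : AbsoluteValue K ℝ} {t : ℕ} (h : AV v t) {d : ℕ} {F : Fin 2 → K[X]}
    (hG : Good d F) (x y : Fin 2 → K) (hxy : wd x y ≠ 0) :
    -(t * (log 2 + 3 * log ((2 * d).factorial))) - 2 * max (locRes d v F) 0 ≤ gg v d F x y := by
  have hd2 := hG.two_le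
  have hd : (2 : ℝ) ≤ d := by exact_mod_cast hd2
  have hd1 : (1 : ℝ) ≤ d - 1 := by linarith
  have hd0 : (0 : ℝ) < d := by linarith
  apply le_of_forall_pos_sub_le
  intro η hη
  obtain ⟨L, _, w, φ, γ, hφ, hγ, hR⟩ := exists_almost (v := v) d F (locRes d v F + η / 2)
    (by linarith)
  have hS := h.sb hφ
  have hG' := (hG.mp φ).cj hγ
  have hw := wd_tr φ hγ x y hxy
  rw [← gg_tr hG hφ hγ x y hxy, gg_eq hG']
  set X := tr φ γ x
  set Y := tr φ γ y
  set R := RR w d (cj d (mp φ F) γ) with hRdef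
  have hX := ne_zero_of_wd hw
  have hY := ne_zero_of_wd' hw
  have h1 : log (w (wd X Y)) ≤ t * log 2 + log (nv w X) + log (nv w Y) := by
    have h2 := Real.log_le_log (w.pos hw) (wd_le hS X Y)
    rw [Real.log_mul (by positivity) (mul_ne_zero (nv_pos w X hX).ne' (nv_pos w Y hY).ne'),
      Real.log_mul (nv_pos w X hX).ne' (nv_pos w Y hY).ne', Real.log_pow] at h2
    linarith
  have h2 := ht_le hS hG' X hX
  have h3 := ht_le hS hG' Y hY
  rw [← hRdef] at h2 h3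
  have hl : 0 ≤ log ((2 * d).factorial : ℝ) :=
    Real.log_nonneg (by exact_mod_cast Nat.one_le_iff_ne_zero.2 (Nat.factorial_ne_zero _))
  have htl : 0 ≤ t * log ((2 * d).factorial : ℝ) := mul_nonneg (Nat.cast_nonneg t) hl
  have hRge := RR_ge hS hG'
  rw [← hRdef] at hRge
  have hm := le_max_left (locRes d v F) 0
  have hm0 := le_max_right (locRes d v F) 0
  -- the bound for `ht`
  have h4 : (R + t * log ((2 * d).factorial)) / (d - 1) ≤ R + t * log ((2 * d).factorial) :=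
    div_le_self (by linarith) hd1
  have h5 : -(t * log ((2 * d).factorial)) ≤ R / (d * (d - 1)) := by
    rw [le_div_iff₀ (by positivity)]
    have h6 : (1 : ℝ) ≤ d * (d - 1) := by nlinarith
    have h7 : t * log ((2 * d).factorial) * 1 ≤ t * log ((2 * d).factorial) * (d * (d - 1)) :=
      mul_le_mul_of_nonneg_left h6 htl
    linarith
  linarith

/-- The constants of the local lemma. -/
noncomputable def cL (d : ℕ) : ℝ := 1 / ((d : ℝ) ^ 8) ^ 3 / 2

noncomputable def CL (d : ℕ) : ℝ := (log 2 + 3 * log ((2 * d).factorial)) +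
  (2 + cL d) * (4 * log ((d ^ 8 + d ^ 8).factorial) * ((d : ℝ) ^ 8) ^ 3)

def ML (d : ℕ) : ℕ := (2 * d ^ 8 + 13 * d + 14) ^ (36 * (d ^ 8) ^ 3) + 1

theorem cL_pos {d : ℕ} (hd : 2 ≤ d) : 0 < cL d := by
  have : (0 : ℝ) < d := by exact_mod_cast (by omega : 0 < d)
  unfold cL
  positivity

theorem CL_nonneg {d : ℕ} (hd : 2 ≤ d) : 0 ≤ CL d := by
  have h1 := cL_pos hd
  have hl : 0 ≤ log ((2 * d).factorial : ℝ) :=
    Real.log_nonneg (by exact_mod_cast Nat.one_le_iff_ne_zero.2 (Nat.factorial_ne_zero _))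
  have hl2 : 0 ≤ log ((d ^ 8 + d ^ 8).factorial : ℝ) :=
    Real.log_nonneg (by exact_mod_cast Nat.one_le_iff_ne_zero.2 (Nat.factorial_ne_zero _))
  have hl3 : 0 ≤ log (2 : ℝ) := Real.log_nonneg (by norm_num)
  unfold CL
  positivity

theorem two_le_ML (d : ℕ) : 2 ≤ ML d := by
  unfold ML
  have : 1 ≤ (2 * d ^ 8 + 13 * d + 14) ^ (36 * (d ^ 8) ^ 3) := Nat.one_le_pow _ _ (by omega)
  omega

/-- The local lemma in terms of the minimal resultant. -/
theorem ll {v : AbsoluteValue K ℝ} {t : ℕ} (h : AV v t) {d : ℕ} {F : Fin 2 → K[X]}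
    (hG : Good d F) (x : Fin (ML d) → Fin 2 → K) (hx : ∀ i j, i ≠ j → wd (x i) (x j) ≠ 0) :
    ∃ i j, i ≠ j ∧ cL d * max (locRes d v F) 0 - t * CL d ≤ gg v d F (x i) (x j) := by
  have hd2 := hG.two_le
  have hd : (2 : ℝ) ≤ d := by exact_mod_cast hd2
  have hd0 : (0 : ℝ) < d := by linarith
  have hML := two_le_ML d
  obtain ⟨ε, hε⟩ : ∃ ε : ℝ, ε = 1 / ((d : ℝ) ^ 8) ^ 3 := ⟨_, rfl⟩
  have hε1 : ε * ((d : ℝ) ^ 8) ^ 3 = 1 := by
    rw [hε, one_div, inv_mul_cancel₀ (by positivity)]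
  have hε0 : 0 < ε := by rw [hε]; positivity
  have hcL : cL d = ε / 2 := by rw [hε]; rfl
  set r := locRes d v F with hr
  set lf := log ((d ^ 8 + d ^ 8).factorial : ℝ) with hlf
  have hlf0 : 0 ≤ lf :=
    Real.log_nonneg (by exact_mod_cast Nat.one_le_iff_ne_zero.2 (Nat.factorial_ne_zero _))
  by_cases hmain : 0 < r ∧ t * lf ≤ ε / 4 * r
  · obtain ⟨hr0, ht1⟩ := hmain
    obtain ⟨L, _, w, φ, γ, hφ, hγ, hR⟩ := exists_almost (v := v) d F (3 * r) (by linarith)
    have hG' := (hG.mp φ).cj hγ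
    obtain ⟨i, j, hij, hgg⟩ := ll_main (h.sb hφ) hG' ε hε1 r hr0 ht1 hR.le
      (fun γ' hγ' => by
        rw [cj_cj]
        exact locRes_le h hG hφ (by rw [Matrix.det_mul]; exact mul_ne_zero hγ hγ'))
      (ML d) (Nat.lt_succ_self _) (fun i => tr φ γ (x i))
      (fun i => by
        obtain ⟨j, hj⟩ : ∃ j : Fin (ML d), j ≠ i := by
          have : Nontrivial (Fin (ML d)) := Fin.nontrivial_iff_two_le.2 hML
          exact exists_ne i
        exact tr_ne_zero φ hγ _ (ne_zero_of_wd (hx i j hj.symm)))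
      (fun i j hij => wd_tr φ hγ _ _ (hx i j hij))
    refine ⟨i, j, hij, ?_⟩
    rw [gg_tr hG hφ hγ _ _ (hx i j hij)] at hgg
    rw [hcL, max_eq_left hr0.le]
    have := mul_nonneg (Nat.cast_nonneg (α := ℝ) t) (CL_nonneg hd2)
    linarith
  · refine ⟨⟨0, by omega⟩, ⟨1, by omega⟩, by simp, ?_⟩
    have h1 := tl h hG (x ⟨0, by omega⟩) (x ⟨1, by omega⟩) (hx _ _ (by simp))
    rw [← hr] at h1
    refine le_trans ?_ h1
    have hC : (t : ℝ) * CL d = t * (log 2 + 3 * log ((2 * d).factorial)) +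
        (2 + cL d) * (4 * (t * lf) * ((d : ℝ) ^ 8) ^ 3) := by
      unfold CL
      rw [← hlf]
      ring
    have hc := cL_pos hd2
    have htlf : 0 ≤ t * lf := mul_nonneg (Nat.cast_nonneg t) hlf0
    rw [hC]
    rcases le_or_gt r 0 with h0 | h0
    · rw [max_eq_right h0]
      have : 0 ≤ (2 + cL d) * (4 * (t * lf) * ((d : ℝ) ^ 8) ^ 3) := by positivity
      linarith
    · rw [max_eq_left h0.le]
      have h2 : ε / 4 * r < t * lf := by
        by_contra hcon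
        exact hmain ⟨h0, not_lt.1 hcon⟩
      have h3 : r ≤ 4 * (t * lf) * ((d : ℝ) ^ 8) ^ 3 := by
        have h4 : (ε / 4 * r) * (4 * ((d : ℝ) ^ 8) ^ 3) ≤ (t * lf) * (4 * ((d : ℝ) ^ 8) ^ 3) :=
          mul_le_mul_of_nonneg_right h2.le (by positivity)
        have h5 : (ε / 4 * r) * (4 * ((d : ℝ) ^ 8) ^ 3) = r := by linear_combination r * hε1
        linarith
      have h6 := mul_le_mul_of_nonneg_left h3 (by positivity : (0 : ℝ) ≤ 2 + cL d)
      linarith

/-- The constant of the Fekete type bound. -/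
noncomputable def CF (d k : ℕ) : ℝ := 2 * log ((d ^ k).factorial) +
  2 * (d : ℝ) ^ k * (k * (log ((d + 1) * (d + 1) * d : ℕ) + 2 * log ((2 * d).factorial))) +
  4 * (d : ℝ) ^ k * (log (d + 1) + log ((2 * d).factorial))

/-- The Fekete type bound in terms of the minimal resultant. -/
theorem fekK {v : AbsoluteValue K ℝ} {t : ℕ} (h : AV v t) {d : ℕ} {F : Fin 2 → K[X]}
    (hG : Good d F) (k : ℕ) (x y : Fin (d ^ k) → Fin 2 → K)
    (hx0 : ∀ i, x i ≠ 0) (hy0 : ∀ i, y i ≠ 0)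
    (hx : ∀ i j, i ≠ j → wd (x i) (x j) ≠ 0) (hy : ∀ i j, i ≠ j → wd (y i) (y j) ≠ 0)
    (hxy : ∀ i j, wd (y j) (x i) ≠ 0) :
    -(4 * (d : ℝ) ^ k * (k + 1) * max (locRes d v F) 0) - t * CF d k ≤
      ∑ i, ∑ j ∈ Finset.univ.erase i, gg v d F (x i) (x j) +
        ∑ i, ∑ j ∈ Finset.univ.erase i, gg v d F (y i) (y j) := by
  have hd2 := hG.two_le
  have hd : (2 : ℝ) ≤ d := by exact_mod_cast hd2
  have hd1 : (1 : ℝ) ≤ d - 1 := by linarith
  have hd0 : (0 : ℝ) < d := by linarith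
  have hDpos : (0 : ℝ) < (d : ℝ) ^ k := by positivity
  apply le_of_forall_pos_sub_le
  intro η hη
  set η' := η / (4 * (d : ℝ) ^ k * (k + 1)) with hη'
  have hc0 : (0 : ℝ) < 4 * (d : ℝ) ^ k * (k + 1) := by positivity
  have hη'0 : 0 < η' := by positivity
  have hηe : 4 * (d : ℝ) ^ k * (k + 1) * η' = η := by
    rw [hη']; field_simp
  obtain ⟨L, _, w, φ, γ, hφ, hγ, hR⟩ := exists_almost (v := v) d F (locRes d v F + η')
    (by linarith)
  have hS := h.sb hφ
  have hG' := (hG.mp φ).cj hγ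
  have h1 := fek hS hG' k (fun i => tr φ γ (x i)) (fun i => tr φ γ (y i))
    (fun i => tr_ne_zero φ hγ _ (hx0 i)) (fun i => tr_ne_zero φ hγ _ (hy0 i))
    (fun i j hij => wd_tr φ hγ _ _ (hx i j hij)) (fun i j hij => wd_tr φ hγ _ _ (hy i j hij))
    (fun i j => wd_tr φ hγ _ _ (hxy i j))
  have e1 : ∑ i, ∑ j ∈ Finset.univ.erase i, gg w d (cj d (mp φ F) γ) (tr φ γ (x i)) (tr φ γ (x j)) =
      ∑ i, ∑ j ∈ Finset.univ.erase i, gg v d F (x i) (x j) := by
    apply Finset.sum_congr rfl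
    intro i _
    apply Finset.sum_congr rfl
    intro j hj
    exact gg_tr hG hφ hγ _ _ (hx i j (Finset.ne_of_mem_erase hj).symm)
  have e2 : ∑ i, ∑ j ∈ Finset.univ.erase i, gg w d (cj d (mp φ F) γ) (tr φ γ (y i)) (tr φ γ (y j)) =
      ∑ i, ∑ j ∈ Finset.univ.erase i, gg v d F (y i) (y j) := by
    apply Finset.sum_congr rfl
    intro i _
    apply Finset.sum_congr rfl
    intro j hj
    exact gg_tr hG hφ hγ _ _ (hy i j (Finset.ne_of_mem_erase hj).symm)
  rw [e1, e2] at h1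
  refine le_trans ?_ h1
  set R := RR w d (cj d (mp φ F) γ) with hRdef
  unfold stepE
  rw [← hRdef]
  have hRge := RR_ge hS hG'
  rw [← hRdef] at hRge
  have hl : 0 ≤ log ((2 * d).factorial : ℝ) :=
    Real.log_nonneg (by exact_mod_cast Nat.one_le_iff_ne_zero.2 (Nat.factorial_ne_zero _))
  have hl3 : 0 ≤ log ((d : ℝ) + 1) := Real.log_nonneg (by linarith)
  have htl : 0 ≤ t * log ((2 * d).factorial : ℝ) := mul_nonneg (Nat.cast_nonneg t) hl
  have htl3 : 0 ≤ t * log ((d : ℝ) + 1) := mul_nonneg (Nat.cast_nonneg t) hl3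
  have hm := le_max_left (locRes d v F) 0
  have h4 : (t * log ((d : ℝ) + 1) + R + t * log ((2 * d).factorial)) / (d - 1) ≤
      t * log ((d : ℝ) + 1) + R + t * log ((2 * d).factorial) :=
    div_le_self (by linarith) hd1
  have h5 := mul_le_mul_of_nonneg_left h4 (by positivity : (0 : ℝ) ≤ 4 * (d : ℝ) ^ k)
  have h6 : R ≤ max (locRes d v F) 0 + η' := by linarith
  have h7 := mul_le_mul_of_nonneg_left h6 hc0.le
  unfold CF
  rw [← hηe]
  linarith

end K

end Pool.Agent.Lib_helper95.FP
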