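import Pool.Agent.Lib_helper95.FP.Fin

/-!
# Number fields of bounded degree: many points
-/

set_option autoImplicit false

universe u

namespace Pool.Agent.Lib_helper95.FP

open Polynomial Real Height AdmissibleAbsValues

/-- Bounded moduli height: among many points one has canonical height at least `1`. -/
theorem lowerN (d : ℕ) (hd2 : 2 ≤ d) (D : ℕ) (B : ℝ) : ∃ N : ℕ, ∀ (K : Type u) [Field K]
    [NumberField K], Module.finrank ℚ K ≤ D → ∀ (F : Fin 2 → K[X]), Good d F →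
    placeSum (fun v => locRes d v F) ≤ B * Module.finrank ℚ K → ∀ x : Fin N → Fin 2 → K,
      (∀ i j, i ≠ j → wd (x i) (x j) ≠ 0) →
      ∃ i, (Module.finrank ℚ K : ℝ) ≤ canHeight d F (x i) := by
  have hl : 0 ≤ log ((2 * d).factorial : ℝ) :=
    Real.log_nonneg (by exact_mod_cast Nat.one_le_iff_ne_zero.2 (Nat.factorial_ne_zero _))
  obtain ⟨C4, hC4⟩ : ∃ C4 : ℝ, C4 = (1 + 6 * (d * (d + 1))) * B +
      2 * (d * (d + 1)) * 3 + C3p d := ⟨_, rfl⟩
  obtain ⟨C5, hC5⟩ : ∃ C5 : ℝ, C5 = max C4 0 + log ((2 * d).factorial) := ⟨_, rfl⟩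
  have hC50 : 0 ≤ C5 := by rw [hC5]; have := le_max_right C4 0; linarith
  obtain ⟨M, hM⟩ := north_P1.{u} D ((1 + C5) * D)
  refine ⟨M + 3, fun K _ _ hD F hG hB x hx => ?_⟩
  by_contra hcon
  push Not at hcon
  set n : ℝ := (Module.finrank ℚ K : ℝ) with hn
  have htw : (totalWeight K : ℝ) = n := by
    rw [NumberField.totalWeight_eq_finrank]
  have hn0 : 0 < n := by
    rw [← htw]
    exact_mod_cast NumberField.totalWeight_pos K
  have hnD : n ≤ D := by rw [hn]; exact_mod_cast hD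
  have i01 : (⟨0, by omega⟩ : Fin (M + 3)) ≠ ⟨1, by omega⟩ := by simp [Fin.ext_iff]
  have i02 : (⟨0, by omega⟩ : Fin (M + 3)) ≠ ⟨2, by omega⟩ := by simp [Fin.ext_iff]
  have i12 : (⟨1, by omega⟩ : Fin (M + 3)) ≠ ⟨2, by omega⟩ := by simp [Fin.ext_iff]
  have h01 := hx _ _ i01
  have h02 := hx _ _ i02
  have h12 := hx _ _ i12
  have hc0 := hcon ⟨0, by omega⟩
  have hc1 := hcon ⟨1, by omega⟩
  have hc2 := hcon ⟨2, by omega⟩
  set x₀ := x ⟨0, by omega⟩ with hx₀
  set x₁ := x ⟨1, by omega⟩ with hx₁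
  set x₂ := x ⟨2, by omega⟩ with hx₂
  have hsum := sum_RR_three hG x₀ x₁ x₂ h01 h02 h12
  set γ := cm (fun i => wd x₁ x₂ * x₀ i) (fun i => wd x₀ x₂ * x₁ i) with hγdef
  have hdetγ : γ.det ≠ 0 := by
    rw [hγdef, det_cm, wd_smul]
    exact mul_ne_zero (mul_ne_zero h12 h02) h01
  set G := cj d F γ with hGdef
  have hGG : Good d G := hG.cj hdetγ
  rw [htw] at hsum
  have hsum2 : placeSum (fun v => RR v d G) ≤ C4 * n := by
    have h1 := mul_le_mul_of_nonneg_left hB (by positivity : (0 : ℝ) ≤ 1 + 6 * (d * (d + 1)))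
    have h2 : canHeight d F x₀ + canHeight d F x₁ + canHeight d F x₂ ≤ 3 * n := by linarith
    have h3 := mul_le_mul_of_nonneg_left h2 (by positivity : (0 : ℝ) ≤ 2 * (d * (d + 1)))
    rw [hC4]
    linarith
  have hmax : max (placeSum (fun v => RR v d G)) 0 ≤ max C4 0 * n := by
    apply max_le
    · exact hsum2.trans (mul_le_mul_of_nonneg_right (le_max_left _ _) hn0.le)
    · exact mul_nonneg (le_max_right _ _) hn0.le
  -- the points in the new coordinates
  have hadj : γ.adjugate.det ≠ 0 := by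
    rw [Matrix.det_adjugate]
    simpa using hdetγ
  obtain ⟨i, hi⟩ := hM K hD (fun i : Fin (M + 2) => γ.adjugate.mulVec (x (Fin.castLE (by omega) i)))
    (by
      intro i j hij
      rw [wd_mulVec]
      exact mul_ne_zero hadj (hx _ _ (fun h => hij (Fin.castLE_injective _ h))))
  set j : Fin (M + 3) := Fin.castLE (by omega) i with hj
  have hxj : x j ≠ 0 := by
    by_cases h0 : j = ⟨0, by omega⟩
    · rw [h0]; exact ne_zero_of_wd h01
    · exact ne_zero_of_wd (hx j _ h0)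
  have hyj : γ.adjugate.mulVec (x j) ≠ 0 := mulVec_ne_zero' hadj hxj
  have hlog := logHeight_le hGG _ hyj
  rw [htw, hGdef, canHeight_cj hG hdetγ _ hyj, mulVec_adj, canHeight_smul hG _ hdetγ _ hxj,
    ← hGdef] at hlog
  have h1 : (1 + C5) * n ≤ (1 + C5) * D := mul_le_mul_of_nonneg_left hnD (by linarith)
  have h2 := hcon j
  have h3 : C5 * n = max C4 0 * n + n * log ((2 * d).factorial) := by rw [hC5]; ring
  linarith

open Classical in
/-- Number fields of degree at most `D`: many points, and points with infinite orbit. -/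
theorem nf_many (d : ℕ) (hd2 : 2 ≤ d) (D s : ℕ) (δ : ℝ) (hδ : 0 < δ) :
    ∃ (N : ℕ) (c₁ c₂ : ℝ), 0 < c₁ ∧ 0 < c₂ ∧ ∀ (K : Type u) [Field K] [NumberField K],
      Module.finrank ℚ K ≤ D → ∀ (F : Fin 2 → K[X]), Good d F →
      ∀ T : Finset (AbsoluteValue K ℝ), T.card ≤ s →
      δ * placeSum (fun v => locRes d v F) ≤
        placeSum (fun v => if v ∈ T then locRes d v F else 0) →
      (∀ x : Fin N → Fin 2 → K, (∀ i j, i ≠ j → wd (x i) (x j) ≠ 0) → ∃ i,
        c₁ * max (placeSum (fun v => locRes d v F)) 0 + c₂ * Module.finrank ℚ K ≤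
          canHeight d F (x i)) ∧
      ∀ P : Fin 2 → K, (∀ m n, m ≠ n → wd ((hmap d F)^[m] P) ((hmap d F)^[n] P) ≠ 0) →
        c₁ * max (placeSum (fun v => locRes d v F)) 0 + c₂ * Module.finrank ℚ K ≤
          canHeight d F P := by
  obtain ⟨N0, c, C, hc, hC, hmain⟩ := main.{u} d hd2 s δ hδ
  have hd : (2 : ℝ) ≤ d := by exact_mod_cast hd2
  set B := (2 * C + 2) / c with hB
  have hB0 : 0 < B := by positivity
  have hBc : B * c = 2 * C + 2 := by rw [hB]; field_simp
  obtain ⟨N1, hN1⟩ := lowerN.{u} d hd2 D B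
  obtain ⟨N, hN⟩ : ∃ N : ℕ, N = N0 + N1 + 2 := ⟨_, rfl⟩
  set b₁ := min (c / 2) (1 / (2 * B)) with hb₁
  have hb₁0 : 0 < b₁ := lt_min (by positivity) (by positivity)
  -- the statement for many points
  have hmany : ∀ (K : Type u) [Field K] [NumberField K],
      Module.finrank ℚ K ≤ D → ∀ (F : Fin 2 → K[X]), Good d F →
      ∀ T : Finset (AbsoluteValue K ℝ), T.card ≤ s →
      δ * placeSum (fun v => locRes d v F) ≤
        placeSum (fun v => if v ∈ T then locRes d v F else 0) →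
      ∀ x : Fin N → Fin 2 → K, (∀ i j, i ≠ j → wd (x i) (x j) ≠ 0) → ∃ i,
        b₁ * max (placeSum (fun v => locRes d v F)) 0 + 1 / 2 * Module.finrank ℚ K ≤
          canHeight d F (x i) := by
    intro K _ _ hD F hG T hT hδT x hx
    set n : ℝ := (Module.finrank ℚ K : ℝ) with hn
    have htw : (totalWeight K : ℝ) = n := by
      rw [NumberField.totalWeight_eq_finrank]
    have hn0 : 0 < n := by
      rw [← htw]
      exact_mod_cast NumberField.totalWeight_pos K
    set S := placeSum (fun v => locRes d v F) with hS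
    rcases le_or_gt (B * n) S with hSB | hSB
    · obtain ⟨i, hi⟩ := hmain K _ _ F hG T hT hδT (fun i : Fin N0 => x (Fin.castLE (by omega) i))
        (fun i j hij => hx _ _ (fun h => hij (Fin.castLE_injective _ h)))
      refine ⟨Fin.castLE (by omega) i, ?_⟩
      have hS0 : 0 ≤ S := (mul_nonneg hB0.le hn0.le).trans hSB
      rw [max_eq_left hS0]
      rw [htw, ← hS] at hi
      have h1 : b₁ * S ≤ c / 2 * S := mul_le_mul_of_nonneg_right (min_le_left _ _) hS0
      have h2 : c / 2 * (B * n) ≤ c / 2 * S := mul_le_mul_of_nonneg_left hSB (by positivity)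
      have h3 : c / 2 * (B * n) = (C + 1) * n := by linear_combination (n / 2) * hBc
      linarith
    · obtain ⟨i, hi⟩ := hN1 K hD F hG hSB.le (fun i : Fin N1 => x (Fin.castLE (by omega) i))
        (fun i j hij => hx _ _ (fun h => hij (Fin.castLE_injective _ h)))
      refine ⟨Fin.castLE (by omega) i, ?_⟩
      rw [← hn] at hi
      have h1 : b₁ * max S 0 ≤ 1 / 2 * n := by
        have h2 : max S 0 ≤ B * n := max_le hSB.le (mul_nonneg hB0.le hn0.le)
        calc b₁ * max S 0 ≤ 1 / (2 * B) * (B * n) :=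
              mul_le_mul (min_le_right _ _) h2 (le_max_right _ _) (by positivity)
          _ = 1 / 2 * n := by field_simp
      linarith
  have hdN : (0 : ℝ) < (d : ℝ) ^ N := by positivity
  have hdN1 : (1 : ℝ) ≤ (d : ℝ) ^ N := one_le_pow₀ (by linarith)
  refine ⟨N, b₁ / (d : ℝ) ^ N, 1 / 2 / (d : ℝ) ^ N, by positivity, by positivity, ?_⟩
  intro K _ _ hD F hG T hT hδT
  set n : ℝ := (Module.finrank ℚ K : ℝ) with hn
  have hn0 : 0 ≤ n := Nat.cast_nonneg _
  set S := placeSum (fun v => locRes d v F) with hS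
  have hM0 : 0 ≤ max S 0 := le_max_right _ _
  obtain ⟨β, hβ⟩ : ∃ β : ℝ, β = b₁ * max S 0 + 1 / 2 * n := ⟨_, rfl⟩
  have hβ0 : 0 ≤ β := by rw [hβ]; positivity
  have e : b₁ / (d : ℝ) ^ N * max S 0 + 1 / 2 / (d : ℝ) ^ N * n = β / (d : ℝ) ^ N := by
    rw [hβ]; ring
  rw [e]
  refine ⟨fun x hx => ?_, fun P hP => ?_⟩
  · obtain ⟨i, hi⟩ := hmany K hD F hG T hT hδT x hx
    rw [← hS, ← hn, ← hβ] at hi
    exact ⟨i, (div_le_self hβ0 hdN1).trans hi⟩
  · have hP0 : P ≠ 0 := ne_zero_of_wd (hP 0 1 (by norm_num))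
    have hne : ∀ k, (hmap d F)^[k] P ≠ 0 := fun k => iter_ne_zero' hG k P hP0
    have hcan0 := canHeight_nonneg hG P hP0
    obtain ⟨i, hi⟩ := hmany K hD F hG T hT hδT (fun i => (hmap d F)^[(i : ℕ)] P)
      (fun i j hij => hP i j (fun h => hij (Fin.ext h)))
    rw [canHeight_hmap hG P hP0 hne i, ← hS, ← hn, ← hβ] at hi
    have h1 : (d : ℝ) ^ (i : ℕ) * canHeight d F P ≤ (d : ℝ) ^ N * canHeight d F P :=
      mul_le_mul_of_nonneg_right (pow_le_pow_right₀ (by linarith) i.2.le) hcan0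
    rw [div_le_iff₀ hdN]
    linarith

/-- Comparison with the height given by regular functions. -/
theorem compare_I (d m l : ℕ) (I : Fin l → MvPolynomial (Fin 2 × Fin (d + 1)) ℤ)
    (hI : ∀ k, Inv.{u} d m (I k)) (c₁ c₂ : ℝ) (hc₁ : 0 < c₁) (hc₂ : 0 < c₂) :
    ∃ b₁ b₂ : ℝ, 0 < b₁ ∧ 0 < b₂ ∧ ∀ (K : Type u) [Field K] [NumberField K]
      (F : Fin 2 → K[X]), Good d F →
        b₁ * (max (placeSum (fun v => locRes d v F)) (logHeight (modPoint d m I F)) /
          Module.finrank ℚ K) + b₂ ≤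
        (c₁ * max (placeSum (fun v => locRes d v F)) 0 + c₂ * Module.finrank ℚ K) /
          Module.finrank ℚ K := by
  have hl : 0 ≤ log ((2 * d).factorial : ℝ) :=
    Real.log_nonneg (by exact_mod_cast Nat.one_le_iff_ne_zero.2 (Nat.factorial_ne_zero _))
  have hlC : ∀ k, 0 ≤ log (Cpol (I k) : ℝ) := fun k =>
    Real.log_nonneg (by exact_mod_cast (by unfold Cpol; omega : 0 < Cpol (I k)))
  obtain ⟨C6, hC6⟩ : ∃ C6 : ℝ, C6 = m * log ((2 * d).factorial) + ∑ k, log (Cpol (I k) : ℝ) :=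
    ⟨_, rfl⟩
  have hC60 : 0 ≤ C6 := by
    rw [hC6]
    have := Finset.sum_nonneg (s := Finset.univ) fun k _ => hlC k
    positivity
  set c₁' := min (c₁ / (m + 1)) (c₂ / (2 * (C6 + 1))) with hc₁'
  have hc₁'0 : 0 < c₁' := lt_min (by positivity) (by positivity)
  refine ⟨c₁', c₂ / 2, hc₁'0, by positivity, ?_⟩
  intro K _ _ F hG
  have h2 := modPoint_le hG m I hI
  rw [← hC6] at h2
  set n : ℝ := (Module.finrank ℚ K : ℝ) with hn
  have htw : (totalWeight K : ℝ) = n := by
    rw [NumberField.totalWeight_eq_finrank]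
  have hn0 : 0 < n := by
    rw [← htw]
    exact_mod_cast NumberField.totalWeight_pos K
  rw [htw] at h2
  set S := placeSum (fun v => locRes d v F) with hS
  set M := max S 0 with hM
  have hM0 : 0 ≤ M := le_max_right _ _
  have hSM : S ≤ M := le_max_left _ _
  have hm0 : (0 : ℝ) ≤ m := Nat.cast_nonneg _
  have h3 : max S (logHeight (modPoint d m I F)) ≤ (m + 1) * M + n * C6 := by
    have h4 : 0 ≤ n * C6 := by positivity
    have h5 : 0 ≤ m * M := by positivity
    have h6 : m * S ≤ m * M := mul_le_mul_of_nonneg_left hSM hm0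
    apply max_le
    · linarith
    · linarith
  have h4 : c₁' * max S (logHeight (modPoint d m I F)) ≤ c₁ * M + c₂ / 2 * n := by
    have h5 : c₁' * ((m + 1) * M) ≤ c₁ * M := by
      have : c₁' * (m + 1) ≤ c₁ := by
        calc c₁' * (m + 1) ≤ c₁ / (m + 1) * (m + 1) :=
              mul_le_mul_of_nonneg_right (min_le_left _ _) (by positivity)
          _ = c₁ := by field_simp
      calc c₁' * ((m + 1) * M) = (c₁' * (m + 1)) * M := by ring
        _ ≤ _ := mul_le_mul_of_nonneg_right this hM0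
    have h6 : c₁' * (n * C6) ≤ c₂ / 2 * n := by
      have : c₁' * C6 ≤ c₂ / 2 := by
        calc c₁' * C6 ≤ c₂ / (2 * (C6 + 1)) * C6 :=
              mul_le_mul_of_nonneg_right (min_le_right _ _) hC60
          _ ≤ c₂ / (2 * (C6 + 1)) * (C6 + 1) :=
              mul_le_mul_of_nonneg_left (by linarith) (by positivity)
          _ = c₂ / 2 := by field_simp
      calc c₁' * (n * C6) = (c₁' * C6) * n := by ring
        _ ≤ _ := mul_le_mul_of_nonneg_right this hn0.le
    calc c₁' * max S (logHeight (modPoint d m I F)) ≤ c₁' * ((m + 1) * M + n * C6) :=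
          mul_le_mul_of_nonneg_left h3 hc₁'0.le
      _ = c₁' * ((m + 1) * M) + c₁' * (n * C6) := by ring
      _ ≤ _ := by linarith
  rw [le_div_iff₀ hn0]
  have h5 : (c₁' * (max S (logHeight (modPoint d m I F)) / n) + c₂ / 2) * n =
      c₁' * max S (logHeight (modPoint d m I F)) + c₂ / 2 * n := by
    field_simp
  rw [h5]
  linarith

open Classical in
/-- Number fields of degree at most `D`, and the heights given by regular functions. -/
theorem final_many (d : ℕ) (hd2 : 2 ≤ d) (D s : ℕ) (δ : ℝ) (hδ : 0 < δ) (m l : ℕ)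
    (I : Fin l → MvPolynomial (Fin 2 × Fin (d + 1)) ℤ) (hI : ∀ k, Inv.{u} d m (I k)) :
    ∃ (N : ℕ) (c₁ c₂ : ℝ), 0 < c₁ ∧ 0 < c₂ ∧ ∀ (K : Type u) [Field K] [NumberField K],
      Module.finrank ℚ K ≤ D → ∀ (F : Fin 2 → K[X]), Good d F →
      ∀ T : Finset (AbsoluteValue K ℝ), T.card ≤ s →
      δ * placeSum (fun v => locRes d v F) ≤
        placeSum (fun v => if v ∈ T then locRes d v F else 0) →
      (∀ x : Fin N → Fin 2 → K, (∀ i j, i ≠ j → wd (x i) (x j) ≠ 0) → ∃ i,
        c₁ * (max (placeSum (fun v => locRes d v F)) (logHeight (modPoint d m I F)) /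
          Module.finrank ℚ K) + c₂ ≤ canHeight d F (x i) / Module.finrank ℚ K) ∧
      ∀ P : Fin 2 → K, (∀ m n, m ≠ n → wd ((hmap d F)^[m] P) ((hmap d F)^[n] P) ≠ 0) →
        c₁ * (max (placeSum (fun v => locRes d v F)) (logHeight (modPoint d m I F)) /
          Module.finrank ℚ K) + c₂ ≤ canHeight d F P / Module.finrank ℚ K := by
  obtain ⟨N, c₁, c₂, hc₁, hc₂, hmain⟩ := nf_many.{u} d hd2 D s δ hδ
  obtain ⟨b₁, b₂, hb₁, hb₂, hcomp⟩ := compare_I.{u} d m l I hI c₁ c₂ hc₁ hc₂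
  refine ⟨N, b₁, b₂, hb₁, hb₂, ?_⟩
  intro K _ _ hD F hG T hT hδT
  obtain ⟨h1, h2⟩ := hmain K hD F hG T hT hδT
  have h3 := hcomp K F hG
  refine ⟨fun x hx => ?_, fun P hP => ?_⟩
  · obtain ⟨i, hi⟩ := h1 x hx
    exact ⟨i, h3.trans (div_le_div_of_nonneg_right hi (Nat.cast_nonneg _))⟩
  · exact h3.trans (div_le_div_of_nonneg_right (h2 P hP) (Nat.cast_nonneg _))

end Pool.Agent.Lib_helper95.FP
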