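import Mathlib

/-!
# Northcott theorem, uniform in the number fields of bounded degree (copied from helper5, Lib_helper5/DLH/North.lean)
-/

set_option autoImplicit false

open Polynomial Finset NumberField

namespace Pool.Agent.Lib_helper95.FP

/-- the integer polynomials of degree at most `D` with coefficients of size at most `C` -/
noncomputable def polys (D C : ℕ) : Finset ℤ[X] := by
  classical
  exact (Finset.univ : Finset (Fin (D + 1) → Finset.Icc (-(C : ℤ)) C)).image
    fun g => ∑ i : Fin (D + 1), Polynomial.C (g i : ℤ) * X ^ (i : ℕ)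

theorem mem_polys {D C : ℕ} {p : ℤ[X]} (h : p.natDegree ≤ D) (hc : ∀ i, |p.coeff i| ≤ (C : ℤ)) :
    p ∈ polys D C := by
  classical
  unfold polys
  rw [Finset.mem_image]
  refine ⟨fun i => ⟨p.coeff i, Finset.mem_Icc.2 (abs_le.1 (hc i))⟩, Finset.mem_univ _, ?_⟩
  have h1 := p.as_sum_range' (D + 1) (Nat.lt_succ_of_le h)
  conv_rhs => rw [h1]
  simp only [← C_mul_X_pow_eq_monomial]
  exact Fin.sum_univ_eq_sum_range (fun i => Polynomial.C (p.coeff i) * X ^ i) (D + 1)

theorem place_le_height {L : Type*} [Field L] [NumberField L] (x : L) (w : InfinitePlace L) :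
    w x ≤ Height.mulHeight₁ x := by
  classical
  rw [NumberField.mulHeight₁_eq]
  have h1 : (1 : ℝ) ≤ ∏ᶠ v : FinitePlace L, max (v x) 1 := one_le_finprod fun _ => le_max_right _ _
  have h2 : max (w x) 1 ≤ ∏ v : InfinitePlace L, max (v x) 1 ^ v.mult := by
    have h3 : max (w x) 1 ^ w.mult ≤ ∏ v : InfinitePlace L, max (v x) 1 ^ v.mult := by
      rw [← Finset.mul_prod_erase _ _ (Finset.mem_univ w)]
      refine le_mul_of_one_le_right (by positivity) ?_
      exact Finset.prod_induction _ (fun t : ℝ => 1 ≤ t) (fun a b ha hb => one_le_mul_of_one_le_of_one_le ha hb) le_rfl (fun v _ => one_le_pow₀ (le_max_right _ _))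
    exact (le_self_pow₀ (le_max_right _ _) w.mult_ne_zero).trans h3
  calc w x ≤ max (w x) 1 := le_max_left _ _
    _ ≤ (∏ v : InfinitePlace L, max (v x) 1 ^ v.mult) * 1 := by rw [mul_one]; exact h2
    _ ≤ _ := mul_le_mul_of_nonneg_left h1 (Finset.prod_nonneg fun v _ => by positivity)

theorem northcott_card.{u} (D : ℕ) (T : ℝ) : ∃ M : ℕ, ∀ (L : Type u) [Field L] [NumberField L],
    Module.finrank ℚ L ≤ D → ∀ Z : Finset L, (∀ x ∈ Z, Height.logHeight₁ x ≤ T) → Z.card ≤ M := by
  classical
  set H : ℝ := max 1 (Real.exp T) with hH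
  have hH1 : 1 ≤ H := le_max_left _ _
  set C : ℕ := ⌈(H ^ 2) ^ D * 2 ^ D⌉₊ with hC
  refine ⟨(⌊H⌋₊ + 1) * ((polys D C).card * D), fun L _ _ hD Z hZ => ?_⟩
  set Y : Finset L := (polys D C).biUnion fun p =>
    if p.natDegree ≤ D then (p.map (algebraMap ℤ L)).roots.toFinset else ∅ with hY
  have hYc : Y.card ≤ (polys D C).card * D := by
    rw [hY]
    refine (Finset.card_biUnion_le).trans ?_
    rw [← smul_eq_mul]
    refine Finset.sum_le_card_nsmul _ _ _ fun p _ => ?_
    split_ifs with hp
    · refine (Multiset.toFinset_card_le _).trans ?_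
      refine (card_roots' _).trans ?_
      exact (natDegree_map_le).trans hp
    · simp
  have hsub : Z ⊆ ((Finset.range (⌊H⌋₊ + 1)) ×ˢ Y).image fun ny : ℕ × L => ny.2 / ny.1 := by
    intro x hx
    have hmx : Height.mulHeight₁ x ≤ H := by
      have h1 : Real.log (Height.mulHeight₁ x) ≤ T := hZ x hx
      have h2 : Height.mulHeight₁ x ≤ Real.exp T :=
        (Real.log_le_iff_le_exp (Height.mulHeight₁_pos x)).1 h1
      exact h2.trans (le_max_right _ _)
    obtain ⟨n, hn0, hn, hint⟩ := NumberField.exists_nat_le_mulHeight₁ x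
    have hnH : (n : ℝ) ≤ H := hn.trans hmx
    rw [Finset.mem_image]
    refine ⟨(n, n * x), Finset.mem_product.2 ⟨?_, ?_⟩, ?_⟩
    · rw [Finset.mem_range]
      exact Nat.lt_succ_of_le (Nat.le_floor hnH)
    · -- membership in `Y`
      have hnorm : ∀ φ : L →+* ℂ, ‖φ (n * x)‖ ≤ H ^ 2 := by
        intro φ
        rw [map_mul, map_natCast, norm_mul, Complex.norm_natCast, sq]
        have h1 : ‖φ x‖ = InfinitePlace.mk φ x := rfl
        rw [h1]
        exact mul_le_mul hnH ((place_le_height x _).trans hmx) (apply_nonneg _ _) (by linarith)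
      have hq := minpoly.isIntegrallyClosed_eq_field_fractions' ℚ hint
      have hmem : minpoly ℤ (n * x : L) ∈ polys D C := by
        refine mem_polys ?_ fun i => ?_
        · rw [← (minpoly.monic hint).natDegree_map (algebraMap ℤ ℚ), ← hq]
          exact (minpoly.natDegree_le _).trans hD
        · have h1 := NumberField.Embeddings.coeff_bdd_of_norm_le (A := ℂ) hnorm i
          have h2 : ‖(minpoly ℚ (n * x : L)).coeff i‖ = |((minpoly ℤ (n * x : L)).coeff i : ℝ)| := by
            rw [hq, coeff_map, eq_intCast, Int.norm_cast_rat, Int.norm_eq_abs]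
          rw [h2] at h1
          have hH2 : 1 ≤ H ^ 2 := one_le_pow₀ hH1
          have h3 : max (H ^ 2) 1 ^ Module.finrank ℚ L *
              ((Module.finrank ℚ L).choose (Module.finrank ℚ L / 2) : ℝ) ≤ C := by
            refine le_trans ?_ (Nat.le_ceil _)
            rw [max_eq_left hH2]
            refine mul_le_mul (pow_le_pow_right₀ hH2 hD) ?_ (by positivity) (by positivity)
            have h4 : (Module.finrank ℚ L).choose (Module.finrank ℚ L / 2) ≤ 2 ^ D :=
              (Nat.choose_le_two_pow _ _).trans (Nat.pow_le_pow_right (by norm_num) hD)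
            exact_mod_cast h4
          have h5 := h1.trans h3
          exact_mod_cast h5
      rw [hY, Finset.mem_biUnion]
      refine ⟨_, hmem, ?_⟩
      rw [if_pos]
      · rw [Multiset.mem_toFinset, mem_roots']
        refine ⟨(Polynomial.map_monic_ne_zero (minpoly.monic hint)), ?_⟩
        rw [IsRoot.def, eval_map_algebraMap]
        exact minpoly.aeval ℤ _
      · rw [← (minpoly.monic hint).natDegree_map (algebraMap ℤ ℚ), ← hq]
        exact (minpoly.natDegree_le _).trans hD
    · have hn' : (n : L) ≠ 0 := Nat.cast_ne_zero.2 hn0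
      simp only
      field_simp
  refine (Finset.card_le_card hsub).trans (Finset.card_image_le.trans ?_)
  rw [Finset.card_product, Finset.card_range]
  exact Nat.mul_le_mul_left _ hYc

end Pool.Agent.Lib_helper95.FP
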