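import Pool.Agent.Lib_helper95.FP.Norm
import Pool.Agent.Lib_helper95.FP.North

/-!
# Number fields of bounded degree: the inequality with a positive constant
-/

set_option autoImplicit false

universe u

namespace Pool.Agent.Lib_helper95.FP

open Polynomial Real Height AdmissibleAbsValues

section

variable {K : Type u} [Field K] [AdmissibleAbsValues K]

theorem iter_ne_zero' {d : ℕ} {F : Fin 2 → K[X]} (hG : Good d F) (n : ℕ) (x : Fin 2 → K)
    (hx : x ≠ 0) : (hmap d F)^[n] x ≠ 0 := by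
  classical
  exact iter_ne_zero hG (AbsoluteValue.trivial) n x hx

theorem canHeight_smul {d : ℕ} {F : Fin 2 → K[X]} (hG : Good d F) (c : K) (hc : c ≠ 0)
    (x : Fin 2 → K) (hx : x ≠ 0) : canHeight d F (fun i => c * x i) = canHeight d F x := by
  have hcx : (fun i => c * x i) ≠ 0 := smul_ne_zero' hc hx
  obtain ⟨B, hB⟩ := exists_B hG (fun i : Fin 2 => ![x, fun i => c * x i] i)
    (by rw [Fin.forall_fin_two]; exact ⟨hx, hcx⟩) (fun _ : Fin 1 => c) (fun _ => hc)
  rw [canHeight_eq hG x hx B (fun v hv => ⟨(hB v hv).1, (hB v hv).2.1 0⟩),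
    canHeight_eq hG _ hcx B (fun v hv => ⟨(hB v hv).1, (hB v hv).2.1 1⟩)]
  have h1 := product_gs B hc (fun v hv => (hB v hv).2.2 0)
  have e : gs B (fun v => HH v d F (fun i => c * x i)) =
      gs B (fun v => log (v c) + HH v d F x) :=
    gs_congr B _ _ (fun v _ => HH_smul hG c hc x hx) (fun v _ => HH_smul hG c hc x hx)
  rw [e, gs_add, h1, zero_add]

theorem canHeight_cj {d : ℕ} {F : Fin 2 → K[X]} (hG : Good d F) {γ : Matrix (Fin 2) (Fin 2) K}
    (hγ : γ.det ≠ 0) (x : Fin 2 → K) (hx : x ≠ 0) :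
    canHeight d (cj d F γ) x = canHeight d F (γ.mulVec x) := by
  classical
  have hγx := mulVec_ne_zero' hγ hx
  obtain ⟨B1, hB1⟩ := exists_B hG (fun _ : Fin 1 => γ.mulVec x) (fun _ => hγx)
    (fun _ : Fin 1 => γ.det) (fun _ => hγ)
  obtain ⟨B2, hB2⟩ := exists_B (hG.cj hγ) (fun _ : Fin 1 => x) (fun _ => hx)
    (fun _ : Fin 1 => γ.det) (fun _ => hγ)
  have h1 : ∀ v : nonarchAbsVal (K := K), v ∉ B1 ∪ B2 → v ∉ B1 := fun v hv h =>
    hv (Finset.mem_union_left _ h)
  have h2 : ∀ v : nonarchAbsVal (K := K), v ∉ B1 ∪ B2 → v ∉ B2 := fun v hv h =>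
    hv (Finset.mem_union_right _ h)
  rw [canHeight_eq (hG.cj hγ) x hx (B1 ∪ B2) (fun v hv => ⟨(hB2 v (h2 v hv)).1,
      (hB2 v (h2 v hv)).2.1 0⟩),
    canHeight_eq hG _ hγx (B1 ∪ B2) (fun v hv => ⟨(hB1 v (h1 v hv)).1,
      (hB1 v (h1 v hv)).2.1 0⟩)]
  have h3 := product_gs (B1 ∪ B2) hγ (fun v hv => (hB1 v (h1 v hv)).2.2 0)
  have e : gs (B1 ∪ B2) (fun v => HH v d (cj d F γ) x) =
      gs (B1 ∪ B2) (fun v => HH v d F (γ.mulVec x) + (1 / ((d : ℝ) - 1)) * log (v γ.det)) := by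
    apply gs_congr
    · intro v _
      rw [HH_cj hG hγ x hx]; ring
    · intro v _
      rw [HH_cj hG hγ x hx]; ring
  rw [e, gs_add, gs_mul, h3, mul_zero, add_zero]

theorem RR_good {d : ℕ} {F : Fin 2 → K[X]} (v : AbsoluteValue K ℝ) (hv : GoodAt d F v) :
    RR v d F = 0 := by
  unfold RR
  rw [hv.1, hv.2]
  simp

/-- The Weil height is at most the canonical height plus the resultant ratio. -/
theorem logHeight_le {d : ℕ} {G : Fin 2 → K[X]} (hG : Good d G) (x : Fin 2 → K) (hx : x ≠ 0) :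
    logHeight x ≤ canHeight d G x + max (placeSum (fun v => RR v d G)) 0 +
      totalWeight K * log ((2 * d).factorial) := by
  have hd2 := hG.two_le
  have hd : (2 : ℝ) ≤ d := by exact_mod_cast hd2
  have hd1 : (1 : ℝ) ≤ d - 1 := by linarith
  have hd0 : (0 : ℝ) < d := by linarith
  have hl : 0 ≤ log ((2 * d).factorial : ℝ) :=
    Real.log_nonneg (by exact_mod_cast Nat.one_le_iff_ne_zero.2 (Nat.factorial_ne_zero _))
  obtain ⟨B, hB⟩ := exists_B hG (fun _ : Fin 1 => x) (fun _ => hx)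
    (fun _ : Fin 1 => res d G) (fun _ => hG.res_ne)
  rw [placeSum_eq B _ (fun v hv => RR_good v.val (hB v hv).1),
    canHeight_eq hG x hx B (fun v hv => ⟨(hB v hv).1, (hB v hv).2.1 0⟩),
    logHeight_gs B hx (fun v hv => (hB v hv).2.1 0)]
  have hp := product_gs B hG.res_ne (fun v hv => (hB v hv).2.2 0)
  set S := gs B (fun v => RR v d G) with hS
  have key : ∀ v : AbsoluteValue K ℝ, log (nv v x) ≤ (HH v d G x +
      (1 / ((d : ℝ) - 1) * (1 - 1 / (2 * d))) * RR v d G) +
      (tt v * log ((2 * d).factorial) + (-(1 / (2 * d * ((d : ℝ) - 1)))) * log (v (res d G))) := by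
    intro v
    have h1 := ht_le ((AV_tt v).sb (w := v) (φ := RingHom.id K) (fun _ => rfl)) hG x hx
    have h2 : HH v d G x = log (nv v x) - ht v d G x + log (nF v d G) / (d - 1) := rfl
    have h3 : RR v d G = 2 * d * log (nF v d G) - log (v (res d G)) := rfl
    have h4 : log (nF v d G) / (d - 1) = 1 / (2 * d * ((d : ℝ) - 1)) * RR v d G +
        1 / (2 * d * ((d : ℝ) - 1)) * log (v (res d G)) := by
      rw [h3]
      have : (d : ℝ) - 1 ≠ 0 := by linarith
      field_simp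
      ring
    have h5 : (RR v d G + tt v * log ((2 * d).factorial)) / (d - 1) ≤
        1 / ((d : ℝ) - 1) * RR v d G + tt v * log ((2 * d).factorial) := by
      rw [add_div]
      have h6 : tt v * log ((2 * d).factorial) / ((d : ℝ) - 1) ≤ tt v * log ((2 * d).factorial) :=
        div_le_self (mul_nonneg (Nat.cast_nonneg _) hl) hd1
      have h7 : RR v d G / ((d : ℝ) - 1) = 1 / ((d : ℝ) - 1) * RR v d G := by ring
      linarith
    have h8 : (1 / ((d : ℝ) - 1) * (1 - 1 / (2 * d))) * RR v d G =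
        1 / ((d : ℝ) - 1) * RR v d G - 1 / (2 * d * ((d : ℝ) - 1)) * RR v d G := by
      have : (d : ℝ) - 1 ≠ 0 := by linarith
      field_simp
    linarith
  have h1 := gs_le B _ _ (fun v _ => key v) (fun v _ => key v.val)
  rw [gs_add, gs_add, gs_add, gs_mul, gs_mul, hp, ← hS] at h1
  have h2 := gs_tt_le B _ hl
  have hc1 : 1 / ((d : ℝ) - 1) * (1 - 1 / (2 * d)) ≤ 1 := by
    have h3 : 1 / ((d : ℝ) - 1) ≤ 1 := by rw [div_le_one (by linarith)]; linarith
    have h4 : 1 - 1 / (2 * (d : ℝ)) ≤ 1 := by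
      have : 0 < 1 / (2 * (d : ℝ)) := by positivity
      linarith
    have h5 : 0 ≤ 1 / ((d : ℝ) - 1) := by positivity
    calc 1 / ((d : ℝ) - 1) * (1 - 1 / (2 * d)) ≤ 1 / ((d : ℝ) - 1) * 1 :=
          mul_le_mul_of_nonneg_left h4 h5
      _ ≤ 1 := by rw [mul_one]; exact h3
  have hc0 : 0 ≤ 1 / ((d : ℝ) - 1) * (1 - 1 / (2 * d)) := by
    have h4 : 0 ≤ 1 - 1 / (2 * (d : ℝ)) := by
      have : 1 / (2 * (d : ℝ)) ≤ 1 := by rw [div_le_one (by positivity)]; linarith
      linarith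
    positivity
  have h6 : (1 / ((d : ℝ) - 1) * (1 - 1 / (2 * d))) * S ≤ max S 0 := by
    calc (1 / ((d : ℝ) - 1) * (1 - 1 / (2 * d))) * S
        ≤ (1 / ((d : ℝ) - 1) * (1 - 1 / (2 * d))) * max S 0 :=
          mul_le_mul_of_nonneg_left (le_max_left _ _) hc0
      _ ≤ 1 * max S 0 := mul_le_mul_of_nonneg_right hc1 (le_max_right _ _)
      _ = _ := one_mul _
  linarith

/-- The constant of the next theorem. -/
noncomputable def C3p (d : ℕ) : ℝ := (1 + 6 * (d * (d + 1))) * log ((2 * d).factorial) +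
  (d * (d + 1) * (9 * log ((2 * d).factorial) + 2 * log 2) + 2 * d * log (Ccj d))

/-- The sum of the resultant ratios in the coordinates given by three points. -/
theorem sum_RR_three {d : ℕ} {F : Fin 2 → K[X]} (hG : Good d F) (x₀ x₁ x₂ : Fin 2 → K)
    (h01 : wd x₀ x₁ ≠ 0) (h02 : wd x₀ x₂ ≠ 0) (h12 : wd x₁ x₂ ≠ 0) :
    placeSum (fun v => RR v d
      (cj d F (cm (fun i => wd x₁ x₂ * x₀ i) (fun i => wd x₀ x₂ * x₁ i)))) ≤
      (1 + 6 * (d * (d + 1))) * placeSum (fun v => locRes d v F) +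
      2 * (d * (d + 1)) * (canHeight d F x₀ + canHeight d F x₁ + canHeight d F x₂) +
      totalWeight K * C3p d := by
  classical
  have hd2 := hG.two_le
  have hd0 : (0 : ℝ) < d := by exact_mod_cast (by omega : 0 < d)
  have hl : 0 ≤ log ((2 * d).factorial : ℝ) :=
    Real.log_nonneg (by exact_mod_cast Nat.one_le_iff_ne_zero.2 (Nat.factorial_ne_zero _))
  have hl2 : 0 ≤ log (2 : ℝ) := Real.log_nonneg (by norm_num)
  have hlC : 0 ≤ log (Ccj d : ℝ) :=
    Real.log_nonneg (by exact_mod_cast (by unfold Ccj; positivity : 0 < Ccj d))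
  set γ := cm (fun i => wd x₁ x₂ * x₀ i) (fun i => wd x₀ x₂ * x₁ i) with hγdef
  have hdetγ : γ.det ≠ 0 := by
    rw [hγdef, det_cm, wd_smul]
    exact mul_ne_zero (mul_ne_zero h12 h02) h01
  obtain ⟨B1, hB1⟩ := exists_B hG (fun i : Fin 3 => ![x₀, x₁, x₂] i)
    (by
      intro i
      fin_cases i
      · exact ne_zero_of_wd h01
      · exact ne_zero_of_wd h12
      · exact ne_zero_of_wd' h12)
    (fun i : Fin 3 => ![wd x₀ x₁, wd x₀ x₂, wd x₁ x₂] i)
    (by
      intro i
      fin_cases i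
      · exact h01
      · exact h02
      · exact h12)
  obtain ⟨B2, hB2⟩ := exists_B (hG.cj hdetγ) (fun i : Fin 0 => x₀) (fun i => i.elim0)
    (fun _ : Fin 0 => γ.det) (fun i => i.elim0)
  have h1 : ∀ v : nonarchAbsVal (K := K), v ∉ B1 ∪ B2 → v ∉ B1 := fun v hv h =>
    hv (Finset.mem_union_left _ h)
  have h2 : ∀ v : nonarchAbsVal (K := K), v ∉ B1 ∪ B2 → v ∉ B2 := fun v hv h =>
    hv (Finset.mem_union_right _ h)
  rw [placeSum_eq (B1 ∪ B2) _ (fun v hv => RR_good v.val (hB2 v (h2 v hv)).1),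
    placeSum_eq (B1 ∪ B2) _ (fun v hv => locRes_good hG v (hB1 v (h1 v hv)).1)]
  have g01 := gs_gg hG x₀ x₁ h01 (B1 ∪ B2) (fun v hv => by
    have h := hB1 v (h1 v hv)
    exact ⟨h.1, h.2.1 0, h.2.1 1, h.2.2 0⟩)
  have g02 := gs_gg hG x₀ x₂ h02 (B1 ∪ B2) (fun v hv => by
    have h := hB1 v (h1 v hv)
    exact ⟨h.1, h.2.1 0, h.2.1 2, h.2.2 1⟩)
  have g12 := gs_gg hG x₁ x₂ h12 (B1 ∪ B2) (fun v hv => by
    have h := hB1 v (h1 v hv)
    exact ⟨h.1, h.2.1 1, h.2.1 2, h.2.2 2⟩)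
  have key : ∀ v : AbsoluteValue K ℝ, RR v d (cj d F γ) ≤
      ((1 + 6 * (d * (d + 1))) * locRes d v F +
      (d * (d + 1)) * ((gg v d F x₀ x₁ + gg v d F x₀ x₂) + gg v d F x₁ x₂)) +
      tt v * C3p d := by
    intro v
    have h3 := RR_three (AV_tt v) hG x₀ x₁ x₂ h01 h02 h12
    rw [← hγdef] at h3
    have h4 := locRes_ge (AV_tt v) hG
    have h5 : max (locRes d v F) 0 ≤ locRes d v F + tt v * log ((2 * d).factorial) := by
      have h2 : 0 ≤ (tt v : ℝ) * log ((2 * d).factorial) := mul_nonneg (Nat.cast_nonneg _) hl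
      exact max_le (by linarith) (by linarith)
    have h6 := mul_le_mul_of_nonneg_left h5 (by positivity : (0 : ℝ) ≤ 1 + 6 * (d * (d + 1)))
    unfold C3p
    linarith
  have h3 := gs_le (B1 ∪ B2) _ _ (fun v _ => key v) (fun v _ => key v.val)
  rw [gs_add, gs_add, gs_mul, gs_mul, gs_add, gs_add, g01, g02, g12] at h3
  have hC : 0 ≤ C3p d := by unfold C3p; positivity
  have h4 := gs_tt_le (B1 ∪ B2) _ hC
  linarith

theorem iter_conj {d : ℕ} {F : Fin 2 → K[X]} {γ : Matrix (Fin 2) (Fin 2) K} (hγ : γ.det ≠ 0)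
    (P Q : Fin 2 → K) (a : K) (ha : a ≠ 0) (hQ : γ.mulVec Q = fun i => a * P i) (n : ℕ) :
    ∃ l : K, l ≠ 0 ∧ γ.mulVec ((hmap d (cj d F γ))^[n] Q) = fun i => l * ((hmap d F)^[n] P) i := by
  induction n with
  | zero => exact ⟨a, ha, hQ⟩
  | succ n ih =>
    obtain ⟨l, hl, h⟩ := ih
    refine ⟨γ.det * l ^ d, mul_ne_zero hγ (pow_ne_zero _ hl), ?_⟩
    rw [Function.iterate_succ_apply', Function.iterate_succ_apply', hmap_cj, mulVec_adj, h,
      hmap_smul]
    funext i
    ring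

end

/-- The number of points of bounded height of the projective line. -/
theorem north_P1 (D : ℕ) (A : ℝ) : ∃ M : ℕ, ∀ (K : Type u) [Field K] [NumberField K],
    Module.finrank ℚ K ≤ D → ∀ z : Fin (M + 2) → Fin 2 → K, (∀ i j, i ≠ j → wd (z i) (z j) ≠ 0) →
      ∃ i, A < logHeight (z i) := by
  classical
  obtain ⟨M, hM⟩ := northcott_card.{u} D A
  refine ⟨M, fun K _ _ hD z hz => ?_⟩
  by_contra hcon
  push Not at hcon
  set S := (Finset.univ : Finset (Fin (M + 2))).filter fun i => z i 1 ≠ 0 with hS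
  have hSc : M + 1 ≤ S.card := by
    have h1 : ((Finset.univ : Finset (Fin (M + 2))).filter fun i => ¬ z i 1 ≠ 0).card ≤ 1 := by
      rw [Finset.card_le_one]
      intro a ha b hb
      rw [Finset.mem_filter, not_not] at ha hb
      by_contra hab
      apply hz a b hab
      unfold wd
      rw [ha.2, hb.2]; ring
    have h2 := Finset.card_filter_add_card_filter_not (s := (Finset.univ : Finset (Fin (M + 2))))
      (p := fun i => z i 1 ≠ 0)
    rw [← hS, Finset.card_univ, Fintype.card_fin] at h2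
    omega
  have hinj : Set.InjOn (fun i => z i 0 / z i 1) (S : Set (Fin (M + 2))) := by
    intro a ha b hb hab
    have ha' := (Finset.mem_filter.1 (Finset.mem_coe.1 ha)).2
    have hb' := (Finset.mem_filter.1 (Finset.mem_coe.1 hb)).2
    by_contra hne
    apply hz a b hne
    unfold wd
    simp only at hab
    rw [div_eq_div_iff ha' hb'] at hab
    linear_combination hab
  have h3 := hM K hD (S.image fun i => z i 0 / z i 1) (by
    intro α hα
    obtain ⟨i, _, rfl⟩ := Finset.mem_image.1 hα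
    rw [logHeight₁_div_eq_logHeight]
    have : (![z i 0, z i 1] : Fin 2 → K) = z i := by
      funext k
      fin_cases k <;> rfl
    rw [this]
    exact hcon i)
  rw [Finset.card_image_of_injOn hinj] at h3
  omega

theorem lowerK (d : ℕ) (hd2 : 2 ≤ d) (D : ℕ) (B : ℝ) : ∃ N : ℕ, ∀ (K : Type u) [Field K]
    [NumberField K], Module.finrank ℚ K ≤ D → ∀ (F : Fin 2 → K[X]), Good d F →
    placeSum (fun v => locRes d v F) ≤ B * Module.finrank ℚ K → ∀ P : Fin 2 → K,
      (∀ m n, m ≠ n → wd ((hmap d F)^[m] P) ((hmap d F)^[n] P) ≠ 0) →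
      (Module.finrank ℚ K : ℝ) / (d : ℝ) ^ N ≤ canHeight d F P := by
  have hd : (2 : ℝ) ≤ d := by exact_mod_cast hd2
  have hd0 : (0 : ℝ) < d := by linarith
  have hl : 0 ≤ log ((2 * d).factorial : ℝ) :=
    Real.log_nonneg (by exact_mod_cast Nat.one_le_iff_ne_zero.2 (Nat.factorial_ne_zero _))
  obtain ⟨C4, hC4⟩ : ∃ C4 : ℝ, C4 = (1 + 6 * (d * (d + 1))) * B +
      2 * (d * (d + 1)) * (1 + d + (d : ℝ) ^ 2) + C3p d := ⟨_, rfl⟩
  obtain ⟨C5, hC5⟩ : ∃ C5 : ℝ, C5 = max C4 0 + log ((2 * d).factorial) := ⟨_, rfl⟩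
  have hC50 : 0 ≤ C5 := by rw [hC5]; have := le_max_right C4 0; linarith
  obtain ⟨M, hM⟩ := north_P1.{u} D ((1 + C5) * D)
  refine ⟨M + 2, fun K _ _ hD F hG hB P hP => ?_⟩
  set n : ℝ := (Module.finrank ℚ K : ℝ) with hn
  have htw : (totalWeight K : ℝ) = n := by
    rw [NumberField.totalWeight_eq_finrank]
  have hn0 : 0 < n := by
    rw [← htw]
    exact_mod_cast NumberField.totalWeight_pos K
  have hnD : n ≤ D := by rw [hn]; exact_mod_cast hD
  have hP0 : P ≠ 0 := ne_zero_of_wd (hP 0 1 (by norm_num))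
  have hne : ∀ k, (hmap d F)^[k] P ≠ 0 := fun k => iter_ne_zero' hG k P hP0
  have hdN : (1 : ℝ) ≤ (d : ℝ) ^ (M + 2) := one_le_pow₀ (by linarith)
  have hcan0 := canHeight_nonneg hG P hP0
  by_cases hbig : n ≤ canHeight d F P
  · exact (div_le_self hn0.le hdN).trans hbig
  · have hsmall := not_le.1 hbig
    have h01 := hP 0 1 (by norm_num)
    have h02 := hP 0 2 (by norm_num)
    have h12 := hP 1 2 (by norm_num)
    have hc0 : canHeight d F ((hmap d F)^[0] P) ≤ n := hsmall.le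
    have hc1 : canHeight d F ((hmap d F)^[1] P) ≤ d * n := by
      rw [canHeight_hmap hG P hP0 hne 1, pow_one]
      exact mul_le_mul_of_nonneg_left hsmall.le hd0.le
    have hc2 : canHeight d F ((hmap d F)^[2] P) ≤ (d : ℝ) ^ 2 * n := by
      rw [canHeight_hmap hG P hP0 hne 2]
      exact mul_le_mul_of_nonneg_left hsmall.le (by positivity)
    set x₀ := (hmap d F)^[0] P with hx₀
    set x₁ := (hmap d F)^[1] P with hx₁
    set x₂ := (hmap d F)^[2] P with hx₂
    have hsum := sum_RR_three hG x₀ x₁ x₂ h01 h02 h12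
    set γ := cm (fun i => wd x₁ x₂ * x₀ i) (fun i => wd x₀ x₂ * x₁ i) with hγdef
    have hdetγ : γ.det ≠ 0 := by
      rw [hγdef, det_cm, wd_smul]
      exact mul_ne_zero (mul_ne_zero h12 h02) h01
    set G := cj d F γ with hGdef
    have hGG : Good d G := hG.cj hdetγ
    rw [htw] at hsum
    have hsum2 : placeSum (fun v => RR v d G) ≤ C4 * n := by
      have h1 := mul_le_mul_of_nonneg_left hB (by positivity : (0 : ℝ) ≤ 1 + 6 * (d * (d + 1)))
      have h2 : canHeight d F x₀ + canHeight d F x₁ + canHeight d F x₂ ≤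
          (1 + d + (d : ℝ) ^ 2) * n := by linarith
      have h3 := mul_le_mul_of_nonneg_left h2 (by positivity : (0 : ℝ) ≤ 2 * (d * (d + 1)))
      rw [hC4]
      linarith
    have hmax : max (placeSum (fun v => RR v d G)) 0 ≤ max C4 0 * n := by
      apply max_le
      · exact hsum2.trans (mul_le_mul_of_nonneg_right (le_max_left _ _) hn0.le)
      · exact mul_nonneg (le_max_right _ _) hn0.le
    -- the orbit in the new coordinates
    set e : Fin 2 → K := ![1, 0] with he
    have hγe : γ.mulVec e = fun i => wd x₁ x₂ * P i := by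
      rw [hγdef, he]
      funext i
      fin_cases i
      · simp [cm, Matrix.mulVec, dotProduct, Fin.sum_univ_two, hx₀]
      · simp [cm, Matrix.mulVec, dotProduct, Fin.sum_univ_two, hx₀]
    have he0 : e ≠ 0 := by
      intro h
      have := congrFun h 0
      simp [he] at this
    have hpair : ∀ i j : Fin (M + 2), i ≠ j →
        wd ((hmap d G)^[(i : ℕ)] e) ((hmap d G)^[(j : ℕ)] e) ≠ 0 := by
      intro i j hij h0
      obtain ⟨l, hl, h1⟩ := iter_conj (F := F) (d := d) hdetγ P e _ h12 hγe i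
      obtain ⟨l', hl', h2⟩ := iter_conj (F := F) (d := d) hdetγ P e _ h12 hγe j
      have h3 := wd_mulVec γ ((hmap d (cj d F γ))^[(i : ℕ)] e) ((hmap d (cj d F γ))^[(j : ℕ)] e)
      rw [h1, h2, wd_smul, h0, mul_zero] at h3
      exact mul_ne_zero (mul_ne_zero hl hl') (hP i j (fun h => hij (Fin.ext h))) h3
    obtain ⟨i, hi⟩ := hM K hD (fun i => (hmap d G)^[(i : ℕ)] e) hpair
    have hei : (hmap d G)^[(i : ℕ)] e ≠ 0 := iter_ne_zero' hGG i e he0
    have hlog := logHeight_le hGG _ hei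
    rw [htw] at hlog
    rw [canHeight_hmap hGG e he0 (fun k => iter_ne_zero' hGG k e he0) i, hGdef,
      canHeight_cj hG hdetγ e he0, hγe, canHeight_smul hG _ h12 P hP0] at hlog
    have h1 : (1 + C5) * n ≤ (1 + C5) * D := mul_le_mul_of_nonneg_left hnD (by linarith)
    have h2 : n < (d : ℝ) ^ (i : ℕ) * canHeight d F P := by
      rw [← hGdef] at hlog
      have h3 : C5 * n = max C4 0 * n + n * log ((2 * d).factorial) := by rw [hC5]; ring
      linarith
    have h3 : (d : ℝ) ^ (i : ℕ) ≤ (d : ℝ) ^ (M + 2) :=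
      pow_le_pow_right₀ (by linarith) (by have := i.2; omega)
    rw [div_le_iff₀ (by positivity)]
    have h4 := mul_le_mul_of_nonneg_right h3 hcan0
    linarith

open Classical in
/-- **The inequality for number fields of bounded degree** (relative heights). -/
theorem nf_main (d : ℕ) (hd2 : 2 ≤ d) (D s : ℕ) (δ : ℝ) (hδ : 0 < δ) :
    ∃ c₁ c₂ : ℝ, 0 < c₁ ∧ 0 < c₂ ∧ ∀ (K : Type u) [Field K] [NumberField K],
      Module.finrank ℚ K ≤ D → ∀ (F : Fin 2 → K[X]), Good d F →
      ∀ T : Finset (AbsoluteValue K ℝ), T.card ≤ s →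
      δ * placeSum (fun v => locRes d v F) ≤
        placeSum (fun v => if v ∈ T then locRes d v F else 0) →
      ∀ P : Fin 2 → K, (∀ m n, m ≠ n → wd ((hmap d F)^[m] P) ((hmap d F)^[n] P) ≠ 0) →
        c₁ * max (placeSum (fun v => locRes d v F)) 0 + c₂ * Module.finrank ℚ K ≤
          canHeight d F P := by
  obtain ⟨N, c, C, hc, hC, hmain⟩ := main.{u} d hd2 s δ hδ
  have hd : (2 : ℝ) ≤ d := by exact_mod_cast hd2
  have hdN : (0 : ℝ) < (d : ℝ) ^ N := by positivity
  set c' := c / (d : ℝ) ^ N with hc'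
  set C' := C / (d : ℝ) ^ N with hC'
  have hc'0 : 0 < c' := by positivity
  have hC'0 : 0 ≤ C' := by positivity
  set B := (2 * C' + 2) / c' with hB
  have hB0 : 0 < B := by positivity
  have hBc : B * c' = 2 * C' + 2 := by rw [hB]; field_simp
  obtain ⟨N1, hN1⟩ := lowerK.{u} d hd2 D B
  have hdN1 : (0 : ℝ) < (d : ℝ) ^ N1 := by positivity
  have hdN1' : (1 : ℝ) ≤ (d : ℝ) ^ N1 := one_le_pow₀ (by linarith)
  set c₂ := 1 / (2 * (d : ℝ) ^ N1) with hc₂
  have hc₂0 : 0 < c₂ := by positivity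
  have hc₂1 : c₂ ≤ 1 := by
    rw [hc₂, div_le_one (by positivity)]; linarith
  refine ⟨min (c' / 2) (c₂ / B), c₂, lt_min (by positivity) (by positivity), hc₂0, ?_⟩
  intro K _ _ hD F hG T hT hδT P hP
  set n : ℝ := (Module.finrank ℚ K : ℝ) with hn
  have htw : (totalWeight K : ℝ) = n := by
    rw [NumberField.totalWeight_eq_finrank]
  have hn0 : 0 < n := by
    rw [← htw]
    exact_mod_cast NumberField.totalWeight_pos K
  have hP0 : P ≠ 0 := ne_zero_of_wd (hP 0 1 (by norm_num))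
  have hne : ∀ k, (hmap d F)^[k] P ≠ 0 := fun k => iter_ne_zero' hG k P hP0
  have hcan0 := canHeight_nonneg hG P hP0
  set S := placeSum (fun v => locRes d v F) with hS
  have hmin0 : 0 < min (c' / 2) (c₂ / B) := lt_min (by positivity) (by positivity)
  rcases le_or_gt (B * n) S with hSB | hSB
  · -- large moduli height
    obtain ⟨i, hi⟩ := hmain K _ _ F hG T hT hδT (fun i => (hmap d F)^[(i : ℕ)] P)
      (fun i j hij => hP i j (fun h => hij (Fin.ext h)))
    rw [canHeight_hmap hG P hP0 hne i, htw, ← hS] at hi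
    have h1 : (d : ℝ) ^ (i : ℕ) * canHeight d F P ≤ (d : ℝ) ^ N * canHeight d F P :=
      mul_le_mul_of_nonneg_right (pow_le_pow_right₀ (by linarith) i.2.le) hcan0
    have h2 : c' * S - C' * n ≤ canHeight d F P := by
      have h3 : (c' * S - C' * n) * (d : ℝ) ^ N = c * S - C * n := by
        rw [hc', hC']; field_simp
      have h4 : (c' * S - C' * n) * (d : ℝ) ^ N ≤ canHeight d F P * (d : ℝ) ^ N := by
        rw [h3]; linarith
      exact le_of_mul_le_mul_right h4 hdN
    have hS0 : 0 ≤ S := (mul_nonneg hB0.le hn0.le).trans hSB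
    rw [max_eq_left hS0]
    have h5 : min (c' / 2) (c₂ / B) * S ≤ c' / 2 * S :=
      mul_le_mul_of_nonneg_right (min_le_left _ _) hS0
    have h6 : c₂ * n ≤ n := by nlinarith
    have h7 : c' / 2 * (B * n) ≤ c' / 2 * S := mul_le_mul_of_nonneg_left hSB (by positivity)
    have h8 : c' / 2 * (B * n) = (C' + 1) * n := by linear_combination (n / 2) * hBc
    linarith
  · have h1 := hN1 K hD F hG hSB.le P hP
    have h2 : n / (d : ℝ) ^ N1 = 2 * (c₂ * n) := by
      rw [hc₂]; field_simp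
    rw [← hn, h2] at h1
    rcases le_or_gt S 0 with hS0 | hS0
    · rw [max_eq_right hS0, mul_zero]
      have h4 : 0 < c₂ * n := by positivity
      linarith
    · rw [max_eq_left hS0.le]
      have h3 : min (c' / 2) (c₂ / B) * S ≤ c₂ / B * S :=
        mul_le_mul_of_nonneg_right (min_le_right _ _) hS0.le
      have h4 : c₂ / B * S ≤ c₂ / B * (B * n) := mul_le_mul_of_nonneg_left hSB.le (by positivity)
      have h5 : c₂ / B * (B * n) = c₂ * n := by field_simp
      linarith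

end Pool.Agent.Lib_helper95.FP
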