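import Pool.Agent.Lib_helper95.FP.Main

/-!
# Coordinates given by three points
-/

set_option autoImplicit false

universe u

namespace Pool.Agent.Lib_helper95.FP

open Polynomial Real

section one

variable {L : Type*} [Field L]

theorem coeff_mul_le {w : AbsoluteValue L ℝ} {t : ℕ} (h : SB w t) (p q : L[X]) (A B : ℝ)
    (hA : ∀ j, w (p.coeff j) ≤ A) (hB : ∀ j, w (q.coeff j) ≤ B) (n : ℕ) (hp : p.natDegree ≤ n)
    (hq : q.natDegree ≤ n) (k : ℕ) :
    w ((p * q).coeff k) ≤ ((2 * n + 1 : ℕ) : ℝ) ^ t * (A * B) := by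
  have hA0 : 0 ≤ A := (w.nonneg _).trans (hA 0)
  have hB0 : 0 ≤ B := (w.nonneg _).trans (hB 0)
  by_cases hk : k ≤ 2 * n
  · rw [Polynomial.coeff_mul]
    have h1 := h.finset (Finset.HasAntidiagonal.antidiagonal k) (fun ij => p.coeff ij.1 * q.coeff ij.2) (A * B)
      (mul_nonneg hA0 hB0) (fun ij _ => by
        rw [map_mul]
        exact mul_le_mul (hA _) (hB _) (w.nonneg _) hA0)
    rw [Finset.Nat.card_antidiagonal] at h1
    refine h1.trans ?_
    apply mul_le_mul_of_nonneg_right _ (mul_nonneg hA0 hB0)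
    exact pow_le_pow_left₀ (Nat.cast_nonneg _) (by exact_mod_cast (by omega : k + 1 ≤ 2 * n + 1)) t
  · rw [coeff_eq_zero_of_natDegree_lt, map_zero]
    · positivity
    · have := Polynomial.natDegree_mul_le (p := p) (q := q)
      omega

theorem coeff_lin_le (w : AbsoluteValue L ℝ) (γ : Matrix (Fin 2) (Fin 2) L) (i : Fin 2) (k : ℕ) :
    w ((lin γ i).coeff k) ≤ nM w γ := by
  match k with
  | 0 => rw [lin_coeff_zero]; exact le_nM w γ _ _
  | 1 => rw [lin_coeff_one]; exact le_nM w γ _ _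
  | k + 2 =>
    rw [coeff_eq_zero_of_natDegree_lt (lt_of_le_of_lt (natDegree_lin1 γ i) (by omega)), map_zero]
    exact nM_nonneg w γ

theorem natDegree_lin_pow (γ : Matrix (Fin 2) (Fin 2) L) (i : Fin 2) (j : ℕ) :
    (lin γ i ^ j).natDegree ≤ j := by
  have := (Polynomial.natDegree_pow_le (p := lin γ i) (n := j)).trans
    (Nat.mul_le_mul le_rfl (natDegree_lin1 γ i))
  rwa [mul_one] at this

theorem coeff_lin_pow_le {w : AbsoluteValue L ℝ} {t : ℕ} (h : SB w t)
    (γ : Matrix (Fin 2) (Fin 2) L) (i : Fin 2) (d j : ℕ) (hd : 1 ≤ d) (hj : j ≤ d) (k : ℕ) :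
    w ((lin γ i ^ j).coeff k) ≤ (((2 * d + 1) ^ j : ℕ) : ℝ) ^ t * nM w γ ^ j := by
  induction j generalizing k with
  | zero =>
    simp only [pow_zero, Nat.cast_one, one_pow, mul_one]
    rw [Polynomial.coeff_one]
    split_ifs
    · rw [map_one]
    · rw [map_zero]; exact zero_le_one
  | succ j ih =>
    rw [pow_succ]
    have h1 := coeff_mul_le h (lin γ i ^ j) (lin γ i) _ _ (ih (by omega)) (coeff_lin_le w γ i) d
      ((natDegree_lin_pow γ i j).trans (by omega)) ((natDegree_lin1 γ i).trans hd) k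
    refine h1.trans (le_of_eq ?_)
    rw [pow_succ (2 * d + 1), Nat.cast_mul, mul_pow, pow_succ (nM w γ)]
    ring

theorem coeff_hcomp_lin_le {w : AbsoluteValue L ℝ} {t : ℕ} (h : SB w t)
    (γ : Matrix (Fin 2) (Fin 2) L) (d : ℕ) (hd : 1 ≤ d) (p : L[X]) (A : ℝ)
    (hA : ∀ j, j ≤ d → w (p.coeff j) ≤ A) (k : ℕ) :
    w ((hcomp d p (lin γ)).coeff k) ≤
      (((d + 1) * (2 * d + 1) ^ (d + 1) : ℕ) : ℝ) ^ t * (A * nM w γ ^ d) := by
  have hA0 : 0 ≤ A := (w.nonneg _).trans (hA 0 (Nat.zero_le _))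
  have hM := nM_nonneg w γ
  unfold hcomp
  rw [Polynomial.finsetSum_coeff]
  have h1 := h.finset (Finset.range (d + 1)) (fun j =>
    (C (p.coeff j) * lin γ 0 ^ j * lin γ 1 ^ (d - j)).coeff k)
    ((((2 * d + 1) ^ (d + 1) : ℕ) : ℝ) ^ t * (A * nM w γ ^ d)) (by positivity) (by
      intro j hj
      have hj' : j ≤ d := Nat.lt_succ_iff.1 (Finset.mem_range.1 hj)
      rw [mul_assoc, coeff_C_mul, map_mul]
      have h2 := coeff_mul_le h (lin γ 0 ^ j) (lin γ 1 ^ (d - j)) _ _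
        (coeff_lin_pow_le h γ 0 d j hd hj') (coeff_lin_pow_le h γ 1 d (d - j) hd (Nat.sub_le _ _))
        d ((natDegree_lin_pow γ 0 j).trans hj') ((natDegree_lin_pow γ 1 _).trans (Nat.sub_le _ _)) k
      calc w (p.coeff j) * w ((lin γ 0 ^ j * lin γ 1 ^ (d - j)).coeff k)
          ≤ A * (((2 * d + 1 : ℕ) : ℝ) ^ t *
            ((((2 * d + 1) ^ j : ℕ) : ℝ) ^ t * nM w γ ^ j *
              ((((2 * d + 1) ^ (d - j) : ℕ) : ℝ) ^ t * nM w γ ^ (d - j)))) :=
            mul_le_mul (hA j hj') h2 (w.nonneg _) hA0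
        _ = (((2 * d + 1) ^ (1 + j + (d - j)) : ℕ) : ℝ) ^ t * (A * nM w γ ^ (j + (d - j))) := by
            rw [pow_add (2 * d + 1), pow_add (2 * d + 1), pow_add (nM w γ), pow_one]
            push_cast
            rw [mul_pow, mul_pow]
            ring
        _ = _ := by
            rw [Nat.add_sub_cancel' hj', show 1 + j + (d - j) = d + 1 by omega])
  rw [Finset.card_range] at h1
  refine h1.trans (le_of_eq ?_)
  push_cast
  rw [mul_pow]
  ring

/-- The constant for a change of coordinates. -/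
def Ccj (d : ℕ) : ℕ := 2 * ((d + 1) * (2 * d + 1) ^ (d + 1))

theorem nF_cj_le {w : AbsoluteValue L ℝ} {t : ℕ} (h : SB w t) (γ : Matrix (Fin 2) (Fin 2) L)
    (d : ℕ) (hd : 1 ≤ d) (F : Fin 2 → L[X]) :
    nF w d (cj d F γ) ≤ (Ccj d : ℝ) ^ t * (nF w d F * nM w γ ^ (d + 1)) := by
  have hM := nM_nonneg w γ
  have hn := nF_nonneg w d F
  apply nF_le
  intro i k _
  unfold cj
  rw [Polynomial.coeff_add, coeff_C_mul, coeff_C_mul]
  have hadj : ∀ i j, w (γ.adjugate i j) ≤ nM w γ := fun i j =>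
    (le_nM w γ.adjugate i j).trans (nM_adjugate w γ)
  have h1 := h.two (γ.adjugate i 0 * (hcomp d (F 0) (lin γ)).coeff k)
    (γ.adjugate i 1 * (hcomp d (F 1) (lin γ)).coeff k)
    (nM w γ * ((((d + 1) * (2 * d + 1) ^ (d + 1) : ℕ) : ℝ) ^ t * (nF w d F * nM w γ ^ d)))
    (by
      rw [map_mul]
      exact mul_le_mul (hadj _ _) (coeff_hcomp_lin_le h γ d hd (F 0) _
        (fun j hj => le_nF w d F 0 j hj) k) (w.nonneg _) hM)
    (by
      rw [map_mul]
      exact mul_le_mul (hadj _ _) (coeff_hcomp_lin_le h γ d hd (F 1) _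
        (fun j hj => le_nF w d F 1 j hj) k) (w.nonneg _) hM)
  refine h1.trans (le_of_eq ?_)
  unfold Ccj
  push_cast
  rw [mul_pow (2 : ℝ)]
  ring

theorem RR_cj_le {w : AbsoluteValue L ℝ} {t : ℕ} (h : SB w t) {d : ℕ} {F : Fin 2 → L[X]}
    (hG : Good d F) {γ : Matrix (Fin 2) (Fin 2) L} (hγ : γ.det ≠ 0) :
    RR w d (cj d F γ) ≤ RR w d F + d * (d + 1) * (2 * log (nM w γ) - log (w γ.det)) +
      t * (2 * d * log (Ccj d)) := by
  have hd2 := hG.two_le
  have h1 := nF_cj_le h γ d (by omega) F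
  have hC : (0 : ℝ) < Ccj d := by
    exact_mod_cast (by unfold Ccj; positivity : 0 < Ccj d)
  have h2 := Real.log_le_log (nF_pos (w := w) (hG.cj hγ)) h1
  rw [Real.log_mul (by positivity) (mul_ne_zero (nF_pos hG).ne' (pow_ne_zero _ (nM_pos hγ).ne')),
    Real.log_mul (nF_pos hG).ne' (pow_ne_zero _ (nM_pos hγ).ne'), Real.log_pow, Real.log_pow] at h2
  unfold RR
  rw [log_res_cj w hG hγ]
  have h3 := mul_le_mul_of_nonneg_left h2 (by positivity : (0 : ℝ) ≤ 2 * d)
  push_cast at h3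
  linarith

/-! ### matrices given by their columns -/

/-- The matrix with columns `u`, `v`. -/
def cm (u v : Fin 2 → L) : Matrix (Fin 2) (Fin 2) L := !![u 0, v 0; u 1, v 1]

theorem det_cm (u v : Fin 2 → L) : (cm u v).det = wd u v := by
  unfold cm wd
  rw [Matrix.det_fin_two_of]
  ring

theorem nM_cm (w : AbsoluteValue L ℝ) (u v : Fin 2 → L) :
    nM w (cm u v) ≤ max (nv w u) (nv w v) := by
  apply nM_le
  rw [Fin.forall_fin_two]
  constructor
  · rw [Fin.forall_fin_two]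
    exact ⟨(le_nv w u 0).trans (le_max_left _ _), (le_nv w v 0).trans (le_max_right _ _)⟩
  · rw [Fin.forall_fin_two]
    exact ⟨(le_nv w u 1).trans (le_max_left _ _), (le_nv w v 1).trans (le_max_right _ _)⟩

theorem mul_cm (A : Matrix (Fin 2) (Fin 2) L) (u v : Fin 2 → L) :
    A * cm u v = cm (A.mulVec u) (A.mulVec v) := by
  ext i j
  fin_cases i <;> fin_cases j <;>
    simp [cm, Matrix.mul_apply, Matrix.mulVec, dotProduct, Fin.sum_univ_two]

end one

section ext

variable {K L : Type*} [Field K] [Field L]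

theorem map_cm (φ : K →+* L) (u v : Fin 2 → K) :
    (cm u v).map φ = cm (fun i => φ (u i)) (fun i => φ (v i)) := by
  ext i j
  fin_cases i <;> fin_cases j <;> simp [cm]

theorem lin_map (φ : K →+* L) (γ : Matrix (Fin 2) (Fin 2) K) (i : Fin 2) :
    (lin γ i).map φ = lin (γ.map φ) i := by
  simp [lin]

theorem mp_cj (φ : K →+* L) (d : ℕ) (F : Fin 2 → K[X]) (γ : Matrix (Fin 2) (Fin 2) K) :
    mp φ (cj d F γ) = cj d (mp φ F) (γ.map φ) := by
  have h1 : ∀ j, (hcomp d (F j) (lin γ)).map φ = hcomp d (mp φ F j) (lin (γ.map φ)) := by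
    intro j
    rw [hcomp_map]
    congr 1
    funext i
    exact lin_map φ γ i
  have h2 : (γ.map φ).adjugate = γ.adjugate.map φ := by
    rw [Matrix.adjugate_fin_two, Matrix.adjugate_fin_two]
    ext i j
    fin_cases i <;> fin_cases j <;> simp
  funext i
  unfold mp cj
  rw [Polynomial.map_add, Polynomial.map_mul, Polynomial.map_mul, Polynomial.map_C,
    Polynomial.map_C, h1, h1, h2]
  rfl

end ext

section three

variable {K : Type u} [Field K]

theorem abs_sub_le_aux (u v τ : ℝ) (hu : -τ ≤ u) (hv : -τ ≤ v) : |u - v| ≤ u + v + 2 * τ := by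
  rw [abs_le]
  constructor <;> linarith

/-- The resultant ratio in the coordinates in which `x₀, x₁, x₂` are `∞, 0, 1`. -/
theorem RR_three {v : AbsoluteValue K ℝ} {t : ℕ} (h : AV v t) {d : ℕ} {F : Fin 2 → K[X]}
    (hG : Good d F) (x₀ x₁ x₂ : Fin 2 → K) (h01 : wd x₀ x₁ ≠ 0) (h02 : wd x₀ x₂ ≠ 0)
    (h12 : wd x₁ x₂ ≠ 0) :
    RR v d (cj d F (cm (fun i => wd x₁ x₂ * x₀ i) (fun i => wd x₀ x₂ * x₁ i))) ≤
      (1 + 6 * (d * (d + 1))) * max (locRes d v F) 0 +
      d * (d + 1) * (gg v d F x₀ x₁ + gg v d F x₀ x₂ + gg v d F x₁ x₂) +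
      t * (d * (d + 1) * (9 * log ((2 * d).factorial) + 2 * log 2) + 2 * d * log (Ccj d)) := by
  have hd2 := hG.two_le
  have hd : (2 : ℝ) ≤ d := by exact_mod_cast hd2
  have hd1 : (1 : ℝ) ≤ d - 1 := by linarith
  have hd0 : (0 : ℝ) < d := by linarith
  have hDD : (0 : ℝ) < d * (d + 1) := by positivity
  set γ := cm (fun i => wd x₁ x₂ * x₀ i) (fun i => wd x₀ x₂ * x₁ i) with hγdef
  have hdetγ : γ.det ≠ 0 := by
    rw [hγdef, det_cm, wd_smul]
    exact mul_ne_zero (mul_ne_zero h12 h02) h01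
  apply le_of_forall_pos_sub_le
  intro η hη
  have hc0 : (0 : ℝ) < 1 + 6 * (d * (d + 1)) := by positivity
  set η' := η / (1 + 6 * (d * (d + 1))) with hη'
  have hη'0 : 0 < η' := by positivity
  have hηe : (1 + 6 * (d * (d + 1))) * η' = η := by
    rw [hη']; field_simp
  obtain ⟨L, _, w, φ, γ₀, hφ, hγ₀, hR⟩ := exists_almost (v := v) d F (locRes d v F + η')
    (by linarith)
  have hS := h.sb hφ
  have hG' := (hG.mp φ).cj hγ₀
  set X₀ := tr φ γ₀ x₀ with hX₀
  set X₁ := tr φ γ₀ x₁ with hX₁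
  set X₂ := tr φ γ₀ x₂ with hX₂
  have W01 : wd X₀ X₁ ≠ 0 := wd_tr φ hγ₀ _ _ h01
  have W02 : wd X₀ X₂ ≠ 0 := wd_tr φ hγ₀ _ _ h02
  have W12 : wd X₁ X₂ ≠ 0 := wd_tr φ hγ₀ _ _ h12
  have hN0 := nv_pos w X₀ (ne_zero_of_wd W01)
  have hN1 := nv_pos w X₁ (ne_zero_of_wd W12)
  have hN2 := nv_pos w X₂ (ne_zero_of_wd' W12)
  -- the matrix in the almost minimal coordinates
  set γ' := cm (fun i => φ (wd x₁ x₂) * X₀ i) (fun i => φ (wd x₀ x₂) * X₁ i) with hγ'
  have hprod : γ₀ * γ' = γ₀.det • γ.map φ := by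
    rw [hγ', mul_cm, hγdef, map_cm]
    have e : ∀ (a : L) (x : Fin 2 → K), γ₀.mulVec (fun i => a * tr φ γ₀ x i) =
        fun i => γ₀.det * (a * φ (x i)) := by
      intro a x
      have h1 : (fun i => a * tr φ γ₀ x i) = a • tr φ γ₀ x := rfl
      rw [h1, Matrix.mulVec_smul]
      unfold tr
      rw [mulVec_adj]
      funext i
      simp only [Pi.smul_apply, smul_eq_mul]
      ring
    rw [e, e]
    ext i j
    fin_cases i <;> fin_cases j <;> simp [cm]
  have hdetγ' : γ'.det ≠ 0 := by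
    rw [hγ', det_cm, wd_smul]
    exact mul_ne_zero (mul_ne_zero ((map_ne_zero φ).2 h12) ((map_ne_zero φ).2 h02)) W01
  -- scaling the matrix
  have hRR : RR v d (cj d F γ) = RR w d (cj d (cj d (mp φ F) γ₀) γ') := by
    rw [cj_cj, hprod, ← RR_mp hφ, mp_cj]
    have hscale : ∀ (c : L) (A : Matrix (Fin 2) (Fin 2) L),
        cj d (mp φ F) (c • A) = sc (c ^ (d + 1)) (cj d (mp φ F) A) := by
      intro c A
      have hl : ∀ i, lin (c • A) i = C c * lin A i := by
        intro i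
        simp only [lin, Matrix.smul_apply, smul_eq_mul, C_mul]
        ring
      have hh : ∀ p : L[X], hcomp d p (lin (c • A)) = C (c ^ d) * hcomp d p (lin A) := by
        intro p
        unfold hcomp
        rw [Finset.mul_sum]
        apply Finset.sum_congr rfl
        intro j hj
        have hj' : j ≤ d := Nat.lt_succ_iff.1 (Finset.mem_range.1 hj)
        rw [hl, hl, mul_pow, mul_pow, ← C_pow, ← C_pow]
        have e : (C (c ^ d) : L[X]) = C (c ^ j) * C (c ^ (d - j)) := by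
          rw [← C_mul, ← pow_add]; congr 2; omega
        rw [e]
        ring
      funext i
      unfold sc cj
      rw [hh, hh, Matrix.adjugate_fin_two, Matrix.adjugate_fin_two]
      have e2 : (C (c ^ (d + 1)) : L[X]) = C c * C (c ^ d) := by rw [← C_mul]; congr 1; ring
      rw [e2]
      fin_cases i
      · simp; ring
      · simp; ring
    rw [hscale, RR_sc]
    · refine (hG.mp φ).cj ?_
      have : (γ.map φ).det = φ γ.det := (RingHom.map_det φ γ).symm
      rw [this]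
      exact (map_ne_zero φ).2 hdetγ
    · exact pow_ne_zero _ hγ₀
  rw [hRR]
  have hcj := RR_cj_le hS hG' hdetγ'
  -- the distances
  set R := RR w d (cj d (mp φ F) γ₀) with hRdef
  have hRge := RR_ge hS hG'
  rw [← hRdef] at hRge
  have hm := le_max_left (locRes d v F) 0
  have hm0 := le_max_right (locRes d v F) 0
  have hl : 0 ≤ log ((2 * d).factorial : ℝ) :=
    Real.log_nonneg (by exact_mod_cast Nat.one_le_iff_ne_zero.2 (Nat.factorial_ne_zero _))
  have htl : 0 ≤ t * log ((2 * d).factorial : ℝ) := mul_nonneg (Nat.cast_nonneg t) hl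
  have hτ : 0 ≤ t * log (2 : ℝ) := mul_nonneg (Nat.cast_nonneg t) (Real.log_nonneg (by norm_num))
  have hρ1 : ∀ X Y : Fin 2 → L, wd X Y ≠ 0 →
      -(t * log 2) ≤ -(log (w (wd X Y)) - log (nv w X) - log (nv w Y)) := by
    intro X Y hXY
    have h2 := Real.log_le_log (w.pos hXY) (wd_le hS X Y)
    rw [Real.log_mul (by positivity) (mul_ne_zero (nv_pos w X (ne_zero_of_wd hXY)).ne'
      (nv_pos w Y (ne_zero_of_wd' hXY)).ne'),
      Real.log_mul (nv_pos w X (ne_zero_of_wd hXY)).ne' (nv_pos w Y (ne_zero_of_wd' hXY)).ne',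
      Real.log_pow] at h2
    linarith
  have hρ2 : ∀ x y : Fin 2 → K, wd x y ≠ 0 →
      -(log (w (wd (tr φ γ₀ x) (tr φ γ₀ y))) - log (nv w (tr φ γ₀ x)) -
        log (nv w (tr φ γ₀ y))) ≤
      gg v d F x y + 2 * (max (locRes d v F) 0 + η') + 3 * (t * log ((2 * d).factorial)) := by
    intro x y hxy
    have hw := wd_tr φ hγ₀ x y hxy
    rw [← gg_tr hG hφ hγ₀ x y hxy, gg_eq hG', ← hRdef]
    have h2 := ht_le hS hG' _ (ne_zero_of_wd hw)
    have h3 := ht_le hS hG' _ (ne_zero_of_wd' hw)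
    rw [← hRdef] at h2 h3
    have h4 : (R + t * log ((2 * d).factorial)) / (d - 1) ≤
        (max (locRes d v F) 0 + η') + t * log ((2 * d).factorial) :=
      (div_le_self (by linarith) hd1).trans (by linarith)
    have h5 : -(t * log ((2 * d).factorial)) ≤ R / (d * (d - 1)) := by
      rw [le_div_iff₀ (by positivity)]
      have h6 : (1 : ℝ) ≤ d * (d - 1) := by nlinarith
      have h7 : t * log ((2 * d).factorial) * 1 ≤ t * log ((2 * d).factorial) * (d * (d - 1)) :=
        mul_le_mul_of_nonneg_left h6 htl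
      linarith
    linarith
  have hdist : 2 * log (nM w γ') - log (w γ'.det) ≤
      gg v d F x₀ x₁ + gg v d F x₀ x₂ + gg v d F x₁ x₂ + 6 * (max (locRes d v F) 0 + η') +
        9 * (t * log ((2 * d).factorial)) + 2 * (t * log 2) := by
    have hwW : ∀ x y : Fin 2 → K, log (w (wd (tr φ γ₀ x) (tr φ γ₀ y))) =
        log (w (γ₀.adjugate.det * φ (wd x y))) := by
      intro x y
      unfold tr
      rw [wd_mulVec, wd_mp]
    have hadj0 : γ₀.adjugate.det ≠ 0 := by
      rw [Matrix.det_adjugate]; simpa using hγ₀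
    have e01 := hwW x₀ x₁
    have e02 := hwW x₀ x₂
    have e12 := hwW x₁ x₂
    rw [← hX₀, ← hX₁, map_mul, Real.log_mul (w.pos hadj0).ne'
      (w.pos ((map_ne_zero φ).2 h01)).ne'] at e01
    rw [← hX₀, ← hX₂, map_mul, Real.log_mul (w.pos hadj0).ne'
      (w.pos ((map_ne_zero φ).2 h02)).ne'] at e02
    rw [← hX₁, ← hX₂, map_mul, Real.log_mul (w.pos hadj0).ne'
      (w.pos ((map_ne_zero φ).2 h12)).ne'] at e12
    have k01 := hρ2 x₀ x₁ h01
    have k02 := hρ2 x₀ x₂ h02
    have k12 := hρ2 x₁ x₂ h12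
    rw [← hX₀, ← hX₁] at k01
    rw [← hX₀, ← hX₂] at k02
    rw [← hX₁, ← hX₂] at k12
    have m02 := hρ1 X₀ X₂ W02
    have m12 := hρ1 X₁ X₂ W12
    have hnM : log (nM w γ') ≤ max (log (w (φ (wd x₁ x₂))) + log (nv w X₀))
        (log (w (φ (wd x₀ x₂))) + log (nv w X₁)) := by
      have h1 := Real.log_le_log (nM_pos hdetγ') (nM_cm w _ _)
      refine h1.trans ?_
      rw [nv_smul, nv_smul]
      rcases le_total (w (φ (wd x₁ x₂)) * nv w X₀) (w (φ (wd x₀ x₂)) * nv w X₁) with h2 | h2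
      · rw [max_eq_right h2, Real.log_mul (w.pos ((map_ne_zero φ).2 h02)).ne' hN1.ne']
        exact le_max_right _ _
      · rw [max_eq_left h2, Real.log_mul (w.pos ((map_ne_zero φ).2 h12)).ne' hN0.ne']
        exact le_max_left _ _
    have hdet : log (w γ'.det) = log (w (φ (wd x₁ x₂))) + log (w (φ (wd x₀ x₂))) +
        log (w (wd X₀ X₁)) := by
      rw [hγ', det_cm, wd_smul, map_mul, map_mul, Real.log_mul (mul_ne_zero
        (w.pos ((map_ne_zero φ).2 h12)).ne' (w.pos ((map_ne_zero φ).2 h02)).ne')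
        (w.pos W01).ne', Real.log_mul (w.pos ((map_ne_zero φ).2 h12)).ne'
        (w.pos ((map_ne_zero φ).2 h02)).ne']
    rw [hdet]
    rcases le_total (log (w (φ (wd x₁ x₂))) + log (nv w X₀))
        (log (w (φ (wd x₀ x₂))) + log (nv w X₁)) with h2 | h2
    · rw [max_eq_right h2] at hnM
      linarith
    · rw [max_eq_left h2] at hnM
      linarith
  have h7 := mul_le_mul_of_nonneg_left hdist hDD.le
  have h8 : R ≤ max (locRes d v F) 0 + η' := by linarith
  rw [← hηe]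
  linarith

end three

end Pool.Agent.Lib_helper95.FP
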