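import Pool.Agent.Lib_helper95.FP.Arch

/-!
# The global inequality with one distinguished place
-/

set_option autoImplicit false

universe u

namespace Pool.Agent.Lib_helper95.FP

open Polynomial Real Height AdmissibleAbsValues

section

variable {K : Type u} [Field K] [AdmissibleAbsValues K]

open Classical in
theorem gs_single (B : Finset (nonarchAbsVal (K := K))) (v₀ : AbsoluteValue K ℝ)
    (f : AbsoluteValue K ℝ → ℝ) :
    gs B (fun v => if v = v₀ then f v else 0) = gs B (fun v => if v = v₀ then 1 else 0) * f v₀ := by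
  have e : (fun v => if v = v₀ then f v else 0) = fun v => f v₀ * (if v = v₀ then 1 else 0) := by
    funext v
    split_ifs with h
    · rw [h, mul_one]
    · rw [mul_zero]
  rw [e, gs_mul, mul_comm]

open Classical in
/-- The multiplicity of the absolute value `v₀` in the product formula. -/
noncomputable def mu (v₀ : AbsoluteValue K ℝ) : ℝ :=
  placeSum (fun v => if v = v₀ then (1 : ℝ) else 0)

open Classical in
/-- A finite set of places that contains `v₀`. -/
theorem exists_insert (B : Finset (nonarchAbsVal (K := K))) (v₀ : AbsoluteValue K ℝ) :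
    ∃ B' : Finset (nonarchAbsVal (K := K)), B ⊆ B' ∧
      ∀ v : nonarchAbsVal (K := K), v ∉ B' → v.val ≠ v₀ := by
  by_cases h : v₀ ∈ nonarchAbsVal (K := K)
  · refine ⟨insert ⟨v₀, h⟩ B, Finset.subset_insert _ _, ?_⟩
    rintro v hv rfl
    exact hv (Finset.mem_insert_self _ _)
  · exact ⟨B, Finset.Subset.refl _, fun v _ hv => h (hv ▸ v.2)⟩

open Classical in
theorem placeSum_single (v₀ : AbsoluteValue K ℝ) (f : AbsoluteValue K ℝ → ℝ) :
    placeSum (fun v => if v = v₀ then f v else 0) = mu v₀ * f v₀ := by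
  obtain ⟨B, _, hB⟩ := exists_insert (∅ : Finset (nonarchAbsVal (K := K))) v₀
  unfold mu
  rw [placeSum_eq B _ (fun v hv => if_neg (hB v hv)),
    placeSum_eq B _ (fun v hv => if_neg (hB v hv)), gs_single]

theorem mu_nonneg (v₀ : AbsoluteValue K ℝ) : 0 ≤ mu v₀ := by
  classical
  obtain ⟨B, _, hB⟩ := exists_insert (∅ : Finset (nonarchAbsVal (K := K))) v₀
  unfold mu
  rw [placeSum_eq B _ (fun v hv => if_neg (hB v hv))]
  apply gs_tt_nonneg
  intro v
  split_ifs
  · exact zero_le_one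
  · exact le_rfl

/-- The global inequality for `2 D` points whose pairs are good at the place `v₀`. -/
theorem main_one {d : ℕ} {F : Fin 2 → K[X]} (hG : Good d F) (k : ℕ)
    (v₀ : AbsoluteValue K ℝ) (θ : ℝ) (x y : Fin (d ^ k) → Fin 2 → K)
    (hx0 : ∀ i, x i ≠ 0) (hy0 : ∀ i, y i ≠ 0)
    (hx : ∀ i j, i ≠ j → wd (x i) (x j) ≠ 0) (hy : ∀ i j, i ≠ j → wd (y i) (y j) ≠ 0)
    (hxy : ∀ i j, wd (y j) (x i) ≠ 0)
    (hgx : ∀ i j, i ≠ j → θ ≤ gg v₀ d F (x i) (x j))
    (hgy : ∀ i j, i ≠ j → θ ≤ gg v₀ d F (y i) (y j)) :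
    2 * (d : ℝ) ^ k * ((d : ℝ) ^ k - 1) * (mu v₀ * θ) -
        4 * (d : ℝ) ^ k * (k + 1) * placeSum (fun v => max (locRes d v F) 0) -
        totalWeight K * CF d k ≤
      2 * ((d : ℝ) ^ k - 1) * (∑ i, canHeight d F (x i) + ∑ i, canHeight d F (y i)) := by
  classical
  have hd2 := hG.two_le
  have hd : (2 : ℝ) ≤ d := by exact_mod_cast hd2
  have hn : 1 ≤ d ^ k := Nat.one_le_pow _ _ (by omega)
  have hnr : (1 : ℝ) ≤ (d : ℝ) ^ k := by exact_mod_cast hn
  have hl : 0 ≤ log ((2 * d).factorial : ℝ) :=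
    Real.log_nonneg (by exact_mod_cast Nat.one_le_iff_ne_zero.2 (Nat.factorial_ne_zero _))
  have hCF : 0 ≤ CF d k := by
    have h1 : 0 ≤ log ((d ^ k).factorial : ℝ) :=
      Real.log_nonneg (by exact_mod_cast Nat.one_le_iff_ne_zero.2 (Nat.factorial_ne_zero _))
    have h2 : 0 ≤ log (((d + 1) * (d + 1) * d : ℕ) : ℝ) :=
      Real.log_nonneg (by exact_mod_cast Nat.one_le_iff_ne_zero.2 (by positivity))
    have h3 : 0 ≤ log ((d : ℝ) + 1) := Real.log_nonneg (by linarith)
    unfold CF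
    positivity
  -- the finite set of places
  obtain ⟨B0, hB0⟩ := exists_B hG (Sum.elim x y) (by rintro (i | i); exacts [hx0 i, hy0 i])
    (Sum.elim (fun ij : {ij : Fin (d ^ k) × Fin (d ^ k) // ij.1 ≠ ij.2} =>
        wd (x ij.1.1) (x ij.1.2))
      (fun ij : {ij : Fin (d ^ k) × Fin (d ^ k) // ij.1 ≠ ij.2} => wd (y ij.1.1) (y ij.1.2)))
    (by rintro (ij | ij); exacts [hx _ _ ij.2, hy _ _ ij.2])
  obtain ⟨B, hBB, hBv⟩ := exists_insert B0 v₀
  have hB := fun (v : nonarchAbsVal (K := K)) (hv : v ∉ B) => hB0 v (fun h => hv (hBB h))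
  have hgsx : ∀ i j, i ≠ j → gs B (fun v => gg v d F (x i) (x j)) =
      canHeight d F (x i) + canHeight d F (x j) := fun i j hij =>
    gs_gg hG _ _ (hx i j hij) B fun v hv => ⟨(hB v hv).1, (hB v hv).2.1 (Sum.inl i),
      (hB v hv).2.1 (Sum.inl j), (hB v hv).2.2 (Sum.inl ⟨(i, j), hij⟩)⟩
  have hgsy : ∀ i j, i ≠ j → gs B (fun v => gg v d F (y i) (y j)) =
      canHeight d F (y i) + canHeight d F (y j) := fun i j hij =>
    gs_gg hG _ _ (hy i j hij) B fun v hv => ⟨(hB v hv).1, (hB v hv).2.1 (Sum.inr i),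
      (hB v hv).2.1 (Sum.inr j), (hB v hv).2.2 (Sum.inr ⟨(i, j), hij⟩)⟩
  have hloc0 : ∀ v : nonarchAbsVal (K := K), v ∉ B → max (locRes d v.val F) 0 = 0 := fun v hv => by
    rw [locRes_good hG v (hB v hv).1, max_self]
  rw [placeSum_eq B (fun v => max (locRes d v F) 0) hloc0]
  have hmu : mu v₀ * θ = gs B (fun v => if v = v₀ then θ else 0) := by
    rw [← placeSum_single v₀ (fun _ => θ), placeSum_eq B _ (fun v hv => if_neg (hBv v hv))]
  rw [hmu]
  set D : ℝ := (d : ℝ) ^ k with hD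
  have hloc : ∀ v : AbsoluteValue K ℝ,
      ((2 * D * (D - 1)) * (if v = v₀ then θ else 0) -
        (4 * D * (k + 1)) * max (locRes d v F) 0) - tt v * CF d k ≤
      ∑ i, ∑ j ∈ Finset.univ.erase i, gg v d F (x i) (x j) +
        ∑ i, ∑ j ∈ Finset.univ.erase i, gg v d F (y i) (y j) := by
    intro v
    have hm := le_max_right (locRes d v F) 0
    have htt : (0 : ℝ) ≤ tt v := Nat.cast_nonneg _
    have hD1 : 0 ≤ D - 1 := by linarith
    have hD0 : 0 ≤ D := by linarith
    by_cases hv : v = v₀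
    · rw [if_pos hv]
      have h1 : ∀ z : Fin (d ^ k) → Fin 2 → K, (∀ i j, i ≠ j → θ ≤ gg v₀ d F (z i) (z j)) →
          D * (D - 1) * θ ≤ ∑ i, ∑ j ∈ Finset.univ.erase i, gg v₀ d F (z i) (z j) := by
        intro z hz
        have h2 := sum_erase_const hn θ
        push_cast at h2
        rw [← hD] at h2
        rw [← h2]
        apply Finset.sum_le_sum
        intro i _
        apply Finset.sum_le_sum
        intro j hj
        exact hz i j (Finset.ne_of_mem_erase hj).symm
      have h2 := h1 x hgx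
      have h3 := h1 y hgy
      rw [← hv] at h2 h3
      have h4 : 0 ≤ (4 * D * (k + 1)) * max (locRes d v F) 0 := by positivity
      have h5 : 0 ≤ tt v * CF d k := mul_nonneg htt hCF
      linarith
    · rw [if_neg hv]
      have h1 := fekK (AV_tt v) hG k x y hx0 hy0 hx hy hxy
      rw [← hD] at h1
      linarith
  have hglob := gs_le B _ _ (fun v _ => hloc v) (fun v _ => hloc v.val)
  rw [gs_sub, gs_sub, gs_mul, gs_mul, gs_add, gs_sum, gs_sum] at hglob
  have e1 : ∑ i, gs B (fun v => ∑ j ∈ Finset.univ.erase i, gg v d F (x i) (x j)) =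
      2 * (D - 1) * ∑ i, canHeight d F (x i) := by
    have h1 := sum_erase_add hn (fun i => canHeight d F (x i))
    push_cast at h1
    rw [← hD] at h1
    rw [← h1]
    apply Finset.sum_congr rfl
    intro i _
    rw [gs_sum]
    apply Finset.sum_congr rfl
    intro j hj
    exact hgsx i j (Finset.ne_of_mem_erase hj).symm
  have e2 : ∑ i, gs B (fun v => ∑ j ∈ Finset.univ.erase i, gg v d F (y i) (y j)) =
      2 * (D - 1) * ∑ i, canHeight d F (y i) := by
    have h1 := sum_erase_add hn (fun i => canHeight d F (y i))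
    push_cast at h1
    rw [← hD] at h1
    rw [← h1]
    apply Finset.sum_congr rfl
    intro i _
    rw [gs_sum]
    apply Finset.sum_congr rfl
    intro j hj
    exact hgsy i j (Finset.ne_of_mem_erase hj).symm
  rw [e1, e2] at hglob
  have h3 := gs_tt_le B (CF d k) hCF
  linarith

/-- The constant of the next lemma. -/
noncomputable def CG (d : ℕ) : ℝ := 2 * log d +
  2 * (log ((d + 1) * (d + 1) * d : ℕ) + 2 * log ((2 * d).factorial)) +
  4 * (log (d + 1) + log ((2 * d).factorial))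

theorem CG_nonneg {d : ℕ} (hd2 : 2 ≤ d) : 0 ≤ CG d := by
  have hd : (2 : ℝ) ≤ d := by exact_mod_cast hd2
  have h1 : 0 ≤ log ((2 * d).factorial : ℝ) :=
    Real.log_nonneg (by exact_mod_cast Nat.one_le_iff_ne_zero.2 (Nat.factorial_ne_zero _))
  have h2 : 0 ≤ log (((d + 1) * (d + 1) * d : ℕ) : ℝ) :=
    Real.log_nonneg (by exact_mod_cast Nat.one_le_iff_ne_zero.2 (by positivity))
  have h3 : 0 ≤ log ((d : ℝ) + 1) := Real.log_nonneg (by linarith)
  have h4 : 0 ≤ log (d : ℝ) := Real.log_nonneg (by linarith)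
  unfold CG
  positivity

theorem CF_le {d : ℕ} (hd2 : 2 ≤ d) (k : ℕ) : CF d k ≤ (d : ℝ) ^ k * (k + 1) * CG d := by
  have hd : (2 : ℝ) ≤ d := by exact_mod_cast hd2
  have h1 : 0 ≤ log ((2 * d).factorial : ℝ) :=
    Real.log_nonneg (by exact_mod_cast Nat.one_le_iff_ne_zero.2 (Nat.factorial_ne_zero _))
  have h2 : 0 ≤ log (((d + 1) * (d + 1) * d : ℕ) : ℝ) :=
    Real.log_nonneg (by exact_mod_cast Nat.one_le_iff_ne_zero.2 (by positivity))
  have h3 : 0 ≤ log ((d : ℝ) + 1) := Real.log_nonneg (by linarith)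
  have h4 : 0 ≤ log (d : ℝ) := Real.log_nonneg (by linarith)
  have h5 : log ((d ^ k).factorial : ℝ) ≤ (d : ℝ) ^ k * (k * log d) := by
    have h6 : ((d ^ k).factorial : ℝ) ≤ ((d : ℝ) ^ k) ^ (d ^ k) := by
      exact_mod_cast Nat.factorial_le_pow (d ^ k)
    have h7 := Real.log_le_log (by exact_mod_cast Nat.factorial_pos _) h6
    rw [Real.log_pow, Real.log_pow] at h7
    push_cast at h7
    exact h7
  have hk : (0 : ℝ) ≤ k := Nat.cast_nonneg k
  have hD : (0 : ℝ) ≤ (d : ℝ) ^ k := by positivity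
  unfold CF CG
  have e1 : (d : ℝ) ^ k * (k * log d) ≤ (d : ℝ) ^ k * (k + 1) * log d := by
    have : (d : ℝ) ^ k * (k * log d) = (d : ℝ) ^ k * k * log d := by ring
    rw [this]
    apply mul_le_mul_of_nonneg_right _ h4
    apply mul_le_mul_of_nonneg_left _ hD
    linarith
  have e2 : 2 * (d : ℝ) ^ k * (k * (log ((d + 1) * (d + 1) * d : ℕ) +
      2 * log ((2 * d).factorial))) ≤ (d : ℝ) ^ k * (k + 1) * (2 *
      (log ((d + 1) * (d + 1) * d : ℕ) + 2 * log ((2 * d).factorial))) := by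
    have : 2 * (d : ℝ) ^ k * (k * (log ((d + 1) * (d + 1) * d : ℕ) +
      2 * log ((2 * d).factorial))) = (d : ℝ) ^ k * k * (2 *
      (log ((d + 1) * (d + 1) * d : ℕ) + 2 * log ((2 * d).factorial))) := by ring
    rw [this]
    apply mul_le_mul_of_nonneg_right _ (by positivity)
    apply mul_le_mul_of_nonneg_left _ hD
    linarith
  have e3 : 4 * (d : ℝ) ^ k * (log (d + 1) + log ((2 * d).factorial)) ≤
      (d : ℝ) ^ k * (k + 1) * (4 * (log (d + 1) + log ((2 * d).factorial))) := by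
    have : 4 * (d : ℝ) ^ k * (log (d + 1) + log ((2 * d).factorial)) =
      (d : ℝ) ^ k * 1 * (4 * (log (d + 1) + log ((2 * d).factorial))) := by ring
    rw [this]
    apply mul_le_mul_of_nonneg_right _ (by positivity)
    apply mul_le_mul_of_nonneg_left _ hD
    linarith
  linarith

/-- One of the points of a large class has a large canonical height. -/
theorem avg_one {d : ℕ} {F : Fin 2 → K[X]} (hG : Good d F) (k : ℕ) (hk : 1 ≤ k)
    (v₀ : AbsoluteValue K ℝ) (θ : ℝ) {N : ℕ} (x : Fin N → Fin 2 → K)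
    (hx : ∀ i j, i ≠ j → wd (x i) (x j) ≠ 0) (S : Finset (Fin N)) (hS : 2 * d ^ k ≤ S.card)
    (hg : ∀ i ∈ S, ∀ j ∈ S, i ≠ j → θ ≤ gg v₀ d F (x i) (x j)) :
    ∃ i ∈ S, mu v₀ * θ / 2 - 2 * (k + 1) / (d : ℝ) ^ k *
      (placeSum (fun v => max (locRes d v F) 0) + totalWeight K * CG d / 4) ≤
        canHeight d F (x i) := by
  have hd2 := hG.two_le
  have hd : (2 : ℝ) ≤ d := by exact_mod_cast hd2
  have hD2 : (2 : ℝ) ≤ (d : ℝ) ^ k := by
    calc (2 : ℝ) ≤ d := hd
      _ = (d : ℝ) ^ 1 := (pow_one _).symm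
      _ ≤ (d : ℝ) ^ k := pow_le_pow_right₀ (by linarith) hk
  have hDn : 2 ≤ d ^ k := by
    calc 2 ≤ d := hd2
      _ = d ^ 1 := (pow_one _).symm
      _ ≤ d ^ k := Nat.pow_le_pow_right (by omega) hk
  obtain ⟨S', hS'S, hS'c⟩ := Finset.exists_subset_card_eq hS
  by_contra hcon
  push Not at hcon
  set e : Fin (2 * d ^ k) → Fin N := fun i => S'.orderEmbOfFin hS'c i with he
  have heS : ∀ i, e i ∈ S := fun i => hS'S (S'.orderEmbOfFin_mem hS'c i)
  have heinj : ∀ i j, i ≠ j → e i ≠ e j := fun i j hij h =>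
    hij ((S'.orderEmbOfFin hS'c).injective h)
  set a : Fin (d ^ k) → Fin (2 * d ^ k) := fun i => ⟨i, by have := i.2; omega⟩ with ha
  set b : Fin (d ^ k) → Fin (2 * d ^ k) := fun i => ⟨d ^ k + i, by have := i.2; omega⟩ with hb
  have hainj : ∀ i j, i ≠ j → a i ≠ a j := fun i j hij h => hij (Fin.ext (by
    have := congrArg Fin.val h
    simpa [ha] using this))
  have hbinj : ∀ i j, i ≠ j → b i ≠ b j := fun i j hij h => hij (Fin.ext (by
    have := congrArg Fin.val h
    simpa [hb] using this))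
  have hab : ∀ i j, b j ≠ a i := fun i j h => by
    have h1 := congrArg Fin.val h
    simp only [ha, hb] at h1
    have := i.2
    omega
  have hne : ∀ i, x (e i) ≠ 0 := by
    intro i
    have : Nontrivial (Fin (2 * d ^ k)) := Fin.nontrivial_iff_two_le.2 (by omega)
    obtain ⟨j, hj⟩ := exists_ne i
    exact ne_zero_of_wd (hx _ _ (heinj i j hj.symm))
  have h1 := main_one hG k v₀ θ (fun i => x (e (a i))) (fun i => x (e (b i)))
    (fun i => hne _) (fun i => hne _)
    (fun i j hij => hx _ _ (heinj _ _ (hainj i j hij)))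
    (fun i j hij => hx _ _ (heinj _ _ (hbinj i j hij)))
    (fun i j => hx _ _ (heinj _ _ (hab i j)))
    (fun i j hij => hg _ (heS _) _ (heS _) (heinj _ _ (hainj i j hij)))
    (fun i j hij => hg _ (heS _) _ (heS _) (heinj _ _ (hbinj i j hij)))
  set D : ℝ := (d : ℝ) ^ k with hD
  set Rp := placeSum (fun v => max (locRes d v F) 0) with hRp
  set β := mu v₀ * θ / 2 - 2 * (k + 1) / D * (Rp + totalWeight K * CG d / 4) with hβ
  have hsum : ∀ c : Fin (d ^ k) → Fin (2 * d ^ k),
      ∑ i, canHeight d F (x (e (c i))) < D * β := by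
    intro c
    have h2 : ∑ i, canHeight d F (x (e (c i))) < ∑ _i : Fin (d ^ k), β := by
      apply Finset.sum_lt_sum_of_nonempty
      · exact ⟨⟨0, by omega⟩, Finset.mem_univ _⟩
      · intro i _
        exact hcon _ (heS _)
    rw [Finset.sum_const, Finset.card_univ, Fintype.card_fin, nsmul_eq_mul] at h2
    push_cast at h2
    exact h2
  have h2 := hsum a
  have h3 := hsum b
  have hCF := CF_le hd2 k
  have htw : (0 : ℝ) ≤ totalWeight K := Nat.cast_nonneg _
  have h4 := mul_le_mul_of_nonneg_left hCF htw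
  rw [← hD] at h4
  have hD1 : 0 < D - 1 := by linarith
  have h5 : 2 * (D - 1) * (∑ i, canHeight d F (x (e (a i))) +
      ∑ i, canHeight d F (x (e (b i)))) < 2 * (D - 1) * (D * β + D * β) :=
    mul_lt_mul_of_pos_left (add_lt_add h2 h3) (by positivity)
  have hRp0 : 0 ≤ Rp := by
    obtain ⟨B, hB⟩ := exists_B hG (fun i : Fin 0 => ((fun _ => 1) : Fin 2 → K)) (fun i => i.elim0)
      (fun i : Fin 0 => (1 : K)) (fun i => i.elim0)
    rw [hRp, placeSum_eq B _ (fun v hv => by rw [locRes_good hG v (hB v hv).1, max_self])]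
    exact gs_tt_nonneg B _ fun v => le_max_right _ _
  have hCG := CG_nonneg hd2
  have hQ : 0 ≤ Rp + totalWeight K * CG d / 4 := by positivity
  have e1 : 2 * (D - 1) * (D * β + D * β) = 2 * D * (D - 1) * (mu v₀ * θ) -
      8 * (k + 1) * (D - 1) * (Rp + totalWeight K * CG d / 4) := by
    rw [hβ]
    field_simp
    ring
  have h6 : 4 * (k + 1) * D * (Rp + totalWeight K * CG d / 4) ≤
      8 * (k + 1) * (D - 1) * (Rp + totalWeight K * CG d / 4) := by
    apply mul_le_mul_of_nonneg_right _ hQ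
    have : (0 : ℝ) ≤ k + 1 := by positivity
    have h7 : D ≤ 2 * (D - 1) := by linarith
    calc 4 * (k + 1) * D ≤ 4 * (k + 1) * (2 * (D - 1)) :=
          mul_le_mul_of_nonneg_left h7 (by positivity)
      _ = _ := by ring
  have e2 : 4 * (k + 1) * D * (Rp + totalWeight K * CG d / 4) =
      4 * D * (k + 1) * Rp + totalWeight K * (D * (k + 1) * CG d) := by ring
  linarith

end

end Pool.Agent.Lib_helper95.FP
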