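import Pool.Agent.Lib_helper95.FP.Quant

/-!
# The quantitative theorem: several places, regular functions, infinite orbits
-/

set_option autoImplicit false

universe u

namespace Pool.Agent.Lib_helper95.FP

open Polynomial Real Height AdmissibleAbsValues

open Classical in
/-- **The quantitative theorem.** -/
theorem quant_final (d : ℕ) (hd2 : 2 ≤ d) (m l : ℕ)
    (I : Fin l → MvPolynomial (Fin 2 × Fin (d + 1)) ℤ) (hI : ∀ k, Inv.{u} d m (I k)) :
    ∃ A c : ℝ, 0 < A ∧ 0 < c ∧ ∀ (K : Type u) [Field K] [NumberField K] (F : Fin 2 → K[X]),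
      Good d F → ∀ T : Finset (AbsoluteValue K ℝ), T.Nonempty → ∀ κ : ℝ, 1 ≤ κ →
      placeSum (fun v => locRes d v F) ≤
        κ * max 1 (placeSum (fun v => if v ∈ T then locRes d v F else 0)) →
      (∀ (N : ℕ) (x : Fin N → Fin 2 → K), (∀ i j, i ≠ j → wd (x i) (x j) ≠ 0) →
        A * ((Module.finrank ℚ K + κ * T.card) * log (Module.finrank ℚ K + κ * T.card + 1)) ≤ N →
        ∃ i, c / Module.finrank ℚ K *
          (max (placeSum (fun v => locRes d v F)) (logHeight (modPoint d m I F)) /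
            Module.finrank ℚ K / (κ * T.card) + 1) ≤ canHeight d F (x i) / Module.finrank ℚ K) ∧
      ∀ P : Fin 2 → K, (∀ m n, m ≠ n → wd ((hmap d F)^[m] P) ((hmap d F)^[n] P) ≠ 0) →
        exp (-(A * ((Module.finrank ℚ K + κ * T.card) *
          log (Module.finrank ℚ K + κ * T.card + 1)))) *
          (max (placeSum (fun v => locRes d v F)) (logHeight (modPoint d m I F)) /
            Module.finrank ℚ K + 1) ≤ canHeight d F P / Module.finrank ℚ K := by
  obtain ⟨A1, c0, hA1, hc0, hmain⟩ := nf_quant.{u} d hd2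
  have hd : (2 : ℝ) ≤ d := by exact_mod_cast hd2
  have hd0 : (0 : ℝ) < d := by linarith
  have hld : 0 < log (d : ℝ) := Real.log_pos (by linarith)
  have hl : 0 ≤ log ((2 * d).factorial : ℝ) :=
    Real.log_nonneg (by exact_mod_cast Nat.one_le_iff_ne_zero.2 (Nat.factorial_ne_zero _))
  have hlC : ∀ k, 0 ≤ log (Cpol (I k) : ℝ) := fun k =>
    Real.log_nonneg (by exact_mod_cast (by unfold Cpol; omega : 0 < Cpol (I k)))
  obtain ⟨C6, hC6⟩ : ∃ C6 : ℝ, C6 = m * log ((2 * d).factorial) + ∑ k, log (Cpol (I k) : ℝ) :=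
    ⟨_, rfl⟩
  have hC60 : 0 ≤ C6 := by
    rw [hC6]
    have := Finset.sum_nonneg (s := Finset.univ) fun k _ => hlC k
    positivity
  have hm0 : (0 : ℝ) ≤ m := Nat.cast_nonneg _
  have hmC : 0 < (m : ℝ) + 1 + C6 := by positivity
  set c := c0 / (m + 1 + C6) with hc
  have hc' : 0 < c := by positivity
  have hcc : c * (m + 1 + C6) = c0 := by rw [hc]; field_simp
  obtain ⟨A, hA⟩ : ∃ A : ℝ, A = A1 + (A1 * log d + log d + 2 + |log c|) := ⟨_, rfl⟩
  have hA' : 0 < A := by rw [hA]; positivity
  refine ⟨A, c, hA', hc', ?_⟩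
  intro K _ _ F hG T hT κ hκ hS
  set n : ℝ := (Module.finrank ℚ K : ℝ) with hn
  have htw : (totalWeight K : ℝ) = n := by
    rw [NumberField.totalWeight_eq_finrank]
  have hn1 : 1 ≤ n := by
    rw [← htw]
    exact_mod_cast NumberField.totalWeight_pos K
  have hn0 : 0 < n := by linarith
  set S := placeSum (fun v => locRes d v F) with hSdef
  set H := logHeight (modPoint d m I F) with hH
  have hT1 : (1 : ℝ) ≤ T.card := by exact_mod_cast hT.card_pos
  set σ : ℝ := κ * T.card with hσ
  have hσ1 : 1 ≤ σ := by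
    calc (1 : ℝ) = 1 * 1 := (one_mul _).symm
      _ ≤ κ * T.card := mul_le_mul hκ hT1 zero_le_one (by linarith)
  have hσ0 : 0 < σ := by linarith
  obtain ⟨v₁, -, hv₁⟩ := exists_single hG T hT
  have hv : S ≤ σ * max 1 (mu v₁ * locRes d v₁ F) := by
    refine hS.trans ?_
    have h0 := le_max_left 1 (mu v₁ * locRes d v₁ F)
    rw [mul_max_of_nonneg _ _ (by linarith : 0 ≤ κ), mul_one]
    apply max_le
    · calc κ = κ * 1 * 1 := by ring
        _ ≤ κ * T.card * max 1 (mu v₁ * locRes d v₁ F) :=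
          mul_le_mul (mul_le_mul_of_nonneg_left hT1 (by linarith)) h0 zero_le_one (by positivity)
    · calc κ * placeSum (fun v => if v ∈ T then locRes d v F else 0) ≤
            κ * (T.card * (mu v₁ * locRes d v₁ F)) :=
          mul_le_mul_of_nonneg_left hv₁ (by linarith)
        _ = κ * T.card * (mu v₁ * locRes d v₁ F) := by ring
        _ ≤ κ * T.card * max 1 (mu v₁ * locRes d v₁ F) :=
          mul_le_mul_of_nonneg_left (le_max_right _ _) (by positivity)
  have hmain' := hmain K F hG σ hσ1 v₁ hv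
  have hHle := modPoint_le hG m I hI
  rw [← hC6, htw, ← hSdef, ← hH] at hHle
  have hH0 : 0 ≤ H := logHeight_nonneg _
  set M := max S 0 with hM
  have hM0 : 0 ≤ M := le_max_right _ _
  have hSM : S ≤ M := le_max_left _ _
  have hmax : max S H / n ≤ (m + 1) * (M / n) + C6 := by
    rw [div_le_iff₀ hn0]
    have e : ((m + 1) * (M / n) + C6) * n = (m + 1) * M + n * C6 := by field_simp
    rw [e]
    have h4 : 0 ≤ n * C6 := by positivity
    have h5 : 0 ≤ m * M := by positivity
    have h6 : m * S ≤ m * M := mul_le_mul_of_nonneg_left hSM hm0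
    apply max_le
    · linarith
    · linarith
  have hmax0 : 0 ≤ max S H / n := div_nonneg (hH0.trans (le_max_right _ _)) hn0.le
  set q := n + σ with hq
  have hq2 : 2 ≤ q := by rw [hq]; linarith
  have hq0 : 0 < q := by linarith
  set Lq := log (q + 1) with hLq
  have hLq1 : 1 ≤ Lq := by
    rw [hLq, Real.le_log_iff_exp_le (by linarith)]
    have := Real.exp_one_lt_d9
    linarith
  have hqL : 2 ≤ q * Lq := by
    calc (2 : ℝ) = 2 * 1 := (mul_one _).symm
      _ ≤ q * Lq := mul_le_mul hq2 hLq1 zero_le_one hq0.le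
  -- many points
  have hmany : ∀ (N : ℕ) (x : Fin N → Fin 2 → K), (∀ i j, i ≠ j → wd (x i) (x j) ≠ 0) →
      A1 * (q * Lq) ≤ N → ∃ i, c * (max S H / n / σ + 1) ≤ canHeight d F (x i) := by
    intro N x hx hN
    obtain ⟨i, hi⟩ := hmain' N x hx hN
    refine ⟨i, le_trans ?_ hi⟩
    rw [← hcc]
    have h1 : max S H / n / σ ≤ (m + 1) * (M / (n * σ)) + C6 := by
      rw [div_le_iff₀ hσ0]
      have e : ((m + 1) * (M / (n * σ)) + C6) * σ = (m + 1) * (M / n) + C6 * σ := by field_simp
      rw [e]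
      have h2 : C6 ≤ C6 * σ := by
        calc C6 = C6 * 1 := (mul_one _).symm
          _ ≤ C6 * σ := mul_le_mul_of_nonneg_left hσ1 hC60
      linarith
    have h2 : 0 ≤ M / (n * σ) := by positivity
    have h3 : max S H / n / σ + 1 ≤ (m + 1 + C6) * (M / (n * σ) + 1) := by
      have h4 : 0 ≤ C6 * (M / (n * σ)) := mul_nonneg hC60 h2
      have e : (m + 1 + C6) * (M / (n * σ) + 1) = (m + 1) * (M / (n * σ)) + C6 *
        (M / (n * σ)) + m + 1 + C6 := by ring
      rw [e]
      linarith
    calc c * (max S H / n / σ + 1) ≤ c * ((m + 1 + C6) * (M / (n * σ) + 1)) :=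
          mul_le_mul_of_nonneg_left h3 hc'.le
      _ = _ := by ring
  refine ⟨fun N x hx hN => ?_, fun P hP => ?_⟩
  · obtain ⟨i, hi⟩ := hmany N x hx (by
      refine le_trans ?_ hN
      apply mul_le_mul_of_nonneg_right _ (by positivity)
      rw [hA]
      have : 0 ≤ A1 * log d + log d + 2 + |log c| := by positivity
      linarith)
    refine ⟨i, ?_⟩
    rw [le_div_iff₀ hn0]
    calc c / n * (max S H / n / σ + 1) * n = c * (max S H / n / σ + 1) := by field_simp
      _ ≤ _ := hi
  · have hP0 : P ≠ 0 := ne_zero_of_wd (hP 0 1 (by norm_num))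
    have hne : ∀ k, (hmap d F)^[k] P ≠ 0 := fun k => iter_ne_zero' hG k P hP0
    have hcan0 := canHeight_nonneg hG P hP0
    set N := ⌈A1 * (q * Lq)⌉₊ with hN
    have hN1 : A1 * (q * Lq) ≤ N := Nat.le_ceil _
    have hN2 : (N : ℝ) ≤ A1 * (q * Lq) + 1 := (Nat.ceil_lt_add_one (by positivity)).le
    obtain ⟨i, hi⟩ := hmany N (fun i => (hmap d F)^[(i : ℕ)] P)
      (fun i j hij => hP i j (fun h => hij (Fin.ext h))) hN1
    rw [canHeight_hmap hG P hP0 hne i] at hi
    have h1 : (d : ℝ) ^ (i : ℕ) * canHeight d F P ≤ (d : ℝ) ^ N * canHeight d F P :=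
      mul_le_mul_of_nonneg_right (pow_le_pow_right₀ (by linarith) i.2.le) hcan0
    have h2 : (max S H / n + 1) / σ ≤ max S H / n / σ + 1 := by
      rw [add_div]
      have : 1 / σ ≤ 1 := by rw [div_le_one hσ0]; exact hσ1
      linarith
    have h3 : c * ((max S H / n + 1) / σ) ≤ (d : ℝ) ^ N * canHeight d F P :=
      ((mul_le_mul_of_nonneg_left h2 hc'.le).trans hi).trans h1
    rw [le_div_iff₀ hn0]
    -- the exponential factor
    have hσq : log σ ≤ Lq := Real.log_le_log hσ0 (by linarith)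
    have hnq : log n ≤ Lq := Real.log_le_log hn0 (by linarith)
    have hLL : Lq ≤ q * Lq := by
      calc Lq = 1 * Lq := (one_mul _).symm
        _ ≤ q * Lq := mul_le_mul_of_nonneg_right (by linarith) (by linarith)
    have h4 : -(A * (q * Lq)) ≤ log c - N * log d - log n - log σ := by
      have h5 : N * log d ≤ (A1 * (q * Lq) + 1) * log d := mul_le_mul_of_nonneg_right hN2 hld.le
      have h6 : -|log c| ≤ log c := neg_abs_le _
      have h7 : |log c| ≤ |log c| * (q * Lq) := by
        calc |log c| = |log c| * 1 := (mul_one _).symm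
          _ ≤ |log c| * (q * Lq) := mul_le_mul_of_nonneg_left (by linarith) (abs_nonneg _)
      have h8 : log d ≤ log d * (q * Lq) := by
        calc log d = log d * 1 := (mul_one _).symm
          _ ≤ log d * (q * Lq) := mul_le_mul_of_nonneg_left (by linarith) hld.le
      have h9 : 0 ≤ A1 * (q * Lq) := by positivity
      rw [hA]
      linarith
    have h5 : exp (-(A * (q * Lq))) ≤ c / ((d : ℝ) ^ N * n * σ) := by
      have h6 := Real.exp_le_exp.2 h4
      refine h6.trans (le_of_eq ?_)
      rw [Real.exp_sub, Real.exp_sub, Real.exp_sub, Real.exp_log hc', Real.exp_log hn0,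
        Real.exp_log hσ0, Real.exp_nat_mul, Real.exp_log hd0]
      field_simp
    have h6 : 0 ≤ max S H / n + 1 := by linarith
    calc exp (-(A * (q * Lq))) * (max S H / n + 1) * n ≤
          c / ((d : ℝ) ^ N * n * σ) * (max S H / n + 1) * n :=
          mul_le_mul_of_nonneg_right (mul_le_mul_of_nonneg_right h5 h6) hn0.le
      _ = (c * ((max S H / n + 1) / σ)) / (d : ℝ) ^ N := by field_simp
      _ ≤ canHeight d F P := by
          rw [div_le_iff₀ (by positivity)]
          linarith

end Pool.Agent.Lib_helper95.FP
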