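import Pool.Agent.Lib_helper95.FP.ChK
import Pool.Agent.Lib_helper95.FP.Fin

/-!
# The quantitative theorem for number fields
-/

set_option autoImplicit false

universe u

namespace Pool.Agent.Lib_helper95.FP

open Polynomial Real Height AdmissibleAbsValues

theorem Rp_le {K : Type u} [Field K] [AdmissibleAbsValues K] {d : ℕ} {F : Fin 2 → K[X]}
    (hG : Good d F) : placeSum (fun v => max (locRes d v F) 0) ≤
      placeSum (fun v => locRes d v F) + totalWeight K * log ((2 * d).factorial) := by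
  have hl : 0 ≤ log ((2 * d).factorial : ℝ) :=
    Real.log_nonneg (by exact_mod_cast Nat.one_le_iff_ne_zero.2 (Nat.factorial_ne_zero _))
  obtain ⟨B, hB⟩ := exists_B hG (fun i : Fin 0 => ((fun _ => 1) : Fin 2 → K)) (fun i => i.elim0)
    (fun i : Fin 0 => (1 : K)) (fun i => i.elim0)
  have hloc0 : ∀ v : nonarchAbsVal (K := K), v ∉ B → locRes d v.val F = 0 := fun v hv =>
    locRes_good hG v (hB v hv).1
  rw [placeSum_eq B (fun v => locRes d v F) hloc0,
    placeSum_eq B (fun v => max (locRes d v F) 0) (fun v hv => by rw [hloc0 v hv, max_self])]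
  have hpos : ∀ v : AbsoluteValue K ℝ, max (locRes d v F) 0 ≤
      locRes d v F + tt v * log ((2 * d).factorial) := by
    intro v
    have h1 := locRes_ge (AV_tt v) hG
    have h2 : 0 ≤ (tt v : ℝ) * log ((2 * d).factorial) := mul_nonneg (Nat.cast_nonneg _) hl
    exact max_le (by linarith) (by linarith)
  have h1 : gs B (fun v => max (locRes d v F) 0) ≤
      gs B (fun v => locRes d v F + tt v * log ((2 * d).factorial)) :=
    gs_le B _ _ (fun v _ => hpos v) (fun v _ => hpos v)
  rw [gs_add] at h1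
  have h2 := gs_tt_le B (log ((2 * d).factorial)) hl
  linarith

/-- **The quantitative theorem** (relative heights): if the place `v₁` carries the proportion
`1 / σ` of the moduli height then among `A (n + σ) log (n + σ + 1)` points one has a large
canonical height. -/
theorem nf_quant (d : ℕ) (hd2 : 2 ≤ d) :
    ∃ A c : ℝ, 0 < A ∧ 0 < c ∧ ∀ (K : Type u) [Field K] [NumberField K] (F : Fin 2 → K[X]),
      Good d F → ∀ (σ : ℝ), 1 ≤ σ → ∀ v₁ : AbsoluteValue K ℝ,
      placeSum (fun v => locRes d v F) ≤ σ * max 1 (mu v₁ * locRes d v₁ F) →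
      ∀ (N : ℕ) (x : Fin N → Fin 2 → K), (∀ i j, i ≠ j → wd (x i) (x j) ≠ 0) →
      A * ((Module.finrank ℚ K + σ) * log (Module.finrank ℚ K + σ + 1)) ≤ N →
      ∃ i, c * (max (placeSum (fun v => locRes d v F)) 0 / (Module.finrank ℚ K * σ) + 1) ≤
        canHeight d F (x i) := by
  have hcL := cL_pos hd2
  have hCL := CL_nonneg hd2
  have hCG := CG_nonneg hd2
  have hl : 0 ≤ log ((2 * d).factorial : ℝ) :=
    Real.log_nonneg (by exact_mod_cast Nat.one_le_iff_ne_zero.2 (Nat.factorial_ne_zero _))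
  have hl2 : 0 < log (2 : ℝ) := Real.log_pos (by norm_num)
  have hl21 : log (2 : ℝ) ≤ 1 := by
    have := Real.log_le_sub_one_of_pos (show (0 : ℝ) < 2 by norm_num)
    linarith
  set l := log ((2 * d).factorial : ℝ) with hldef
  obtain ⟨C0, hC0⟩ : ∃ C0 : ℝ, C0 = 2 * (CL d + log 2) / cL d := ⟨_, rfl⟩
  have hC00 : 0 ≤ C0 := by rw [hC0]; positivity
  have hC0c : cL d * C0 = 2 * (CL d + log 2) := by rw [hC0]; field_simp
  obtain ⟨Q1, hQ1⟩ : ∃ Q1 : ℝ, Q1 = 1 + l + CG d / 4 := ⟨_, rfl⟩
  have hQ10 : 0 < Q1 := by rw [hQ1]; positivity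
  obtain ⟨E, hE⟩ : ∃ E : ℝ, E = 1 + 16 * Q1 / cL d + 8 * (Q1 + 1 + 2 * C0) := ⟨_, rfl⟩
  have hE1 : 1 ≤ E := by
    have h1 : 0 ≤ 16 * Q1 / cL d := by positivity
    have h2 : 0 ≤ 8 * (Q1 + 1 + 2 * C0) := by positivity
    rw [hE]; linarith
  have hE0 : 0 < E := by linarith
  have hEa : 16 * Q1 ≤ cL d * E := by
    have h1 : cL d * (16 * Q1 / cL d) = 16 * Q1 := by field_simp
    have h2 : 0 ≤ cL d * (8 * (Q1 + 1 + 2 * C0)) := by positivity
    rw [hE, mul_add, mul_add, h1]
    linarith
  have hEb : 8 * (Q1 + 1 + 2 * C0) ≤ E := by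
    have h1 : 0 ≤ 16 * Q1 / cL d := by positivity
    rw [hE]; linarith
  obtain ⟨A0, hA0, hk⟩ := choose_k d hd2 E hE1
  obtain ⟨MA, hMA⟩ := arch_ll.{u} d hd2
  set M : ℕ := ML d + MA with hM
  have hM1 : 1 ≤ M := by have := two_le_ML d; omega
  have hMr : (1 : ℝ) ≤ M := by exact_mod_cast hM1
  refine ⟨2 * M * A0, min (cL d / 16) (1 / (4 * (3 + 2 * C0))), by positivity,
    lt_min (by positivity) (by positivity), ?_⟩
  intro K _ _ F hG σ hσ v₁ hv₁ N x hx hN
  set c := min (cL d / 16) (1 / (4 * (3 + 2 * C0))) with hc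
  have hc0 : 0 < c := lt_min (by positivity) (by positivity)
  have hc1 : c ≤ cL d / 16 := min_le_left _ _
  have hc2 : c * (3 + 2 * C0) ≤ 1 / 4 := by
    calc c * (3 + 2 * C0) ≤ 1 / (4 * (3 + 2 * C0)) * (3 + 2 * C0) :=
          mul_le_mul_of_nonneg_right (min_le_right _ _) (by positivity)
      _ = 1 / 4 := by field_simp
  set n : ℝ := (Module.finrank ℚ K : ℝ) with hn
  have htw : (totalWeight K : ℝ) = n := by
    rw [NumberField.totalWeight_eq_finrank]
  have hn1 : 1 ≤ n := by
    rw [← htw]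
    exact_mod_cast NumberField.totalWeight_pos K
  have hn0 : 0 < n := by linarith
  have hσ0 : 0 < σ := by linarith
  set S := placeSum (fun v => locRes d v F) with hS
  set q := n + σ with hq
  have hq1 : 1 ≤ q := by rw [hq]; linarith
  have hq0 : 0 < q := by linarith
  obtain ⟨k, hk1, hkD, hkA⟩ := hk q hq1
  set D : ℝ := (d : ℝ) ^ k with hD
  have hD0 : 0 < D := by
    have : (0 : ℝ) < d := by exact_mod_cast (by omega : 0 < d)
    positivity
  -- the size of the classes
  have hND : 2 * M * D ≤ N := by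
    calc 2 * M * D ≤ 2 * M * (A0 * (q * log (q + 1))) :=
          mul_le_mul_of_nonneg_left hkA (by positivity)
      _ = 2 * M * A0 * (q * log (q + 1)) := by ring
      _ ≤ N := hN
  have hND' : M * (2 * d ^ k) ≤ N := by
    have h1 : ((M * (2 * d ^ k) : ℕ) : ℝ) ≤ (N : ℝ) := by
      push_cast
      rw [← hD]
      linarith
    exact_mod_cast h1
  have hclass : ∀ (m : ℕ) (S' : Finset (Fin N)), m ≤ M → N ≤ m * S'.card →
      2 * d ^ k ≤ S'.card := by
    intro m S' hm h1
    have h2 : M * (2 * d ^ k) ≤ M * S'.card :=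
      (hND'.trans h1).trans (Nat.mul_le_mul_right _ hm)
    exact Nat.le_of_mul_le_mul_left h2 (by omega)
  -- the loss
  set Rp := placeSum (fun v => max (locRes d v F) 0) with hRp
  have hRple : Rp ≤ S + n * l := by
    have := Rp_le hG
    rw [htw] at this
    exact this
  have hRp0 : 0 ≤ Rp := by
    obtain ⟨B, hB⟩ := exists_B hG (fun i : Fin 0 => ((fun _ => 1) : Fin 2 → K)) (fun i => i.elim0)
      (fun i : Fin 0 => (1 : K)) (fun i => i.elim0)
    rw [hRp, placeSum_eq B _ (fun v hv => by rw [locRes_good hG v (hB v hv).1, max_self])]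
    exact gs_tt_nonneg B _ fun v => le_max_right _ _
  have hloss : 2 * ((k : ℝ) + 1) / D * (Rp + n * CG d / 4) ≤ 2 * (Rp + n * CG d / 4) / (q * E) := by
    have hQ : 0 ≤ Rp + n * CG d / 4 := by positivity
    rw [div_mul_eq_mul_div, div_le_div_iff₀ hD0 (by positivity)]
    have h1 := mul_le_mul_of_nonneg_left hkD (by positivity : 0 ≤ 2 * (Rp + n * CG d / 4))
    calc 2 * ((k : ℝ) + 1) * (Rp + n * CG d / 4) * (q * E) =
          2 * (Rp + n * CG d / 4) * (((k : ℝ) + 1) * (q * E)) := by ring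
      _ ≤ _ := h1
  by_cases hcase : σ ≤ S ∧ n ≤ S ∧ (tt v₁ = 0 ∨ C0 ≤ locRes d v₁ F) ∧
      S ≤ σ * (mu v₁ * locRes d v₁ F)
  · -- the place `v₁`
    obtain ⟨hσS, hnS, hv, hv₁⟩ := hcase
    have hS0 : 0 < S := by linarith
    obtain ⟨S', hS'1, hS'2⟩ := gg_cluster ((AV_tt v₁).sb (φ := RingHom.id K) (fun _ => rfl)) d F
      (cL d * max (locRes d v₁ F) 0 - tt v₁ * CL d) (ML d)
      (fun y hy => ll (AV_tt v₁) hG y hy) N x hx
    have hS'c := hclass _ S' (by omega) hS'1
    obtain ⟨i, _, hi⟩ := avg_one hG k hk1 v₁ _ x hx S' hS'c hS'2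
    refine ⟨i, ?_⟩
    rw [← hD, ← hRp, htw] at hi
    have hmu := mu_nonneg v₁
    have hmur : 0 < mu v₁ * locRes d v₁ F := by
      by_contra hcon
      have h1 : σ * (mu v₁ * locRes d v₁ F) ≤ 0 :=
        mul_nonpos_of_nonneg_of_nonpos hσ0.le (not_lt.1 hcon)
      linarith
    have hr : 0 < locRes d v₁ F := by
      by_contra hcon
      have h1 : mu v₁ * locRes d v₁ F ≤ 0 :=
        mul_nonpos_of_nonneg_of_nonpos hmu (not_lt.1 hcon)
      linarith
    have hθ : cL d / 2 * locRes d v₁ F ≤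
        cL d * max (locRes d v₁ F) 0 - tt v₁ * CL d - tt v₁ * log 2 := by
      rw [max_eq_left hr.le]
      have hcr : 0 < cL d * locRes d v₁ F := mul_pos hcL hr
      rcases hv with h0 | h0
      · rw [h0]
        push_cast
        linarith
      · have h1 := mul_le_mul_of_nonneg_left h0 hcL.le
        rw [hC0c] at h1
        have h2 := tt_le v₁
        have h3 : (tt v₁ : ℝ) * (CL d + log 2) ≤ 1 * (CL d + log 2) :=
          mul_le_mul_of_nonneg_right h2 (by positivity)
        linarith
    have h1 := mul_le_mul_of_nonneg_left hθ hmu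
    have h2 : S / σ ≤ mu v₁ * locRes d v₁ F := by
      rw [div_le_iff₀ hσ0]
      linarith
    have h3 : cL d / 4 * (S / σ) ≤ mu v₁ *
        (cL d * max (locRes d v₁ F) 0 - tt v₁ * CL d - tt v₁ * log 2) / 2 := by
      have h4 := mul_le_mul_of_nonneg_left h2 (by positivity : 0 ≤ cL d / 4)
      linarith
    have h4 : 2 * (Rp + n * CG d / 4) / (q * E) ≤ cL d / 8 * (S / σ) := by
      have h5 : Rp + n * CG d / 4 ≤ S * Q1 := by
        have h6 : n * l ≤ S * l := mul_le_mul_of_nonneg_right hnS hl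
        have h7 : n * (CG d / 4) ≤ S * (CG d / 4) := mul_le_mul_of_nonneg_right hnS (by positivity)
        rw [hQ1]
        linarith
      have h6 : 2 * (Rp + n * CG d / 4) / (q * E) ≤ 2 * (S * Q1) / (σ * E) := by
        apply div_le_div₀ (by positivity) (by linarith) (by positivity)
        exact mul_le_mul_of_nonneg_right (by rw [hq]; linarith) hE0.le
      refine h6.trans ?_
      rw [div_le_iff₀ (by positivity)]
      have h7 : cL d / 8 * (S / σ) * (σ * E) = S * (cL d * E) / 8 := by
        field_simp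
      rw [h7]
      have h8 := mul_le_mul_of_nonneg_left hEa hS0.le
      linarith
    have h5 : cL d / 8 * (S / σ) ≤ canHeight d F (x i) := by linarith
    refine le_trans ?_ h5
    rw [max_eq_left hS0.le]
    have h6 : S / (n * σ) ≤ S / σ := by
      apply div_le_div_of_nonneg_left hS0.le hσ0
      calc σ = 1 * σ := (one_mul _).symm
        _ ≤ n * σ := mul_le_mul_of_nonneg_right hn1 hσ0.le
    have h7 : 1 ≤ S / σ := by rw [le_div_iff₀ hσ0]; linarith
    calc c * (S / (n * σ) + 1) ≤ cL d / 16 * (S / σ + S / σ) :=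
          mul_le_mul hc1 (by linarith) (by positivity) (by positivity)
      _ = cL d / 8 * (S / σ) := by ring
  · -- an archimedean place
    have hSle : S ≤ n + (1 + 2 * C0) * σ := by
      have hCσ : 0 ≤ 2 * C0 * σ := by positivity
      by_contra hcon
      push Not at hcon
      have hσS : σ < S := by linarith
      have hv₁' : S ≤ σ * (mu v₁ * locRes d v₁ F) := by
        rcases le_total 1 (mu v₁ * locRes d v₁ F) with h1 | h1
        · rwa [max_eq_right h1] at hv₁
        · rw [max_eq_left h1, mul_one] at hv₁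
          linarith
      apply hcase
      refine ⟨by linarith, by linarith, ?_, hv₁'⟩
      by_contra hcon2
      push Not at hcon2
      have htt1 : tt v₁ = 1 := by
        have h1 := tt_le v₁
        have h2 : tt v₁ ≤ 1 := by exact_mod_cast h1
        have h3 := hcon2.1
        omega
      have hmu2 := mu_le_two v₁ htt1
      have hmu := mu_nonneg v₁
      have h1 : mu v₁ * locRes d v₁ F ≤ 2 * C0 := by
        calc mu v₁ * locRes d v₁ F ≤ mu v₁ * C0 := mul_le_mul_of_nonneg_left hcon2.2.le hmu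
          _ ≤ 2 * C0 := mul_le_mul_of_nonneg_right hmu2 hC00
      have h2 := mul_le_mul_of_nonneg_left h1 hσ0.le
      linarith
    obtain ⟨v₂⟩ : Nonempty (NumberField.InfinitePlace K) := inferInstance
    obtain ⟨S', hS'1, hS'2⟩ := gg_cluster (SB_one v₂.val) d F 2 MA
      (fun y hy => hMA K v₂.embedding v₂.val
        (fun a => (NumberField.InfinitePlace.norm_embedding_eq v₂ a).symm) F hG y hy) N x hx
    have hS'c := hclass _ S' (by omega) hS'1
    have hS'3 : ∀ i ∈ S', ∀ j ∈ S', i ≠ j → 1 ≤ gg v₂.val d F (x i) (x j) := by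
      intro i hi j hj hij
      have h1 := hS'2 i hi j hj hij
      rw [Nat.cast_one, one_mul] at h1
      linarith
    obtain ⟨i, _, hi⟩ := avg_one hG k hk1 v₂.val 1 x hx S' hS'c hS'3
    refine ⟨i, ?_⟩
    rw [← hD, ← hRp, htw] at hi
    have hmu := one_le_mu v₂
    have h4 : 2 * (Rp + n * CG d / 4) / (q * E) ≤ 1 / 4 := by
      have h5 : Rp + n * CG d / 4 ≤ (Q1 + 1 + 2 * C0) * q := by
        have h6 : (Q1 + 1 + 2 * C0) * q = n * Q1 + (1 + 2 * C0) * σ + (n * (1 + 2 * C0) + Q1 * σ) := by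
          rw [hq]; ring
        have h7 : 0 ≤ n * (1 + 2 * C0) + Q1 * σ := by positivity
        have h8 : n * Q1 = n + n * l + n * CG d / 4 := by rw [hQ1]; ring
        rw [h6]
        linarith
      rw [div_le_iff₀ (by positivity)]
      have h6 : 8 * (Q1 + 1 + 2 * C0) * q ≤ E * q := mul_le_mul_of_nonneg_right hEb hq0.le
      linarith
    have h5 : 1 / 4 ≤ canHeight d F (x i) := by linarith
    refine le_trans ?_ h5
    have h6 : max S 0 / (n * σ) + 1 ≤ 3 + 2 * C0 := by
      have h7 : max S 0 / (n * σ) ≤ 2 + 2 * C0 := by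
        rw [div_le_iff₀ (by positivity)]
        apply max_le
        · have h8 : n ≤ n * σ := by
            calc n = n * 1 := (mul_one _).symm
              _ ≤ n * σ := mul_le_mul_of_nonneg_left hσ hn0.le
          have h9 : σ ≤ n * σ := by
            calc σ = 1 * σ := (one_mul _).symm
              _ ≤ n * σ := mul_le_mul_of_nonneg_right hn1 hσ0.le
          have h10 : (1 + 2 * C0) * σ ≤ (1 + 2 * C0) * (n * σ) :=
            mul_le_mul_of_nonneg_left h9 (by positivity)
          linarith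
        · positivity
      linarith
    exact (mul_le_mul_of_nonneg_left h6 hc0.le).trans hc2

end Pool.Agent.Lib_helper95.FP
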