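import Pool.Agent.Lib_helper95.FP.Alg

/-!
# Resultants of binary forms and of compositions
-/

set_option autoImplicit false

namespace Pool.Agent.Lib_helper95.FP

open Polynomial

section

variable {L : Type*} [Field L]

theorem res_mul_left (f₁ f₂ g : L[X]) (m₁ m₂ n : ℕ) (h₁ : f₁.natDegree ≤ m₁)
    (h₂ : f₂.natDegree ≤ m₂) (hg : g.natDegree ≤ n) :
    resultant (f₁ * f₂) g (m₁ + m₂) n = resultant f₁ g m₁ n * resultant f₂ g m₂ n := by
  obtain ⟨k₁, rfl⟩ := Nat.exists_eq_add_of_le h₁
  obtain ⟨k₂, rfl⟩ := Nat.exists_eq_add_of_le h₂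
  have e : f₁.natDegree + k₁ + (f₂.natDegree + k₂) = f₁.natDegree + f₂.natDegree + (k₁ + k₂) := by
    omega
  rw [e, resultant_add_left_deg _ _ _ _ _ Polynomial.natDegree_mul_le,
    resultant_add_left_deg _ _ _ _ _ le_rfl, resultant_add_left_deg _ _ _ _ _ le_rfl,
    resultant_mul_left _ _ _ _ hg, pow_add, mul_add, pow_add]
  ring

theorem res_mul_right (f g₁ g₂ : L[X]) (m n₁ n₂ : ℕ) (h₁ : g₁.natDegree ≤ n₁)
    (h₂ : g₂.natDegree ≤ n₂) (hf : f.natDegree ≤ m) :
    resultant f (g₁ * g₂) m (n₁ + n₂) = resultant f g₁ m n₁ * resultant f g₂ m n₂ := by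
  rw [resultant_comm, res_mul_left _ _ _ _ _ _ h₁ h₂ hf, resultant_comm g₁, resultant_comm g₂,
    mul_add, pow_add, mul_comm n₁ m, mul_comm n₂ m]
  have h (k : ℕ) : ((-1 : L) ^ k) * (-1) ^ k = 1 := by
    rw [← mul_pow]; simp
  linear_combination (resultant f g₁ m n₁ * resultant f g₂ m n₂ * ((-1) ^ (m * n₁) * (-1) ^ (m * n₁))) * h (m * n₂)
    + (resultant f g₁ m n₁ * resultant f g₂ m n₂) * h (m * n₁)

theorem res_lin (g : Fin 2 → L[X]) (n : ℕ) (hg : ∀ i, (g i).natDegree ≤ n) (a b a' b' : L) :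
    (resultant (C a * g 0 - C b * g 1) (C a' * g 0 - C b' * g 1) n n) ^ 2 =
      ((a * b' - b * a') ^ n * resultant (g 0) (g 1) n n) ^ 2 := by
  have hpow (x : L) : (x ^ n) ^ 2 = ((-x) ^ n) ^ 2 := by
    rw [← pow_mul, ← pow_mul, mul_comm n 2, pow_mul, pow_mul, neg_pow_two]
  by_cases ha : a = 0
  · subst ha
    have e1 : C (0 : L) * g 0 - C b * g 1 = C (-b) * g 1 := by
      rw [C_0, C_neg]; ring
    have e2 : C a' * g 0 - C b' * g 1 = C a' * g 0 + g 1 * C (-b') := by
      rw [C_neg]; ring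
    rw [e1, e2, resultant_C_mul_left, resultant_add_mul_right _ _ _ _ _ (by simp) (hg 1),
      resultant_C_mul_right, resultant_comm (g 1)]
    have h : ((-1 : L) ^ (n * n)) ^ 2 = 1 := by rw [← pow_mul, mul_comm, pow_mul]; simp
    have h2 : ((0 * b' - b * a') ^ n * (g 0).resultant (g 1) n n) ^ 2
        = ((-b) ^ n * a' ^ n * (g 0).resultant (g 1) n n) ^ 2 := by
      rw [← mul_pow]; congr 3; ring
    rw [h2]
    linear_combination (((-b) ^ n * a' ^ n * (g 0).resultant (g 1) n n) ^ 2) * h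
  · have e2 : C a' * g 0 - C b' * g 1 =
        C ((a' * b - a * b') / a) * g 1 + (C a * g 0 - C b * g 1) * C (a' / a) := by
      have h1 : (a' * b - a * b') / a - b * (a' / a) = - b' := by field_simp; ring
      have h2 : a * (a' / a) = a' := by field_simp
      have h1' : C ((a' * b - a * b') / a) = C (b * (a' / a)) - C b' := by
        rw [← C_sub]; congr 1; linear_combination h1
      have h2' : C a' = C a * C (a' / a) := by rw [← C_mul, h2]
      rw [h1', C_mul]
      linear_combination (g 0) * h2'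
    have e3 : C a * g 0 - C b * g 1 = C a * g 0 + g 1 * C (-b) := by
      rw [C_neg]; ring
    have hd : (C a * g 0 - C b * g 1).natDegree ≤ n :=
      (Polynomial.natDegree_sub_le _ _).trans (max_le
        ((Polynomial.natDegree_C_mul_le _ _).trans (hg 0))
        ((Polynomial.natDegree_C_mul_le _ _).trans (hg 1)))
    rw [e2, resultant_add_mul_right _ _ _ _ _ (by simp) hd, resultant_C_mul_right, e3,
      resultant_add_mul_left _ _ _ _ _ (by simp) (hg 1), resultant_C_mul_left, ← mul_assoc,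
      ← mul_pow, div_mul_cancel₀ _ ha, mul_pow, mul_pow, hpow]
    congr 3
    ring

/-- The double product of the determinants. -/
noncomputable def dprod (l l' : List (L × L)) : L :=
  (l.map fun ab => (l'.map fun cd => ab.1 * cd.2 - ab.2 * cd.1).prod).prod

theorem natDegree_lin (g : Fin 2 → L[X]) (n : ℕ) (hg : ∀ i, (g i).natDegree ≤ n) (a b : L) :
    (C a * g 0 - C b * g 1).natDegree ≤ n :=
  (Polynomial.natDegree_sub_le _ _).trans (max_le
    ((Polynomial.natDegree_C_mul_le _ _).trans (hg 0))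
    ((Polynomial.natDegree_C_mul_le _ _).trans (hg 1)))

theorem res_lprod_one (g : Fin 2 → L[X]) (n : ℕ) (hg : ∀ i, (g i).natDegree ≤ n) (a b : L)
    (l : List (L × L)) :
    (resultant (C a * g 0 - C b * g 1) (lprod l g) n (l.length * n)) ^ 2 =
      (((l.map fun cd => a * cd.2 - b * cd.1).prod) ^ n *
        (resultant (g 0) (g 1) n n) ^ l.length) ^ 2 := by
  induction l with
  | nil => simp [lprod]
  | cons cd l ih =>
    have e : lprod (cd :: l) g = (C cd.1 * g 0 - C cd.2 * g 1) * lprod l g := by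
      simp [lprod]
    rw [e, List.length_cons, add_mul, one_mul, add_comm (l.length * n) n,
      res_mul_right _ _ _ _ _ _ (natDegree_lin g n hg _ _) (natDegree_lprod n l g hg)
        (natDegree_lin g n hg _ _), mul_pow, ih, res_lin g n hg, List.map_cons, List.prod_cons,
      pow_succ (resultant (g 0) (g 1) n n), mul_pow (a * cd.2 - b * cd.1)]
    ring

theorem res_lprod (g : Fin 2 → L[X]) (n : ℕ) (hg : ∀ i, (g i).natDegree ≤ n)
    (l l' : List (L × L)) :
    (resultant (lprod l g) (lprod l' g) (l.length * n) (l'.length * n)) ^ 2 =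
      ((dprod l l') ^ n * (resultant (g 0) (g 1) n n) ^ (l.length * l'.length)) ^ 2 := by
  induction l with
  | nil => simp [lprod, dprod]
  | cons ab l ih =>
    have e : lprod (ab :: l) g = (C ab.1 * g 0 - C ab.2 * g 1) * lprod l g := by
      simp [lprod]
    have e' : dprod (ab :: l) l' = (l'.map fun cd => ab.1 * cd.2 - ab.2 * cd.1).prod * dprod l l' := by
      simp [dprod]
    rw [e, e', List.length_cons, add_mul, one_mul, add_comm (l.length * n) n,
      res_mul_left _ _ _ _ _ _ (natDegree_lin g n hg _ _) (natDegree_lprod n l g hg)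
        (natDegree_lprod n l' g hg), mul_pow, ih, res_lprod_one g n hg, add_mul, one_mul, pow_add,
      mul_pow (List.prod _)]
    ring

theorem res_hcomp_closed [IsAlgClosed L] (m n : ℕ) (p q : L[X]) (g : Fin 2 → L[X])
    (hp : p.natDegree ≤ m) (hq : q.natDegree ≤ m) (hg : ∀ i, (g i).natDegree ≤ n) :
    (resultant (hcomp m p g) (hcomp m q g) (m * n) (m * n)) ^ 2 =
      ((resultant p q m m) ^ n * (resultant (g 0) (g 1) n n) ^ (m * m)) ^ 2 := by
  obtain ⟨c, l, hl, rfl⟩ := exists_lprod m p hp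
  obtain ⟨c', l', hl', rfl⟩ := exists_lprod m q hq
  have hX : ∀ i, ((![X, 1] : Fin 2 → L[X]) i).natDegree ≤ 1 := by
    intro i; fin_cases i <;> simp
  have h1 : hcomp m (C c * lprod l ![X, 1]) g = C c * lprod l g := by
    rw [hcomp_C_mul, ← hl, hcomp_lprod]
  have h2 : hcomp m (C c' * lprod l' ![X, 1]) g = C c' * lprod l' g := by
    rw [hcomp_C_mul, ← hl', hcomp_lprod]
  have k1 := res_lprod g n hg l l'
  have k2 := res_lprod ![X, 1] 1 hX l l'
  have k3 : (resultant ((![X, 1] : Fin 2 → L[X]) 0) ((![X, 1] : Fin 2 → L[X]) 1) 1 1) ^ 2 = 1 := by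
    simp
  rw [h1, h2, resultant_C_mul_left, resultant_C_mul_right, resultant_C_mul_left,
    resultant_C_mul_right]
  rw [hl, hl'] at k1 k2
  rw [mul_one] at k2
  have k4 : (resultant (lprod l ![X, 1]) (lprod l' ![X, 1]) m m) ^ 2 = (dprod l l') ^ 2 := by
    rw [k2, pow_one, mul_pow, ← pow_mul, mul_comm (m * m) 2, pow_mul, k3, one_pow, mul_one]
  have k5 : ((resultant (lprod l ![X, 1]) (lprod l' ![X, 1]) m m) ^ n) ^ 2 = ((dprod l l') ^ n) ^ 2 := by
    rw [← pow_mul, mul_comm n 2, pow_mul, k4, ← pow_mul, ← pow_mul, mul_comm 2 n]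
  rw [mul_pow, mul_pow, k1]
  have k6 : ((c ^ m * (c' ^ m * (resultant (lprod l ![X, 1]) (lprod l' ![X, 1]) m m))) ^ n *
      (resultant (g 0) (g 1) n n) ^ (m * m)) ^ 2 =
      (c ^ (m * n)) ^ 2 * ((c' ^ (m * n)) ^ 2 * (((resultant (lprod l ![X, 1]) (lprod l' ![X, 1]) m m) ^ n) ^ 2 *
      ((resultant (g 0) (g 1) n n) ^ (m * m)) ^ 2)) := by
    rw [pow_mul c, pow_mul c']; ring
  rw [k6, k5]
  ring

/-- The resultant of a composition. -/
theorem res_hcomp (m n : ℕ) (p q : L[X]) (g : Fin 2 → L[X])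
    (hp : p.natDegree ≤ m) (hq : q.natDegree ≤ m) (hg : ∀ i, (g i).natDegree ≤ n) :
    (resultant (hcomp m p g) (hcomp m q g) (m * n) (m * n)) ^ 2 =
      ((resultant p q m m) ^ n * (resultant (g 0) (g 1) n n) ^ (m * m)) ^ 2 := by
  apply (algebraMap L (AlgebraicClosure L)).injective
  have h := res_hcomp_closed m n (p.map (algebraMap L (AlgebraicClosure L)))
    (q.map (algebraMap L (AlgebraicClosure L))) (fun i => (g i).map (algebraMap L (AlgebraicClosure L)))
    ((Polynomial.natDegree_map_le).trans hp) ((Polynomial.natDegree_map_le).trans hq)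
    (fun i => (Polynomial.natDegree_map_le).trans (hg i))
  rw [← hcomp_map, ← hcomp_map, resultant_map_map, resultant_map_map, resultant_map_map] at h
  simpa only [map_pow, map_mul] using h

end

end Pool.Agent.Lib_helper95.FP
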